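import Pool.Agent.MP_538dc4_an.ab.Defs

/-! PROJECT FURST2: module statements. See /team-store/FURST2_BLUEPRINT.md. -/

open MeasureTheory Finset Filter Topology
open scoped ENNReal

namespace Pool.Agent.MP_538dc4_an.AB

/-! ### The ABC lemma -/

open Classical in
def InvStmt : Prop :=
  ∀ (Ω α β κ : Type) [Fintype Ω] (p : Ω → ℝ) (X : Ω → α) (Y : Ω → β) (K : Ω → κ) (U V : Ω → ℝ)
    (φ : β → α → ℝ) (G : β → α → α → Prop) (Bad : β → ℝ → Prop) (E : Ω → Prop) (e q θ l : ℝ)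
    (n : ℕ), IsP p → (∀ ω ω', Y ω = Y ω' → K ω = K ω') → 0 ≤ e → 0 ≤ q → 0 ≤ θ → 0 < l → l ≤ 1 →
    1 ≤ n → (∀ ω, p ω ≠ 0 → |V ω - U ω - φ (Y ω) (X ω)| ≤ e) →
    (∀ ω ω', E ω → p ω ≠ 0 → p ω' ≠ 0 → K ω' = K ω →
      θ * pr p K (K ω) ≤ P p fun ω'' => K ω'' = K ω ∧ G (Y ω) (X ω') (X ω'')) →
    (∀ y a a' x, G y a a' → (((range n).filter fun k : ℕ =>
      ∃ b, Bad y b ∧ |x + k * (φ y a' - φ y a) - b| ≤ 2 * n * e).card : ℝ) ≤ q * n) →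
    θ * P p (fun ω => E ω ∧ Bad (Y ω) (U ω)) ≤
      q + 2 * n * ((Ic p X (pair Y U) K + Ic p X (pair Y V) K) / l + 2 * l)

open Classical in
def CountStmt : Prop :=
  ∀ (s h x ρ Hn : ℝ) (M n : ℕ) (Bad : ℤ → Prop), 0 < s → 1 ≤ M → |h| ≤ s → M * s ≤ n * |h| →
    ρ ≤ s → 0 ≤ Hn →
    (∀ (Q : ℤ) (T : Finset ℤ), (∀ t ∈ T, Bad t ∧ t / (M : ℤ) = Q) → (T.card : ℝ) ≤ Hn) →
    (((range n).filter fun k : ℕ => ∃ y : ℝ, Bad ⌊y / s⌋ ∧ |x + k * h - y| ≤ ρ).card : ℝ) ≤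
      20 * Hn / M * n

def PairStmt : Prop :=
  ∀ (Ω : Type) [Fintype Ω] (X : Core Ω) (e θ ε1 l : ℝ) (m i' j i : ℕ), X.Ok e → 0 < θ → θ ≤ 1 →
    0 < ε1 → ε1 ≤ 1 → 0 < l → l ≤ 1 → 2 ≤ m → (j + 1) * m ≤ X.n → X.Rel m i' j i →
    P X.p (fun ω => X.EB m θ i' ω ∧ X.EC m θ j ω ∧ ¬X.EA m ε1 i ω) ≤
      2 / (ε1 * θ ^ 2) * (20 * (2 : ℝ) ^ (-(ε1 * m / 2)) +
        2 * 2 ^ (7 * m) * (X.t1 m i' j + X.t2 m i' j + X.t3 m i j + X.t4 m j) / l +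
        6 * 2 ^ (7 * m) * l)

open Classical in
def PairsStmt : Prop :=
  ∀ (Ω : Type) [Fintype Ω] (X : Core Ω) (e θ ε1 l : ℝ) (m N : ℕ), X.Ok e → 0 < θ → θ ≤ 1 →
    0 < ε1 → ε1 ≤ 1 → 0 < l → l ≤ 1 → 2 ≤ m → N * m ≤ X.n →
    ∑ i' ∈ range N, ∑ j ∈ range N, ∑ i ∈ range N, (if X.Rel m i' j i then
      P X.p (fun ω => X.EB m θ i' ω ∧ X.EC m θ j ω ∧ ¬X.EA m ε1 i ω) else 0) ≤
      2 / (ε1 * θ ^ 2) * (4 * N ^ 2 * (20 * (2 : ℝ) ^ (-(ε1 * m / 2)) + 6 * 2 ^ (7 * m) * l) +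
        480 * 2 ^ (7 * m) * N * e / l)

open Classical in
def DensStmt : Prop :=
  ∀ (Ω κ : Type) [Fintype Ω] (p : Ω → ℝ) (X : Ω → ℤ) (K : Ω → κ) (n m N : ℕ) (θ ξ : ℝ), IsP p →
    (∀ ω, 0 ≤ X ω ∧ X ω < 2 ^ n) → 1 ≤ m → N * m ≤ n → 0 ≤ θ → 0 < ξ →
    P p (fun ω => ∃ t ≤ N, m * Real.log 2 * (((range t).filter fun i =>
        Spr p (pair (fun ω => dg n (i * m) (X ω)) K) (fun ω => dg n ((i + 1) * m) (X ω)) θ ω).card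
        : ℝ) + ξ * N < info p (pair (fun ω => dg n (t * m) (X ω)) K) ω - info p K ω) ≤
      (3 + θ * (m + 1)) / ξ

open Classical in
def MannStmt : Prop :=
  ∀ (n : ℕ) (A B : Finset ℕ) (γ : ℝ), 0 ∈ A → 0 ∈ B → γ ≤ 1 →
    (∀ t, 1 ≤ t → t ≤ n → γ * t ≤ ((A ∩ Icc 1 t).card : ℝ) + (B ∩ Icc 1 t).card) →
    γ * n ≤ (((Icc 1 n).filter fun s => ∃ a ∈ A, ∃ b ∈ B, a + b = s).card : ℝ)

def RemStmt : Prop :=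
  ∀ η : ℝ, 0 < η → ∃ δ : ℝ, 0 < δ ∧ ∀ (N : ℕ) (B C S : Finset ℕ), B ⊆ range N → C ⊆ range N →
    S ⊆ range N → ((((B ×ˢ C).filter fun z => z.1 + z.2 ∈ S).card : ℝ) ≤ δ * N ^ 2) →
    ∃ B' ⊆ B, ∃ C' ⊆ C, ∃ S' ⊆ S, ((B \ B').card : ℝ) ≤ η * N ∧ ((C \ C').card : ℝ) ≤ η * N ∧
      ((S \ S').card : ℝ) ≤ η * N ∧ ∀ b ∈ B', ∀ c ∈ C', b + c ∉ S'

open Classical in
def SumStmt : Prop :=
  ∀ ε0 : ℝ, 0 < ε0 → ∃ δ : ℝ, 0 < δ ∧ ∀ (N : ℕ) (A B C : Finset ℕ) (σ τ : ℝ), ε0 ≤ σ → ε0 ≤ τ →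
    B ⊆ range N → C ⊆ range N →
    (∀ t ≤ N, σ * t - δ * N ≤ ((B ∩ range t).card : ℝ)) →
    (∀ t ≤ N, τ * t - δ * N ≤ ((C ∩ range t).card : ℝ)) →
    (((B ×ˢ C).filter fun z => ∃ e ≤ 2, z.1 + z.2 + e < N ∧ z.1 + z.2 + e ∉ A).card : ℝ) ≤
      δ * N ^ 2 →
    (min 1 (σ + τ) - ε0) * N ≤ ((A ∩ range N).card : ℝ)

def AbcStmt : Prop :=
  ∀ ε0 : ℝ, 0 < ε0 → ∃ ε : ℝ, 0 < ε ∧ ∀ C0 : ℝ, ∃ n0 : ℕ, ∀ (Ω : Type) [Fintype Ω] (X : Core Ω)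
    (σ τ : ℝ), X.C0 ≤ C0 → n0 ≤ X.n → X.Ok (ε * X.n) → ε0 ≤ σ → σ ≤ 1 → ε0 ≤ τ → τ ≤ 1 →
    1 - ε ≤ P X.p (fun ω => ∀ t ≤ X.n, σ * t * Real.log 2 - ε * X.n ≤
      info X.p (pair (X.ad t) X.Ka) ω - info X.p X.Ka ω) →
    1 - ε ≤ P X.p (fun ω => ∀ t ≤ X.n, τ * t * Real.log 2 - ε * X.n ≤
      info X.p (pair (X.cd t) X.Z) ω - info X.p X.Z ω) →
    (min 1 (σ + τ) - ε0) * (X.n * Real.log 2) ≤ Hc X.p X.U X.Ku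

/-! ### From curves to entropy functions -/

def AepStmt : Prop :=
  ∀ (M : ℕ) (L a : ℝ), 0 ≤ L → 0 < a → ∃ n0 : ℝ, ∀ n : ℝ, n0 ≤ n →
    ∀ (Ω ι α : Type) [Fintype Ω] (p : Ω → ℝ) (I : Finset ι) (X : ι → Ω → α), IsP p → I.card ≤ M →
    (∀ i ∈ I, ∃ s : Finset α, (∀ ω, X i ω ∈ s) ∧ (s.card : ℝ) ≤ Real.exp (L * n)) →
    ∃ p' : Ω → ℝ, IsP p' ∧ (∀ ω, p' ω ≤ Real.exp (a * n) * p ω) ∧
      1 - a ≤ P p' fun ω => ∀ i ∈ I, |info p' (X i) ω - H p' (X i)| ≤ a * n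

def TransStmt : Prop :=
  ∀ (C A x y : ℝ) (f0 f1 f2 g0 g1 g2 : ℝ → ℝ) (k a b c : ℕ), 1 ≤ C → Tay C f0 f1 f2 g0 g1 g2 →
    x ∈ Set.Ico (0 : ℝ) 1 → y ∈ Set.Ico (0 : ℝ) 1 → ValN k a b c → |y - x| ≤ 1 / 2 ^ k →
    |f0 x - g0 x| ≤ A / 2 ^ a → |f1 x - g1 x| ≤ A / 2 ^ b → |f2 x - g2 x| ≤ A / 2 ^ c →
    |f0 y - g0 y| ≤ (3 + C) * A / 2 ^ a ∧ |f1 y - g1 y| ≤ (3 + C) * A / 2 ^ b ∧
      |f2 y - g2 y| ≤ (3 + C) * A / 2 ^ c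

def JoinStmt : Prop :=
  ∀ (Ω β : Type) [Fintype Ω] (T : Jets Ω) (C : ℝ) (Y : Ω → β)
    (k a b c k' a' b' c' k0 a0 b0 c0 : ℕ), T.Ok C → ValN k a b c → ValN k' a' b' c' →
    ValN k0 a0 b0 c0 → k0 ≤ max k k' → a0 ≤ max a a' → b0 ≤ max b b' → c0 ≤ max c c' →
    (∀ ω ω', Y ω = Y ω' → T.lab k a b c ω = T.lab k a b c ω') →
    (∀ ω ω', Y ω = Y ω' → T.lab k' a' b' c' ω = T.lab k' a' b' c' ω') →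
    H T.p (pair Y (T.lab k0 a0 b0 c0)) ≤ H T.p Y + ee C

def StrStmt : Prop :=
  ∀ (Ω : Type) [Fintype Ω] (T : Jets Ω) (p' : Ω → ℝ) (u v C b b' : ℝ) (N q : ℕ), T.Ok C →
    1 ≤ N → 1 ≤ q → 0 ≤ b → 0 ≤ b' → IsP p' → (∀ ω, p' ω ≤ Real.exp b' * T.p ω) →
    T.Fro u v (N * q) b →
    DStr u v N ((b + b' + 3 * ee C) / (N * q * Real.log 2)) ((T.re p').hN N q)

def CoreStmt : Prop :=
  ∀ (Ω : Type) [Fintype Ω] (T : Jets Ω) (C : ℝ) (ρ k b c n : ℕ), T.Ok C →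
    (ρ = 0 ∨ ρ = 1 ∧ b = c + k) → c ≤ b → n ≤ k → b + n ≤ c + k + ρ * n →
    (∀ e : ℝ, Ic T.p (T.core ρ k b c n C).U (T.core ρ k b c n C).B (T.core ρ k b c n C).Ku ≤ e →
      Ic T.p (T.core ρ k b c n C).W (T.core ρ k b c n C).c (T.core ρ k b c n C).Z ≤ e →
      Hc T.p (T.core ρ k b c n C).D (pair (T.core ρ k b c n C).B (T.core ρ k b c n C).Ku) ≤ e →
      (T.core ρ k b c n C).Ok e) ∧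
    (∀ t ≤ n, ∀ ω ω', pair ((T.core ρ k b c n C).ad t) (T.core ρ k b c n C).Ka ω =
        pair ((T.core ρ k b c n C).ad t) (T.core ρ k b c n C).Ka ω' ↔
      pair (T.lab (k + n) (b + k) (b + ρ * n) c)
          (T.lab k (b + k) (b + (1 - ρ) * t) (c + ρ * t)) ω =
        pair (T.lab (k + n) (b + k) (b + ρ * n) c)
          (T.lab k (b + k) (b + (1 - ρ) * t) (c + ρ * t)) ω') ∧
    (∀ t ≤ n, ∀ ω ω', pair ((T.core ρ k b c n C).cd t) (T.core ρ k b c n C).Z ω =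
        pair ((T.core ρ k b c n C).cd t) (T.core ρ k b c n C).Z ω' ↔
      pair (T.lab (k + t) 0 0 0) (T.lab k (b + k) b c) ω =
        pair (T.lab (k + t) 0 0 0) (T.lab k (b + k) b c) ω')

def InstStmt : Prop :=
  ∀ ε0 : ℝ, 0 < ε0 → ∃ ε : ℝ, 0 < ε ∧ ∀ (N : ℕ) (C : ℝ), 1 ≤ N → ∃ (a : ℝ) (q0 : ℕ), 0 < a ∧
    ∀ q ≥ q0, ∀ a' ≤ a, ∀ (Ω : Type) [Fintype Ω] (T : Jets Ω), T.Ok C → T.Conc N q a' →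
      DAbc N ε0 ε (T.hN N q)

open Classical in
def FrostStmt : Prop :=
  ∀ (X β : Type) [MetricSpace X] (A : Set X) (lb : ℕ → X → β) (n : ℕ) (s D κ : ℝ), 0 < s →
    0 < D → 0 < κ → (∀ j < n, ∀ x ∈ A, ∀ y ∈ A, lb (j + 1) x = lb (j + 1) y → lb j x = lb j y) →
    (lb n '' A).Finite →
    (∀ j ≤ n, ∀ x ∈ A, ∀ y ∈ A, lb j x = lb j y → dist x y ≤ D / 2 ^ j) →
    ENNReal.ofReal κ ≤ hc s A →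
    ∃ (S : Finset X) (μ : X → ℝ), (↑S : Set X) ⊆ A ∧ (∀ x, 0 ≤ μ x) ∧ ∑ x ∈ S, μ x = 1 ∧
      (∀ x ∈ S, ∀ y ∈ S, lb n x = lb n y → x = y) ∧
      ∀ j ≤ n, ∀ b, ∑ x ∈ S.filter (fun x => lb j x = b), μ x ≤ (D / 2 ^ j) ^ s / κ

/-- The abscissas at which the curve is close to the finite set Q. -/
def near (J0 : E3 → ℝ → ℝ) (Q : Finset E2) (δ : ℝ) (w : E3) : Set ℝ :=
  {x | x ∈ Set.Ico (0 : ℝ) 1 ∧ ∃ z ∈ Q, dist z (pt x (J0 w x)) ≤ δ}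

def SampStmt : Prop :=
  ∀ (u v C κ : ℝ) (n : ℕ) (S E : Set E3) (J0 J1 J2 : E3 → ℝ → ℝ) (Q : Finset E2), 0 < u →
    0 < v → 0 < κ → κ ≤ 1 → Cine C S J0 J1 J2 → E ⊆ S → ENNReal.ofReal κ ≤ hc v E →
    (∀ w ∈ E, ENNReal.ofReal κ ≤ hc u (near J0 Q ((2 : ℝ) ^ n)⁻¹ w)) →
    ∃ (Ω : Type) (_ : Fintype Ω) (T : Jets Ω), T.Ok C ∧ T.Fro u v n (Real.log (C ^ v / κ)) ∧
      ∃ s : Finset V, (∀ ω, T.lab n n 0 0 ω ∈ s) ∧ (s.card : ℝ) ≤ 21 * C * Q.card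

def LimitStmt : Prop :=
  ∀ (u v s : ℝ) (ef : ℕ → ℝ) (h : ℕ → ℕ → ℕ → ℕ → ℕ → ℝ), (∀ j, 0 < ef j) →
    (∀ ν : ℕ, DStr u v (ν + 1) (1 / (ν + 1)) (h ν)) →
    (∀ j ν : ℕ, j ≤ ν → DAbc (ν + 1) (1 / (j + 1)) (ef j) (h ν)) →
    (∀ ν, h ν (ν + 1) (ν + 1) 0 0 ≤ s) → ∃ H, Macro u v H ∧ H 1 1 0 0 ≤ s

/-! ### The real variable argument -/

def LamStmt : Prop := ∀ u v H, Macro u v H → ∃ lam, Lam H lam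

def SmallStmt : Prop :=
  ∀ u v H, Macro u v H →
    (∀ᵐ z : ℝ × ℝ, ∀ᵐ y : ℝ, 0 < z.2 → z.2 < z.1 → 2 * z.1 - z.2 < y → y < 1 →
      Small H 0 (y - z.1) z.1 z.2) ∧
    ∀ᵐ z : ℝ × ℝ, 0 < z.2 → z.2 < z.1 → 2 * z.1 - z.2 < 1 → Small H 1 (z.1 - z.2) z.1 z.2

def MacStmt : Prop :=
  ∀ u v H lam, 0 < u → u ≤ 1 → Macro u v H → Lam H lam → (mac H lam).Ok u v

def KStmt : Prop :=
  ∀ (M : Mac) (u v L b c x : ℝ), M.Ok u v → 0 ≤ x → x ≤ c → 0 < c → c < b → 2 * b - c ≤ L →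
    L ≤ 1 →
    (M.Pt L b c → 0 < M.sg L b c → ∫ y in (2 * b - c)..L, M.lam x y ≤ M.W (L - b) - M.W (b - c)) ∧
    (M.Good L b c → 0 < M.mu L b c →
      ∫ y in (2 * b - c)..L, M.lam x y ≤ (1 - u) * (L - c) - 2 * M.W (b - c))

def LowStmt : Prop :=
  ∀ (M : Mac) (u v u' x L : ℝ), M.Ok u v → u' < u → 0 ≤ x → x ≤ L → L ≤ 1 →
    (∀ z ∈ Set.Icc x L, M.f L - M.f z ≤ u' * (L - z)) → M.R x L ≤ 0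

def BmStmt : Prop :=
  ∀ (M : Mac) (u v b0 b1 y0 y1 : ℝ) (ς lam : ℝ → ℝ), M.Ok u v → Measurable ς → Measurable lam →
    (∀ t, 0 ≤ ς t ∧ ς t ≤ 1) → (∀ t, 0 ≤ lam t ∧ lam t ≤ 1) → b0 ≤ b1 → b1 ≤ y0 → y0 ≤ y1 →
    (∀ᵐ b, b ∈ Set.Ioo b0 b1 → ∀ᵐ y, y ∈ Set.Ioo y0 y1 → 0 < ς b → 0 < lam y →
      ς b ≤ M.om (y - b) ∧ lam y ≤ M.om (y - b)) →
    0 < ∫ b in b0..b1, ς b → 0 < ∫ y in y0..y1, lam y →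
    (∫ b in b0..b1, ς b) + ∫ y in y0..y1, lam y ≤ M.W (y1 - b0)

def StarStmt : Prop :=
  ∀ (M : Mac) (u v x z L : ℝ), M.Ok u v → 0 ≤ x → x ≤ z → z ≤ L → L ≤ 1 → z < 1 →
    (∀ ξ : ℝ, 0 < ξ → 0 < ∫ y in z..(z + ξ), M.lam x y) →
    M.Ct L z z - M.Ct L x x ≤ max 0 (2 * (1 - u) * (L - x) - 2 * ∫ y in z..L, M.lam x y)

def MidStmt : Prop :=
  ∀ (M : Mac) (u v ε : ℝ), M.Ok u v → 0 < ε → ∃ θ : ℝ, 0 < θ ∧ ∀ x L r : ℝ, 0 ≤ x → x < L →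
    L ≤ 1 → 0 < r → ∫ y in x..L, (if M.lam x y ≤ r then (1 : ℝ) else 0) ≤ θ * (L - x) →
    M.R x L ≤ (2 * max (1 - u - r) 0 + ε) * (L - x)

def FinStmt : Prop :=
  ∀ (M : Mac) (u v : ℝ), M.Ok u v → u ≤ v → min 1 ((2 * u + v) / 3) ≤ M.f 1 - M.R 0 1

def MacroStmt : Prop :=
  ∀ u v H, 0 < u → u ≤ 1 → u ≤ v → Macro u v H → bnd u v ≤ H 1 1 0 0

/-! ### Hausdorff dimension -/

def DiscStmt : Prop :=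
  ∀ u v C τ : ℝ, 0 < u → u ≤ 1 → u ≤ v → 0 < τ →
    ∃ (g : ℕ) (a : ℝ) (n0 : ℕ), 1 ≤ g ∧ 0 < a ∧ ∀ n ≥ n0, ∀ δ : ℝ, δ = ((2 : ℝ) ^ (g * n))⁻¹ →
      ∀ (S E : Set E3) (J0 J1 J2 : E3 → ℝ → ℝ) (Q : Finset E2), Cine C S J0 J1 J2 → E ⊆ S →
        ENNReal.ofReal (δ ^ a) ≤ hc v E →
        (∀ w ∈ E, ENNReal.ofReal (δ ^ a) ≤ hc u (near J0 Q δ w)) →
        δ⁻¹ ^ (bnd u v - τ) ≤ Q.card

def RedStmt : Prop :=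
  ∀ (u v C : ℝ) (S E : Set E3) (J0 J1 J2 : E3 → ℝ → ℝ) (F : Set E2), 0 < u → u ≤ 1 → u ≤ v →
    Cine C S J0 J1 J2 → E ⊆ S → ENNReal.ofReal v < dimH E →
    (∀ w ∈ E, ENNReal.ofReal u < dimH {x | x ∈ Set.Ico (0 : ℝ) 1 ∧ pt x (J0 w x) ∈ F}) →
    ENNReal.ofReal (bnd u v) ≤ dimH F

def RawStmt : Prop :=
  ∀ (u v C : ℝ) (S E : Set E3) (J0 J1 J2 J3 : E3 → ℝ → ℝ) (F : Set E2), 0 < u → u ≤ 1 → u ≤ v →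
    Raw C S J0 J1 J2 J3 → E ⊆ S → ENNReal.ofReal v < dimH E →
    (∀ w ∈ E, ENNReal.ofReal u < dimH {x | x ∈ Set.Ico (0 : ℝ) 1 ∧ pt x (J0 w x) ∈ F}) →
    ENNReal.ofReal (bnd u v) ≤ dimH F

/-- Upper arcs of the circles with parameters in a box, over the interval [a, a + l]. -/
def ArcStmt : Prop :=
  ∀ (a l r0 R : ℝ), 0 < l → 0 < r0 → ∃ (C : ℝ) (J1 J2 J3 : E3 → ℝ → ℝ),
    Raw C {w | |w 1| ≤ R ∧ r0 ≤ w 2 ∧ w 2 ≤ R ∧ |a - w 0| ≤ 4 / 5 * r0 ∧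
        |a + l - w 0| ≤ 4 / 5 * r0}
      (fun w s => w 1 + Real.sqrt (w 2 ^ 2 - (a + l * s - w 0) ^ 2)) J1 J2 J3

def CircStmt : Prop :=
  ∀ (u v : ℝ) (E : Set E3) (F : Set E2), 0 < u → u ≤ 1 → u ≤ v →
    (∀ x ∈ E, 0 < x 2) → ENNReal.ofReal v < dimH E →
    (∀ x ∈ E, ENNReal.ofReal u < dimH (circ x ∩ F)) → ENNReal.ofReal (bnd u v) ≤ dimH F

def SineStmt : Prop :=
  ∀ (u v : ℝ) (E : Set E3) (F : Set E2), 0 < u → u ≤ 1 → u ≤ v → ENNReal.ofReal v < dimH E →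
    (∀ x ∈ E, ENNReal.ofReal u < dimH (sineWave x ∩ F)) → ENNReal.ofReal (bnd u v) ≤ dimH F

end Pool.Agent.MP_538dc4_an.AB
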