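import Mathlib.Data.Int.Star
import Mathlib.Algebra.Order.Ring.Star
import Pool.Agent.MP_538dc4_an.ab.Spec

/-! PROJECT FURST2: basic lemmas on finite probability spaces. -/

open Finset Real

namespace Pool.Agent.MP_538dc4_an.AB

variable {Ω α β γ κ α' β' κ' : Type} [Fintype Ω] {p : Ω → ℝ}

/-! ### Events -/

theorem P_nonneg (hp : IsP p) (A : Ω → Prop) : 0 ≤ P p A :=
  sum_nonneg fun ω _ => by split_ifs; exacts [hp.nn ω, le_rfl]

theorem P_le_one (hp : IsP p) (A : Ω → Prop) : P p A ≤ 1 := by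
  rw [← hp.sum]
  exact sum_le_sum fun ω _ => by split_ifs; exacts [le_rfl, hp.nn ω]

theorem P_mono (hp : IsP p) {A B : Ω → Prop} (h : ∀ ω, p ω ≠ 0 → A ω → B ω) : P p A ≤ P p B :=
  sum_le_sum fun ω _ => by
    by_cases h0 : p ω = 0
    · simp [h0]
    · split_ifs with h1 h2
      exacts [le_rfl, absurd (h ω h0 h1) h2, hp.nn ω, le_rfl]

theorem P_congr (hp : IsP p) {A B : Ω → Prop} (h : ∀ ω, p ω ≠ 0 → (A ω ↔ B ω)) :
    P p A = P p B :=
  le_antisymm (P_mono hp fun ω h0 => (h ω h0).1) (P_mono hp fun ω h0 => (h ω h0).2)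

theorem P_not (hp : IsP p) (A : Ω → Prop) : P p (fun ω => ¬A ω) = 1 - P p A := by
  rw [← hp.sum, P, P, ← sum_sub_distrib]
  exact sum_congr rfl fun ω _ => by by_cases h : A ω <;> simp [h]

theorem P_or_le (hp : IsP p) (A B : Ω → Prop) : P p (fun ω => A ω ∨ B ω) ≤ P p A + P p B := by
  rw [P, P, P, ← sum_add_distrib]
  exact sum_le_sum fun ω _ => by
    by_cases h : A ω <;> by_cases h' : B ω <;> simp [h, h', hp.nn ω]

theorem P_and_ge (hp : IsP p) (A B : Ω → Prop) :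
    P p A + P p B - 1 ≤ P p (fun ω => A ω ∧ B ω) := by
  rw [← hp.sum, P, P, P, ← sum_add_distrib, ← sum_sub_distrib]
  exact sum_le_sum fun ω _ => by
    by_cases h : A ω <;> by_cases h' : B ω <;> simp [h, h', hp.nn ω]

theorem P_exists_le {ι : Type} (hp : IsP p) (I : Finset ι) (A : ι → Ω → Prop) :
    P p (fun ω => ∃ i ∈ I, A i ω) ≤ ∑ i ∈ I, P p (A i) := by
  simp only [P]
  rw [sum_comm]
  refine sum_le_sum fun ω _ => ?_
  have h0 : ∀ i ∈ I, 0 ≤ @ite _ (A i ω) (Classical.propDecidable _) (p ω) 0 := fun i _ => by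
    split_ifs; exacts [hp.nn ω, le_rfl]
  split_ifs with h
  · obtain ⟨i, hi, h⟩ := h
    exact le_trans (by rw [if_pos h]) (single_le_sum h0 hi)
  · exact sum_nonneg h0

theorem pr_eq_P (X : Ω → α) (a : α) : pr p X a = P p fun ω => X ω = a := rfl

open Classical in
theorem P_eq_sum (A : Ω → Prop) : P p A = ∑ ω, p ω * if A ω then 1 else 0 :=
  sum_congr rfl fun ω _ => by by_cases h : A ω <;> simp [h]

/-- Markov inequality. -/
theorem markov (hp : IsP p) {f : Ω → ℝ} (hf : ∀ ω, p ω ≠ 0 → 0 ≤ f ω) {t : ℝ} (ht : 0 < t) :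
    P p (fun ω => t ≤ f ω) ≤ (∑ ω, p ω * f ω) / t := by
  rw [le_div_iff₀ ht, P, sum_mul]
  refine sum_le_sum fun ω _ => ?_
  by_cases h0 : p ω = 0
  · simp [h0]
  · split_ifs with h
    · exact mul_le_mul_of_nonneg_left h (hp.nn ω)
    · rw [zero_mul]
      exact mul_nonneg (hp.nn ω) (hf ω h0)

theorem P_fst (hp : IsP p) (S : Ω → β) (A : Ω → Prop) :
    P (glue p S) (fun ω => A ω.1) = P p A := by
  rw [P_eq_sum, P_eq_sum]
  exact glue_fst hp S fun a => @ite _ (A a) (Classical.propDecidable _) 1 0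

theorem P_snd (hp : IsP p) (S : Ω → β) (A : Ω → Prop) :
    P (glue p S) (fun ω => A ω.2) = P p A := by
  rw [P_eq_sum, P_eq_sum]
  exact glue_snd hp S fun a => @ite _ (A a) (Classical.propDecidable _) 1 0

/-! ### Information and entropy -/

theorem Dt.of_forall {X : Ω → α} {Y : Ω → β} (h : ∀ ω ω', X ω = X ω' → Y ω = Y ω') : Dt p X Y :=
  fun ω ω' _ _ => h ω ω'

theorem pr_congr (hp : IsP p) {X : Ω → α} {Y : Ω → β} (h1 : Dt p X Y) (h2 : Dt p Y X) {ω : Ω}
    (h : p ω ≠ 0) : pr p X (X ω) = pr p Y (Y ω) :=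
  le_antisymm (pr_mono hp fun ω' h' e => h1 ω' ω h' h e) (pr_mono hp fun ω' h' e => h2 ω' ω h' h e)

theorem info_nonneg (hp : IsP p) (X : Ω → α) (ω : Ω) : 0 ≤ info p X ω :=
  neg_nonneg.2 (log_nonpos (pr_nonneg hp _ _) (pr_le_one hp _ _))

theorem info_mono (hp : IsP p) {X : Ω → α} {Y : Ω → β} (h1 : Dt p X Y) {ω : Ω} (h : p ω ≠ 0) :
    info p Y ω ≤ info p X ω :=
  neg_le_neg (log_le_log (pr_pos hp X h) (pr_mono hp fun ω' h' e => h1 ω' ω h' h e))

theorem info_congr (hp : IsP p) {X : Ω → α} {Y : Ω → β} (h1 : Dt p X Y) (h2 : Dt p Y X) {ω : Ω}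
    (h : p ω ≠ 0) : info p X ω = info p Y ω := by
  rw [info, info, pr_congr hp h1 h2 h]

theorem H_eq_sum (X : Ω → α) : H p X = ∑ ω, p ω * info p X ω := by
  simp only [H, info, mul_neg, sum_neg_distrib]

theorem H_le_of_dt (hp : IsP p) {X : Ω → α} {Y : Ω → β} (h : Dt p X Y) : H p Y ≤ H p X :=
  H_mono hp h

theorem H_congr (hp : IsP p) {X : Ω → α} {Y : Ω → β} (h1 : Dt p X Y) (h2 : Dt p Y X) :
    H p X = H p Y := le_antisymm (H_mono hp h2) (H_mono hp h1)

/-- Submodularity, with hypotheses on the support only. -/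
theorem submod' (hp : IsP p) (X : Ω → α) (Y : Ω → β) (J : Ω → γ) (K : Ω → κ) (h1 : Dt p X K)
    (h2 : Dt p Y K) (h3 : Dt p (pair X Y) J) : H p J + H p K ≤ H p X + H p Y := by
  have a := submod hp (pair X K) (pair Y K) (pair X Y) K (fun _ _ e => (Prod.mk.inj e).2)
    (fun _ _ e => (Prod.mk.inj e).2) fun _ _ e e' =>
      Prod.ext (Prod.mk.inj e).1 (Prod.mk.inj e').1
  have b : H p (pair X K) ≤ H p X := H_mono hp fun ω ω' h h' e => Prod.ext e (h1 ω ω' h h' e)
  have c : H p (pair Y K) ≤ H p Y := H_mono hp fun ω ω' h h' e => Prod.ext e (h2 ω ω' h h' e)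
  have d : H p J ≤ H p (pair X Y) := H_mono hp h3
  linarith

/-- At most A values of X are compatible with a value of Y. -/
theorem H_pair_le (hp : IsP p) (X : Ω → α) (Y : Ω → β) (s : β → Finset α) {A : ℝ}
    (h1 : ∀ ω, p ω ≠ 0 → X ω ∈ s (Y ω)) (h2 : ∀ b, ((s b).card : ℝ) ≤ A) :
    H p (pair Y X) ≤ H p Y + log A := by
  refine (H_cond_le hp Y X s h1).trans (add_le_add_right ?_ _)
  rw [← one_mul (log A), ← hp.sum, sum_mul]
  refine sum_le_sum fun ω _ => ?_
  by_cases h0 : p ω = 0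
  · simp [h0]
  · exact mul_le_mul_of_nonneg_left
      (log_le_log (by exact_mod_cast card_pos.2 ⟨_, h1 ω h0⟩) (h2 _)) (hp.nn ω)

/-- Gibbs inequality between two laws. -/
theorem H_le_cross (hp : IsP p) {p' : Ω → ℝ} (hp' : IsP p') (h : ∀ ω, p' ω ≠ 0 → p ω ≠ 0)
    (X : Ω → α) : H p' X ≤ ∑ ω, p' ω * info p X ω := by
  classical
  have a := gibbs hp' X (univ.image X) (pr p X) (fun b _ => pr_nonneg hp X b) fun ω h0 =>
    ⟨mem_image_of_mem _ (mem_univ _), pr_pos hp X (h ω h0)⟩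
  have b := log_nonpos (sum_nonneg fun b _ => pr_nonneg hp X b) (sum_pr_le hp X (univ.image X))
  simp only [info, mul_neg, sum_neg_distrib]
  linarith

theorem Hc_nonneg (hp : IsP p) (X : Ω → α) (K : Ω → κ) : 0 ≤ Hc p X K :=
  sub_nonneg.2 (H_mono hp fun _ _ _ _ e => (Prod.mk.inj e).2)

theorem Ic_nonneg (hp : IsP p) (X : Ω → α) (Y : Ω → β) (K : Ω → κ) : 0 ≤ Ic p X Y K := by
  have := submod hp (pair X K) (pair Y K) (pair X (pair Y K)) K (fun _ _ e => (Prod.mk.inj e).2)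
    (fun _ _ e => (Prod.mk.inj e).2) fun _ _ e e' => Prod.ext (Prod.mk.inj e).1 e'
  rw [Ic]
  linarith

theorem Ic_comm (hp : IsP p) (X : Ω → α) (Y : Ω → β) (K : Ω → κ) : Ic p X Y K = Ic p Y X K := by
  have : H p (pair X (pair Y K)) = H p (pair Y (pair X K)) :=
    H_congr hp (.of_forall (by simp +contextual [pair])) (.of_forall (by simp +contextual [pair]))
  rw [Ic, Ic]
  linarith

/-- Data processing and chain rule in one statement. -/
theorem Ic_le (hp : IsP p) {X : Ω → α} {Y : Ω → β} {K : Ω → κ} {X' : Ω → α'} {Y' : Ω → β'}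
    {K' : Ω → κ'} (h1 : Dt p K' K) (h2 : Dt p (pair X K) (pair X' K')) (h3 : Dt p (pair Y K') Y') :
    Ic p X' Y' K' ≤ Ic p X Y K := by
  have a := submod' hp (pair X' (pair Y' K')) (pair Y K') (pair X' (pair Y K')) (pair Y' K')
    (.of_forall (by simp +contextual [pair]))
    (fun ω ω' h h' e => Prod.ext (h3 ω ω' h h' e) (Prod.mk.inj e).2)
    (.of_forall (by simp +contextual [pair]))
  have b := submod' hp (pair X K) (pair X' (pair Y K')) (pair X (pair Y K)) (pair X' K') h2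
    (.of_forall (by simp +contextual [pair])) (.of_forall (by simp +contextual [pair]))
  have c := submod' hp (pair Y K) K' (pair Y K') K (.of_forall (by simp +contextual [pair])) h1
    (.of_forall (by simp +contextual [pair]))
  rw [Ic, Ic]
  linarith

theorem Ic_chain (hp : IsP p) (X : Ω → α) (Y : Ω → β) (Y' : Ω → β') (K : Ω → κ) :
    Ic p X (pair Y Y') K = Ic p X Y K + Ic p X Y' (pair Y K) := by
  have a : H p (pair (pair Y Y') K) = H p (pair Y' (pair Y K)) :=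
    H_congr hp (.of_forall (by simp +contextual [pair])) (.of_forall (by simp +contextual [pair]))
  have b : H p (pair X (pair (pair Y Y') K)) = H p (pair X (pair Y' (pair Y K))) :=
    H_congr hp (.of_forall (by simp +contextual [pair])) (.of_forall (by simp +contextual [pair]))
  rw [Ic, Ic, Ic]
  linarith

theorem Ic_add_le (hp : IsP p) (X : Ω → α) (D : Ω → γ) (Y : Ω → β) (K : Ω → κ) :
    Ic p (pair X D) Y K ≤ Ic p X Y K + Hc p D (pair X K) := by
  have a : H p (pair (pair X D) K) ≤ H p (pair D (pair X K)) :=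
    H_le_of_dt hp (.of_forall (by simp +contextual [pair]))
  have b : H p (pair X (pair Y K)) ≤ H p (pair (pair X D) (pair Y K)) :=
    H_le_of_dt hp (.of_forall (by simp +contextual [pair]))
  rw [Ic, Ic, Hc]
  linarith

/-- Telescoping along a filtration. -/
theorem tel (hp : IsP p) (X : ℕ → Ω → α) (Y : Ω → β) (K : Ω → κ) (T M : ℕ)
    (h : ∀ t < T, Dt p (X (t + 1)) (X t)) :
    ∑ t ∈ (range (T + 1)).filter (fun t => t + M ≤ T), Ic p (X (t + M)) Y (pair (X t) K) ≤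
      M * Ic p (X T) Y K := by
  have hd : ∀ t' ≤ T, ∀ t ≤ t', Dt p (X t') (X t) := by
    intro t' ht' t ht
    induction t', ht using Nat.le_induction with
    | base => exact fun _ _ _ _ e => e
    | succ n _ ih => exact fun ω ω' a b e => ih (by omega) ω ω' a b (h n (by omega) ω ω' a b e)
  have hg : ∀ t ≤ T, Ic p (X t) Y K ≤ Ic p (X T) Y K := fun t ht =>
    Ic_le hp (fun _ _ _ _ e => e)
      (fun ω ω' a b e => Prod.ext (hd T le_rfl t ht ω ω' a b (Prod.mk.inj e).1) (Prod.mk.inj e).2)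
      fun _ _ _ _ e => (Prod.mk.inj e).1
  by_cases hM : T < M
  · rw [filter_false_of_mem fun t _ => by omega, sum_empty]
    exact mul_nonneg M.cast_nonneg (Ic_nonneg hp _ _ _)
  obtain ⟨n, hn⟩ : ∃ n, n + M = T + 1 := ⟨T + 1 - M, by omega⟩
  have e : (range (T + 1)).filter (fun t => t + M ≤ T) = range n := by
    ext t
    simp only [mem_filter, mem_range]
    omega
  have e2 : ∀ t ∈ range n, Ic p (X (t + M)) Y (pair (X t) K) =
      Ic p (X (M + t)) Y K - Ic p (X t) Y K := by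
    intro t ht
    have ht := mem_range.1 ht
    have d := hd (t + M) (by omega) t (by omega)
    have a : H p (pair (X (t + M)) (pair (X t) K)) = H p (pair (X (t + M)) K) :=
      H_congr hp (.of_forall (by simp +contextual [pair])) fun ω ω' a b e =>
        Prod.ext (Prod.mk.inj e).1 (Prod.ext (d ω ω' a b (Prod.mk.inj e).1) (Prod.mk.inj e).2)
    have b : H p (pair Y (pair (X t) K)) = H p (pair (X t) (pair Y K)) :=
      H_congr hp (.of_forall (by simp +contextual [pair])) (.of_forall (by simp +contextual [pair]))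
    have c : H p (pair (X (t + M)) (pair Y (pair (X t) K))) = H p (pair (X (t + M)) (pair Y K)) :=
      H_congr hp (.of_forall (by simp +contextual [pair])) fun ω ω' a b e =>
        Prod.ext (Prod.mk.inj e).1 (Prod.ext (Prod.mk.inj (Prod.mk.inj e).2).1
          (Prod.ext (d ω ω' a b (Prod.mk.inj e).1) (Prod.mk.inj (Prod.mk.inj e).2).2))
    rw [add_comm M t, Ic, Ic, Ic]
    linarith
  have s1 := sum_range_add (fun t => Ic p (X t) Y K) n M
  have s2 := sum_range_add (fun t => Ic p (X t) Y K) M n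
  have s3 : 0 ≤ ∑ t ∈ range M, Ic p (X t) Y K := sum_nonneg fun t _ => Ic_nonneg hp _ _ _
  have s4 : ∑ t ∈ range M, Ic p (X (n + t)) Y K ≤ M * Ic p (X T) Y K := by
    have := sum_le_card_nsmul (range M) (fun t => Ic p (X (n + t)) Y K) _ fun t ht =>
      hg _ (by have := mem_range.1 ht; omega)
    rwa [card_range, nsmul_eq_mul] at this
  rw [add_comm M n] at s2
  rw [e, sum_congr rfl e2, sum_sub_distrib]
  linarith

theorem hent_nonneg (hp : IsP p) (K : Ω → κ) (X : Ω → α) (ω : Ω) : 0 ≤ hent p K X ω := by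
  refine div_nonneg (sum_nonneg fun ω' _ => ?_) (pr_nonneg hp _ _)
  split_ifs
  · by_cases h0 : p ω' = 0
    · simp [h0]
    · exact mul_nonneg (hp.nn _)
        (sub_nonneg.2 (info_mono hp (fun _ _ _ _ e => (Prod.mk.inj e).2) h0))
  · exact le_rfl

theorem hent_congr (K : Ω → κ) (X : Ω → α) {ω ω' : Ω} (h : K ω = K ω') :
    hent p K X ω = hent p K X ω' := by
  rw [hent, hent, h]

theorem sum_hent (hp : IsP p) (K : Ω → κ) (X : Ω → α) :
    ∑ ω, p ω * hent p K X ω = Hc p X K := by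
  rw [Hc, H_eq_sum, H_eq_sum, ← sum_sub_distrib]
  simp only [← mul_sub]
  rw [← glue_snd hp K fun b => info p (pair X K) b - info p K b, Fintype.sum_prod_type]
  refine sum_congr rfl fun a _ => ?_
  rw [hent, sum_div, mul_sum]
  refine sum_congr rfl fun b _ => ?_
  by_cases h : K a = K b
  · simp only [glue, h, if_true]
    ring
  · simp [glue, h, Ne.symm h]

/-! ### Small information means almost independent -/

theorem pinsk_one (hp : IsP p) (X : Ω → α) (Y : Ω → β) (K : Ω → κ) (f : Ω → Ω → ℝ) {l : ℝ}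
    (hl : 0 < l) (hl1 : l ≤ 1) (hf : ∀ a b, |f a b| ≤ 1)
    (hd : ∀ a a' b b', Y a = Y a' → K a = K a' → X b = X b' → K b = K b' → f a b = f a' b') :
    ∑ ω, p ω * f ω ω - ∑ ω : Ω × Ω, glue p K ω * f ω.1 ω.2 ≤ Ic p X Y K / l + l := by
  classical
  let J := pair X (pair Y K)
  let u : Ω → ℝ := fun ω => pr p (pair Y K) (pair Y K ω) * pr p (pair X K) (pair X K ω) /
    (pr p J (J ω) * pr p K (K ω)) * exp (l * f ω ω)
  have hG := glue_isP hp K
  have h1 : ∑ ω, p ω * (l * f ω ω) - Ic p X Y K ≤ ∑ ω, p ω * u ω - 1 := by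
    have e : ∑ ω, p ω * (l * f ω ω) - Ic p X Y K = ∑ ω, p ω * log (u ω) := by
      simp only [Ic, H_eq_sum, ← sum_add_distrib, ← sum_sub_distrib]
      refine sum_congr rfl fun ω _ => ?_
      by_cases h0 : p ω = 0
      · simp [h0]
      · have a := pr_pos hp (pair Y K) h0
        have b := pr_pos hp (pair X K) h0
        have c := pr_pos hp J h0
        have d := pr_pos hp K h0
        simp only [u]
        rw [log_mul (by positivity) (exp_pos _).ne', log_div (by positivity) (by positivity),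
          log_mul a.ne' b.ne', log_mul c.ne' d.ne', log_exp]
        simp only [info, J]
        ring
    rw [e, ← hp.sum, ← sum_sub_distrib]
    refine sum_le_sum fun ω _ => ?_
    by_cases h0 : p ω = 0
    · simp [h0]
    · have a := pr_pos hp (pair Y K) h0
      have b := pr_pos hp (pair X K) h0
      have c := pr_pos hp J h0
      have d := pr_pos hp K h0
      have := mul_le_mul_of_nonneg_left (log_le_sub_one_of_pos (x := u ω) (by positivity)) (hp.nn ω)
      linarith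
  have h2 : ∑ ω, p ω * u ω ≤ ∑ ω : Ω × Ω, glue p K ω * exp (l * f ω.1 ω.2) :=
    calc ∑ ω, p ω * u ω
        = ∑ ω, ∑ a, ∑ b, @ite _ (J ω = (X b, Y a, K a)) (Classical.propDecidable _) (p ω) 0 /
            pr p J (X b, Y a, K a) * (glue p K (a, b) * exp (l * f a b)) := by
          refine sum_congr rfl fun ω _ => ?_
          simp only [u]
          rw [pr.eq_1 p (pair Y K), pr.eq_1 p (pair X K), sum_mul_sum, sum_div, sum_mul, mul_sum]
          refine sum_congr rfl fun a _ => ?_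
          rw [sum_div, sum_mul, mul_sum]
          refine sum_congr rfl fun b _ => ?_
          by_cases ha : pair Y K a = pair Y K ω
          · obtain ⟨e1, e2⟩ := Prod.mk.inj ha
            by_cases hb : pair X K b = pair X K ω
            · obtain ⟨e3, e4⟩ := Prod.mk.inj hb
              have e5 : J ω = (X b, Y a, K a) := by rw [e1, e2, e3]; rfl
              rw [if_pos ha, if_pos hb, if_pos e5, ← e5, hd a ω b ω e1 e2 e3 e4, glue,
                if_pos (e2.trans e4.symm), e2]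
              ring
            · rw [if_neg hb]
              by_cases e5 : J ω = (X b, Y a, K a)
              · rw [glue, if_neg fun e : K a = K b =>
                  hb (Prod.ext (Prod.mk.inj e5).1.symm (e.symm.trans e2))]
                simp
              · rw [if_neg e5]
                simp
          · rw [if_neg ha, if_neg fun e : J ω = (X b, Y a, K a) => ha (Prod.mk.inj e).2.symm]
            simp
      _ = ∑ a, ∑ b, (∑ ω, @ite _ (J ω = (X b, Y a, K a)) (Classical.propDecidable _) (p ω) 0 /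
            pr p J (X b, Y a, K a)) * (glue p K (a, b) * exp (l * f a b)) := by
          rw [sum_comm]
          refine sum_congr rfl fun a _ => ?_
          rw [sum_comm]
          simp only [sum_mul]
      _ ≤ ∑ a, ∑ b, glue p K (a, b) * exp (l * f a b) :=
          sum_le_sum fun a _ => sum_le_sum fun b _ => mul_le_of_le_one_left
            (mul_nonneg (hG.nn _) (exp_pos _).le) (sum_ite_div_le hp J _)
      _ = _ := (Fintype.sum_prod_type fun ω : Ω × Ω => glue p K ω * exp (l * f ω.1 ω.2)).symm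
  have h3 : ∑ ω : Ω × Ω, glue p K ω * exp (l * f ω.1 ω.2) ≤
      ∑ ω : Ω × Ω, (glue p K ω * (1 + l ^ 2) + l * (glue p K ω * f ω.1 ω.2)) := by
    refine sum_le_sum fun ω _ => ?_
    have a : |l * f ω.1 ω.2| ≤ l := by
      rw [abs_mul, abs_of_pos hl]
      exact mul_le_of_le_one_right hl.le (hf _ _)
    have b := (abs_le.1 (abs_exp_sub_one_sub_id_le (a.trans hl1))).2
    have c : (l * f ω.1 ω.2) ^ 2 ≤ l ^ 2 := sq_le_sq' (abs_le.1 a).1 (abs_le.1 a).2
    have d : exp (l * f ω.1 ω.2) ≤ 1 + l ^ 2 + l * f ω.1 ω.2 := by linarith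
    exact (mul_le_mul_of_nonneg_left d (hG.nn ω)).trans_eq (by ring)
  rw [sum_add_distrib, ← sum_mul, hG.sum, ← mul_sum] at h3
  simp only [mul_left_comm _ l, ← mul_sum] at h1
  rw [div_add' _ _ _ hl.ne', le_div_iff₀ hl]
  linarith

/-- A linear form of the Pinsker inequality. -/
theorem pinsk (hp : IsP p) (X : Ω → α) (Y : Ω → β) (K : Ω → κ) (f : Ω → Ω → ℝ) {l : ℝ}
    (hl : 0 < l) (hl1 : l ≤ 1) (hf : ∀ a b, |f a b| ≤ 1)
    (hd : ∀ a a' b b', Y a = Y a' → K a = K a' → X b = X b' → K b = K b' → f a b = f a' b') :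
    |∑ ω, p ω * f ω ω - ∑ ω : Ω × Ω, glue p K ω * f ω.1 ω.2| ≤ Ic p X Y K / l + l := by
  have h0 := Ic_nonneg hp X Y K
  have a := pinsk_one hp X Y K f hl hl1 hf hd
  have b := pinsk_one hp X Y K (fun a b => -f a b) hl hl1 (fun a b => by rw [abs_neg]; exact hf a b)
    fun a a' b b' e1 e2 e3 e4 => by rw [hd a a' b b' e1 e2 e3 e4]
  simp only [mul_neg, sum_neg_distrib] at b
  exact abs_le.2 ⟨by linarith, a⟩

theorem lower (hp : IsP p) (X : Ω → α) (Y : Ω → β) (K : Ω → κ) (E : Ω → Prop)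
    (R : Ω → Ω → Prop) {l θ : ℝ} (hl : 0 < l) (hl1 : l ≤ 1)
    (hE : ∀ a a', Y a = Y a' → K a = K a' → E a → E a')
    (hR : ∀ a a' b b', Y a = Y a' → K a = K a' → X b = X b' → K b = K b' → R a b → R a' b')
    (h : ∀ a, p a ≠ 0 → E a → θ * pr p K (K a) ≤ P p fun b => K b = K a ∧ R a b) :
    θ * P p E - (Ic p X Y K / l + l) ≤ P p fun a => E a ∧ R a a := by
  classical
  have a := (abs_le.1 (pinsk hp X Y K (fun a b => if E a ∧ R a b then 1 else 0) hl hl1
    (fun a b => by split_ifs <;> simp) fun a a' b b' e1 e2 e3 e4 => if_congr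
      ⟨fun t => ⟨hE _ _ e1 e2 t.1, hR _ _ _ _ e1 e2 e3 e4 t.2⟩, fun t =>
        ⟨hE _ _ e1.symm e2.symm t.1, hR _ _ _ _ e1.symm e2.symm e3.symm e4.symm t.2⟩⟩ rfl rfl)).1
  have b : ∑ ω, p ω * (if E ω ∧ R ω ω then 1 else 0) = P p fun a => E a ∧ R a a :=
    sum_congr rfl fun ω _ => by by_cases t : E ω ∧ R ω ω <;> simp only [t, if_true, if_false,
      mul_one, mul_zero, and_self]
  have c : θ * P p E ≤ ∑ ω : Ω × Ω, glue p K ω * if E ω.1 ∧ R ω.1 ω.2 then 1 else 0 := by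
    rw [P, mul_sum, Fintype.sum_prod_type]
    refine sum_le_sum fun a _ => ?_
    by_cases t : E a
    swap
    · simp [t]
    by_cases h0 : p a = 0
    · simp [glue, h0]
    have e : ∑ b, glue p K (a, b) * (if E a ∧ R a b then 1 else 0) =
        p a / pr p K (K a) * P p fun b => K b = K a ∧ R a b := by
      rw [P, mul_sum]
      refine sum_congr rfl fun b _ => ?_
      by_cases u : K a = K b
      · by_cases v : R a b
        · simp only [glue, u, v, t, and_self, if_true]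
          ring
        · simp [v]
      · simp [glue, u, Ne.symm u]
    rw [if_pos t, e, div_mul_eq_mul_div, le_div_iff₀ (pr_pos hp K h0), mul_right_comm, mul_comm]
    exact mul_le_mul_of_nonneg_left (h a h0 t) (hp.nn a)
  linarith

/-! ### Digits -/

theorem dg_self (n : ℕ) (x : ℤ) : dg n n x = x := by
  simp [dg]

theorem dg_zero {n : ℕ} {x : ℤ} (h0 : 0 ≤ x) (h1 : x < 2 ^ n) : dg n 0 x = 0 :=
  Int.ediv_eq_zero_of_lt h0 h1

theorem dg_dg {n s t : ℕ} (h : s ≤ t) (ht : t ≤ n) (x : ℤ) : dg n s x = dg n t x / 2 ^ (t - s) := by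
  rw [dg, dg, Int.ediv_ediv_of_nonneg (by positivity), ← pow_add]
  congr 2
  omega

theorem dg_eq_of_le {n s t : ℕ} (h : s ≤ t) {x y : ℤ} (e : dg n t x = dg n t y) :
    dg n s x = dg n s y := by
  have : n - s = n - t + (n - s - (n - t)) := by omega
  rw [dg, dg] at e ⊢
  rw [this, pow_add, ← Int.ediv_ediv_of_nonneg (by positivity),
    ← Int.ediv_ediv_of_nonneg (by positivity), e]

theorem dg_near {n t : ℕ} {x y : ℤ} (e : dg n t x = dg n t y) : |x - y| < 2 ^ (n - t) := by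
  have h : (0 : ℤ) < 2 ^ (n - t) := by positivity
  have a := Int.ediv_mul_le x h.ne'
  have b := Int.lt_ediv_add_one_mul_self x h
  have c := Int.ediv_mul_le y h.ne'
  have d := Int.lt_ediv_add_one_mul_self y h
  rw [dg, dg] at e
  rw [e] at a b
  exact abs_lt.2 ⟨by linarith, by linarith⟩

theorem dg_far {n t : ℕ} {x y : ℤ} (e : 2 ≤ |dg n t x - dg n t y|) : 2 ^ (n - t) < |x - y| := by
  have h : (0 : ℤ) < 2 ^ (n - t) := by positivity
  have a := Int.ediv_mul_le x h.ne'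
  have b := Int.lt_ediv_add_one_mul_self x h
  have c := Int.ediv_mul_le y h.ne'
  have d := Int.lt_ediv_add_one_mul_self y h
  rw [dg, dg] at e
  rcases le_abs.1 e with e | e
  · exact lt_abs.2 (Or.inl (by nlinarith [mul_le_mul_of_nonneg_right e h.le]))
  · exact lt_abs.2 (Or.inr (by nlinarith [mul_le_mul_of_nonneg_right e h.le]))

theorem dg_sub (n t : ℕ) (x : ℤ) :
    0 ≤ x - dg n t x * 2 ^ (n - t) ∧ x - dg n t x * 2 ^ (n - t) < 2 ^ (n - t) := by
  have h : (0 : ℤ) < 2 ^ (n - t) := by positivity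
  have a := Int.ediv_mul_le x h.ne'
  have b := Int.lt_ediv_add_one_mul_self x h
  rw [dg]
  exact ⟨by linarith, by linarith⟩

theorem dg_floor (n t : ℕ) (x : ℤ) : dg n t x = ⌊(x : ℝ) / 2 ^ (n - t)⌋ := by
  have := Int.floor_div_cast_of_nonneg (n := 2 ^ (n - t)) (by positivity) (x : ℝ)
  rw [Int.floor_intCast, Int.cast_pow, Int.cast_ofNat] at this
  exact this.symm

/-- The values of the finer digits that are compatible with the coarser ones. -/
theorem dg_mem {n s t : ℕ} (h : s ≤ t) (ht : t ≤ n) (x : ℤ) :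
    dg n t x ∈ Ico (dg n s x * 2 ^ (t - s)) ((dg n s x + 1) * 2 ^ (t - s)) := by
  have h' : (0 : ℤ) < 2 ^ (t - s) := by positivity
  rw [dg_dg h ht]
  exact mem_Ico.2 ⟨Int.ediv_mul_le _ h'.ne', Int.lt_ediv_add_one_mul_self _ h'⟩

theorem floor_dyadic (x : ℝ) {s t : ℕ} (h : s ≤ t) : ⌊x * 2 ^ s⌋ = ⌊x * 2 ^ t⌋ / 2 ^ (t - s) := by
  rw [← Int.floor_div_cast_of_nonneg (by positivity), Int.cast_pow, Int.cast_ofNat]
  obtain ⟨d, rfl⟩ := Nat.exists_eq_add_of_le h
  rw [Nat.add_sub_cancel_left, pow_add, ← mul_assoc, mul_div_cancel_right₀ _ (by positivity)]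

theorem floor_eq_of_le {x y : ℝ} {s t : ℕ} (h : s ≤ t) (e : ⌊x * 2 ^ t⌋ = ⌊y * 2 ^ t⌋) :
    ⌊x * 2 ^ s⌋ = ⌊y * 2 ^ s⌋ := by
  rw [floor_dyadic x h, floor_dyadic y h, e]

theorem abs_le_of_floor_eq {x y : ℝ} {t : ℕ} (e : ⌊x * 2 ^ t⌋ = ⌊y * 2 ^ t⌋) :
    |x - y| ≤ 1 / 2 ^ t := by
  have := Int.abs_sub_lt_one_of_floor_eq_floor e
  rw [← sub_mul, abs_mul, abs_of_pos (a := (2 : ℝ) ^ t) (by positivity)] at this
  exact (le_div_iff₀ (by positivity)).2 this.le

namespace Jets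

variable {T : Jets Ω} {C : ℝ}

theorem fr_mem (h : T.Ok C) (k : ℕ) (ω : Ω) : T.fr k ω ∈ Set.Ico (0 : ℝ) 1 := by
  have hx := h.x_mem ω
  refine ⟨div_nonneg (by exact_mod_cast Int.floor_nonneg.2 (mul_nonneg hx.1 (by positivity)))
    (by positivity), lt_of_le_of_lt ?_ hx.2⟩
  exact (div_le_iff₀ (by positivity)).2 (Int.floor_le _)

theorem fr_le (T : Jets Ω) (k : ℕ) (ω : Ω) : T.fr k ω ≤ T.x ω ∧ T.x ω < T.fr k ω + 1 / 2 ^ k := by
  refine ⟨(div_le_iff₀ (by positivity)).2 (Int.floor_le _), ?_⟩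
  rw [fr, ← add_div, lt_div_iff₀ (by positivity)]
  exact Int.lt_floor_add_one _

theorem fr_congr {k k' : ℕ} (hk : k ≤ k') {ω ω' : Ω}
    (e : ⌊T.x ω * 2 ^ k'⌋ = ⌊T.x ω' * 2 ^ k'⌋) : T.fr k ω = T.fr k ω' := by
  rw [fr, fr, floor_eq_of_le hk e]

theorem fr_sub (T : Jets Ω) {k k' : ℕ} (hk : k ≤ k') (ω : Ω) :
    0 ≤ T.fr k' ω - T.fr k ω ∧ T.fr k' ω - T.fr k ω ≤ 1 / 2 ^ k := by
  refine ⟨sub_nonneg.2 ?_, by linarith [(T.fr_le k' ω).1, (T.fr_le k ω).2]⟩
  have h : ⌊T.x ω * 2 ^ k⌋ * 2 ^ (k' - k) ≤ ⌊T.x ω * 2 ^ k'⌋ := by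
    rw [floor_dyadic _ hk]
    exact Int.ediv_mul_le _ (by positivity)
  have h' : (⌊T.x ω * 2 ^ k⌋ : ℝ) * 2 ^ (k' - k) ≤ ⌊T.x ω * 2 ^ k'⌋ := by exact_mod_cast h
  obtain ⟨d, rfl⟩ := Nat.exists_eq_add_of_le hk
  rw [Nat.add_sub_cancel_left] at h'
  rw [fr, fr, div_le_div_iff₀ (by positivity) (by positivity), pow_add (2 : ℝ) k d,
    mul_comm ((2 : ℝ) ^ k), ← mul_assoc, mul_comm ((2 : ℝ) ^ d), ← pow_add]
  exact mul_le_mul_of_nonneg_right h' (by positivity)

theorem lab_zero (h : T.Ok C) (k : ℕ) (ω : Ω) : T.lab k 0 0 0 ω = (⌊T.x ω * 2 ^ k⌋, 0, 0, 0) := by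
  obtain ⟨a, b, c⟩ := (h.rng ω).1 _ (fr_mem h k ω)
  simp only [lab, pow_zero, mul_one, Int.floor_eq_zero_iff.2 a, Int.floor_eq_zero_iff.2 b,
    Int.floor_eq_zero_iff.2 c]

theorem lab_coarse {k a b c a' b' c' : ℕ} (ha : a ≤ a') (hb : b ≤ b') (hc : c ≤ c') {ω ω' : Ω}
    (e : T.lab k a' b' c' ω = T.lab k a' b' c' ω') : T.lab k a b c ω = T.lab k a b c ω' := by
  simp only [lab, Prod.mk.injEq] at e ⊢
  exact ⟨e.1, floor_eq_of_le ha e.2.1, floor_eq_of_le hb e.2.2.1, floor_eq_of_le hc e.2.2.2⟩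

theorem lab_mem (h : T.Ok C) (k a b c : ℕ) (ω : Ω) : T.lab k a b c ω ∈
    Ico (0 : ℤ) (2 ^ k) ×ˢ Ico (0 : ℤ) (2 ^ a) ×ˢ Ico (0 : ℤ) (2 ^ b) ×ˢ Ico (0 : ℤ) (2 ^ c) := by
  have key : ∀ y ∈ Set.Ico (0 : ℝ) 1, ∀ t : ℕ, ⌊y * 2 ^ t⌋ ∈ Ico (0 : ℤ) (2 ^ t) := fun y hy t =>
    mem_Ico.2 ⟨Int.floor_nonneg.2 (mul_nonneg hy.1 (by positivity)), Int.floor_lt.2 (by
      rw [Int.cast_pow, Int.cast_ofNat]
      exact mul_lt_of_lt_one_left (by positivity) hy.2)⟩
  obtain ⟨h0, h1, h2⟩ := (h.rng ω).1 _ (fr_mem h k ω)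
  exact mem_product.2 ⟨key _ (h.x_mem ω) k, mem_product.2 ⟨key _ h0 a,
    mem_product.2 ⟨key _ h1 b, key _ h2 c⟩⟩⟩

theorem re_ok (h : T.Ok C) {p' : Ω → ℝ} (hp : IsP p') : (T.re p').Ok C :=
  ⟨hp, h.one_le, h.x_mem, h.rng, h.tay⟩

theorem re_lab (T : Jets Ω) (p' : Ω → ℝ) (k a b c : ℕ) : (T.re p').lab k a b c = T.lab k a b c :=
  rfl

end Jets

end Pool.Agent.MP_538dc4_an.AB
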