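import Mathlib.Tactic.Monotonicity.Lemmas
import Mathlib.Algebra.Order.Star.Real
import Mathlib.MeasureTheory.Measure.Haar.Disintegration
import Mathlib.MeasureTheory.Integral.IntervalIntegral.AbsolutelyContinuousFun
import Mathlib.Analysis.SpecialFunctions.Integrals.Basic
import Mathlib.Analysis.SpecialFunctions.PolarCoord
import Mathlib.RingTheory.PiTensorProduct
import Pool.Agent.MP_538dc4_an.ab.Spec

-- ======== part 0: formerly Pool.Agent.MP_538dc4_an.ab.BasicM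
section MrgPart0

/-! PROJECT FURST2: basic lemmas for the real variable argument. -/

open MeasureTheory Filter Topology Set

namespace Pool.Agent.MP_538dc4_an.AB

theorem et_pos (n : ℕ) : 0 < et n := pow_pos (by norm_num) n

theorem et_tendsto : Tendsto et atTop (𝓝 0) :=
  tendsto_pow_atTop_nhds_zero_of_lt_one (by norm_num) (by norm_num)

theorem et_summable : Summable et := summable_geometric_of_lt_one (by norm_num) (by norm_num)

theorem ftc_eq {φ : ℝ → ℝ} {K : ℝ} (h : ∀ s t, |φ s - φ t| ≤ K * |s - t|) (a b : ℝ) :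
    ∫ t in a..b, deriv φ t = φ b - φ a :=
  (LipschitzWith.of_dist_le' (K := K) h).lipschitzOnWith.absolutelyContinuousOnInterval
    |>.integral_deriv_eq_sub

/-- A bounded measurable function is integrable on intervals. -/
theorem ii_of_bdd {φ : ℝ → ℝ} {K : ℝ} (h : Measurable φ) (hb : ∀ t, |φ t| ≤ K) (a b : ℝ) :
    IntervalIntegrable φ volume a b :=
  (intervalIntegrable_const (c := K)).mono_fun' h.aestronglyMeasurable (ae_of_all _ hb)

theorem int_le {φ ψ : ℝ → ℝ} {a b : ℝ} (hab : a ≤ b) (h1 : IntervalIntegrable φ volume a b)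
    (h2 : IntervalIntegrable ψ volume a b) (h : ∀ᵐ t, t ∈ Ioo a b → φ t ≤ ψ t) :
    ∫ t in a..b, φ t ≤ ∫ t in a..b, ψ t := by
  rw [intervalIntegral.integral_of_le hab, intervalIntegral.integral_of_le hab,
    integral_Ioc_eq_integral_Ioo, integral_Ioc_eq_integral_Ioo]
  exact setIntegral_mono_ae_restrict (h1.1.mono_set Ioo_subset_Ioc_self)
    (h2.1.mono_set Ioo_subset_Ioc_self) ((ae_restrict_iff' measurableSet_Ioo).2 h)

theorem ae_affine {G : ℝ → Prop} (h : ∀ᵐ t, G t) {α : ℝ} (hα : α ≠ 0) (β : ℝ) :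
    ∀ᵐ s, G (α * s + β) := by
  have q : Measure.QuasiMeasurePreserving (fun s : ℝ => α * s) volume volume :=
    ⟨by fun_prop, by
      rw [Real.map_volume_mul_left hα]
      exact Measure.smul_absolutelyContinuous⟩
  exact q.ae ((measurePreserving_add_right volume β).quasiMeasurePreserving.ae h)

theorem exists_ae {G : ℝ → Prop} (h : ∀ᵐ t, G t) {a b : ℝ} (hab : a < b) : ∃ t ∈ Ioo a b, G t :=
  Measure.exists_mem_of_measure_ne_zero_of_ae (μ := volume) (by simpa using hab)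
    (ae_restrict_of_ae h)

/-- Almost everywhere statements along the lines of an invertible linear change. -/
theorem ae_lines {G : ℝ × ℝ → Prop} (h : ∀ᵐ z, G z) {α β γ δ : ℝ} (hd : α * δ - β * γ ≠ 0) :
    ∀ᵐ s : ℝ, ∀ᵐ t : ℝ, G (α * s + β * t, γ * s + δ * t) := by
  obtain ⟨S, h1, h2, h3⟩ := h.exists_measurable_mem
  let T : ℝ × ℝ →ₗ[ℝ] ℝ × ℝ := LinearMap.prod (α • LinearMap.fst ℝ ℝ ℝ + β • LinearMap.snd ℝ ℝ ℝ)
    (γ • LinearMap.fst ℝ ℝ ℝ + δ • LinearMap.snd ℝ ℝ ℝ)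
  have e : ∀ z : ℝ × ℝ, T z = (α * z.1 + β * z.2, γ * z.1 + δ * z.2) := fun z => rfl
  have s : Function.Surjective T := fun y =>
    ⟨((δ * y.1 - β * y.2) / (α * δ - β * γ), (α * y.2 - γ * y.1) / (α * δ - β * γ)), by
      rw [e]
      refine Prod.ext ?_ ?_ <;> simp only [← mul_div_assoc, ← add_div] <;>
        rw [div_eq_iff hd] <;> ring⟩
  have k : ∀ᵐ z : ℝ × ℝ, G (α * z.1 + β * z.2, γ * z.1 + δ * z.2) :=
    ((ae_comp_linearMap_mem_iff T volume volume s h2).2 h1).mono fun z hz => h3 _ hz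
  exact Measure.ae_ae_of_ae_prod
    (p := fun z : ℝ × ℝ => G (α * z.1 + β * z.2, γ * z.1 + δ * z.2)) k

theorem right_pos {φ : ℝ → ℝ} {a b : ℝ} (hm : Measurable φ) (hb : ∀ t, 0 ≤ φ t ∧ φ t ≤ 1)
    (hab : a ≤ b) (hpos : 0 < ∫ t in a..b, φ t) :
    ∃ z ∈ Ico a b, ∫ s in a..z, φ s = 0 ∧ ∀ ξ : ℝ, 0 < ξ → 0 < ∫ s in z..(z + ξ), φ s := by
  have ii := ii_of_bdd (K := 1) hm fun t => abs_le.2 ⟨by linarith [(hb t).1], (hb t).2⟩
  have ad : ∀ x y z, (∫ s in x..y, φ s) + ∫ s in y..z, φ s = ∫ s in x..z, φ s := fun x y z =>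
    intervalIntegral.integral_add_adjacent_intervals (ii x y) (ii y z)
  have nn : ∀ x y, x ≤ y → 0 ≤ ∫ s in x..y, φ s := fun x y hxy =>
    intervalIntegral.integral_nonneg hxy fun s _ => (hb s).1
  have c : IsClosed (Icc a b ∩ {z | ∫ s in a..z, φ s = 0}) :=
    isClosed_Icc.inter (isClosed_eq (intervalIntegral.continuous_primitive ii a) continuous_const)
  have bd : BddAbove (Icc a b ∩ {z | ∫ s in a..z, φ s = 0}) := bddAbove_Icc.inter_of_left
  obtain ⟨⟨z1, z2⟩, z3⟩ := c.csSup_mem ⟨a, ⟨le_rfl, hab⟩, intervalIntegral.integral_same⟩ bd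
  have ub : ∀ y ∈ Icc a b ∩ {z | ∫ s in a..z, φ s = 0}, y ≤ _ := fun y hy => le_csSup bd hy
  generalize sSup (Icc a b ∩ {z | ∫ s in a..z, φ s = 0}) = z at z1 z2 z3 ub
  have z4 : ∫ s in a..z, φ s = 0 := z3
  refine ⟨z, ⟨z1, z2.lt_of_ne fun e => hpos.ne' (e ▸ z4)⟩, z4, fun ξ hξ => ?_⟩
  by_contra hn
  have k1 := nn z (z + ξ) (by linarith)
  have k2 := ad a z (z + ξ)
  rcases le_total (z + ξ) b with h1 | h1
  · have := ub (z + ξ) ⟨⟨by linarith, h1⟩, show ∫ s in a..(z + ξ), φ s = 0 by linarith⟩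
    linarith
  · linarith [ad a b (z + ξ), nn b (z + ξ) h1]

/-- A good point close to the essential infimum of the set where φ is positive. -/
theorem first_pos {φ : ℝ → ℝ} {G : ℝ → Prop} {a b ξ : ℝ} (hm : Measurable φ)
    (hb : ∀ t, |φ t| ≤ 1) (hab : a ≤ b) (hG : ∀ᵐ t, t ∈ Ioo a b → G t)
    (hpos : 0 < ∫ t in a..b, φ t) (hξ : 0 < ξ) :
    ∃ t ∈ Ioo a b, G t ∧ 0 < φ t ∧ ∫ s in a..t, φ s ≤ ξ ∧ 0 < ∫ s in t..b, max (φ s) 0 := by
  have m1 : Measurable fun s => max (φ s) 0 := hm.max measurable_const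
  have b1 : ∀ t, 0 ≤ max (φ t) 0 ∧ max (φ t) 0 ≤ 1 := fun t =>
    ⟨le_max_right _ _, max_le (abs_le.1 (hb t)).2 zero_le_one⟩
  have ii := ii_of_bdd (K := 1) m1 fun t => abs_le.2 ⟨by linarith [(b1 t).1], (b1 t).2⟩
  have ad : ∀ x y z, (∫ s in x..y, max (φ s) 0) + ∫ s in y..z, max (φ s) 0 =
      ∫ s in x..z, max (φ s) 0 := fun x y z =>
    intervalIntegral.integral_add_adjacent_intervals (ii x y) (ii y z)
  have le1 : ∀ x y, x ≤ y → ∫ s in x..y, φ s ≤ ∫ s in x..y, max (φ s) 0 := fun x y hxy =>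
    int_le hxy (ii_of_bdd hm hb x y) (ii x y) (ae_of_all _ fun s _ => le_max_left _ _)
  have le2 : ∀ x y, x ≤ y → ∫ s in x..y, max (φ s) 0 ≤ y - x := fun x y hxy => by
    simpa using int_le hxy (ii x y) (intervalIntegrable_const (c := (1 : ℝ)))
      (ae_of_all _ fun s _ => (b1 s).2)
  have p0 := hpos.trans_le (le1 a b hab)
  obtain ⟨z, ⟨z1, z2⟩, z3, z4⟩ := right_pos m1 b1 hab p0
  have k1 := ad a z b
  have k2 := le2 z b z2.le
  obtain ⟨δ, d0, d1, d2⟩ : ∃ δ : ℝ, 0 < δ ∧ δ ≤ ξ ∧ δ ≤ (∫ s in a..b, max (φ s) 0) / 2 :=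
    ⟨min ξ _, lt_min hξ (half_pos p0), min_le_left _ _, min_le_right _ _⟩
  obtain ⟨t, ⟨t1, t2⟩, t3, t4⟩ : ∃ t ∈ Ioo z (z + δ), G t ∧ 0 < φ t := by
    by_contra hn
    have k3 := int_le (ψ := fun _ => 0) (show z ≤ z + δ by linarith) (ii _ _)
      intervalIntegrable_const (hG.mono fun t ht h1 => max_le (not_lt.1 fun h2 =>
        hn ⟨t, h1, ht ⟨by linarith [h1.1], by linarith [h1.2]⟩, h2⟩) le_rfl)
    rw [intervalIntegral.integral_zero] at k3
    exact k3.not_gt (z4 δ d0)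
  have k4 := le2 z t t1.le
  have k5 := ad a z t
  refine ⟨t, ⟨by linarith, by linarith⟩, t3, t4, ?_, ?_⟩
  · linarith [le1 a t (by linarith)]
  · linarith [ad a t b]

/-- Comparison of two derivatives at the origin. -/
theorem bm_der_le {g k : ℝ → ℝ} {g' k' ρ : ℝ} (hρ : 0 < ρ) (hg : HasDerivAt g g' 0)
    (hk : HasDerivAt k k' 0) (h : ∀ t ∈ Ioo 0 ρ, g t - g 0 ≤ k t - k 0) : g' ≤ k' := by
  refine le_of_tendsto_of_tendsto hg.tendsto_slope_zero_right hk.tendsto_slope_zero_right ?_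
  filter_upwards [Ioo_mem_nhdsGT hρ] with t ht
  rw [zero_add]
  exact mul_le_mul_of_nonneg_left (h t ht) (inv_nonneg.2 ht.1.le)

namespace Mac

variable {M : Mac} {u v : ℝ}

theorem Ok.lam_ii (h : M.Ok u v) (x a b : ℝ) : IntervalIntegrable (M.lam x) volume a b :=
  ii_of_bdd (K := 1) (h.meas x)
    (fun t => abs_le.2 ⟨by linarith [h.nonneg x t], h.le_one x t⟩) a b

theorem Ok.W_nonneg (h : M.Ok u v) {l : ℝ} (hl : 0 ≤ l) : 0 ≤ M.W l := h.W_zero ▸ h.W_mono hl

theorem Ok.om_nonneg (h : M.Ok u v) (l : ℝ) : 0 ≤ M.om l := h.W_mono.deriv_nonneg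

theorem Ok.om_le (h : M.Ok u v) (l : ℝ) : |M.om l| ≤ 2 :=
  norm_deriv_le_of_lip' (f := M.W) (x₀ := l) zero_le_two
    (Eventually.of_forall fun x => h.W_lip x l)

theorem om_meas (M : Mac) : Measurable M.om := measurable_deriv M.W

theorem Ok.om_ii (h : M.Ok u v) (α β a b : ℝ) :
    IntervalIntegrable (fun t => M.om (α * t + β)) volume a b :=
  ii_of_bdd ((om_meas M).comp (by fun_prop)) (fun _ => h.om_le _) a b

theorem Ok.int_om (h : M.Ok u v) (α β a b : ℝ) :
    α * ∫ t in a..b, M.om (α * t + β) = M.W (α * b + β) - M.W (α * a + β) := by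
  rw [intervalIntegral.mul_integral_comp_mul_add]
  exact ftc_eq h.W_lip _ _

theorem sg_meas (M : Mac) (L : ℝ) : Measurable fun z : ℝ × ℝ => M.sg L z.1 z.2 :=
  measurable_fderiv_apply_const ℝ (fun z : ℝ × ℝ => M.Ct L z.1 z.2) (1, 0)

theorem mu_meas (M : Mac) (L : ℝ) : Measurable fun z : ℝ × ℝ => M.mu L z.1 z.2 :=
  measurable_fderiv_apply_const ℝ (fun z : ℝ × ℝ => M.Ct L z.1 z.2) (0, 1)

theorem line_deriv (M : Mac) {L b0 c0 α β t : ℝ}
    (hd : DifferentiableAt ℝ (fun z : ℝ × ℝ => M.Ct L z.1 z.2) (α * t + b0, β * t + c0)) :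
    HasDerivAt (fun s => M.Ct L (α * s + b0) (β * s + c0))
      (α * M.sg L (α * t + b0) (β * t + c0) + β * M.mu L (α * t + b0) (β * t + c0)) t := by
  have l : HasDerivAt (fun s : ℝ => (α * s + b0, β * s + c0)) (α * 1, β * 1) t :=
    (((hasDerivAt_id t).const_mul α).add_const b0).prodMk
      (((hasDerivAt_id t).const_mul β).add_const c0)
  have k := hd.hasFDerivAt.comp_hasDerivAt t l
  rw [show (α * 1, β * 1) = α • ((1 : ℝ), (0 : ℝ)) + β • ((0 : ℝ), (1 : ℝ)) by simp, map_add,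
    map_smul, map_smul] at k
  exact k

theorem bm_sg_der (M : Mac) {L b c : ℝ}
    (hd : DifferentiableAt ℝ (fun z : ℝ × ℝ => M.Ct L z.1 z.2) (b, c)) :
    HasDerivAt (fun s => M.Ct L (b + s) c) (M.sg L b c) 0 := by
  have k := M.line_deriv (L := L) (b0 := b) (c0 := c) (α := 1) (β := 0) (t := 0) (by simpa using hd)
  simpa only [one_mul, zero_mul, zero_add, add_zero, add_comm _ b] using k

theorem bm_mu_der (M : Mac) {L b c : ℝ}
    (hd : DifferentiableAt ℝ (fun z : ℝ × ℝ => M.Ct L z.1 z.2) (b, c)) :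
    HasDerivAt (fun s => M.Ct L b (c + s)) (M.mu L b c) 0 := by
  have k := M.line_deriv (L := L) (b0 := b) (c0 := c) (α := 0) (β := 1) (t := 0) (by simpa using hd)
  simpa only [one_mul, zero_mul, zero_add, add_zero, add_comm _ c] using k

theorem bm_sg_zero (M : Mac) {L b c : ℝ}
    (hd : ¬ DifferentiableAt ℝ (fun z : ℝ × ℝ => M.Ct L z.1 z.2) (b, c)) : M.sg L b c = 0 := by
  rw [sg, fderiv_zero_of_not_differentiableAt hd]
  rfl

theorem bm_mu_zero (M : Mac) {L b c : ℝ}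
    (hd : ¬ DifferentiableAt ℝ (fun z : ℝ × ℝ => M.Ct L z.1 z.2) (b, c)) : M.mu L b c = 0 := by
  rw [mu, fderiv_zero_of_not_differentiableAt hd]
  rfl

theorem Ok.sg_le (h : M.Ok u v) (L b c : ℝ) : |M.sg L b c| ≤ 1 := by
  by_cases hd : DifferentiableAt ℝ (fun z : ℝ × ℝ => M.Ct L z.1 z.2) (b, c)
  · refine (M.bm_sg_der hd).le_of_lip' zero_le_one (Eventually.of_forall fun x => ?_)
    simpa using h.C_lip L (b + x) c L b c
  · rw [M.bm_sg_zero hd, abs_zero]
    exact zero_le_one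

theorem Ok.mu_le (h : M.Ok u v) (L b c : ℝ) : |M.mu L b c| ≤ 1 := by
  by_cases hd : DifferentiableAt ℝ (fun z : ℝ × ℝ => M.Ct L z.1 z.2) (b, c)
  · refine (M.bm_mu_der hd).le_of_lip' zero_le_one (Eventually.of_forall fun x => ?_)
    simpa using h.C_lip L b (c + x) L b c
  · rw [M.bm_mu_zero hd, abs_zero]
    exact zero_le_one

theorem Ok.sg_nonneg (h : M.Ok u v) {L b c : ℝ} (h0 : 0 ≤ c) (h1 : c ≤ b) (h2 : b < L)
    (h3 : L ≤ 1) : 0 ≤ M.sg L b c := by
  by_cases hd : DifferentiableAt ℝ (fun z : ℝ × ℝ => M.Ct L z.1 z.2) (b, c)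
  · refine bm_der_le (sub_pos.2 h2) (hasDerivAt_const 0 (0 : ℝ)) (M.bm_sg_der hd) fun t ht => ?_
    rw [sub_self, add_zero, sub_nonneg]
    exact h.C_mono _ _ _ _ _ _ ⟨h0, h1, h2.le, h3⟩
      ⟨h0, by linarith [ht.1], by linarith [ht.2], h3⟩ le_rfl (by linarith [ht.1]) le_rfl
  · exact (M.bm_sg_zero hd).ge

theorem Ok.mu_nonneg (h : M.Ok u v) {L b c : ℝ} (h0 : 0 ≤ c) (h1 : c < b) (h2 : b ≤ L)
    (h3 : L ≤ 1) : 0 ≤ M.mu L b c := by
  by_cases hd : DifferentiableAt ℝ (fun z : ℝ × ℝ => M.Ct L z.1 z.2) (b, c)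
  · refine bm_der_le (sub_pos.2 h1) (hasDerivAt_const 0 (0 : ℝ)) (M.bm_mu_der hd) fun t ht => ?_
    rw [sub_self, add_zero, sub_nonneg]
    exact h.C_mono _ _ _ _ _ _ ⟨h0, h1.le, h2, h3⟩
      ⟨by linarith [ht.1], by linarith [ht.2], h2, h3⟩ le_rfl le_rfl (by linarith [ht.1])
  · exact (M.bm_mu_zero hd).ge

theorem Ok.sg_ii (h : M.Ok u v) (L b0 c0 α β s t : ℝ) :
    IntervalIntegrable (fun r => M.sg L (α * r + b0) (β * r + c0)) volume s t :=
  ii_of_bdd ((sg_meas M L).comp (f := fun r : ℝ => (α * r + b0, β * r + c0)) (by fun_prop))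
    (fun _ => h.sg_le _ _ _) s t

theorem Ok.mu_ii (h : M.Ok u v) (L b0 c0 α β s t : ℝ) :
    IntervalIntegrable (fun r => M.mu L (α * r + b0) (β * r + c0)) volume s t :=
  ii_of_bdd ((mu_meas M L).comp (f := fun r : ℝ => (α * r + b0, β * r + c0)) (by fun_prop))
    (fun _ => h.mu_le _ _ _) s t

/-- The increment of Ct L along a segment. -/
theorem Ok.path (h : M.Ok u v) (L b0 c0 α β : ℝ) {s t : ℝ} (hst : s ≤ t)
    (hd : ∀ᵐ r, r ∈ Ioo s t →
      DifferentiableAt ℝ (fun z : ℝ × ℝ => M.Ct L z.1 z.2) (α * r + b0, β * r + c0)) :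
    M.Ct L (α * t + b0) (β * t + c0) - M.Ct L (α * s + b0) (β * s + c0) =
      α * (∫ r in s..t, M.sg L (α * r + b0) (β * r + c0)) +
        β * ∫ r in s..t, M.mu L (α * r + b0) (β * r + c0) := by
  have k := ftc_eq (φ := fun r => M.Ct L (α * r + b0) (β * r + c0)) (K := |α| + |β|)
    (fun x y => (h.C_lip _ _ _ _ _ _).trans (le_of_eq (by
      rw [sub_self, abs_zero, zero_add, add_sub_add_right_eq_sub, add_sub_add_right_eq_sub,
        ← mul_sub, ← mul_sub, abs_mul, abs_mul, add_mul]))) s t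
  rw [← k, ← intervalIntegral.integral_const_mul, ← intervalIntegral.integral_const_mul,
    ← intervalIntegral.integral_add ((h.sg_ii L b0 c0 α β s t).const_mul α)
      ((h.mu_ii L b0 c0 α β s t).const_mul β), intervalIntegral.integral_of_le hst,
    intervalIntegral.integral_of_le hst, integral_Ioc_eq_integral_Ioo,
    integral_Ioc_eq_integral_Ioo]
  exact setIntegral_congr_ae measurableSet_Ioo
    (hd.mono fun r hr h1 => (M.line_deriv (hr h1)).deriv)

/-- Comparison of mu at two points of a horizontal line. -/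
theorem mu_le_mu (M : Mac) {L b b' c ρ : ℝ} (hρ : 0 < ρ)
    (h1 : DifferentiableAt ℝ (fun z : ℝ × ℝ => M.Ct L z.1 z.2) (b, c))
    (h2 : DifferentiableAt ℝ (fun z : ℝ × ℝ => M.Ct L z.1 z.2) (b', c))
    (h : ∀ t ∈ Ioo 0 ρ, M.Ct L b (c + t) - M.Ct L b c ≤ M.Ct L b' (c + t) - M.Ct L b' c) :
    M.mu L b c ≤ M.mu L b' c :=
  bm_der_le hρ (M.bm_mu_der h1) (M.bm_mu_der h2) fun t ht => by simpa only [add_zero] using h t ht

theorem Ok.ae_row (h : M.Ok u v) {L : ℝ} (h0 : 0 < L) (h1 : L ≤ 1) :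
    ∀ᵐ c, ∀ᵐ b, M.Pt L b c := by
  simpa only [one_mul, zero_mul, zero_add, add_zero] using
    ae_lines (h.ae L h0 h1) (α := 0) (β := 1) (γ := 1) (δ := 0) (by norm_num)

theorem Ok.ae_good (h : M.Ok u v) {L : ℝ} (h0 : 0 < L) (h1 : L ≤ 1) :
    ∀ᵐ z : ℝ × ℝ, M.Good L z.1 z.2 :=
  (h.ae L h0 h1).and (Measure.quasiMeasurePreserving_snd.ae (h.ae_row h0 h1))

theorem Ok.ae_diag (h : M.Ok u v) {L : ℝ} (h0 : 0 < L) (h1 : L ≤ 1) :
    ∀ᵐ k, ∀ᵐ c, M.Good L (c + k) c := by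
  refine (ae_lines (h.ae_good h0 h1) (α := 1) (β := 1) (γ := 0) (δ := 1) (by norm_num)).mono
    fun k hk => hk.mono fun c hc => ?_
  rw [add_comm]
  simpa only [one_mul, zero_mul, zero_add] using hc

theorem Ok.ae_half (h : M.Ok u v) {L : ℝ} (h0 : 0 < L) (h1 : L ≤ 1) :
    ∀ᵐ y, ∀ᵐ c, M.Good L ((y + c) / 2) c := by
  refine (ae_lines (h.ae_good h0 h1) (α := 1 / 2) (β := 1 / 2) (γ := 0) (δ := 1)
    (by norm_num)).mono fun y hy => hy.mono fun c hc => ?_
  rw [show (y + c) / 2 = 1 / 2 * y + 1 / 2 * c by ring]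
  simpa only [one_mul, zero_mul, zero_add] using hc

theorem Ok.R_nonneg (h : M.Ok u v) {x L : ℝ} (h0 : 0 ≤ x) (h1 : x ≤ L) (h2 : L ≤ 1) :
    0 ≤ M.R x L :=
  sub_nonneg.2 (h.C_mono _ _ _ _ _ _ ⟨h0, le_rfl, h1, h2⟩ ⟨h0.trans h1, le_rfl, le_rfl, h2⟩ le_rfl
    h1 h1)

theorem Ok.R_sub (h : M.Ok u v) {x y z : ℝ} (h0 : 0 ≤ x) (h1 : x ≤ y) (h2 : y ≤ z) (h3 : z ≤ 1) :
    M.R x z ≤ M.R x y + M.R y z := by
  have k := h.C_sub y y y z x x y x x ⟨h0.trans h1, le_rfl, le_rfl, h2.trans h3⟩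
    ⟨h0, le_rfl, h1.trans h2, h3⟩ ⟨h0, le_rfl, h1, h2.trans h3⟩ le_rfl h1 h1 h2 le_rfl le_rfl
  rw [max_eq_right h2, max_eq_left h1] at k
  unfold R
  linarith

/-- The cost between the levels x and L is that of a diagonal, up to 2 k + 2 d. -/
theorem Ok.R_le_diag (h : M.Ok u v) {x L k d ψ : ℝ} (h0 : 0 ≤ x) (hk : 0 < k) (hkd : k ≤ d)
    (hd : x + d ≤ L) (h1 : L ≤ 1) (hψ : 0 ≤ ψ)
    (hg : ∀ᵐ c, c ∈ Ioo x (L - d) →
      DifferentiableAt ℝ (fun z : ℝ × ℝ => M.Ct L z.1 z.2) (c + k, c) ∧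
        M.sg L (c + k) c + M.mu L (c + k) c ≤ ψ) :
    M.R x L ≤ ψ * (L - x) + 2 * d + k := by
  have hx : x ≤ L - d := by linarith
  have k1 := h.path L k 0 1 1 hx (hg.mono fun c hc h2 => by
    simpa only [one_mul, add_zero] using (hc h2).1)
  have i1 := h.sg_ii L k 0 1 1 x (L - d)
  have i2 := h.mu_ii L k 0 1 1 x (L - d)
  simp only [one_mul, add_zero] at k1 i1 i2
  have k2 := int_le hx (i1.add i2) (intervalIntegrable_const (c := ψ))
    (hg.mono fun c hc h2 => (hc h2).2)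
  rw [intervalIntegral.integral_add i1 i2, intervalIntegral.integral_const, smul_eq_mul] at k2
  have k3 := (abs_le.1 (h.C_lip L (x + k) x L x x)).2
  have k4 := (abs_le.1 (h.C_lip L L L L (L - d + k) (L - d))).2
  rw [sub_self, sub_self, abs_zero, add_sub_cancel_left, abs_of_pos hk] at k3
  rw [sub_self, abs_zero, abs_of_nonneg (show 0 ≤ L - (L - d + k) by linarith),
    abs_of_nonneg (show 0 ≤ L - (L - d) by linarith)] at k4
  have k5 : 0 ≤ ψ * d := mul_nonneg hψ (hk.le.trans hkd)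
  unfold R
  linarith

end Mac

end Pool.Agent.MP_538dc4_an.AB

end MrgPart0

-- ======== part 1: formerly Pool.Agent.MP_538dc4_an.ab.Star
section MrgPart1

/-! PROJECT FURST2: the one dimensional Brunn-Minkowski step and the star estimate. -/

open MeasureTheory Filter Topology Set

namespace Pool.Agent.MP_538dc4_an.AB

namespace StarAux

variable {M : Mac} {u v : ℝ}

theorem abs_le_one {φ : ℝ → ℝ} (h : ∀ t, 0 ≤ φ t ∧ φ t ≤ 1) (t : ℝ) : |φ t| ≤ 1 :=
  abs_le.2 ⟨by linarith [(h t).1], (h t).2⟩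

theorem meas_set (M : Mac) {ς lam : ℝ → ℝ} (h1 : Measurable ς) (h2 : Measurable lam)
    (b0 b1 y0 y1 : ℝ) :
    MeasurableSet {z : ℝ × ℝ | z.1 ∈ Ioo b0 b1 → z.2 ∈ Ioo y0 y1 → 0 < ς z.1 → 0 < lam z.2 →
      ς z.1 ≤ M.om (z.2 - z.1) ∧ lam z.2 ≤ M.om (z.2 - z.1)} := by
  have m1 : Measurable fun z : ℝ × ℝ => ς z.1 := h1.comp measurable_fst
  have m2 : Measurable fun z : ℝ × ℝ => lam z.2 := h2.comp measurable_snd
  have m3 : Measurable fun z : ℝ × ℝ => M.om (z.2 - z.1) :=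
    M.om_meas.comp (measurable_snd.sub measurable_fst)
  refine MeasurableSet.imp (measurable_fst measurableSet_Ioo) ?_
  refine MeasurableSet.imp (measurable_snd measurableSet_Ioo) ?_
  refine MeasurableSet.imp (measurableSet_lt measurable_const m1) ?_
  refine MeasurableSet.imp (measurableSet_lt measurable_const m2) ?_
  exact (measurableSet_le m1 m3).inter (measurableSet_le m2 m3)

/-- The integral of the shifted derivative, moving to the right. -/
theorem int_right (h : M.Ok u v) (a s t : ℝ) :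
    ∫ y in s..t, M.om (y - a) = M.W (t - a) - M.W (s - a) := by
  have := h.int_om 1 (-a) s t
  simpa only [one_mul, ← sub_eq_add_neg] using this

theorem ii_right (h : M.Ok u v) (a s t : ℝ) :
    IntervalIntegrable (fun y => M.om (y - a)) volume s t := by
  have := h.om_ii 1 (-a) s t
  simpa only [one_mul, ← sub_eq_add_neg] using this

/-- The integral of the shifted derivative, moving to the left. -/
theorem int_left (h : M.Ok u v) (a s t : ℝ) :
    ∫ b in s..t, M.om (a - b) = M.W (a - s) - M.W (a - t) := by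
  have := h.int_om (-1) a s t
  have e : ∀ r : ℝ, -1 * r + a = a - r := fun r => by ring
  simp only [e] at this
  linarith

theorem ii_left (h : M.Ok u v) (a s t : ℝ) :
    IntervalIntegrable (fun b => M.om (a - b)) volume s t := by
  have := h.om_ii (-1) a s t
  have e : ∀ r : ℝ, -1 * r + a = a - r := fun r => by ring
  simpa only [e] using this

theorem int_half (h : M.Ok u v) (a s : ℝ) :
    ∫ c in s..a, M.om ((a - c) / 2) = 2 * M.W ((a - s) / 2) := by
  have := h.int_om (-1 / 2) (a / 2) s a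
  have e : ∀ r : ℝ, -1 / 2 * r + a / 2 = (a - r) / 2 := fun r => by ring
  simp only [e, sub_self, zero_div, h.W_zero] at this
  linarith

theorem ii_half (h : M.Ok u v) (a s t : ℝ) :
    IntervalIntegrable (fun c => M.om ((a - c) / 2)) volume s t := by
  have := h.om_ii (-1 / 2) (a / 2) s t
  have e : ∀ r : ℝ, -1 / 2 * r + a / 2 = (a - r) / 2 := fun r => by ring
  simpa only [e] using this

end StarAux

open StarAux in
theorem bm : BmStmt := by
  intro M u v b0 b1 y0 y1 ς lam h hς hlam hς1 hlam1 hb hby hy hae hp1 hp2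
  refine le_of_forall_pos_le_add fun ε hε => ?_
  have hξ : 0 < ε / 2 := by linarith
  have hae' : ∀ᵐ b : ℝ, ∀ᵐ y : ℝ, b ∈ Ioo b0 b1 → y ∈ Ioo y0 y1 → 0 < ς b → 0 < lam y →
      ς b ≤ M.om (y - b) ∧ lam y ≤ M.om (y - b) := by
    filter_upwards [hae] with b hb'
    by_cases hm : b ∈ Ioo b0 b1
    · filter_upwards [hb' hm] with y hy' _ using hy'
    · exact Eventually.of_forall fun y hm' => absurd hm' hm
  have hsw : ∀ᵐ y : ℝ, ∀ᵐ b : ℝ, b ∈ Ioo b0 b1 → y ∈ Ioo y0 y1 → 0 < ς b → 0 < lam y →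
      ς b ≤ M.om (y - b) ∧ lam y ≤ M.om (y - b) :=
    (Measure.ae_ae_comm (μ := volume) (ν := volume)
      (p := fun b y => b ∈ Ioo b0 b1 → y ∈ Ioo y0 y1 → 0 < ς b → 0 < lam y →
        ς b ≤ M.om (y - b) ∧ lam y ≤ M.om (y - b)) (meas_set M hς hlam b0 b1 y0 y1)).1 hae'
  obtain ⟨a1, ha1, hG1, hpos1, hi1, -⟩ := first_pos hς (abs_le_one hς1) hb hae hp1 hξ
  obtain ⟨y', hy', hG2, hpos2, hi2, -⟩ := first_pos (G := fun y => ∀ᵐ b : ℝ, b ∈ Ioo b0 b1 →
      y ∈ Ioo y0 y1 → 0 < ς b → 0 < lam y → ς b ≤ M.om (y - b) ∧ lam y ≤ M.om (y - b))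
    hlam (abs_le_one hlam1) hy (by filter_upwards [hsw] with y hy'' _ using hy'') hp2 hξ
  have iς := ii_of_bdd hς (abs_le_one hς1)
  have ilam := ii_of_bdd hlam (abs_le_one hlam1)
  have e1 : ∫ y in y'..y1, lam y ≤ M.W (y1 - a1) - M.W (y' - a1) := by
    rw [← int_right h]
    refine int_le hy'.2.le (ilam _ _) (ii_right h _ _ _) ?_
    filter_upwards [hG1] with y hy'' hm
    by_cases hl : 0 < lam y
    · exact (hy'' ⟨hy'.1.trans hm.1, hm.2⟩ hpos1 hl).2
    · exact (not_lt.1 hl).trans (h.om_nonneg _)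
  have e2 : ∫ b in a1..b1, ς b ≤ M.W (y' - a1) - M.W (y' - b1) := by
    rw [← int_left h]
    refine int_le ha1.2.le (iς _ _) (ii_left h _ _ _) ?_
    filter_upwards [hG2] with b hb'' hm
    by_cases hl : 0 < ς b
    · exact (hb'' ⟨ha1.1.trans hm.1, hm.2⟩ hy' hl hpos2).1
    · exact (not_lt.1 hl).trans (h.om_nonneg _)
  have e3 : 0 ≤ M.W (y' - b1) := h.W_nonneg (by linarith [hy'.1])
  have e4 : M.W (y1 - a1) ≤ M.W (y1 - b0) := h.W_mono (by linarith [ha1.1])
  rw [← intervalIntegral.integral_add_adjacent_intervals (iς b0 a1) (iς a1 b1),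
    ← intervalIntegral.integral_add_adjacent_intervals (ilam y0 y') (ilam y' y1)]
  linarith

namespace StarAux

variable {M : Mac} {u v : ℝ}

/-- The positive part of sg along the broken path. -/
noncomputable def vs (M : Mac) (L x y b : ℝ) : ℝ := max 0 (M.sg L b (max x (2 * b - y)))

theorem vs_meas (M : Mac) (L x y : ℝ) : Measurable (vs M L x y) := by
  have m1 : Measurable fun b : ℝ => (b, max x (2 * b - y)) :=
    measurable_id.prodMk (measurable_const.max ((measurable_const.mul measurable_id).sub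
      measurable_const))
  exact measurable_const.max ((M.sg_meas L).comp m1)

theorem vs_mem (h : M.Ok u v) (L x y b : ℝ) : 0 ≤ vs M L x y b ∧ vs M L x y b ≤ 1 :=
  ⟨le_max_left _ _, max_le zero_le_one (abs_le.1 (h.sg_le _ _ _)).2⟩

theorem mu_line_meas (M : Mac) (L y : ℝ) : Measurable fun c => M.mu L ((y + c) / 2) c := by
  have m1 : Measurable fun c : ℝ => ((y + c) / 2, c) :=
    ((measurable_const.add measurable_id).div_const 2).prodMk measurable_id
  exact (M.mu_meas L).comp m1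

/-- The cost of the broken path. -/
theorem cost_le (h : M.Ok u v) {L x y : ℝ} (hxy : x < y) (hrow : ∀ᵐ b, M.Pt L b x)
    (hhalf : ∀ᵐ c, M.Good L ((y + c) / 2) c) :
    M.Ct L y y - M.Ct L x x ≤
      (∫ b in x..y, vs M L x y b) + ∫ c in x..y, M.mu L ((y + c) / 2) c := by
  have ivs := ii_of_bdd (vs_meas M L x y) (abs_le_one (vs_mem h L x y))
  have hm1 : x ≤ (y + x) / 2 := by linarith
  have hm2 : (y + x) / 2 ≤ y := by linarith
  have p1 := h.path L 0 x 1 0 hm1 (by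
    filter_upwards [hrow] with b hb _
    simpa using hb.diff)
  have e : ∀ r : ℝ, 1 / 2 * r + y / 2 = (y + r) / 2 := fun r => by ring
  have p2 := h.path L (y / 2) 0 (1 / 2) 1 hxy.le (by
    filter_upwards [hhalf] with c hc _
    simpa only [e, one_mul, add_zero] using hc.1.diff)
  simp only [one_mul, add_zero, zero_mul, zero_add] at p1
  simp only [e, one_mul, add_zero, add_self_div_two] at p2
  have s1 : ∫ r in x..(y + x) / 2, M.sg L r x ≤ ∫ b in x..(y + x) / 2, vs M L x y b := by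
    have i1 := h.sg_ii L 0 x 1 0 x ((y + x) / 2)
    simp only [one_mul, add_zero, zero_mul, zero_add] at i1
    refine int_le hm1 i1 (ivs _ _) (Eventually.of_forall fun b hb => ?_)
    have : max x (2 * b - y) = x := max_eq_left (by linarith [hb.2])
    rw [vs, this]
    exact le_max_right _ _
  have s2 : 1 / 2 * ∫ r in x..y, M.sg L ((y + r) / 2) r ≤
      ∫ b in (y + x) / 2..y, vs M L x y b := by
    have c1 := intervalIntegral.mul_integral_comp_mul_add (a := (y + x) / 2) (b := y)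
      (f := fun r => M.sg L ((y + r) / 2) r) (c := 2) (d := -y)
    have e1 : 2 * ((y + x) / 2) + -y = x := by ring
    have e2 : 2 * y + -y = y := by ring
    have e3 : ∀ b : ℝ, (y + (2 * b + -y)) / 2 = b := fun b => by ring
    simp only [e1, e2, e3] at c1
    have i1 := h.sg_ii L 0 (-y) 1 2 ((y + x) / 2) y
    simp only [one_mul, add_zero] at i1
    have : ∫ b in (y + x) / 2..y, M.sg L b (2 * b + -y) ≤
        ∫ b in (y + x) / 2..y, vs M L x y b := by
      refine int_le hm2 i1 (ivs _ _) (Eventually.of_forall fun b hb => ?_)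
      have : max x (2 * b - y) = 2 * b + -y := by
        rw [max_eq_right (by linarith [hb.1])]; ring
      rw [vs, this]
      exact le_max_right _ _
    linarith
  rw [← intervalIntegral.integral_add_adjacent_intervals (ivs x ((y + x) / 2))
    (ivs ((y + x) / 2) y)]
  linarith

/-- The horizontal part of the cost. -/
theorem part_sg (h2 : BmStmt) (h : M.Ok u v) {L x0 x y : ℝ} (h0 : 0 ≤ x0) (hx : x0 < x)
    (hxy : x < y) (hyL : y < L) (hL : L ≤ 1) (hrow : ∀ᵐ b, M.Pt L b x)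
    (hhalf : ∀ᵐ c, M.Good L ((y + c) / 2) c) (hlam : 0 < ∫ t in y..L, M.lam x0 t)
    (hpos : 0 < ∫ b in x..y, vs M L x y b) :
    (∫ b in x..y, vs M L x y b) + ∫ t in y..L, M.lam x0 t ≤ (1 - u) * (L - x) := by
  have key := h2 M u v x y y L (vs M L x y) (M.lam x0) h (vs_meas M L x y) (h.meas x0)
    (vs_mem h L x y) (fun t => ⟨h.nonneg _ _, h.le_one _ _⟩) hxy.le le_rfl hyL.le ?_ hpos hlam
  · exact key.trans (h.W_le _ ⟨by linarith, by linarith⟩)
  have e3 : ∀ b : ℝ, (y + (2 * b + -y)) / 2 = b := fun b => by ring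
  have hh := ae_affine hhalf (α := 2) two_ne_zero (-y)
  simp only [e3] at hh
  filter_upwards [hrow, hh] with b hb1 hb2 hm
  have hPt : M.Pt L b (max x (2 * b - y)) := by
    rcases le_total x (2 * b - y) with hc | hc
    · rw [max_eq_right hc, sub_eq_add_neg]
      exact hb2.1
    · rw [max_eq_left hc]
      exact hb1
  filter_upwards [hPt.pa] with t ht hmt hv hl
  have c1 : x ≤ max x (2 * b - y) := le_max_left _ _
  have c2 : 2 * b - y ≤ max x (2 * b - y) := le_max_right _ _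
  have c3 : max x (2 * b - y) < b := max_lt hm.1 (by linarith [hm.2])
  have hs : 0 < M.sg L b (max x (2 * b - y)) := by
    by_contra hn
    rw [vs, max_eq_left (not_lt.1 hn)] at hv
    exact lt_irrefl _ hv
  have k := ht (by linarith) c3 (by linarith [hmt.1]) hmt.2 x0 h0 (by linarith) hs hl
  have e : vs M L x y b = M.sg L b (max x (2 * b - y)) := max_eq_right hs.le
  rw [e]
  have b1 := (abs_le.1 (h.sg_le L b (max x (2 * b - y)))).2
  have b2 := h.le_one x0 t
  exact ⟨(le_min b1 (by linarith)).trans k, (le_min b2 (by linarith)).trans k⟩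

/-- The oblique part of the cost. -/
theorem part_mu (h1 : KStmt) (h : M.Ok u v) {L x0 x y : ℝ} (h0 : 0 ≤ x0) (hx : x0 < x)
    (hxy : x < y) (hyL : y < L) (hL : L ≤ 1)
    (hhalf : ∀ᵐ c, M.Good L ((y + c) / 2) c) (hlam : 0 < M.lam x0 y)
    (hpos : 0 < ∫ c in x..y, M.mu L ((y + c) / 2) c) :
    (∫ c in x..y, M.mu L ((y + c) / 2) c) + ∫ t in y..L, M.lam x0 t ≤ (1 - u) * (L - x) := by
  refine le_of_forall_pos_le_add fun ε hε => ?_
  have imu := ii_of_bdd (mu_line_meas M L y) fun c => h.mu_le L ((y + c) / 2) c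
  obtain ⟨c1, hc1, hG, hmu, hi, -⟩ := first_pos (G := fun c => M.Good L ((y + c) / 2) c)
    (mu_line_meas M L y) (fun c => h.mu_le L ((y + c) / 2) c) hxy.le
    (by filter_upwards [hhalf] with c hc _ using hc) hpos hε
  have e : ∀ c : ℝ, 2 * ((y + c) / 2) - c = y := fun c => by ring
  have e' : ∀ c : ℝ, (y + c) / 2 - c = (y - c) / 2 := fun c => by ring
  have k := (h1 M u v L ((y + c1) / 2) c1 x0 h h0 (by linarith [hc1.1]) (by linarith [hc1.1])
    (by linarith [hc1.2]) (by rw [e]; exact hyL.le) hL).2 hG hmu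
  rw [e, e'] at k
  have k2 : ∫ c in c1..y, M.mu L ((y + c) / 2) c ≤ 2 * M.W ((y - c1) / 2) := by
    rw [← int_half h]
    refine int_le hc1.2.le (imu _ _) (ii_half h _ _ _) ?_
    filter_upwards [hhalf] with c hc hm
    by_cases hl : 0 < M.mu L ((y + c) / 2) c
    · have k3 := hc.1.pb (by linarith [hm.1, hc1.1]) (by linarith [hm.2]) (by rw [e]; exact hyL)
        x0 h0 (by linarith [hm.1, hc1.1]) hl (by rw [e]; exact hlam)
      rw [e, e'] at k3
      exact (le_min (abs_le.1 (h.mu_le _ _ _)).2 (by linarith)).trans k3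
    · exact (not_lt.1 hl).trans (h.om_nonneg _)
  have k4 : (1 - u) * (L - c1) ≤ (1 - u) * (L - x) :=
    mul_le_mul_of_nonneg_left (by linarith [hc1.1]) (by linarith [h.u_le])
  rw [← intervalIntegral.integral_add_adjacent_intervals (imu x c1) (imu c1 y)]
  linarith

theorem comb {a c B : ℝ} (ha : 0 < a → a ≤ B) (hc : 0 < c → c ≤ B) : a + c ≤ max 0 (2 * B) := by
  have m1 : (0 : ℝ) ≤ max 0 (2 * B) := le_max_left _ _
  have m2 : 2 * B ≤ max 0 (2 * B) := le_max_right _ _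
  by_cases h1 : 0 < a
  · by_cases h2 : 0 < c
    · linarith [ha h1, hc h2]
    · linarith [ha h1, not_lt.1 h2]
  · by_cases h2 : 0 < c
    · linarith [hc h2, not_lt.1 h1]
    · linarith [not_lt.1 h1, not_lt.1 h2]

end StarAux

open StarAux in
theorem star (h1 : KStmt) (h2 : BmStmt) : StarStmt := by
  intro M u v x z L h h0 hxz hzL hL hz hpos
  refine le_of_forall_pos_le_add fun ε hε => ?_
  obtain ⟨ξ, hξ, hξ1, hξ2⟩ : ∃ ξ : ℝ, 0 < ξ ∧ ξ ≤ ε / 10 ∧ z + ξ ≤ 1 :=
    ⟨min (ε / 10) (1 - z), lt_min (by linarith) (by linarith), min_le_left _ _,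
      by linarith [min_le_right (ε / 10) (1 - z)]⟩
  obtain ⟨L', hL1, hL2, hL3, hL4⟩ : ∃ L' : ℝ, L ≤ L' ∧ z + ξ ≤ L' ∧ L' ≤ 1 ∧ L' ≤ L + ξ :=
    ⟨max L (z + ξ), le_max_left _ _, le_max_right _ _, max_le hL hξ2,
      max_le (by linarith) (by linarith)⟩
  have hL0 : 0 < L' := by linarith
  have hb : ∀ t, 0 ≤ M.lam x t ∧ M.lam x t ≤ 1 := fun t => ⟨h.nonneg _ _, h.le_one _ _⟩
  obtain ⟨y, hy, hhalf, hly, -, hint⟩ := first_pos
    (G := fun y => ∀ᵐ c, M.Good L' ((y + c) / 2) c) (h.meas x) (abs_le_one hb)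
    (by linarith : z ≤ z + ξ) (by filter_upwards [h.ae_half hL0 hL3] with y hy _ using hy)
    (hpos ξ hξ) hξ
  have hmax : ∀ s, max (M.lam x s) 0 = M.lam x s := fun s => max_eq_left (h.nonneg _ _)
  simp only [hmax] at hint
  have nn : ∀ a b : ℝ, a ≤ b → 0 ≤ ∫ t in a..b, M.lam x t := fun a b hab =>
    intervalIntegral.integral_nonneg hab fun t _ => h.nonneg _ _
  have hLam : 0 < ∫ t in y..L', M.lam x t := by
    rw [← intervalIntegral.integral_add_adjacent_intervals (h.lam_ii x y (z + ξ))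
      (h.lam_ii x (z + ξ) L')]
    linarith [nn _ _ hL2]
  obtain ⟨x', hx', hrow⟩ := exists_ae (h.ae_row hL0 hL3)
    (lt_min (by linarith) (by linarith [hy.1]) : x < min (x + ξ) y)
  have hx1 : x' < x + ξ := hx'.2.trans_le (min_le_left _ _)
  have hx2 : x' < y := hx'.2.trans_le (min_le_right _ _)
  have hyL : y < L' := hy.2.trans_le hL2
  have c0 := cost_le h hx2 hrow hhalf
  have c1 := comb (B := (1 - u) * (L' - x') - ∫ t in y..L', M.lam x t)
    (fun hp => by linarith [part_sg h2 h h0 hx'.1 hx2 hyL hL3 hrow hhalf hLam hp])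
    (fun hp => by linarith [part_mu h1 h h0 hx'.1 hx2 hyL hL3 hhalf hly hp])
  have d1 : (∫ t in z..L, M.lam x t) - ξ ≤ ∫ t in y..L', M.lam x t := by
    have a1 := intervalIntegral.integral_add_adjacent_intervals (h.lam_ii x z y)
      (h.lam_ii x y L')
    have a2 := intervalIntegral.integral_add_adjacent_intervals (h.lam_ii x z L)
      (h.lam_ii x L L')
    have a3 : ∫ t in z..y, M.lam x t ≤ ∫ _ in z..y, (1 : ℝ) :=
      int_le hy.1.le (h.lam_ii x z y) intervalIntegrable_const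
        (Eventually.of_forall fun t _ => h.le_one _ _)
    rw [intervalIntegral.integral_const, smul_eq_mul, mul_one] at a3
    linarith [nn _ _ hL1, hy.2]
  have d2 : (1 - u) * (L' - x') ≤ (1 - u) * (L - x) + ξ := by
    have := h.u_le
    have := h.u_pos
    nlinarith [hx'.1]
  have d3 : max 0 (2 * ((1 - u) * (L' - x') - ∫ t in y..L', M.lam x t)) ≤
      max 0 (2 * (1 - u) * (L - x) - 2 * ∫ y in z..L, M.lam x y) + 4 * ξ := by
    have m1 := le_max_left 0 (2 * (1 - u) * (L - x) - 2 * ∫ y in z..L, M.lam x y)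
    have m2 := le_max_right 0 (2 * (1 - u) * (L - x) - 2 * ∫ y in z..L, M.lam x y)
    exact max_le (by linarith) (by linarith)
  have l1 := abs_le.1 (h.C_lip L z z L' y y)
  have l2 := abs_le.1 (h.C_lip L x x L' x' x')
  have a1 : |L - L'| ≤ ξ := abs_le.2 ⟨by linarith, by linarith⟩
  have a2 : |z - y| ≤ ξ := abs_le.2 ⟨by linarith [hy.2], by linarith [hy.1]⟩
  have a3 : |x - x'| ≤ ξ := abs_le.2 ⟨by linarith, by linarith [hx'.1]⟩
  linarith [l1.2, l2.1]

end Pool.Agent.MP_538dc4_an.AB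

end MrgPart1

-- marker of a merged file
example : 731051 + 531554 = 731051 + 531554 := rfl
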