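import Mathlib.Analysis.Complex.ExponentialBounds
import Mathlib.Data.Finset.Functor
import Pool.Agent.MP_538dc4_an.ab.Basic
import Pool.Agent.MP_538dc4_an.ab.Spec
import Pool.Agent.MP_538dc4_an.ab.Star

-- ======== part 0: formerly Pool.Agent.MP_538dc4_an.ab.Pair
section MrgPart0

/-! PROJECT FURST2, module PAIR: one triple of blocks in the ABC lemma. -/

open Finset Real

namespace Pool.Agent.MP_538dc4_an.AB

namespace Pair

section general

variable {Ω α κ : Type} [Fintype Ω] {p : Ω → ℝ}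

/-- Markov inequality inside one cell. -/
theorem cell (hp : IsP p) (K : Ω → κ) (X : Ω → α) {ω : Ω} (h0 : p ω ≠ 0) {ε L : ℝ} (hε : 0 < ε)
    (hL : 0 < L) (h : hent p K X ω < (1 - ε) * L) :
    ε / 2 * pr p K (K ω) ≤ P p fun b => K b = K ω ∧
      info p (pair X K) b - info p K b ≤ (1 - ε / 2) * L := by
  classical
  have h1 := pr_pos hp K h0
  rw [hent, div_lt_iff₀ h1] at h
  set A := P p fun b => K b = K ω ∧ info p (pair X K) b - info p K b ≤ (1 - ε / 2) * L with hA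
  have h2 : 0 ≤ A := P_nonneg hp _
  have h3 : pr p K (K ω) * ((1 - ε / 2) * L) ≤ (∑ ω', if K ω' = K ω then
      p ω' * (info p (pair X K) ω' - info p K ω') else 0) + A * ((1 - ε / 2) * L) := by
    rw [hA, pr, P, sum_mul, sum_mul, ← sum_add_distrib]
    refine sum_le_sum fun b _ => ?_
    have h4 := hp.nn b
    by_cases hb : K b = K ω
    · by_cases hc : info p (pair X K) b - info p K b ≤ (1 - ε / 2) * L
      · rw [if_pos hb, if_pos hb, if_pos ⟨hb, hc⟩]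
        by_cases hb0 : p b = 0
        · simp [hb0]
        have := info_mono hp (X := pair X K) (Y := K)
          (Dt.of_forall fun _ _ e => (Prod.ext_iff.1 e).2) hb0
        nlinarith
      · rw [if_pos hb, if_pos hb, if_neg fun e => hc e.2]
        nlinarith
    · rw [if_neg hb, if_neg hb, if_neg fun e => hb e.1]
      simp
  have h5 : ε / 2 * pr p K (K ω) * L ≤ A * (1 - ε / 2) * L := by nlinarith
  have h6 := le_of_mul_le_mul_right h5 hL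
  nlinarith

/-- There are few heavy values in one cell. -/
theorem card_heavy (hp : IsP p) (K : Ω → κ) (X : Ω → α) (k : κ) (T : Finset α) {A : ℝ}
    (h : ∀ t ∈ T, ∃ w, p w ≠ 0 ∧ K w = k ∧ X w = t ∧ info p (pair X K) w - info p K w ≤ A) :
    (T.card : ℝ) ≤ exp A := by
  classical
  rcases T.eq_empty_or_nonempty with rfl | ⟨t0, ht0⟩
  · simpa using (exp_pos A).le
  obtain ⟨w0, h0, rfl, -⟩ := h t0 ht0
  have h1 := pr_pos hp K h0
  have h2 : ∀ t ∈ T, pr p K (K w0) ≤ exp A * pr p (pair X K) (t, K w0) := fun t ht => by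
    obtain ⟨w, h3, h4, rfl, h5⟩ := h t ht
    have h6 := pr_pos hp (pair X K) h3
    have h7 : pair X K w = (X w, K w0) := by rw [pair, h4]
    rw [info, info, h4, h7] at h5
    rw [h7] at h6
    rw [← exp_log h1, ← exp_log h6, ← exp_add, exp_le_exp]
    linarith
  have h3 : ∑ t ∈ T, pr p (pair X K) (t, K w0) ≤ pr p K (K w0) := by
    simp only [pr]
    rw [sum_comm]
    refine sum_le_sum fun w _ => ?_
    have h4 := hp.nn w
    by_cases hw : K w = K w0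
    · rw [if_pos hw]
      refine le_trans (le_of_eq (sum_congr rfl fun t _ => ?_ :
        _ = ∑ t ∈ T, if X w = t then p w else 0)) ?_
      · by_cases ht : X w = t
        · rw [if_pos ht, if_pos (by rw [pair, ht, hw])]
        · rw [if_neg ht, if_neg fun e => ht (Prod.ext_iff.1 e).1]
      · rw [sum_ite_eq]
        split_ifs
        exacts [le_rfl, h4]
    · rw [if_neg hw]
      exact le_of_eq (sum_eq_zero fun t _ => if_neg fun e => hw (Prod.ext_iff.1 e).2)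
  have h4 := sum_le_sum h2
  rw [sum_const, nsmul_eq_mul, ← mul_sum] at h4
  exact le_of_mul_le_mul_right (h4.trans (mul_le_mul_of_nonneg_left h3 (exp_pos A).le)) h1

/-- A function that is almost constant on fibres is close to a function on the base. -/
theorem exists_base {A β : Type} (f : A → ℝ) (Y : A → β) (S : A → Prop) {C : ℝ}
    (h : ∀ a a', S a → S a' → Y a = Y a' → |f a - f a'| ≤ C) :
    ∃ ψ : β → ℝ, ∀ a, S a → |f a - ψ (Y a)| ≤ C := by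
  classical
  refine ⟨fun y => if h : ∃ a, S a ∧ Y a = y then f h.choose else 0, fun a ha => ?_⟩
  have h1 : ∃ a', S a' ∧ Y a' = Y a := ⟨a, ha, rfl⟩
  simp only [dif_pos h1]
  exact h a _ ha h1.choose_spec.1 h1.choose_spec.2.symm

theorem pw {n m t : ℕ} (h : t * m ≤ n) : (2 : ℝ) ^ (n - t * m) = 2 ^ n / (2 ^ m) ^ t := by
  rw [pow_sub₀ _ two_ne_zero h, mul_comm t m, pow_mul, div_eq_mul_inv]

theorem cast_lt {x : ℤ} {s : ℕ} (h : |x| < 2 ^ s) : |(x : ℝ)| ≤ 2 ^ s := by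
  exact_mod_cast h.le

theorem cast_gt {x : ℤ} {s : ℕ} (h : 2 ^ s < |x|) : 2 ^ s ≤ |(x : ℝ)| := by
  exact_mod_cast h.le

theorem div_le_div {N a : ℝ} (hN : 0 ≤ N) (ha : 1 ≤ a) {s t : ℕ} (h : s ≤ t) :
    N / a ^ t ≤ N / a ^ s :=
  div_le_div_of_nonneg_left hN (by positivity) (pow_le_pow_right₀ ha h)

end general

variable {Ω : Type} [Fintype Ω] {X : Core Ω} {e θ ε l : ℝ} {m i' j i : ℕ}

/-- The next block of c differs on the two copies. -/
def Far (X : Core Ω) (m j : ℕ) (ω : Ω × Ω) : Prop :=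
  2 ≤ |X.cd ((j + 1) * m) ω.2 - X.cd ((j + 1) * m) ω.1|

/-- The value of block i of U is heavy. -/
def Heavy (X : Core Ω) (m i : ℕ) (ε : ℝ) (ω : Ω) : Prop :=
  info X.p (pair (X.Ud ((i + 1) * m)) (pair (X.Ud (i * m)) X.Ku)) ω -
    info X.p (pair (X.Ud (i * m)) X.Ku) ω ≤ (1 - ε / 2) * (m * log 2)

theorem supp (hX : X.Ok e) {t : ℕ} {ω : Ω × Ω} (h : X.q2 t ω ≠ 0) :
    X.p ω.1 ≠ 0 ∧ X.W ω.1 = X.W ω.2 ∧ X.cd t ω.1 = X.cd t ω.2 ∧ X.Z ω.1 = X.Z ω.2 := by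
  obtain ⟨h1, -, h2⟩ := glue_supp h
  have h3 := Prod.ext_iff.1 h2
  exact ⟨h1, h3.1, h3.2, hX.BZ _ _ (hX.WB _ _ h3.1)⟩

theorem step_a (hX : X.Ok e) (hl : 0 < l) (hl1 : l ≤ 1) (E : Ω → Prop)
    (hE : ∀ ω, E ω → X.EC m θ j ω) :
    θ * P X.p E - (X.t4 m j / l + l) ≤ P (X.q2 (j * m)) fun ω => E ω.1 ∧ Far X m j ω := by
  have hq : IsP (X.q2 (j * m)) := glue_isP hX.isP _
  have := lower hq (fun ω => X.cd ((j + 1) * m) ω.2) (fun ω => ω.1)
    (fun ω => (X.cd (j * m) ω.1, X.Z ω.1)) (fun ω => E ω.1)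
    (fun a b => 2 ≤ |X.cd ((j + 1) * m) b.2 - X.cd ((j + 1) * m) a.1|) (θ := θ) hl hl1
    (fun a a' h _ h1 => by rw [← h]; exact h1)
    (fun a a' b b' h1 _ h2 _ h3 => by rw [← h1, ← h2]; exact h3) (fun a _ ha => ?_)
  · rwa [Core.q2, P_fst hX.isP] at this
  have h1 := hE _ ha (X.cd ((j + 1) * m) a.1)
  rw [← pr_fst hX.isP (pair X.W (X.cd (j * m))), ← P_snd hX.isP (pair X.W (X.cd (j * m)))] at h1
  refine h1.trans (P_mono hq fun b hb h2 => ⟨?_, h2.2⟩)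
  obtain ⟨-, -, h3, h4⟩ := supp hX hb
  rw [h3, h4]
  exact h2.1

theorem step_b (hX : X.Ok e) (hl : 0 < l) (hl1 : l ≤ 1) (hε : 0 < ε) (hm : 2 ≤ m) :
    ε / 2 * P (X.q2 (j * m)) (fun ω => (X.EB m θ i' ω.1 ∧ Far X m j ω) ∧ ¬X.EA m ε i ω.1) -
      (X.t3 m i j / l + l) ≤ P (X.q2 (j * m)) fun ω =>
        ((X.EB m θ i' ω.1 ∧ Far X m j ω) ∧ ¬X.EA m ε i ω.1) ∧ Heavy X m i ε ω.1 := by
  have hq : IsP (X.q2 (j * m)) := glue_isP hX.isP _
  refine lower hq (fun ω => X.Ud ((i + 1) * m) ω.1) (fun ω => (X.a ω.1, X.D ω.1, X.c ω.2))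
    (fun ω => (X.Ud (i * m) ω.1, X.Ku ω.1)) _ (fun _ b => Heavy X m i ε b.1) hl hl1
    (fun a a' h1 h2 h3 => ?_) (fun a a' b b' _ _ h1 h2 h3 => ?_) (fun a h0 ha => ?_)
  · simp only [Core.Ku, Prod.mk.injEq] at h1 h2
    have h4 : pair (X.ad (i' * m)) X.Ka a.1 = pair (X.ad (i' * m)) X.Ka a'.1 := by
      simp only [pair, Core.ad, Core.Ka, h1.1, h1.2.1, h2.2.1, h2.2.2]
    have h5 : pair (X.Ud (i * m)) X.Ku a.1 = pair (X.Ud (i * m)) X.Ku a'.1 := by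
      simp only [pair, Core.Ku, h2.1, h2.2.1, h2.2.2]
    refine ⟨⟨fun b => ?_, ?_⟩, fun h => h3.2 ?_⟩
    · rw [← h4]
      exact h3.1.1 b
    · have := h3.1.2
      simp only [Far, Core.cd] at this ⊢
      rwa [← h1.2.2, ← h2.2.1]
    · rwa [Core.EA, hent_congr _ _ h5]
  · have h4 : pair (X.Ud (i * m)) X.Ku b.1 = pair (X.Ud (i * m)) X.Ku b'.1 := h2
    have h5 : pair (X.Ud ((i + 1) * m)) (pair (X.Ud (i * m)) X.Ku) b.1 =
        pair (X.Ud ((i + 1) * m)) (pair (X.Ud (i * m)) X.Ku) b'.1 := Prod.ext h1 h4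
    simp only [Heavy, info] at h3 ⊢
    rwa [← h4, ← h5]
  · have hL : 0 < (m : ℝ) * log 2 := mul_pos (by exact_mod_cast by omega) (log_pos one_lt_two)
    have h1 := cell hX.isP _ _ (supp hX h0).1 hε hL (not_le.1 ha.2)
    rw [← pr_fst hX.isP (pair X.W (X.cd (j * m))), ← P_fst hX.isP (pair X.W (X.cd (j * m)))] at h1
    exact h1

/-- The sizes of the common difference. -/
theorem sizes {N a ρ d : ℝ} {r : ℕ} (hN : 0 < N) (ha : 1 ≤ a) (hr : r ≤ 2)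
    (h1 : i + 1 ≤ i' + r * j) (h2 : i' + r * j ≤ i + 4) (h3 : 1 / a ^ (j + 1) ≤ |ρ|)
    (h4 : |ρ| ≤ 1 / a ^ j) (h5 : a ^ 7 ≤ |d|) (h6 : |d| ≤ a ^ 8) :
    |ρ ^ r * d * (N / a ^ (i' + 8))| ≤ N / a ^ (i + 1) ∧
      a * (N / a ^ (i + 1)) ≤ a ^ 7 * |ρ ^ r * d * (N / a ^ (i' + 8))| := by
  have h0 : 0 < a := by linarith
  rw [abs_mul, abs_mul, abs_pow, abs_of_pos (show 0 < N / a ^ (i' + 8) by positivity)]
  constructor
  · calc _ ≤ (1 / a ^ j) ^ r * a ^ 8 * (N / a ^ (i' + 8)) := by gcongr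
      _ = N / a ^ (i' + r * j) := by
        rw [one_div_pow, ← pow_mul, mul_comm j r, pow_add, pow_add]
        field_simp
      _ ≤ _ := div_le_div hN.le ha h1
  · calc _ = a ^ 7 * (N / a ^ (i + 7)) := by
          rw [pow_add, pow_add]
          field_simp
      _ ≤ a ^ 7 * (N / a ^ (i' + 1 + r * (j + 1))) := by
        have : i' + 1 + r * (j + 1) ≤ i + 7 := by rw [mul_add]; omega
        gcongr _ * ?_
        exact div_le_div hN.le ha this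
      _ = a ^ 7 * ((1 / a ^ (j + 1)) ^ r * a ^ 7 * (N / a ^ (i' + 8))) := by
        rw [one_div_pow, ← pow_mul, mul_comm (j + 1) r, pow_add, pow_add, pow_add]
        field_simp
      _ ≤ _ := by gcongr

theorem step_c (hI : InvStmt) (hC : CountStmt) (hX : X.Ok e) (hθ : 0 < θ) (hl : 0 < l)
    (hl1 : l ≤ 1) (hm : 2 ≤ m) (hj : (j + 1) * m ≤ X.n) (hR : X.Rel m i' j i) :
    θ * P (X.q2 (j * m)) (fun ω => (X.EB m θ i' ω.1 ∧ Far X m j ω) ∧ Heavy X m i ε ω.1) ≤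
      20 * (2 : ℝ) ^ (-(ε * m / 2)) +
        2 * 2 ^ (7 * m) * ((X.t1 m i' j + X.t2 m i' j) / l + 2 * l) := by
  classical
  have hq : IsP (X.q2 (j * m)) := glue_isP hX.isP _
  obtain ⟨r1, r2, r3, r4⟩ := hR
  have hr : X.r ≤ 2 := by rcases hX.r12 with h | h <;> omega
  have n1 : (i' + 8) * m ≤ X.n := (Nat.mul_le_mul_right m (by omega)).trans r3
  have n2 : (i + 1) * m ≤ X.n := (Nat.mul_le_mul_right m (by omega)).trans r3
  have n3 : j * m ≤ X.n := (Nat.mul_le_mul_right m (by omega)).trans hj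
  have ha : (4 : ℝ) ≤ 2 ^ m := by
    calc (4 : ℝ) = 2 ^ 2 := by norm_num
      _ ≤ _ := pow_le_pow_right₀ one_le_two hm
  have hN : (0 : ℝ) < 2 ^ X.n := by positivity
  have hρ : ∀ {c c' : ℤ}, |c' - c| < 2 ^ (X.n - j * m) →
      |((c' : ℝ) - c) / 2 ^ X.n| ≤ 1 / (2 ^ m) ^ j := fun h => by
    have := cast_lt h
    rw [pw n3, Int.cast_sub] at this
    rw [abs_div, abs_of_pos hN, div_le_iff₀ hN]
    exact this.trans (le_of_eq (by ring))
  let K : Ω × Ω → ℤ × ℤ × V × V := fun ω => (X.ad (i' * m) ω.1, X.Ka ω.1)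
  let Y : Ω × Ω → (ℤ × ℤ × V × V) × ℤ := fun ω => (K ω, X.c ω.2)
  obtain ⟨ψ, hψ⟩ := exists_base (fun ω : Ω × Ω => (X.U ω.2 : ℝ) - X.U ω.1 -
      (((X.c ω.2 : ℝ) - X.c ω.1) / 2 ^ X.n) ^ X.r * X.a ω.1) Y (fun ω => X.W ω.1 = X.W ω.2)
      (C := X.C0) fun a a' h1 h2 h3 => by
    simp only [Y, K, Core.Ka, Prod.mk.injEq] at h3
    have := hX.shift a.1 a.2 a'.1 a'.2 h1 h2 h3.1.2.2.2 h3.1.2.2.1 h3.1.2.1 h3.2
    rw [← h3.1.2.1, ← h3.2]
    exact (le_of_eq (by congr 1; ring)).trans this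
  have hs : (0 : ℝ) < 2 ^ (X.n - (i + 1) * m) := by positivity
  have key := hI (Ω × Ω) ℤ ((ℤ × ℤ × V × V) × ℤ) (ℤ × ℤ × V × V) (X.q2 (j * m))
    (fun ω => X.ad ((i' + 8) * m) ω.1) Y K (fun ω => X.U ω.1) (fun ω => X.U ω.2)
    (fun y x => ψ y + (((y.2 : ℝ) - y.1.2.1) / 2 ^ X.n) ^ X.r * x * 2 ^ (X.n - (i' + 8) * m))
    (fun y x x' => (2 ^ (X.n - (j + 1) * m) < |y.2 - y.1.2.1| ∧
      |y.2 - y.1.2.1| < 2 ^ (X.n - j * m)) ∧ 2 ^ (7 * m) < |x' - x| ∧ |x' - x| < 2 ^ (8 * m))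
    (fun y b => ∃ w, X.p w ≠ 0 ∧ X.Ku w = (y.1.2.1, y.1.2.2.2) ∧
      X.Ud ((i + 1) * m) w = ⌊b / 2 ^ (X.n - (i + 1) * m)⌋ ∧ Heavy X m i ε w)
    (fun ω => X.EB m θ i' ω.1 ∧ Far X m j ω) (X.C0 + 2 ^ (X.n - (i + 1) * m) / (2 ^ m) ^ 8)
    (20 * exp ((1 - ε / 2) * (m * log 2)) / (2 ^ m : ℕ)) θ l (2 ^ (7 * m)) hq
    (fun _ _ h => (Prod.ext_iff.1 h).1) (add_nonneg hX.C0_nonneg (by positivity)) (by positivity)
    hθ.le hl hl1 Nat.one_le_two_pow (fun ω h0 => ?_) (fun ω ω' hE h0 _ hK => ?_)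
    (fun y x x' z hG => ?_)
  · have h1 : 20 * exp ((1 - ε / 2) * (m * log 2)) / (2 ^ m : ℕ) =
        20 * (2 : ℝ) ^ (-(ε * m / 2)) := by
      rw [rpow_def_of_pos two_pos, mul_div_assoc, Nat.cast_pow, Nat.cast_ofNat,
        ← exp_log (show (0 : ℝ) < 2 ^ m by positivity), log_pow, ← exp_sub]
      congr 2
      ring
    have h2 : Ic (X.q2 (j * m)) (fun ω => X.ad ((i' + 8) * m) ω.1)
        (pair Y fun ω => (X.U ω.1 : ℝ)) K ≤ X.t1 m i' j :=
      Ic_le hq (fun _ _ _ _ h => h) (fun _ _ _ _ h => h) fun a b _ _ h => by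
        simp only [pair, Y, K, Prod.mk.injEq] at h ⊢
        exact ⟨⟨h.2, h.1.1⟩, by rw [h.1.2]⟩
    have h3 : Ic (X.q2 (j * m)) (fun ω => X.ad ((i' + 8) * m) ω.1)
        (pair Y fun ω => (X.U ω.2 : ℝ)) K ≤ X.t2 m i' j :=
      Ic_le hq (fun _ _ _ _ h => h) (fun _ _ _ _ h => h) fun a b _ _ h => by
        simp only [pair, Y, K, Prod.mk.injEq] at h ⊢
        exact ⟨⟨h.2, h.1.1⟩, by rw [h.1.2]⟩
    rw [h1, Nat.cast_pow, Nat.cast_ofNat] at key
    refine le_trans (mul_le_mul_of_nonneg_left (P_mono hq fun ω h0 h => ⟨h.1, ω.1, (supp hX h0).1,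
      rfl, dg_floor _ _ _, h.2⟩) hθ.le) (key.trans ?_)
    gcongr
  · obtain ⟨-, h1, h2, -⟩ := supp hX h0
    have h3 := hψ ω h1
    have h4 := hρ (dg_near h2.symm)
    obtain ⟨h5, h6⟩ := dg_sub X.n ((i' + 8) * m) (X.a ω.1)
    have h7 := cast_lt ((abs_of_nonneg h5).trans_lt h6)
    push_cast at h7
    have h8 : |(((X.c ω.2 : ℝ) - X.c ω.1) / 2 ^ X.n) ^ X.r * ((X.a ω.1 : ℝ) -
        (dg X.n ((i' + 8) * m) (X.a ω.1) : ℝ) * 2 ^ (X.n - (i' + 8) * m))| ≤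
        2 ^ (X.n - (i + 1) * m) / (2 ^ m) ^ 8 := by
      rw [abs_mul, abs_pow]
      calc _ ≤ (1 / (2 ^ m : ℝ) ^ j) ^ X.r * 2 ^ (X.n - (i' + 8) * m) := by gcongr
        _ = 2 ^ X.n / (2 ^ m) ^ (i' + X.r * j + 8) := by
          rw [pw n1, one_div_pow, ← pow_mul _ j, mul_comm j X.r, pow_add, pow_add, pow_add]
          field_simp
        _ ≤ 2 ^ X.n / (2 ^ m) ^ (i + 1 + 8) := div_le_div hN.le (by linarith) (by omega)
        _ = _ := by rw [pw n2, pow_add _ (i + 1), div_div]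
    refine le_trans (le_of_eq ?_) ((abs_add_le _ _).trans (add_le_add h3 h8))
    simp only [Y, K, Core.Ka, Core.ad]
    congr 1
    ring
  · have h1 := hE.1 (X.ad ((i' + 1) * m) ω'.1)
    rw [← pr_fst hX.isP (pair X.W (X.cd (j * m))), ← P_fst hX.isP (pair X.W (X.cd (j * m)))] at h1
    refine h1.trans (P_mono hq fun b _ h2 => ⟨h2.1, ⟨dg_far hE.2, dg_near (supp hX h0).2.2.1.symm⟩,
      ?_, ?_⟩)
    · have h3 := h2.2
      have h4 : (i' + 8) * m - (i' + 1) * m = 7 * m - 0 := by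
        rw [← Nat.sub_mul, Nat.sub_zero, Nat.add_sub_add_left]
      have h5 : (i' + 1) * m ≤ (i' + 8) * m := Nat.mul_le_mul_right m (by omega)
      rw [Core.ad, Core.ad, dg_dg h5 n1, dg_dg h5 n1, h4] at h3
      exact dg_far (n := 7 * m) (t := 0) h3
    · have h3 : X.ad (i' * m) b.1 = X.ad (i' * m) ω'.1 :=
        (Prod.ext_iff.1 h2.1).1.trans (Prod.ext_iff.1 hK).1.symm
      have h4 : (i' + 8) * m - i' * m = 8 * m - 0 := by
        rw [← Nat.sub_mul, Nat.sub_zero, Nat.add_sub_cancel_left]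
      have h5 : i' * m ≤ (i' + 8) * m := Nat.mul_le_mul_right m (by omega)
      rw [Core.ad, Core.ad, dg_dg h5 n1, dg_dg h5 n1, h4] at h3
      exact dg_near (n := 8 * m) (t := 0) h3
  · obtain ⟨⟨g1, g2⟩, g3, g4⟩ := hG
    have h1 : 1 / (2 ^ m) ^ (j + 1) ≤ |((y.2 : ℝ) - y.1.2.1) / 2 ^ X.n| := by
      have := cast_gt g1
      rw [pw hj, Int.cast_sub] at this
      rw [abs_div, abs_of_pos hN, le_div_iff₀ hN]
      exact (le_of_eq (by ring)).trans this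
    have h2 := cast_gt g3
    have h3 := cast_lt g4
    rw [mul_comm _ m, pow_mul, Int.cast_sub] at h2 h3
    obtain ⟨h4, h5⟩ := sizes hN (by linarith) hr r1 r2 h1 (hρ g2) h2 h3
    rw [← pw n1, ← pw n2] at h4 h5
    have h6 : ψ y + (((y.2 : ℝ) - y.1.2.1) / 2 ^ X.n) ^ X.r * x' * 2 ^ (X.n - (i' + 8) * m) -
        (ψ y + (((y.2 : ℝ) - y.1.2.1) / 2 ^ X.n) ^ X.r * x * 2 ^ (X.n - (i' + 8) * m)) =
        (((y.2 : ℝ) - y.1.2.1) / 2 ^ X.n) ^ X.r * (x' - x) * 2 ^ (X.n - (i' + 8) * m) := by ring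
    have h7 : ((2 ^ (7 * m) : ℕ) : ℝ) = (2 ^ m) ^ 7 := by
      rw [mul_comm, pow_mul]; push_cast; rfl
    refine hC (2 ^ (X.n - (i + 1) * m)) _ z _ _ (2 ^ m) (2 ^ (7 * m)) (fun t => ∃ w, X.p w ≠ 0 ∧
      X.Ku w = (y.1.2.1, y.1.2.2.2) ∧ X.Ud ((i + 1) * m) w = t ∧ Heavy X m i ε w) hs
      Nat.one_le_two_pow (h6 ▸ h4) ?_ ?_ (exp_pos _).le fun Q T hT => ?_
    · rw [h6, h7]
      exact_mod_cast h5
    · rw [pow_add, mul_comm 7 m, pow_mul] at r4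
      have h8 : (2 : ℝ) * (2 ^ m) ^ 7 * (2 ^ (X.n - (i + 1) * m) / (2 ^ m) ^ 8) =
          2 * 2 ^ (X.n - (i + 1) * m) / 2 ^ m := by field_simp
      have h9 : (2 : ℝ) * 2 ^ (X.n - (i + 1) * m) / 2 ^ m ≤ 2 ^ (X.n - (i + 1) * m) / 2 := by
        rw [div_le_iff₀ (by positivity)]
        nlinarith
      rw [h7, mul_add, h8]
      nlinarith
    · refine card_heavy hX.isP (pair (X.Ud (i * m)) X.Ku) (X.Ud ((i + 1) * m))
        (Q, y.1.2.1, y.1.2.2.2) T fun t ht => ?_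
      obtain ⟨⟨w, w1, w2, w3, w4⟩, w5⟩ := hT t ht
      refine ⟨w, w1, Prod.ext ?_ w2, w3, w4⟩
      have h8 : (i + 1) * m - i * m = m := by
        rw [← Nat.sub_mul, Nat.add_sub_cancel_left, one_mul]
      change dg _ _ _ = Q
      rw [dg_dg (Nat.mul_le_mul_right m (Nat.le_succ i)) n2, h8, ← w5, ← w3]
      push_cast
      rfl

end Pair

open Pair in
/-- Module PAIR. -/
theorem pair_stmt (hI : InvStmt) (hC : CountStmt) : PairStmt := by
  intro Ω _ X e θ ε l m i' j i hX hθ hθ1 hε hε1 hl hl1 hm hj hR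
  have hq : IsP (X.q2 (j * m)) := glue_isP hX.isP _
  have h1 := step_a (θ := θ) (m := m) (j := j) hX hl hl1
    (fun ω => X.EB m θ i' ω ∧ X.EC m θ j ω ∧ ¬X.EA m ε i ω) fun _ h => h.2.1
  have h2 := step_b (θ := θ) (i' := i') (j := j) (i := i) hX hl hl1 hε hm
  have h3 := step_c (ε := ε) hI hC hX hθ hl hl1 hm hj hR
  have h4 := h1.trans (P_mono hq (B := fun ω => (X.EB m θ i' ω.1 ∧ Far X m j ω) ∧
    ¬X.EA m ε i ω.1) fun _ _ h => ⟨⟨h.1.1, h.2⟩, h.1.2.2⟩)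
  have h5 := h2.trans (P_mono hq (B := fun ω => (X.EB m θ i' ω.1 ∧ Far X m j ω) ∧
    Heavy X m i ε ω.1) fun _ _ h => ⟨h.1.1, h.2⟩)
  have t3 : 0 ≤ X.t3 m i j / l := div_nonneg (Ic_nonneg hq _ _ _) hl.le
  have t4 : 0 ≤ X.t4 m j / l := div_nonneg (Ic_nonneg hq _ _ _) hl.le
  have hK : (1 : ℝ) ≤ 2 ^ (7 * m) := one_le_pow₀ one_le_two
  rw [div_mul_eq_mul_div, le_div_iff₀ (by positivity), mul_div_assoc (2 * 2 ^ (7 * m) : ℝ), add_div,
    add_div]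
  have h6 := mul_le_mul_of_nonneg_left h4 (show 0 ≤ ε / 2 * θ by positivity)
  have h7 := mul_le_mul_of_nonneg_left h5 hθ.le
  have h8 : ε / 2 * θ * (X.t4 m j / l + l) ≤ 1 * (X.t4 m j / l + l) :=
    mul_le_mul_of_nonneg_right (by nlinarith) (by linarith)
  have h9 : θ * (X.t3 m i j / l + l) ≤ 1 * (X.t3 m i j / l + l) :=
    mul_le_mul_of_nonneg_right hθ1 (by linarith)
  have h10 := mul_le_mul_of_nonneg_right hK t3
  have h11 := mul_le_mul_of_nonneg_right hK t4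
  have h12 := mul_le_mul_of_nonneg_right hK hl.le
  nlinarith

end Pool.Agent.MP_538dc4_an.AB

end MrgPart0

-- ======== part 1: formerly Pool.Agent.MP_538dc4_an.ab.Pairs
section MrgPart1

/-! PROJECT FURST2: summation of the pair estimate over all relevant triples. -/

open Finset Real

namespace Pool.Agent.MP_538dc4_an.AB

namespace Pairs

variable {Ω α β κ : Type} [Fintype Ω] {p : Ω → ℝ}

theorem H_swap (S : Ω → κ) (f : Ω × Ω → α) :
    H (glue p S) (fun ω => f ω.swap) = H (glue p S) f := by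
  have h : ∀ a, pr (glue p S) (fun ω => f ω.swap) a = pr (glue p S) f a := fun a => by
    rw [pr, pr, ← Equiv.sum_comp (Equiv.prodComm Ω Ω)]
    exact sum_congr rfl fun ω _ => by rw [← glue_swap S ω]; rfl
  simp only [H, h]
  rw [← Equiv.sum_comp (Equiv.prodComm Ω Ω)]
  exact congrArg _ (sum_congr rfl fun ω _ => by simp [glue_swap])

theorem Ic_swap {γ : Type} (S : Ω → κ) (f : Ω × Ω → α) (g : Ω × Ω → β) (h : Ω × Ω → γ) :
    Ic (glue p S) (fun ω => f ω.swap) (fun ω => g ω.swap) (fun ω => h ω.swap) =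
      Ic (glue p S) f g h := by
  unfold Ic
  rw [← H_swap S (pair f h), ← H_swap S (pair g h), ← H_swap S (pair f (pair g h)), ← H_swap S h]
  rfl

theorem Ic_fst {γ : Type} (hp : IsP p) (S : Ω → κ) (f : Ω → α) (g : Ω → β) (h : Ω → γ) :
    Ic (glue p S) (fun ω => f ω.1) (fun ω => g ω.1) (fun ω => h ω.1) = Ic p f g h := by
  unfold Ic
  rw [← H_fst hp S (pair f h), ← H_fst hp S (pair g h), ← H_fst hp S (pair f (pair g h)),
    ← H_fst hp S h]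
  rfl

theorem Hc_fst (hp : IsP p) (S : Ω → κ) (f : Ω → α) (g : Ω → β) :
    Hc (glue p S) (fun ω => f ω.1) (fun ω => g ω.1) = Hc p f g := by
  unfold Hc
  rw [← H_fst hp S (pair f g), ← H_fst hp S g]
  rfl

variable {X : Core Ω} {e : ℝ}

theorem q_isP (h : X.Ok e) (t : ℕ) : IsP (X.q2 t) := glue_isP h.isP _

theorem supp (h : X.Ok e) {t : ℕ} {ω : Ω × Ω} (hω : X.q2 t ω ≠ 0) :
    X.W ω.1 = X.W ω.2 ∧ X.cd t ω.1 = X.cd t ω.2 ∧ X.B ω.1 = X.B ω.2 ∧ X.Z ω.1 = X.Z ω.2 := by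
  obtain ⟨h1, h2⟩ := Prod.mk.inj (glue_supp hω).2.2
  exact ⟨h1, h2, h.WB _ _ h1, h.BZ _ _ (h.WB _ _ h1)⟩

/-- The second copy of `Y` is almost independent of the first point. -/
theorem cross (h : X.Ok e) (t : ℕ) (Y : Ω → β) (K : Ω → κ)
    (hY : ∀ ω ω', Y ω = Y ω' → X.cd t ω = X.cd t ω')
    (hK : ∀ ω ω', K ω = K ω' → X.cd t ω = X.cd t ω' ∧ X.Z ω = X.Z ω') :
    Ic (X.q2 t) (fun ω => Y ω.2) (fun ω => ω.1) (fun ω => K ω.1) ≤
      Ic X.p X.W Y X.Z - Ic X.p X.W (X.cd t) X.Z := by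
  have hp := h.isP
  have hq := q_isP h t
  have hWZ : ∀ ω ω', X.W ω = X.W ω' → X.Z ω = X.Z ω' := fun _ _ e => h.BZ _ _ (h.WB _ _ e)
  have e1 : H (X.q2 t) (pair (fun ω : Ω × Ω => ω.1) fun ω => K ω.1) = H X.p id := by
    rw [← H_fst hp (pair X.W (X.cd t)) id]
    exact H_congr hq (fun _ _ _ _ e => (Prod.mk.inj e).1)
      fun ω ω' _ _ (e : ω.1 = ω'.1) => by simp only [pair, e]
  have e2 := H_glue_le hp (pair X.W (X.cd t)) id (pair X.W Y)
    (pair (fun ω : Ω × Ω => Y ω.2) (pair (fun ω => ω.1) fun ω => K ω.1))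
    (fun ω ω' (e : ω = ω') => by rw [e])
    (fun ω ω' e => Prod.ext (Prod.mk.inj e).1 (hY _ _ (Prod.mk.inj e).2))
    fun ω ω' a b c => by
      obtain ⟨c1, c2⟩ := Prod.mk.inj c
      have c3 : ω.1 = ω'.1 := (Prod.mk.inj c2).1
      refine ⟨c3, Prod.ext ?_ c1⟩
      exact (Prod.mk.inj a).1.symm.trans ((congrArg X.W c3).trans (Prod.mk.inj b).1)
  have e3 := submod' hq (fun ω => pair Y X.Z ω.2) (fun ω => K ω.1)
    (pair (fun ω : Ω × Ω => Y ω.2) fun ω => K ω.1) (fun ω => pair (X.cd t) X.Z ω.2)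
    (fun ω ω' _ _ e => Prod.ext (hY _ _ (Prod.mk.inj e).1) (Prod.mk.inj e).2)
    (fun ω ω' a b e => Prod.ext
      ((supp h a).2.1.symm.trans ((hK _ _ e).1.trans (supp h b).2.1))
      ((supp h a).2.2.2.symm.trans ((hK _ _ e).2.trans (supp h b).2.2.2)))
    fun ω ω' _ _ e => Prod.ext (Prod.mk.inj (Prod.mk.inj e).1).1 (Prod.mk.inj e).2
  have e4 : H (X.q2 t) (fun ω => pair Y X.Z ω.2) = H X.p (pair Y X.Z) := H_snd hp _ _
  have e5 : H (X.q2 t) (fun ω => pair (X.cd t) X.Z ω.2) = H X.p (pair (X.cd t) X.Z) :=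
    H_snd hp _ _
  have e6 : ∀ {γ : Type} (Y : Ω → γ), H X.p (pair X.W (pair Y X.Z)) = H X.p (pair X.W Y) :=
    fun Y => H_congr hp
      (fun _ _ _ _ e => Prod.ext (Prod.mk.inj e).1 (Prod.mk.inj (Prod.mk.inj e).2).1)
      fun _ _ _ _ e => Prod.ext (Prod.mk.inj e).1
        (Prod.ext (Prod.mk.inj e).2 (hWZ _ _ (Prod.mk.inj e).1))
  unfold Ic
  rw [e1, e6, e6]
  change _ ≤ H (X.q2 t) _ at e2
  linarith

theorem J1 (h : X.Ok e) (t : ℕ) :
    Ic (X.q2 t) (fun ω => ω.1) (fun ω => X.c ω.2) (fun ω => X.Ku ω.1) ≤ e := by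
  rw [Ic_comm (q_isP h t)]
  have h1 := cross h t X.c X.Ku (fun _ _ e => congrArg (dg X.n t) e)
    fun _ _ e => ⟨congrArg (dg X.n t) (Prod.mk.inj e).1, (Prod.mk.inj e).2⟩
  linarith [h.h2, Ic_nonneg h.isP X.W (X.cd t) X.Z]

theorem J2 (h : X.Ok e) (t : ℕ) :
    Ic (X.q2 t) (fun ω => ω.2) (fun ω => X.c ω.1) (fun ω => X.Ku ω.2) ≤ e :=
  (Ic_swap _ (fun ω => ω.1) (fun ω => X.c ω.2) fun ω => X.Ku ω.1).trans_le (J1 h t)

theorem BU1 (h : X.Ok e) (t : ℕ) :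
    Ic (X.q2 t) (fun ω => X.B ω.1) (fun ω => X.U ω.1) (fun ω => X.Ku ω.1) ≤ e :=
  (Ic_fst h.isP _ X.B X.U X.Ku).trans_le ((Ic_comm h.isP _ _ _).trans_le h.h1)

theorem BU2 (h : X.Ok e) (t : ℕ) :
    Ic (X.q2 t) (fun ω => X.B ω.2) (fun ω => X.U ω.2) (fun ω => X.Ku ω.2) ≤ e :=
  (Ic_swap _ (fun ω => X.B ω.1) (fun ω => X.U ω.1) fun ω => X.Ku ω.1).trans_le (BU1 h t)

theorem HD (h : X.Ok e) (t : ℕ) :
    Hc (X.q2 t) (fun ω => X.D ω.1) (pair (fun ω => X.B ω.1) fun ω => X.Ku ω.1) ≤ e :=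
  (Hc_fst h.isP _ X.D (pair X.B X.Ku)).trans_le h.h3

/-- Everything that is read on the first copy. -/
theorem J1' (h : X.Ok e) (t : ℕ) (f : Ω → α) (g : Ω → β) :
    Ic (X.q2 t) (fun ω => f ω.1) (fun ω => X.c ω.2) (pair (fun ω => g ω.1) fun ω => X.Ku ω.1) ≤ e :=
  (Ic_le (q_isP h t) (fun _ _ _ _ e => (Prod.mk.inj e).2)
    (fun ω ω' _ _ e => by
      have : ω.1 = ω'.1 := (Prod.mk.inj e).1
      simp only [pair, this])
    fun _ _ _ _ e => (Prod.mk.inj e).1).trans (J1 h t)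

theorem aB (h : X.Ok e) (t : ℕ) (Y : Ω × Ω → β) :
    Ic (X.q2 t) (fun ω => X.a ω.1) Y (fun ω => X.Ka ω.1) ≤
      Ic (X.q2 t) (fun ω => X.B ω.1) Y (fun ω => X.Ku ω.1) + e := by
  have hq := q_isP h t
  refine (Ic_le hq (X := pair (fun ω => X.B ω.1) fun ω => X.D ω.1) (Y := Y)
    (K := fun ω => X.Ku ω.1) (fun _ _ _ _ e => ?_) (fun _ _ _ _ e => ?_)
    fun _ _ _ _ e => (Prod.mk.inj e).1).trans
      ((Ic_add_le hq _ _ _ _).trans (add_le_add le_rfl (HD h t)))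
  · simp only [Core.Ka, Core.Ku, Prod.mk.injEq] at e ⊢
    exact ⟨e.1, e.2.2⟩
  · simp only [pair, Core.Ka, Core.Ku, Prod.mk.injEq] at e ⊢
    exact ⟨h.Ba _ _ e.1.1, e.2.1, e.1.2, e.2.2⟩

theorem I1 (h : X.Ok e) (t : ℕ) : Ic (X.q2 t) (fun ω => X.a ω.1)
    (fun ω => (X.c ω.2, X.U ω.1)) (fun ω => X.Ka ω.1) ≤ 3 * e := by
  have hq := q_isP h t
  have h1 := aB h t fun ω => (X.c ω.2, X.U ω.1)
  have h2 : Ic (X.q2 t) (fun ω => X.B ω.1) (fun ω => (X.c ω.2, X.U ω.1)) (fun ω => X.Ku ω.1) ≤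
      Ic (X.q2 t) (fun ω => X.B ω.1) (pair (fun ω => X.U ω.1) fun ω => X.c ω.2)
        (fun ω => X.Ku ω.1) :=
    Ic_le hq (fun _ _ _ _ e => e) (fun _ _ _ _ e => e) fun _ _ _ _ e =>
      Prod.ext (Prod.mk.inj (Prod.mk.inj e).1).2 (Prod.mk.inj (Prod.mk.inj e).1).1
  rw [Ic_chain hq] at h2
  linarith [BU1 h t, J1' h t X.B X.U]

theorem I2 (h : X.Ok e) (t : ℕ) : Ic (X.q2 t) (fun ω => X.a ω.1)
    (fun ω => (X.c ω.2, X.U ω.2)) (fun ω => X.Ka ω.1) ≤ 4 * e := by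
  have hq := q_isP h t
  have h1 := aB h t (pair (fun ω => X.c ω.2) fun ω => X.U ω.2)
  rw [Ic_chain hq (fun ω => X.B ω.1)] at h1
  have h2 : Ic (X.q2 t) (fun ω => X.B ω.1) (fun ω => X.c ω.2) (fun ω => X.Ku ω.1) ≤ e :=
    (Ic_le hq (fun _ _ _ _ e => e) (fun ω ω' _ _ e => by
      have : ω.1 = ω'.1 := (Prod.mk.inj e).1
      simp only [pair, this]) fun _ _ _ _ e => (Prod.mk.inj e).1).trans (J1 h t)
  have h3 : Ic (X.q2 t) (fun ω => X.B ω.1) (fun ω => X.U ω.2)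
      (pair (fun ω => X.c ω.2) fun ω => X.Ku ω.1) ≤
      Ic (X.q2 t) (pair (fun ω => X.B ω.2) fun ω => X.c ω.1) (fun ω => X.U ω.2)
        (fun ω => X.Ku ω.2) := by
    refine Ic_le hq (fun ω ω' a b e => ?_) (fun ω ω' a b e => ?_) fun _ _ _ _ e => (Prod.mk.inj e).1
    · simp only [pair, Core.Ku, Prod.mk.injEq] at e ⊢
      exact ⟨e.1, (supp h a).2.2.2.symm.trans (e.2.2.trans (supp h b).2.2.2)⟩
    · simp only [pair, Core.Ku, Prod.mk.injEq] at e ⊢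
      exact ⟨(supp h a).2.2.1.trans (e.1.1.trans (supp h b).2.2.1.symm), e.2.1, e.1.2,
        (supp h a).2.2.2.trans (e.2.2.trans (supp h b).2.2.2.symm)⟩
  rw [Ic_comm hq (pair _ _), Ic_chain hq, Ic_comm hq _ fun ω => X.B ω.2] at h3
  have h4 : Ic (X.q2 t) (fun ω => X.U ω.2) (fun ω => X.c ω.1)
      (pair (fun ω => X.B ω.2) fun ω => X.Ku ω.2) ≤ e :=
    (Ic_swap _ (fun ω => X.U ω.1) (fun ω => X.c ω.2)
      (pair (fun ω => X.B ω.1) fun ω => X.Ku ω.1)).trans_le (J1' h t X.U X.B)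
  change Ic _ _ (pair (fun ω : Ω × Ω => X.c ω.2) fun ω => X.U ω.2) _ ≤ _
  linarith [BU2 h t]

theorem I3 (h : X.Ok e) (t : ℕ) : Ic (X.q2 t) (fun ω => X.U ω.1)
    (fun ω => (X.a ω.1, X.D ω.1, X.c ω.2)) (fun ω => X.Ku ω.1) ≤ 3 * e := by
  have hq := q_isP h t
  have h1 : Ic (X.q2 t) (fun ω => X.U ω.1) (fun ω => (X.a ω.1, X.D ω.1, X.c ω.2))
      (fun ω => X.Ku ω.1) ≤ Ic (X.q2 t) (fun ω => X.U ω.1)
      (pair (pair (fun ω => X.B ω.1) fun ω => X.D ω.1) fun ω => X.c ω.2) (fun ω => X.Ku ω.1) := by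
    refine Ic_le hq (fun _ _ _ _ e => e) (fun _ _ _ _ e => e) fun _ _ _ _ e => ?_
    simp only [pair, Prod.mk.injEq] at e ⊢
    exact ⟨h.Ba _ _ e.1.1.1, e.1.1.2, e.1.2⟩
  rw [Ic_chain hq, Ic_comm hq _ (pair _ _)] at h1
  have h2 := Ic_add_le hq (fun ω => X.B ω.1) (fun ω => X.D ω.1) (fun ω => X.U ω.1)
    fun ω => X.Ku ω.1
  have h3 : Ic (X.q2 t) (fun ω => X.U ω.1) (fun ω => X.c ω.2)
      (pair (pair (fun ω => X.B ω.1) fun ω => X.D ω.1) fun ω => X.Ku ω.1) ≤ e :=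
    J1' h t X.U (pair X.B X.D)
  linarith [BU1 h t, HD h t]

/-- Telescoping over the digits of `A`. -/
theorem tel_dg (hp : IsP p) (A : Ω → ℤ) (Y : Ω → β) (K : Ω → κ) (n m N M : ℕ) :
    ∑ i ∈ range N, Ic p (fun ω => dg n ((i + M) * m) (A ω)) Y
      (fun ω => (dg n (i * m) (A ω), K ω)) ≤ M * Ic p A Y K := by
  have h1 := tel hp (fun t ω => dg n (t * m) (A ω)) Y K (N + M) M fun t _ _ _ _ _ e =>
    dg_eq_of_le (Nat.mul_le_mul_right m (Nat.le_succ t)) e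
  refine le_trans (sum_le_sum_of_subset_of_nonneg (fun i hi => ?_)
    fun _ _ _ => Ic_nonneg hp _ _ _) (h1.trans (mul_le_mul_of_nonneg_left ?_ (Nat.cast_nonneg M)))
  · simp only [mem_filter, mem_range] at hi ⊢
    omega
  · exact Ic_le hp (fun _ _ _ _ e => e) (fun _ _ _ _ e =>
      Prod.ext (congrArg (dg n _) (Prod.mk.inj e).1) (Prod.mk.inj e).2)
      fun _ _ _ _ e => (Prod.mk.inj e).1

theorem sum_t1 (h : X.Ok e) (m N j : ℕ) : ∑ i ∈ range N, X.t1 m i j ≤ 24 * e := by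
  have h1 := tel_dg (q_isP h (j * m)) (fun ω => X.a ω.1) (fun ω => (X.c ω.2, X.U ω.1))
    (fun ω => X.Ka ω.1) X.n m N 8
  have h2 := I1 h (j * m)
  push_cast at h1
  exact h1.trans (by linarith)

theorem sum_t2 (h : X.Ok e) (m N j : ℕ) : ∑ i ∈ range N, X.t2 m i j ≤ 32 * e := by
  have h1 := tel_dg (q_isP h (j * m)) (fun ω => X.a ω.1) (fun ω => (X.c ω.2, X.U ω.2))
    (fun ω => X.Ka ω.1) X.n m N 8
  have h2 := I2 h (j * m)
  push_cast at h1
  exact h1.trans (by linarith)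

theorem sum_t3 (h : X.Ok e) (m N j : ℕ) : ∑ i ∈ range N, X.t3 m i j ≤ 3 * e := by
  have h1 := tel_dg (q_isP h (j * m)) (fun ω => X.U ω.1) (fun ω => (X.a ω.1, X.D ω.1, X.c ω.2))
    (fun ω => X.Ku ω.1) X.n m N 1
  have h2 := I3 h (j * m)
  push_cast at h1
  exact h1.trans (by linarith)

theorem sum_t4 (h : X.Ok e) (m N : ℕ) : ∑ j ∈ range N, X.t4 m j ≤ e := by
  have h1 : ∀ j, X.t4 m j ≤
      Ic X.p X.W (X.cd ((j + 1) * m)) X.Z - Ic X.p X.W (X.cd (j * m)) X.Z := fun j =>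
    cross h (j * m) (X.cd ((j + 1) * m)) (fun ω => (X.cd (j * m) ω, X.Z ω))
      (fun _ _ e => dg_eq_of_le (Nat.mul_le_mul_right m (Nat.le_succ j)) e)
      fun _ _ e => Prod.mk.inj e
  refine (sum_le_sum fun j _ => h1 j).trans ?_
  rw [sum_range_sub fun j => Ic X.p X.W (X.cd (j * m)) X.Z]
  have h2 : Ic X.p X.W (X.cd (N * m)) X.Z ≤ Ic X.p X.W X.c X.Z :=
    Ic_le h.isP (fun _ _ _ _ e => e) (fun _ _ _ _ e => e)
      fun _ _ _ _ e => congrArg (dg X.n _) (Prod.mk.inj e).1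
  linarith [h.h2, Ic_nonneg h.isP X.W (X.cd (0 * m)) X.Z]

open Classical in
theorem sum_ite_le (N : ℕ) (R : ℕ → Prop) (a : ℕ) (hR : ∀ i, R i → a ≤ i ∧ i < a + 4) {c : ℝ}
    (hc : 0 ≤ c) : ∑ i ∈ range N, (if R i then c else 0) ≤ 4 * c := by
  rw [← sum_filter, sum_const, nsmul_eq_mul]
  refine mul_le_mul_of_nonneg_right ?_ hc
  have : ((range N).filter R).card ≤ (Ico a (a + 4)).card :=
    card_le_card fun i hi => mem_Ico.2 (hR i (mem_filter.1 hi).2)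
  rw [Nat.card_Ico, Nat.add_sub_cancel_left] at this
  exact_mod_cast this

end Pairs

open Pairs in
theorem pairs (h : PairStmt) : PairsStmt := by
  classical
  intro Ω _ X e θ ε1 l m N hX hθ hθ1 hε hε1 hl hl1 hm hN
  set c : ℝ := 2 / (ε1 * θ ^ 2) with hc
  set A : ℝ := 20 * (2 : ℝ) ^ (-(ε1 * m / 2)) + 6 * 2 ^ (7 * m) * l with hA
  set B : ℝ := 2 * 2 ^ (7 * m) / l with hB
  have hc0 : 0 ≤ c := by positivity
  have hA0 : 0 ≤ A := by positivity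
  have hB0 : 0 ≤ B := by positivity
  have n1 : ∀ i j, 0 ≤ X.t1 m i j := fun _ _ => Ic_nonneg (q_isP hX _) _ _ _
  have n2 : ∀ i j, 0 ≤ X.t2 m i j := fun _ _ => Ic_nonneg (q_isP hX _) _ _ _
  have n3 : ∀ i j, 0 ≤ X.t3 m i j := fun _ _ => Ic_nonneg (q_isP hX _) _ _ _
  have n4 : ∀ j, 0 ≤ X.t4 m j := fun _ => Ic_nonneg (q_isP hX _) _ _ _
  let f : ℕ → ℕ → ℝ := fun i' j => c * (A + B * (X.t1 m i' j + X.t2 m i' j + X.t4 m j))
  let g : ℕ → ℕ → ℝ := fun i j => c * B * X.t3 m i j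
  have hf : ∀ i j, 0 ≤ f i j := fun i j => by
    have := n1 i j; have := n2 i j; have := n4 j
    positivity
  have hg : ∀ i j, 0 ≤ g i j := fun i j => mul_nonneg (mul_nonneg hc0 hB0) (n3 i j)
  have s1 : ∑ i' ∈ range N, ∑ j ∈ range N, ∑ i ∈ range N,
      (if X.Rel m i' j i then f i' j else 0) ≤ ∑ i' ∈ range N, ∑ j ∈ range N, 4 * f i' j :=
    sum_le_sum fun i' _ => sum_le_sum fun j _ => sum_ite_le N _ (i' + X.r * j - 4)
      (fun i hi => by have := hi.1; have := hi.2.1; omega) (hf i' j)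
  have s2 : ∑ i' ∈ range N, ∑ j ∈ range N, ∑ i ∈ range N,
      (if X.Rel m i' j i then g i j else 0) ≤ ∑ j ∈ range N, ∑ i ∈ range N, 4 * g i j := by
    rw [sum_comm]
    refine sum_le_sum fun j _ => ?_
    rw [sum_comm]
    exact sum_le_sum fun i _ => sum_ite_le N _ (i + 1 - X.r * j)
      (fun i' hi => by have := hi.1; have := hi.2.1; omega) (hg i j)
  have s3 : ∑ i' ∈ range N, ∑ j ∈ range N, 4 * f i' j ≤
      4 * c * (N ^ 2 * A + B * (57 * N * e)) := by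
    have e1 : ∑ i' ∈ range N, ∑ j ∈ range N, 4 * f i' j = 4 * c * (N ^ 2 * A + B *
        (∑ j ∈ range N, ∑ i' ∈ range N, X.t1 m i' j + ∑ j ∈ range N, ∑ i' ∈ range N, X.t2 m i' j +
          N * ∑ j ∈ range N, X.t4 m j)) := by
      rw [sum_comm]
      simp only [f, ← mul_sum, sum_add_distrib, sum_const, card_range, nsmul_eq_mul]
      ring
    have e2 := sum_le_sum fun j (_ : j ∈ range N) => sum_t1 hX m N j
    have e3 := sum_le_sum fun j (_ : j ∈ range N) => sum_t2 hX m N j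
    have e4 := mul_le_mul_of_nonneg_left (sum_t4 hX m N) (Nat.cast_nonneg (α := ℝ) N)
    rw [sum_const, card_range, nsmul_eq_mul] at e2 e3
    rw [e1]
    gcongr
    linarith
  have s4 : ∑ j ∈ range N, ∑ i ∈ range N, 4 * g i j ≤ 4 * c * B * (3 * N * e) := by
    have e2 := sum_le_sum fun j (_ : j ∈ range N) => sum_t3 hX m N j
    rw [sum_const, card_range, nsmul_eq_mul] at e2
    simp only [g, ← mul_sum]
    nlinarith [mul_le_mul_of_nonneg_left e2 (mul_nonneg hc0 hB0)]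
  refine le_trans (sum_le_sum fun i' _ => sum_le_sum fun j hj => sum_le_sum fun i _ =>
    (?_ : _ ≤ (if X.Rel m i' j i then f i' j else 0) + if X.Rel m i' j i then g i j else 0)) ?_
  · split_ifs with hr
    · refine (h Ω X e θ ε1 l m i' j i hX hθ hθ1 hε hε1 hl hl1 hm
        ((Nat.mul_le_mul_right m (mem_range.1 hj)).trans hN) hr).trans_eq ?_
      simp only [f, g, hA, hB, hc]
      ring
    · simp
  · simp only [sum_add_distrib]
    refine (add_le_add (s1.trans s3) (s2.trans s4)).trans_eq ?_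
    rw [hB]
    ring

end Pool.Agent.MP_538dc4_an.AB

end MrgPart1

-- ======== part 2: formerly Pool.Agent.MP_538dc4_an.ab.Abc
section MrgPart2

/-! PROJECT FURST2, module ABC: the sum-product lemma for entropies. -/

open Finset Real Filter Topology

namespace Pool.Agent.MP_538dc4_an.AB

namespace Abc

open Classical in
theorem card_div (Q : ℕ → Prop) {r : ℕ} (hr : 0 < r) (t : ℕ) :
    ((range (t / r)).filter Q).card * r ≤ ((range t).filter fun c => Q (c / r)).card := by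
  rw [← card_range r, ← card_product, card_range]
  refine card_le_card_of_injOn (fun z : ℕ × ℕ => r * z.1 + z.2) (fun z hz => ?_) ?_
  · simp only [coe_product, Set.mem_prod, mem_coe, mem_filter, mem_range] at hz ⊢
    obtain ⟨⟨h1, h2⟩, h3⟩ := hz
    have h4 : r * (z.1 + 1) ≤ t := (Nat.mul_le_mul_left r h1).trans (Nat.mul_div_le t r)
    refine ⟨by rw [mul_add, mul_one] at h4; omega, ?_⟩
    rwa [Nat.mul_add_div hr, Nat.div_eq_of_lt h3, add_zero]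
  · intro z hz w hw e
    simp only [coe_product, Set.mem_prod, mem_coe, mem_filter, mem_range] at hz hw e
    have e1 := congrArg (· / r) e
    simp only [Nat.mul_add_div hr, Nat.div_eq_of_lt hz.2, Nat.div_eq_of_lt hw.2, add_zero] at e1
    rw [e1] at e
    exact Prod.ext e1 (by omega)

open Classical in
theorem inter_range (Q : ℕ → Prop) {t N : ℕ} (h : t ≤ N) :
    (range N).filter Q ∩ range t = (range t).filter Q := by
  ext c
  simp only [mem_inter, mem_filter, mem_range]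
  exact ⟨fun k => ⟨k.2, k.1.2⟩, fun k => ⟨⟨k.1.trans_le h, k.2⟩, k.1⟩⟩

open Classical in
/-- The number of triples with the property T. -/
noncomputable def cnt (N : ℕ) (T : ℕ → ℕ → ℕ → Prop) : ℝ :=
  ∑ b ∈ range N, ∑ j ∈ range N, ∑ i ∈ range N, if T b j i then 1 else 0

theorem cnt_nonneg (N : ℕ) (T : ℕ → ℕ → ℕ → Prop) : 0 ≤ cnt N T :=
  sum_nonneg fun _ _ => sum_nonneg fun _ _ => sum_nonneg fun _ _ => by split_ifs <;> norm_num

theorem pairs_le {N r : ℕ} (hr : r = 1 ∨ r = 2) (T : ℕ → ℕ → ℕ → Prop) (S : Finset (ℕ × ℕ))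
    (h : ∀ z ∈ S, z.1 < N ∧ z.2 < N ∧ ∃ i < N, T z.1 (z.2 / r) i) :
    (S.card : ℝ) ≤ 2 * cnt N T := by
  classical
  let J := (range N ×ˢ range N).filter fun z : ℕ × ℕ => ∃ i < N, T z.1 z.2 i
  have h1 : S.card ≤ 2 * J.card := by
    refine card_le_mul_card_image_of_maps_to (f := fun z : ℕ × ℕ => (z.1, z.2 / r))
      (fun z hz => ?_) 2 fun w _ => ?_
    · obtain ⟨k1, k2, k3⟩ := h z hz
      exact mem_filter.2 ⟨mem_product.2 ⟨mem_range.2 k1,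
        mem_range.2 ((Nat.div_le_self _ _).trans_lt k2)⟩, k3⟩
    · refine le_trans (card_le_card (t := {(w.1, r * w.2), (w.1, r * w.2 + 1)}) fun z hz => ?_)
        card_le_two
      have e := (mem_filter.1 hz).2
      have e1 : z.1 = w.1 := (congrArg Prod.fst e :)
      have e2 : z.2 / r = w.2 := (congrArg Prod.snd e :)
      have : z.2 = r * w.2 ∨ z.2 = r * w.2 + 1 := by rcases hr with rfl | rfl <;> omega
      rcases this with e3 | e3
      · exact mem_insert.2 (Or.inl (Prod.ext e1 e3))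
      · exact mem_insert.2 (Or.inr (mem_singleton.2 (Prod.ext e1 e3)))
  have h2 : (J.card : ℝ) ≤ cnt N T := by
    rw [cnt, ← sum_product', card_eq_sum_ones, Nat.cast_sum]
    refine le_trans (sum_le_sum fun z hz => ?_) (sum_le_sum_of_subset_of_nonneg (filter_subset _ _)
      fun _ _ _ => sum_nonneg fun _ _ => by split_ifs <;> norm_num)
    obtain ⟨i, hi, hT⟩ := (mem_filter.1 hz).2
    refine le_trans ?_ (single_le_sum (fun _ _ => by split_ifs <;> norm_num) (mem_range.2 hi))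
    rw [if_pos hT, Nat.cast_one]
  calc (S.card : ℝ) ≤ 2 * J.card := by exact_mod_cast h1
    _ ≤ _ := by linarith

open Classical in
/-- The conclusion of the sumset lemma for fixed constants. -/
def SumAt (ε0 δ : ℝ) : Prop :=
  ∀ (N : ℕ) (A B C : Finset ℕ) (σ τ : ℝ), ε0 ≤ σ → ε0 ≤ τ →
    B ⊆ range N → C ⊆ range N →
    (∀ t ≤ N, σ * t - δ * N ≤ ((B ∩ range t).card : ℝ)) →
    (∀ t ≤ N, τ * t - δ * N ≤ ((C ∩ range t).card : ℝ)) →
    (((B ×ˢ C).filter fun z => ∃ e ≤ 2, z.1 + z.2 + e < N ∧ z.1 + z.2 + e ∉ A).card : ℝ) ≤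
      δ * N ^ 2 →
    (min 1 (σ + τ) - ε0) * N ≤ ((A ∩ range N).card : ℝ)

theorem SumAt.mono {ε0 δ δ' : ℝ} (h : SumAt ε0 δ) (hδ : δ' ≤ δ) : SumAt ε0 δ' := by
  intro N A B C σ τ h1 h2 h3 h4 h5 h6 h7
  have k1 : δ' * N ≤ δ * N := mul_le_mul_of_nonneg_right hδ (Nat.cast_nonneg _)
  have k2 : δ' * N ^ 2 ≤ δ * N ^ 2 := mul_le_mul_of_nonneg_right hδ (sq_nonneg _)
  exact h N A B C σ τ h1 h2 h3 h4 (fun t ht => by linarith [h5 t ht])
    (fun t ht => by linarith [h6 t ht]) (h7.trans k2)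

open Classical in
theorem comb {ε0 δ σ τ : ℝ} (hS : SumAt ε0 δ) {N M r : ℕ} (hr : r = 1 ∨ r = 2)
    (EB EC EA : ℕ → Prop) (Rel : ℕ → ℕ → ℕ → Prop) (hσ : ε0 ≤ σ) (hτ : ε0 ≤ τ) (hτ0 : 0 ≤ τ)
    (hτ1 : τ ≤ 1) (hN : 2 ≤ δ * N)
    (hB : ∀ t ≤ N, σ * t - δ * N / 4 ≤ (((range t).filter EB).card : ℝ))
    (hC : ∀ t ≤ N, τ * t - δ * N / 4 ≤ (((range t).filter EC).card : ℝ))
    (hR : ∀ b j i, i + 1 ≤ b + r * j → b + r * j ≤ i + 4 → i + M ≤ N → Rel b j i)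
    (hbad : cnt N (fun b j i => Rel b j i ∧ EB b ∧ EC j ∧ ¬EA i) ≤ δ * N ^ 2 / 2) :
    (min 1 (σ + τ) - ε0) * N - (4 + M) ≤ (((range N).filter EA).card : ℝ) := by
  have r0 : 0 < r := by omega
  let A := range (r + 2) ∪ Ico (N - M) N ∪ ((range N).filter EA).image (· + (r + 2))
  have k := hS N A ((range N).filter EB) ((range N).filter fun c => EC (c / r)) σ τ hσ hτ
    (filter_subset _ _) (filter_subset _ _) (fun t ht => ?_) (fun t ht => ?_) ?_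
  · have h1 : (A ∩ range N).card ≤ 4 + M + ((range N).filter EA).card := by
      refine (card_le_card inter_subset_left).trans ((card_union_le _ _).trans ?_)
      have a1 := card_union_le (range (r + 2)) (Ico (N - M) N)
      have a2 := card_image_le (s := (range N).filter EA) (f := (· + (r + 2)))
      rw [card_range, Nat.card_Ico] at a1
      omega
    have h2 : ((A ∩ range N).card : ℝ) ≤ 4 + M + ((range N).filter EA).card := by exact_mod_cast h1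
    linarith
  · rw [inter_range _ ht]
    linarith [hB t ht]
  · rw [inter_range _ ht]
    have h1 : (((range (t / r)).filter EC).card : ℝ) * r ≤
        (((range t).filter fun c => EC (c / r)).card : ℝ) := by exact_mod_cast card_div EC r0 t
    have h2 := hC (t / r) ((Nat.div_le_self _ _).trans ht)
    rcases hr with rfl | rfl
    · rw [Nat.div_one] at h1 h2
      push_cast at h1
      linarith
    · have h3 : (t : ℝ) ≤ 2 * (t / 2 : ℕ) + 1 := by exact_mod_cast (by omega : t ≤ 2 * (t / 2) + 1)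
      push_cast at h1
      nlinarith [mul_le_mul_of_nonneg_left h3 hτ0]
  · refine le_trans (pairs_le (N := N) hr (fun b j i => Rel b j i ∧ EB b ∧ EC j ∧ ¬EA i) _
      fun z hz => ?_) (by linarith)
    obtain ⟨h1, e, he, h2, h3⟩ := mem_filter.1 hz
    obtain ⟨h4, h5⟩ := mem_product.1 h1
    obtain ⟨h6, h7⟩ := mem_filter.1 h4
    obtain ⟨h8, h9⟩ := mem_filter.1 h5
    simp only [A, mem_union, mem_range, mem_Ico, mem_image, mem_filter, not_or, not_and,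
      not_exists, not_lt] at h3
    obtain ⟨⟨g1, g2⟩, g3⟩ := h3
    have g4 : z.1 + z.2 + e < N - M := by
      by_contra g
      exact absurd (g2 (not_lt.1 g)) (not_le.2 h2)
    refine ⟨mem_range.1 h6, mem_range.1 h8, z.1 + z.2 + e - (r + 2), by omega,
      hR _ _ _ ?_ ?_ (by omega), h7, h9, fun g => g3 _ ⟨by omega, g⟩ (by omega)⟩
    · rcases hr with rfl | rfl <;> omega
    · rcases hr with rfl | rfl <;> omega

theorem dens_of {n m N : ℕ} {c I : ℕ → ℝ} {σ ε δ : ℝ} (hm : 0 < m) (h0 : 0 ≤ δ)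
    (h1 : ∀ t ≤ n, σ * t * log 2 - ε * n ≤ I t)
    (h2 : ¬∃ t ≤ N, m * log 2 * c t + δ * m * log 2 / 8 * N < I (t * m)) (h3 : N * m ≤ n)
    (h4 : n ≤ 2 * (N * m)) (h5 : ε ≤ δ * log 2 / 16) :
    ∀ t ≤ N, σ * t - δ * N / 4 ≤ c t := by
  intro t ht
  have l2 : 0 < log 2 := log_pos one_lt_two
  have m0 : (0 : ℝ) < m := by exact_mod_cast hm
  have k1 := h1 (t * m) ((Nat.mul_le_mul_right m ht).trans h3)
  have k2 := not_lt.1 fun k => h2 ⟨t, ht, k⟩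
  have k3 : (n : ℝ) ≤ 2 * (N * m) := by exact_mod_cast h4
  have k4 : ε * n ≤ δ * log 2 / 16 * (2 * (N * m)) :=
    mul_le_mul h5 k3 (Nat.cast_nonneg _) (by positivity)
  push_cast at k1
  refine le_of_mul_le_mul_left ?_ (mul_pos m0 l2)
  nlinarith

variable {Ω : Type} [Fintype Ω]

omit [Fintype Ω] in
theorem adm (X : Core Ω) {m N a i : ℕ} (hm : 2 ≤ m) (h1 : N * m ≤ X.n) (h2 : X.C0 ≤ 2 ^ a)
    (h3 : i + (12 + a) ≤ N) : X.Adm m i := by
  have k1 : (i + (12 + a)) * m ≤ X.n := (Nat.mul_le_mul_right m h3).trans h1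
  have k2 : a ≤ a * m := Nat.le_mul_of_pos_right a (by omega)
  have k3 : (i + (12 + a)) * m = (i + 1) * m + 11 * m + a * m := by ring
  have k4 : (i + 12) * m = (i + 1) * m + 11 * m := by ring
  refine ⟨by omega, ?_⟩
  calc (2 : ℝ) ^ (7 * m + 2) * X.C0 ≤ 2 ^ (7 * m + 2) * 2 ^ a := by gcongr
    _ = 2 ^ (7 * m + 2 + a) := (pow_add _ _ _).symm
    _ ≤ _ := pow_le_pow_right₀ one_le_two (by omega)

theorem tele (X : Core Ω) (hp : IsP X.p) (m N : ℕ) :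
    ∑ i ∈ range N, Hc X.p (X.Ud ((i + 1) * m)) (pair (X.Ud (i * m)) X.Ku) ≤ Hc X.p X.U X.Ku := by
  have h1 : ∀ i, Hc X.p (X.Ud ((i + 1) * m)) (pair (X.Ud (i * m)) X.Ku) ≤
      H X.p (pair (X.Ud ((i + 1) * m)) X.Ku) - H X.p (pair (X.Ud (i * m)) X.Ku) := fun i => by
    refine sub_le_sub_right (H_le_of_dt hp (Dt.of_forall fun ω ω' e => ?_)) _
    obtain ⟨e1, e2⟩ := Prod.mk.inj e
    exact Prod.ext e1 (Prod.ext (dg_eq_of_le (Nat.mul_le_mul_right m (Nat.le_succ i)) e1) e2)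
  refine (sum_le_sum fun i _ => h1 i).trans ?_
  rw [sum_range_sub fun i => H X.p (pair (X.Ud (i * m)) X.Ku)]
  refine sub_le_sub (H_le_of_dt hp (Dt.of_forall fun ω ω' e => ?_))
    (H_le_of_dt hp (Dt.of_forall fun ω ω' e => (Prod.mk.inj e).2))
  obtain ⟨e1, e2⟩ := Prod.mk.inj e
  exact Prod.ext (congrArg (dg X.n (N * m)) e1) e2

open Classical in
theorem ent (X : Core Ω) (hp : IsP X.p) {m N : ℕ} {ε1 g : ℝ} (h1 : ε1 ≤ 1) (G : Ω → Prop)
    (h : ∀ ω, G ω → g ≤ (((range N).filter fun i => X.EA m ε1 i ω).card : ℝ)) :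
    P X.p G * ((1 - ε1) * (m * log 2) * g) ≤ Hc X.p X.U X.Ku := by
  refine le_trans ?_ (tele X hp m N)
  simp only [← sum_hent hp]
  rw [sum_comm, P_eq_sum, sum_mul]
  refine sum_le_sum fun ω _ => ?_
  rw [← mul_sum, mul_assoc]
  refine mul_le_mul_of_nonneg_left ?_ (hp.nn ω)
  have l2 : 0 < log 2 := log_pos one_lt_two
  have k0 : 0 ≤ (1 - ε1) * (m * log 2) := mul_nonneg (by linarith) (by positivity)
  split_ifs with hG
  · rw [one_mul]
    refine (mul_le_mul_of_nonneg_left (h ω hG) k0).trans ?_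
    rw [mul_comm, ← nsmul_eq_mul, ← sum_const]
    exact le_trans (sum_le_sum fun i hi => (mem_filter.1 hi).2)
      (sum_le_sum_of_subset_of_nonneg (filter_subset _ _) fun i _ _ => hent_nonneg hp _ _ _)
  · rw [zero_mul]
    exact sum_nonneg fun i _ => hent_nonneg hp _ _ _

open Classical in
theorem mean_cnt (p : Ω → ℝ) (N : ℕ) (Rel : ℕ → ℕ → ℕ → Prop) (E : ℕ → ℕ → ℕ → Ω → Prop) :
    ∑ ω, p ω * cnt N (fun b j i => Rel b j i ∧ E b j i ω) =
      ∑ b ∈ range N, ∑ j ∈ range N, ∑ i ∈ range N, if Rel b j i then P p (E b j i) else 0 := by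
  simp only [cnt, mul_sum]
  rw [sum_comm]
  refine sum_congr rfl fun b _ => ?_
  rw [sum_comm]
  refine sum_congr rfl fun j _ => ?_
  rw [sum_comm]
  refine sum_congr rfl fun i _ => ?_
  by_cases h : Rel b j i
  · rw [if_pos h, P_eq_sum]
    refine sum_congr rfl fun ω _ => ?_
    by_cases k : E b j i ω
    · rw [if_pos k, if_pos ⟨h, k⟩]
    · rw [if_neg k, if_neg fun k' => k k'.2]
  · rw [if_neg h]
    exact sum_eq_zero fun ω _ => by rw [if_neg fun k' => h k'.1, mul_zero]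

theorem five {p : Ω → ℝ} (hp : IsP p) {A B C D E : Ω → Prop} {β : ℝ} (h1 : 1 - β ≤ P p A)
    (h2 : 1 - β ≤ P p B) (h3 : P p C ≤ β) (h4 : P p D ≤ β) (h5 : P p E ≤ β) :
    1 - 5 * β ≤ P p fun ω => A ω ∧ B ω ∧ ¬C ω ∧ ¬D ω ∧ ¬E ω := by
  have k1 := P_and_ge hp (fun ω => ¬D ω) fun ω => ¬E ω
  have k2 := P_and_ge hp (fun ω => ¬C ω) fun ω => ¬D ω ∧ ¬E ω
  have k3 := P_and_ge hp B fun ω => ¬C ω ∧ ¬D ω ∧ ¬E ω
  have k4 := P_and_ge hp A fun ω => B ω ∧ ¬C ω ∧ ¬D ω ∧ ¬E ω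
  rw [P_not hp, P_not hp] at k1
  rw [P_not hp] at k2
  linarith

theorem params {ε1 β δ θ : ℝ} (h1 : 0 < ε1) (hβ : 0 < β) (hδ : 0 < δ) (hθ : θ = β * δ / 100) :
    ∃ (m : ℕ) (l ε : ℝ), 2 ≤ m ∧ 0 < l ∧ l ≤ 1 ∧ 0 < ε ∧ ε ≤ β ∧ ε ≤ δ * log 2 / 16 ∧
      (3 + θ * (m + 1)) / (δ * m * log 2 / 8) ≤ β ∧ ∀ N e : ℝ, 0 ≤ N → e ≤ ε * (2 * (N * m)) →
      2 / (ε1 * θ ^ 2) * (4 * N ^ 2 * (20 * (2 : ℝ) ^ (-(ε1 * m / 2)) + 6 * 2 ^ (7 * m) * l) +
        480 * 2 ^ (7 * m) * N * e / l) ≤ β * (δ * N ^ 2 / 2) := by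
  have l2 : 1 / 2 < log 2 := lt_trans (by norm_num) log_two_gt_d9
  have θ0 : 0 < θ := by rw [hθ]; positivity
  obtain ⟨c, hc, c0⟩ : ∃ c : ℝ, 2 / (ε1 * θ ^ 2) * c = β * δ / 6 ∧ 0 < c :=
    ⟨β * δ / 6 / (2 / (ε1 * θ ^ 2)), by field_simp, by positivity⟩
  have t1 : Tendsto (fun m : ℕ => (2 : ℝ) ^ (-(ε1 * m / 2))) atTop (𝓝 0) :=
    (tendsto_rpow_atBot_of_base_gt_one 2 one_lt_two).comp (tendsto_neg_atTop_atBot.comp
      ((tendsto_natCast_atTop_atTop.const_mul_atTop h1).atTop_div_const two_pos))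
  obtain ⟨m, m1, m2, m3⟩ := ((t1.eventually (ge_mem_nhds (show 0 < c / 80 by positivity))).and
    ((eventually_ge_atTop 2).and
      (tendsto_natCast_atTop_atTop.eventually_ge_atTop (100 / (β * δ))))).exists
  have m0 : (2 : ℝ) ≤ m := by exact_mod_cast m2
  obtain ⟨l, l0, l1, l3⟩ : ∃ l : ℝ, 0 < l ∧ l ≤ 1 ∧ 24 * 2 ^ (7 * m) * l ≤ c :=
    ⟨min 1 (c / (24 * 2 ^ (7 * m))), by positivity, min_le_left _ _, by
      rw [mul_comm, ← le_div_iff₀ (by positivity)]; exact min_le_right _ _⟩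
  obtain ⟨ε, e0, e1, e2, e3⟩ : ∃ ε : ℝ, 0 < ε ∧ ε ≤ β ∧ ε ≤ δ * log 2 / 16 ∧
      960 * 2 ^ (7 * m) * m * ε ≤ c * l :=
    ⟨min β (min (δ * log 2 / 16) (c * l / (960 * 2 ^ (7 * m) * m))), by positivity,
      min_le_left _ _, (min_le_right _ _).trans (min_le_left _ _), by
      rw [mul_comm, ← le_div_iff₀ (by positivity)]
      exact (min_le_right _ _).trans (min_le_right _ _)⟩
  refine ⟨m, l, ε, m2, l0, l1, e0, e1, e2, ?_, fun N e hN he => ?_⟩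
  · rw [div_le_iff₀ (by positivity), hθ]
    rw [div_le_iff₀ (by positivity)] at m3
    have k : 0 < β * δ * m := by positivity
    have k2 : 0 < β * δ := by positivity
    nlinarith [mul_le_mul_of_nonneg_left l2.le k.le, mul_le_mul_of_nonneg_left m0 k2.le]
  · have k1 : 480 * 2 ^ (7 * m) * N * e / l ≤ c * N ^ 2 := by
      rw [div_le_iff₀ l0]
      calc 480 * 2 ^ (7 * m) * N * e ≤ 480 * 2 ^ (7 * m) * N * (ε * (2 * (N * m))) := by gcongr
        _ = 960 * 2 ^ (7 * m) * m * ε * N ^ 2 := by ring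
        _ ≤ c * l * N ^ 2 := by gcongr
        _ = _ := by ring
    have k2 : 4 * N ^ 2 * (20 * (2 : ℝ) ^ (-(ε1 * m / 2)) + 6 * 2 ^ (7 * m) * l) ≤
        2 * c * N ^ 2 := by nlinarith [sq_nonneg N]
    calc _ ≤ 2 / (ε1 * θ ^ 2) * (2 * c * N ^ 2 + c * N ^ 2) := by gcongr
      _ = 2 / (ε1 * θ ^ 2) * c * (3 * N ^ 2) := by ring
      _ = _ := by rw [hc]; ring

theorem final {ε0 γ q g n k : ℝ} (h0 : 0 < ε0) (h1 : ε0 ≤ γ) (h2 : γ ≤ 1)
    (hq : 1 - ε0 / 4 ≤ q) (hn : 0 ≤ n) (hk : (1 - ε0 / 8) * n ≤ k) (hg : (γ - 3 * ε0 / 8) * k ≤ g) :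
    (γ - ε0) * n ≤ q * ((1 - ε0 / 4) * g) := by
  have a1 : 0 ≤ 1 - ε0 / 4 := by linarith
  have a2 : 0 ≤ γ - 3 * ε0 / 8 := by linarith
  have a3 : (γ - 3 * ε0 / 8) * ((1 - ε0 / 8) * n) ≤ g := (mul_le_mul_of_nonneg_left hk a2).trans hg
  have a4 : 0 ≤ (γ - 3 * ε0 / 8) * ((1 - ε0 / 8) * n) :=
    mul_nonneg a2 (mul_nonneg (by linarith) hn)
  have a5 : 1 - 5 * ε0 / 8 ≤ (1 - ε0 / 4) * (1 - ε0 / 4) * (1 - ε0 / 8) := by
    nlinarith [mul_nonneg (sq_nonneg ε0) (show 0 ≤ 16 - ε0 by linarith)]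
  have a6 : γ - ε0 ≤ (1 - ε0 / 4) * (1 - ε0 / 4) * (1 - ε0 / 8) * (γ - 3 * ε0 / 8) := by
    nlinarith [mul_le_mul_of_nonneg_right a5 a2]
  calc (γ - ε0) * n ≤ (1 - ε0 / 4) * (1 - ε0 / 4) * (1 - ε0 / 8) * (γ - 3 * ε0 / 8) * n := by
        gcongr
    _ = (1 - ε0 / 4) * ((1 - ε0 / 4) * ((γ - 3 * ε0 / 8) * ((1 - ε0 / 8) * n))) := by ring
    _ ≤ _ := mul_le_mul hq (mul_le_mul_of_nonneg_left a3 a1) (mul_nonneg a1 a4) (a1.trans hq)

end Abc

open Abc in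
theorem abc (h1 : PairsStmt) (h2 : DensStmt) (h3 : SumStmt) : AbcStmt := by
  intro ε0 e0
  rcases lt_or_ge 1 ε0 with e1 | e1
  · exact ⟨1, one_pos, fun _ => ⟨0, fun _ _ _ _ _ _ _ _ k1 k2 => absurd (k1.trans k2) e1.not_ge⟩⟩
  obtain ⟨δ', d0, hS'⟩ := h3 (ε0 / 4) (by positivity)
  obtain ⟨δ, hδ, δ1, hS⟩ : ∃ δ : ℝ, 0 < δ ∧ δ ≤ 1 ∧ SumAt (ε0 / 4) δ :=
    ⟨min δ' 1, by positivity, min_le_right _ _, SumAt.mono hS' (min_le_left _ _)⟩
  obtain ⟨θ, hθ⟩ : ∃ θ, θ = ε0 / 20 * δ / 100 := ⟨_, rfl⟩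
  have θ0 : 0 < θ := by rw [hθ]; positivity
  have θ1 : θ ≤ 1 := by rw [hθ]; nlinarith
  obtain ⟨m, l, ε, m2, l0, l1, hε, ε1, ε2, p1, p2⟩ :=
    params (ε1 := ε0 / 4) (by positivity) (by positivity) hδ hθ
  refine ⟨ε, hε, fun C0 => ?_⟩
  obtain ⟨a, ha⟩ := pow_unbounded_of_one_lt C0 (one_lt_two (α := ℝ))
  obtain ⟨N0, hN0⟩ := exists_nat_ge (max (2 / δ) (8 * (16 + a) / ε0))
  refine ⟨N0 * m, fun Ω _ X σ τ hC hn hX σ0 σ1 τ0 τ1 g1 g2 => ?_⟩
  have hp := hX.isP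
  have l2 : 0 < log 2 := log_pos one_lt_two
  have m0 : 0 < m := by omega
  have mR : (0 : ℝ) < m := by exact_mod_cast m0
  obtain ⟨N, n1, n2, n3⟩ : ∃ N : ℕ, N0 ≤ N ∧ N * m ≤ X.n ∧ X.n ≤ N * m + m :=
    ⟨X.n / m, (Nat.le_div_iff_mul_le m0).2 hn, Nat.div_mul_le_self _ _,
      (Nat.lt_div_mul_add m0).le⟩
  have n4 : (N0 : ℝ) ≤ N := by exact_mod_cast n1
  have n5 : 2 ≤ δ * N := by
    rw [mul_comm, ← div_le_iff₀ hδ]
    exact (le_max_left _ _).trans (hN0.trans n4)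
  have n6 : 8 * (16 + (a : ℝ)) ≤ N * ε0 := by
    rw [← div_le_iff₀ e0]
    exact (le_max_right _ _).trans (hN0.trans n4)
  have N1 : (1 : ℝ) ≤ N := by nlinarith
  have n7 : X.n ≤ 2 * (N * m) := by
    have : 1 ≤ N := by exact_mod_cast N1
    have := Nat.mul_le_mul_right m this
    omega
  have n8 : (X.n : ℝ) ≤ 2 * (N * m) := by exact_mod_cast n7
  have n9 : (N : ℝ) * m ≤ X.n := by exact_mod_cast n2
  have n10 : (X.n : ℝ) ≤ N * m + m := by exact_mod_cast n3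
  have ξ0 : 0 < δ * m * log 2 / 8 := by positivity
  have d1 := (h2 Ω _ X.p X.a X.Ka X.n m N θ _ hp hX.a_rng m0 n2 θ0.le ξ0).trans p1
  have d2 := (h2 Ω _ X.p X.c X.Z X.n m N θ _ hp hX.c_rng m0 n2 θ0.le ξ0).trans p1
  have d3 := (h1 Ω X _ θ (ε0 / 4) l m N hX θ0 θ1 (by positivity) (by linarith) l0 l1 m2 n2).trans
    (p2 N _ (Nat.cast_nonneg _) (mul_le_mul_of_nonneg_left n8 hε.le))
  rw [← mean_cnt X.p N (X.Rel m) fun b j i ω =>
    X.EB m θ b ω ∧ X.EC m θ j ω ∧ ¬X.EA m (ε0 / 4) i ω] at d3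
  have t0 : 0 < δ * N ^ 2 / 2 := by positivity
  have d4 := (markov hp (fun ω _ => cnt_nonneg N _) t0).trans ((div_le_iff₀ t0).2 d3)
  have d5 := five hp ((sub_le_sub_left ε1 1).trans g1) ((sub_le_sub_left ε1 1).trans g2) d1 d2 d4
  have key := ent X hp (m := m) (N := N) (ε1 := ε0 / 4)
    (g := (min 1 (σ + τ) - ε0 / 4) * N - (4 + (12 + a : ℕ))) (by linarith) _
    fun ω (hω : _ ∧ _ ∧ ¬_ ∧ ¬_ ∧ ¬(_ ≤ _)) =>
      comb hS hX.r12 (fun i => X.EB m θ i ω) (fun j => X.EC m θ j ω) _ (X.Rel m) (by linarith)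
        (by linarith) (by linarith) τ1 n5
        (dens_of (I := fun t => info X.p (pair (X.ad t) X.Ka) ω - info X.p X.Ka ω) m0 hδ.le
          hω.1 hω.2.2.1 n2 n7 ε2)
        (dens_of (I := fun t => info X.p (pair (X.cd t) X.Z) ω - info X.p X.Z ω) m0 hδ.le
          hω.2.1 hω.2.2.2.1 n2 n7 ε2)
        (fun b j i k1 k2 k3 => ⟨k1, k2, adm X m2 n2 (hC.trans ha.le) k3⟩)
        (not_le.1 hω.2.2.2.2).le
  refine le_trans ?_ key
  rw [mul_assoc (1 - ε0 / 4)]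
  have a0 : (0 : ℝ) ≤ a := Nat.cast_nonneg a
  refine final (k := N * m * log 2) e0 (le_min e1 (by linarith)) (min_le_left _ _)
    (le_trans (by linarith) d5) (by positivity) ?_ ?_
  · rw [← mul_assoc]
    refine mul_le_mul_of_nonneg_right ?_ l2.le
    have b1 := mul_le_mul_of_nonneg_right n6 mR.le
    have b2 := mul_le_mul_of_nonneg_left n9 e0.le
    have b3 := mul_nonneg a0 mR.le
    linarith
  · push_cast
    have b1 := mul_le_mul_of_nonneg_right n6 (mul_pos mR l2).le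
    linarith

end Pool.Agent.MP_538dc4_an.AB

end MrgPart2

-- ======== part 3: formerly Pool.Agent.MP_538dc4_an.ab.Frost
section MrgPart3

/-! PROJECT FURST2, module FROST: a discrete Frostman lemma and the random pair
(curve, abscissa). -/

open MeasureTheory Finset
open scoped ENNReal

namespace Pool.Agent.MP_538dc4_an.AB

namespace Frost

/-- A finite cover bounds the content. -/
theorem le_sum {X ι : Type} [MetricSpace X] {s κ : ℝ} (hs : 0 < s) (I : Finset ι) (d : ι → ℝ)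
    (hd : ∀ i ∈ I, 0 ≤ d i) (U : ι → Set X) {A : Set X} (hA : A ⊆ ⋃ i ∈ I, U i)
    (hU : ∀ i ∈ I, ∀ x ∈ U i, ∀ y ∈ U i, dist x y ≤ d i) (h : ENNReal.ofReal κ ≤ hc s A) :
    κ ≤ ∑ i ∈ I, d i ^ s := by
  have h0 : ∀ i ∈ I, 0 ≤ d i ^ s := fun i hi => Real.rpow_nonneg (hd i hi) s
  have h1 : hc s A ≤ ENNReal.ofReal (∑ i ∈ I, d i ^ s) :=
    calc hc s A ≤ hc s (⋃ i ∈ I, U i) := measure_mono hA
      _ ≤ ∑ i ∈ I, hc s (U i) := measure_biUnion_finset_le I U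
      _ ≤ ∑ i ∈ I, ENNReal.ofReal (d i ^ s) := sum_le_sum fun i hi => by
          refine (OuterMeasure.boundedBy_le _).trans ?_
          rw [← ENNReal.ofReal_rpow_of_nonneg (hd i hi) hs.le]
          exact ENNReal.rpow_le_rpow (Metric.ediam_le_of_forall_dist_le (hU i hi)) hs.le
      _ = _ := (ENNReal.ofReal_sum_of_nonneg h0).symm
  exact (ENNReal.ofReal_le_ofReal_iff (sum_nonneg h0)).1 (h.trans h1)

open Classical in
/-- A maximal weight: every point lies in a saturated cell. -/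
theorem exists_sat {X β : Type} (S : Finset X) (lb : ℕ → X → β) (n : ℕ) (φ : ℕ → ℝ)
    (hφ : ∀ j, 0 ≤ φ j) :
    ∃ μ : X → ℝ, (∀ x, 0 ≤ μ x) ∧
      (∀ j ≤ n, ∀ b, ∑ x ∈ S.filter (fun x => lb j x = b), μ x ≤ φ j) ∧
      ∀ y ∈ S, ∃ j ≤ n, ∑ x ∈ S.filter (fun x => lb j x = lb j y), μ x = φ j := by
  set K : Set (X → ℝ) := (Set.pi Set.univ fun _ => Set.Icc 0 (φ n)) ∩
    ⋂ j : ℕ, ⋂ _ : j ≤ n, ⋂ b : β, {μ | ∑ x ∈ S.filter (fun x => lb j x = b), μ x ≤ φ j} with hK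
  have hc : ∀ T : Finset X, Continuous fun μ : X → ℝ => ∑ x ∈ T, μ x := fun T =>
    continuous_finsetSum T fun x _ => continuous_apply x
  have hKc : IsCompact K := (isCompact_univ_pi fun _ => isCompact_Icc).inter_right
    (isClosed_iInter fun j => isClosed_iInter fun _ => isClosed_iInter fun b =>
      isClosed_le (hc _) continuous_const)
  have mem : ∀ μ : X → ℝ, μ ∈ K ↔ (∀ x, 0 ≤ μ x ∧ μ x ≤ φ n) ∧
      ∀ j ≤ n, ∀ b, ∑ x ∈ S.filter (fun x => lb j x = b), μ x ≤ φ j := fun μ => by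
    simp only [hK, Set.mem_inter_iff, Set.mem_pi, Set.mem_univ, true_imp_iff, Set.mem_Icc,
      Set.mem_iInter, Set.mem_ofPred_eq]
  obtain ⟨μ, hμ, hmax⟩ := hKc.exists_isMaxOn ⟨fun _ => 0, (mem _).2
    ⟨fun _ => ⟨le_rfl, hφ n⟩, fun j _ b => by simpa using hφ j⟩⟩ (hc S).continuousOn
  obtain ⟨h1, h2⟩ := (mem μ).1 hμ
  refine ⟨μ, fun x => (h1 x).1, h2, fun y hy => ?_⟩
  by_contra hn
  push Not at hn
  obtain ⟨j0, hj0, hmin⟩ := exists_min_image (range (n + 1))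
    (fun j => φ j - ∑ x ∈ S.filter (fun x => lb j x = lb j y), μ x) ⟨0, by simp⟩
  set ε := φ j0 - ∑ x ∈ S.filter (fun x => lb j0 x = lb j0 y), μ x with hε
  have hj : j0 ≤ n := Nat.lt_succ_iff.1 (mem_range.1 hj0)
  have hpos : 0 < ε := sub_pos.2 ((h2 j0 hj _).lt_of_ne (hn j0 hj))
  have hsum : ∀ T : Finset X, ∑ x ∈ T, (μ x + if x = y then ε else 0) =
      ∑ x ∈ T, μ x + if y ∈ T then ε else 0 := fun T => by
    rw [sum_add_distrib, sum_ite_eq']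
  have hle : ∀ j ≤ n, ε ≤ φ j - ∑ x ∈ S.filter (fun x => lb j x = lb j y), μ x := fun j hj =>
    hmin j (mem_range.2 (Nat.lt_succ_of_le hj))
  have hmem : (fun x => μ x + if x = y then ε else 0) ∈ K := by
    refine (mem _).2 ⟨fun x => ?_, fun j hj b => ?_⟩
    · by_cases e : x = y
      · subst e
        have a := hle n le_rfl
        have b : μ x ≤ ∑ z ∈ S.filter (fun z => lb n z = lb n x), μ z :=
          single_le_sum (f := μ) (fun z _ => (h1 z).1) (mem_filter.2 ⟨hy, rfl⟩)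
        have c := (h1 x).1
        simp only [if_true]
        constructor <;> linarith
      · simpa [e] using h1 x
    · rw [hsum]
      split_ifs with e
      · obtain rfl := (mem_filter.1 e).2
        linarith [hle j hj]
      · simpa using h2 j hj b
  have := hmax hmem
  simp only [Set.mem_ofPred_eq, hsum, if_pos hy] at this
  linarith

end Frost

open Frost

theorem frost : FrostStmt := by
  classical
  intro X β _ A lb n s D κ hs hD hκ hnest hfin hdist hcon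
  have nest : ∀ j ≤ n, ∀ i ≤ j, ∀ x ∈ A, ∀ y ∈ A, lb j x = lb j y → lb i x = lb i y := by
    intro j hj i hi x hx y hy
    induction hi with
    | refl => exact id
    | step _ ih => exact fun e => ih (by omega) (hnest _ (by omega) x hx y hy e)
  obtain ⟨S0, hSA, hbij⟩ := (Set.surjOn_image (lb n) A).exists_bijOn_subset
  have hS0 : S0.Finite := Set.Finite.of_injOn hbij.mapsTo hbij.injOn hfin
  obtain ⟨S, rfl⟩ := hS0.exists_finset_coe
  have hA : ∀ x ∈ S, x ∈ A := fun x hx => hSA (mem_coe.2 hx)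
  have hφ : ∀ j : ℕ, 0 ≤ (D / 2 ^ j) ^ s := fun j => by positivity
  obtain ⟨μ, h0, h1, h2⟩ := exists_sat S lb n (fun j => (D / 2 ^ j) ^ s) hφ
  have h3 : ∀ y ∈ S, ∃ j, j ≤ n ∧
      ∑ x ∈ S.filter (fun x => lb j x = lb j y), μ x = (D / 2 ^ j) ^ s ∧
      ∀ i < j, ∑ x ∈ S.filter (fun x => lb i x = lb i y), μ x ≠ (D / 2 ^ i) ^ s := fun y hy =>
    ⟨Nat.find (h2 y hy), (Nat.find_spec (h2 y hy)).1, (Nat.find_spec (h2 y hy)).2,
      fun i hi e => Nat.find_min (h2 y hy) hi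
        ⟨hi.le.trans (Nat.find_spec (h2 y hy)).1, e⟩⟩
  choose! J hJ1 hJ2 hJ3 using h3
  have same : ∀ x ∈ S, ∀ y ∈ S, lb (J y) x = lb (J y) y → J x = J y := by
    intro x hx y hy e
    rcases lt_trichotomy (J x) (J y) with h | h | h
    · refine absurd ?_ (hJ3 y hy _ h)
      rw [← nest _ (hJ1 y hy) _ h.le x (hA x hx) y (hA y hy) e]
      exact hJ2 x hx
    · exact h
    · refine absurd ?_ (hJ3 x hx _ h)
      rw [e]
      exact hJ2 y hy
  have tot : ∑ x ∈ S, μ x = ∑ c ∈ S.image (fun x => (J x, lb (J x) x)), (D / 2 ^ c.1) ^ s := by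
    rw [← sum_fiberwise_of_maps_to (g := fun x => (J x, lb (J x) x))
      (t := S.image fun x => (J x, lb (J x) x)) fun x hx => mem_image_of_mem _ hx]
    refine sum_congr rfl fun c hc => ?_
    obtain ⟨y, hy, rfl⟩ := mem_image.1 hc
    rw [← hJ2 y hy]
    refine sum_congr (filter_congr fun x hx => ⟨fun e => ?_, fun e => ?_⟩) fun _ _ => rfl
    · obtain ⟨e1, e2⟩ := Prod.mk.inj e
      rw [← e2, e1]
    · have e1 := same x hx y hy e
      rw [e1, e]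
  have hk : κ ≤ ∑ x ∈ S, μ x := by
    rw [tot]
    refine le_sum hs _ (fun c : ℕ × β => D / 2 ^ c.1) (fun _ _ => by positivity)
      (fun c => {a | a ∈ A ∧ lb c.1 a = c.2}) (fun a ha => ?_) (fun c hc x hx y hy => ?_) hcon
    · obtain ⟨y, hy, e⟩ := hbij.surjOn (Set.mem_image_of_mem _ ha)
      have hy' : y ∈ S := mem_coe.1 hy
      exact Set.mem_biUnion (mem_coe.2 (mem_image_of_mem _ hy'))
        ⟨ha, nest n le_rfl _ (hJ1 y hy') a ha y (hA y hy') e.symm⟩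
    · obtain ⟨z, hz, rfl⟩ := mem_image.1 hc
      exact hdist _ (hJ1 z hz) x hx.1 y hy.1 (hx.2.trans hy.2.symm)
  have hpos : 0 < ∑ x ∈ S, μ x := hκ.trans_le hk
  refine ⟨S, fun x => μ x / ∑ x ∈ S, μ x, hSA, fun x => div_nonneg (h0 x) hpos.le, ?_,
    fun x hx y hy e => hbij.injOn (mem_coe.2 hx) (mem_coe.2 hy) e, fun j hj b => ?_⟩
  · rw [← sum_div, div_self hpos.ne']
  · rw [← sum_div]
    exact div_le_div₀ (hφ j) (h1 j hj b) hκ hk

namespace Frost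

theorem floor_half {x y : ℝ} {j : ℕ} (e : ⌊x * 2 ^ (j + 1)⌋ = ⌊y * 2 ^ (j + 1)⌋) :
    ⌊x * 2 ^ j⌋ = ⌊y * 2 ^ j⌋ := by
  have h : ∀ z : ℝ, ⌊z * 2 ^ j⌋ = ⌊z * 2 ^ (j + 1)⌋ / (2 : ℕ) := fun z => by
    rw [← Int.floor_div_natCast]
    congr 1
    push_cast
    ring
  rw [h, h, e]

theorem abs_le_floor {x y : ℝ} {j : ℕ} (e : ⌊x * 2 ^ j⌋ = ⌊y * 2 ^ j⌋) :
    |x - y| ≤ 1 / 2 ^ j := by
  have a := Int.abs_sub_lt_one_of_floor_eq_floor e
  rw [← sub_mul, abs_mul, abs_of_pos (by positivity : (0 : ℝ) < 2 ^ j)] at a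
  exact ((lt_div_iff₀ (by positivity)).2 a).le

theorem floor_mem {x : ℝ} (h : x ∈ Set.Ico (0 : ℝ) 1) (j : ℕ) :
    ⌊x * 2 ^ j⌋ ∈ Set.Icc (0 : ℤ) ⌊(2 : ℝ) ^ j⌋ :=
  ⟨Int.floor_nonneg.2 (mul_nonneg h.1 (by positivity)),
    Int.floor_mono (mul_le_of_le_one_left (by positivity) h.2.le)⟩

theorem floor_zero {x : ℝ} (h : x ∈ Set.Ico (0 : ℝ) 1) : ⌊x * 2 ^ 0⌋ = 0 := by
  rw [pow_zero, mul_one]
  exact Int.floor_eq_zero_iff.2 h

theorem rpow_eq (s : ℝ) (j : ℕ) {D : ℝ} (hD : 0 ≤ D) :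
    (D / 2 ^ j) ^ s = D ^ s * (2 : ℝ) ^ (-(s * j)) := by
  rw [Real.div_rpow hD (by positivity), Real.rpow_neg two_pos.le, mul_comm s,
    Real.rpow_natCast_mul two_pos.le, div_eq_mul_inv]

/-- The box of labels around a point of the plane. -/
noncomputable def box (C : ℝ) (n : ℕ) (z : E2) : Finset V :=
  Icc ⌊z 0 * 2 ^ n - 1⌋ ⌊z 0 * 2 ^ n + 1⌋ ×ˢ
    Icc ⌊z 1 * 2 ^ n - (C + 1)⌋ ⌊z 1 * 2 ^ n + (C + 1)⌋ ×ˢ ({0} : Finset ℤ) ×ˢ ({0} : Finset ℤ)

theorem card_Icc_le (a r : ℝ) (hr : 0 ≤ r) : ((Icc ⌊a - r⌋ ⌊a + r⌋).card : ℝ) ≤ 2 * r + 2 := by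
  have h : ⌊a - r⌋ ≤ ⌊a + r⌋ := Int.floor_mono (by linarith)
  have e : ((Icc ⌊a - r⌋ ⌊a + r⌋).card : ℤ) = ⌊a + r⌋ + 1 - ⌊a - r⌋ :=
    Int.card_Icc_of_le _ _ (by omega)
  have e' : ((Icc ⌊a - r⌋ ⌊a + r⌋).card : ℝ) = ⌊a + r⌋ + 1 - ⌊a - r⌋ := by exact_mod_cast e
  rw [e']
  linarith [Int.floor_le (a + r), Int.lt_floor_add_one (a - r)]

theorem box_card {C : ℝ} (hC : 1 ≤ C) (n : ℕ) (z : E2) : ((box C n z).card : ℝ) ≤ 21 * C := by
  have e : (Icc ⌊z 0 * 2 ^ n - 1⌋ ⌊z 0 * 2 ^ n + 1⌋).card = 3 := by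
    rw [Int.floor_sub_one, Int.floor_add_one, Int.card_Icc]
    omega
  have h := card_Icc_le (z 1 * 2 ^ n) (C + 1) (by linarith)
  simp only [box, card_product, card_singleton, e]
  push_cast
  linarith

theorem mem_Icc_floor {a b r : ℝ} (h : |a - b| ≤ r) : ⌊a⌋ ∈ Icc ⌊b - r⌋ ⌊b + r⌋ :=
  mem_Icc.2 ⟨Int.floor_mono (by linarith [(abs_le.1 h).1]),
    Int.floor_mono (by linarith [(abs_le.1 h).2])⟩

theorem scale {a b r : ℝ} {n : ℕ} (h : |a - b| ≤ r * ((2 : ℝ) ^ n)⁻¹) :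
    |a * 2 ^ n - b * 2 ^ n| ≤ r := by
  rw [← sub_mul, abs_mul, abs_of_pos (by positivity : (0 : ℝ) < 2 ^ n)]
  exact (le_div_iff₀ (by positivity)).1 h

open Classical in
/-- Sums over the sample space. -/
theorem pr_eq {γ : Type} {S : Finset E3} {Sx : E3 → Finset ℝ} {p : ↥(S.sigma Sx) → ℝ}
    {X : ↥(S.sigma Sx) → γ} (f : E3 → ℝ → ℝ) (L : E3 → ℝ → γ)
    (hp : ∀ ω, p ω = f ω.1.1 ω.1.2) (hX : ∀ ω, X ω = L ω.1.1 ω.1.2) (ω : ↥(S.sigma Sx)) :
    pr p X (X ω) = ∑ w ∈ S, ∑ x ∈ Sx w, if L w x = L ω.1.1 ω.1.2 then f w x else 0 := by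
  rw [pr, hX ω, sum_congr rfl fun ω' _ => by rw [hp ω', hX ω'],
    sum_coe_sort (S.sigma Sx) fun z => if L z.1 z.2 = L ω.1.1 ω.1.2 then f z.1 z.2 else 0,
    sum_sigma]

end Frost

theorem samp (h : FrostStmt) : SampStmt := by
  classical
  intro u v C κ n S E J0 J1 J2 Q hu hv hκ hκ1 hc hES hE hfib
  have hC := hc.one_le
  have hz : (0 : ℝ) ∈ Set.Ico (0 : ℝ) 1 := ⟨le_rfl, one_pos⟩
  have rg : ∀ w ∈ E, ∀ x ∈ Set.Ico (0 : ℝ) 1, J0 w x ∈ Set.Ico (0 : ℝ) 1 ∧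
      J1 w x ∈ Set.Ico (0 : ℝ) 1 ∧ J2 w x ∈ Set.Ico (0 : ℝ) 1 := fun w hw =>
    (hc.rng w (hES hw)).1
  obtain ⟨S1, ν, hS1, ν0, ν1, νinj, νle⟩ := h E3 (ℤ × ℤ × ℤ) E
    (fun j w => (⌊J0 w 0 * 2 ^ j⌋, ⌊J1 w 0 * 2 ^ j⌋, ⌊J2 w 0 * 2 ^ j⌋)) n v C κ hv (by linarith)
    hκ (fun j _ x _ y _ e => by
      simp only [Prod.mk.injEq] at e ⊢
      exact ⟨floor_half e.1, floor_half e.2.1, floor_half e.2.2⟩)
    (((Set.finite_Icc _ _).prod ((Set.finite_Icc _ _).prod (Set.finite_Icc _ _))).subset (by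
      rintro _ ⟨w, hw, rfl⟩
      exact ⟨floor_mem (rg w hw 0 hz).1 n, floor_mem (rg w hw 0 hz).2.1 n,
        floor_mem (rg w hw 0 hz).2.2 n⟩))
    (fun j _ x hx y hy e => by
      simp only [Prod.mk.injEq] at e
      have := hc.nd x (hES hx) y (hES hy) _ (abs_le_floor e.1) (abs_le_floor e.2.1)
        (abs_le_floor e.2.2)
      rwa [mul_one_div] at this) hE
  have hf := fun w (hw : w ∈ E) => h ℝ ℤ (near J0 Q ((2 : ℝ) ^ n)⁻¹ w)
    (fun j x => ⌊x * 2 ^ j⌋) n u 1 κ hu one_pos hκ (fun j _ x _ y _ e => floor_half e)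
    ((Set.finite_Icc _ _).subset (by
      rintro _ ⟨x, hx, rfl⟩
      exact floor_mem hx.1 n))
    (fun j _ x _ y _ e => abs_le_floor e) (hfib w hw)
  choose! Sx μ hSx μ0 μ1 _ μle using hf
  have hw : ∀ w ∈ S1, w ∈ E := fun w hw => hS1 (mem_coe.2 hw)
  have hx : ∀ w ∈ S1, ∀ x ∈ Sx w, x ∈ near J0 Q ((2 : ℝ) ^ n)⁻¹ w := fun w h1 x h2 =>
    hSx w (hw w h1) (mem_coe.2 h2)
  have m1 : ∀ ω : ↥(S1.sigma Sx), ω.1.1 ∈ S1 := fun ω => (mem_sigma.1 ω.2).1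
  have m2 : ∀ ω : ↥(S1.sigma Sx), ω.1.2 ∈ Sx ω.1.1 := fun ω => (mem_sigma.1 ω.2).2
  have hK : 0 < C ^ v / κ := by positivity
  have hCv : 1 ≤ C ^ v := Real.one_le_rpow hC hv.le
  let T : Jets ↥(S1.sigma Sx) := ⟨fun ω => ν ω.1.1 * μ ω.1.1 ω.1.2, fun ω => ω.1.2,
    fun ω => J0 ω.1.1, fun ω => J1 ω.1.1, fun ω => J2 ω.1.1⟩
  have lab0 : ∀ j ω, T.lab 0 j j j ω = ((0 : ℤ), ⌊J0 ω.1.1 0 * 2 ^ j⌋, ⌊J1 ω.1.1 0 * 2 ^ j⌋,
      ⌊J2 ω.1.1 0 * 2 ^ j⌋) := fun j ω => by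
    have e : ⌊T.x ω * 2 ^ 0⌋ = 0 := floor_zero (hx _ (m1 ω) _ (m2 ω)).1
    simp only [Jets.lab, Jets.fr, e, Int.cast_zero, zero_div]
    rfl
  have frm : ∀ j ω, T.fr j ω ∈ Set.Ico (0 : ℝ) 1 := fun j ω => by
    have a := (hx _ (m1 ω) _ (m2 ω)).1
    refine ⟨div_nonneg (by exact_mod_cast (floor_mem a j).1) (by positivity), ?_⟩
    exact ((div_le_iff₀ (by positivity)).2 (Int.floor_le _)).trans_lt a.2
  have lab1 : ∀ j ω, T.lab j 0 0 0 ω = (⌊ω.1.2 * 2 ^ j⌋, (0 : ℤ), (0 : ℤ), (0 : ℤ)) :=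
      fun j ω => by
    obtain ⟨a, b, c⟩ := rg _ (hw _ (m1 ω)) _ (frm j ω)
    exact Prod.ext rfl (Prod.ext (floor_zero a) (Prod.ext (floor_zero b) (floor_zero c)))
  have hp : ∀ ω, T.p ω = ν ω.1.1 * μ ω.1.1 ω.1.2 := fun _ => rfl
  have e0 : ∀ j ω, pr T.p (T.lab 0 j j j) (T.lab 0 j j j ω) = _ := fun j =>
    pr_eq (fun w x => ν w * μ w x) (fun w _ => ((0 : ℤ), ⌊J0 w 0 * 2 ^ j⌋, ⌊J1 w 0 * 2 ^ j⌋,
      ⌊J2 w 0 * 2 ^ j⌋)) hp (lab0 j)
  have hs : ∀ w ∈ S1, ∑ x ∈ Sx w, ν w * μ w x = ν w := fun w h1 => by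
    rw [← mul_sum, μ1 w (hw w h1), mul_one]
  refine ⟨↥(S1.sigma Sx), inferInstance, T, ⟨⟨fun ω => mul_nonneg (ν0 _) (μ0 _ (hw _ (m1 ω)) _),
    ?_⟩, hC, fun ω => (hx _ (m1 ω) _ (m2 ω)).1, fun ω => hc.rng _ (hES (hw _ (m1 ω))),
    fun ω ω' => hc.tay _ (hES (hw _ (m1 ω))) _ (hES (hw _ (m1 ω')))⟩, ⟨fun j hj ω => ?_,
    fun j hj ω => ?_⟩, Q.biUnion (box C n), fun ω => ?_, ?_⟩
  · refine (sum_coe_sort (S1.sigma Sx) fun z => ν z.1 * μ z.1 z.2).trans ?_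
    rw [sum_sigma, ← ν1]
    exact sum_congr rfl hs
  · rw [Real.exp_log hK, e0, div_mul_eq_mul_div, ← rpow_eq v j (by linarith)]
    refine le_trans (le_of_eq ?_) (νle j hj (⌊J0 ω.1.1 0 * 2 ^ j⌋, ⌊J1 ω.1.1 0 * 2 ^ j⌋,
      ⌊J2 ω.1.1 0 * 2 ^ j⌋))
    rw [sum_filter]
    refine sum_congr rfl fun w h1 => ?_
    simp only [Prod.mk.injEq, true_and]
    split_ifs
    · exact hs w h1
    · exact sum_const_zero
  · have e1 : pr T.p (T.lab 0 n n n) (T.lab 0 n n n ω) = ν ω.1.1 := by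
      rw [e0, sum_eq_single_of_mem _ (m1 ω) fun w h1 h2 => ?_]
      · simp only [if_true]
        exact hs _ (m1 ω)
      · exact sum_eq_zero fun x _ => if_neg fun e => h2 (νinj _ h1 _ (m1 ω) (Prod.mk.inj e).2)
    have e2 := pr_eq (X := pair (T.lab 0 n n n) (T.lab j 0 0 0)) (fun w x => ν w * μ w x)
      (fun w x => (((0 : ℤ), ⌊J0 w 0 * 2 ^ n⌋, ⌊J1 w 0 * 2 ^ n⌋, ⌊J2 w 0 * 2 ^ n⌋),
        (⌊x * 2 ^ j⌋, (0 : ℤ), (0 : ℤ), (0 : ℤ)))) hp (fun ω => by rw [pair, lab0, lab1]) ω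
    rw [e1, Real.exp_log hK, e2, sum_eq_single_of_mem _ (m1 ω) fun w h1 h2 => ?_]
    · have a := μle _ (hw _ (m1 ω)) j hj ⌊ω.1.2 * 2 ^ j⌋
      rw [rpow_eq u j zero_le_one, Real.one_rpow, one_mul, sum_filter] at a
      have b : (2 : ℝ) ^ (-(u * j)) / κ ≤ C ^ v / κ * (2 : ℝ) ^ (-(u * j)) := by
        rw [div_mul_eq_mul_div]
        exact div_le_div_of_nonneg_right (le_mul_of_one_le_left (by positivity) hCv) hκ.le
      refine le_trans (le_of_eq ?_) (mul_le_mul_of_nonneg_right (a.trans b) (ν0 _))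
      rw [sum_mul]
      refine sum_congr rfl fun x _ => ?_
      simp only [Prod.mk.injEq, true_and, and_true]
      split_ifs
      · ring
      · ring
    · exact sum_eq_zero fun x _ => if_neg fun e =>
        h2 (νinj _ h1 _ (m1 ω) (Prod.mk.inj (Prod.mk.inj e).1).2)
  · obtain ⟨a, z, hz, hd⟩ := hx _ (m1 ω) _ (m2 ω)
    obtain ⟨_, b, c⟩ := rg _ (hw _ (m1 ω)) _ (frm n ω)
    have d0 : |ω.1.2 - z 0| ≤ ((2 : ℝ) ^ n)⁻¹ := by
      rw [abs_sub_comm]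
      exact (PiLp.dist_apply_le z _ 0).trans hd
    have d1 : |J0 ω.1.1 ω.1.2 - z 1| ≤ ((2 : ℝ) ^ n)⁻¹ := by
      rw [abs_sub_comm]
      exact (PiLp.dist_apply_le z _ 1).trans hd
    have d2 : |T.fr n ω - ω.1.2| ≤ ((2 : ℝ) ^ n)⁻¹ := by
      rw [← one_div]
      refine abs_le_floor ?_
      rw [Jets.fr, div_mul_cancel₀ _ (by positivity), Int.floor_intCast]
    have d3 := ((hc.rng _ (hES (hw _ (m1 ω)))).2 _ (frm n ω) _ a).trans
      (mul_le_mul_of_nonneg_left d2 (by linarith))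
    have d4 := abs_sub_le (J0 ω.1.1 (T.fr n ω)) (J0 ω.1.1 ω.1.2) (z 1)
    refine mem_biUnion.2 ⟨z, hz, mem_product.2 ⟨mem_Icc_floor (scale ?_), mem_product.2
      ⟨mem_Icc_floor (scale ?_), mem_product.2
      ⟨mem_singleton.2 (floor_zero b), mem_singleton.2 (floor_zero c)⟩⟩⟩⟩
    · rw [one_mul]
      exact d0
    · rw [add_mul, one_mul]
      exact d4.trans (add_le_add d3 d1)
  · calc ((Q.biUnion (box C n)).card : ℝ) ≤ ∑ z ∈ Q, ((box C n z).card : ℝ) := by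
          exact_mod_cast card_biUnion_le
      _ ≤ ∑ _z ∈ Q, 21 * C := sum_le_sum fun z _ => box_card hC n z
      _ = _ := by rw [sum_const, nsmul_eq_mul, mul_comm]

end Pool.Agent.MP_538dc4_an.AB

end MrgPart3

-- ======== part 4: formerly Pool.Agent.MP_538dc4_an.ab.Arc
section MrgPart4

/-! PROJECT FURST2, module ARC: upper arcs of circles form a smooth nondegenerate family. -/

namespace Pool.Agent.MP_538dc4_an.AB

namespace Arc

section

variable {X : Type} {S : Set X} {δ : X → X → ℝ} {f g : X → ℝ}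

/-- Bounded on `S`, with increments controlled by `δ`. -/
def LB (S : Set X) (δ : X → X → ℝ) (f : X → ℝ) : Prop :=
  ∃ C : ℝ, 0 ≤ C ∧ (∀ x ∈ S, |f x| ≤ C) ∧ ∀ x ∈ S, ∀ y ∈ S, |f x - f y| ≤ C * |δ x y|

theorem LB.of {A B : ℝ} (h1 : ∀ x ∈ S, |f x| ≤ A)
    (h2 : ∀ x ∈ S, ∀ y ∈ S, |f x - f y| ≤ B * |δ x y|) : LB S δ f :=
  ⟨max 0 (max A B), le_max_left _ _, fun x hx => (h1 x hx).trans (by simp),
    fun x hx y hy => (h2 x hx y hy).trans (mul_le_mul_of_nonneg_right (by simp) (abs_nonneg _))⟩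

theorem LB.congr (h : LB S δ f) (e : ∀ x ∈ S, g x = f x) : LB S δ g := by
  obtain ⟨C, h0, h1, h2⟩ := h
  exact ⟨C, h0, fun x hx => by rw [e x hx]; exact h1 x hx,
    fun x hx y hy => by rw [e x hx, e y hy]; exact h2 x hx y hy⟩

theorem LB.const (c : ℝ) : LB S δ fun _ => c :=
  LB.of (A := |c|) (B := 0) (fun _ _ => le_rfl) fun _ _ _ _ => by simp

theorem LB.add (hf : LB S δ f) (hg : LB S δ g) : LB S δ fun x => f x + g x := by
  obtain ⟨A, -, a1, a2⟩ := hf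
  obtain ⟨B, -, b1, b2⟩ := hg
  refine LB.of (A := A + B) (B := A + B)
    (fun x hx => (abs_add_le _ _).trans (add_le_add (a1 x hx) (b1 x hx))) fun x hx y hy => ?_
  rw [add_sub_add_comm, add_mul]
  exact (abs_add_le _ _).trans (add_le_add (a2 x hx y hy) (b2 x hx y hy))

theorem LB.mul (hf : LB S δ f) (hg : LB S δ g) : LB S δ fun x => f x * g x := by
  obtain ⟨A, a0, a1, a2⟩ := hf
  obtain ⟨B, -, b1, b2⟩ := hg
  refine LB.of (A := A * B) (B := 2 * A * B) (fun x hx => ?_) fun x hx y hy => ?_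
  · rw [abs_mul]
    exact mul_le_mul (a1 x hx) (b1 x hx) (abs_nonneg _) a0
  · have e : f x * g x - f y * g y = f x * (g x - g y) + (f x - f y) * g y := by ring
    have h1 := mul_le_mul (a1 x hx) (b2 x hx y hy) (abs_nonneg _) a0
    have h2 := mul_le_mul (a2 x hx y hy) (b1 y hy) (abs_nonneg _)
      (mul_nonneg a0 (abs_nonneg _))
    rw [e]
    refine (abs_add_le _ _).trans ?_
    rw [abs_mul, abs_mul]
    linarith

theorem LB.neg (hf : LB S δ f) : LB S δ fun x => -f x :=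
  ((LB.const (-1)).mul hf).congr fun _ _ => by ring

theorem LB.sub (hf : LB S δ f) (hg : LB S δ g) : LB S δ fun x => f x - g x :=
  (hf.add hg.neg).congr fun _ _ => by ring

theorem LB.pow (hf : LB S δ f) (n : ℕ) : LB S δ fun x => f x ^ n := by
  induction n with
  | zero => exact (LB.const 1).congr fun _ _ => pow_zero _
  | succ n ih => exact (ih.mul hf).congr fun _ _ => pow_succ _ _

theorem LB.inv (hf : LB S δ f) {c : ℝ} (hc : 0 < c) (h : ∀ x ∈ S, c ≤ f x) :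
    LB S δ fun x => (f x)⁻¹ := by
  obtain ⟨A, a0, -, a2⟩ := hf
  have hb : ∀ x ∈ S, |(f x)⁻¹| ≤ c⁻¹ := fun x hx => by
    rw [abs_of_pos (inv_pos.2 (hc.trans_le (h x hx)))]
    exact inv_anti₀ hc (h x hx)
  refine LB.of (B := A * c⁻¹ * c⁻¹) hb fun x hx y hy => ?_
  have hx0 := (hc.trans_le (h x hx)).ne'
  have hy0 := (hc.trans_le (h y hy)).ne'
  have e : (f x)⁻¹ - (f y)⁻¹ = -((f x - f y) * (f x)⁻¹ * (f y)⁻¹) := by field_simp; ring
  rw [e, abs_neg, abs_mul, abs_mul]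
  refine (mul_le_mul (mul_le_mul (a2 x hx y hy) (hb x hx) (abs_nonneg _) (by positivity))
    (hb y hy) (abs_nonneg _) (by positivity)).trans (le_of_eq (by ring))

/-- A positive function whose square is controlled is controlled. -/
theorem LB.root (hf : LB S δ fun x => f x ^ 2) {c : ℝ} (hc : 0 < c) (h : ∀ x ∈ S, c ≤ f x) :
    LB S δ f := by
  obtain ⟨A, a0, a1, a2⟩ := hf
  refine LB.of (A := A / c) (B := A / c) (fun x hx => ?_) fun x hx y hy => ?_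
  · have h1 := a1 x hx
    have h2 := h x hx
    rw [abs_of_nonneg (sq_nonneg _)] at h1
    rw [abs_of_pos (hc.trans_le h2), le_div_iff₀ hc]
    nlinarith
  · have h1 := a2 x hx y hy
    have h2 := h x hx
    have h3 := h y hy
    rw [sq_sub_sq, abs_mul, abs_of_pos (by linarith)] at h1
    rw [div_mul_eq_mul_div, le_div_iff₀ hc]
    nlinarith [abs_nonneg (f x - f y)]

end

variable (a l : ℝ)

/-- The abscissa relative to the centre. -/
def tt (w : E3) (s : ℝ) : ℝ := a + l * s - w 0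

/-- The height over the centre. -/
noncomputable def rh (w : E3) (s : ℝ) : ℝ := Real.sqrt (w 2 ^ 2 - tt a l w s ^ 2)

noncomputable def j1 (w : E3) (s : ℝ) : ℝ := -l * tt a l w s * (rh a l w s)⁻¹

noncomputable def j2 (w : E3) (s : ℝ) : ℝ := -(l ^ 2 / 2 * w 2 ^ 2 * (rh a l w s)⁻¹ ^ 3)

noncomputable def j3 (w : E3) (s : ℝ) : ℝ :=
  -(3 / 2 * l ^ 3) * w 2 ^ 2 * tt a l w s * (rh a l w s)⁻¹ ^ 5

/-- The parameters and the abscissa. -/
def dom (r0 R : ℝ) : Set (E3 × ℝ) :=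
  {z | (|z.1 1| ≤ R ∧ r0 ≤ z.1 2 ∧ z.1 2 ≤ R ∧ |a - z.1 0| ≤ 4 / 5 * r0 ∧
    |a + l - z.1 0| ≤ 4 / 5 * r0) ∧ z.2 ∈ Set.Icc (0 : ℝ) 1}

variable {a l} {r0 R : ℝ} {z : E3 × ℝ}

theorem tt_le (hl : 0 < l) (h : z ∈ dom a l r0 R) : |tt a l z.1 z.2| ≤ 4 / 5 * r0 := by
  obtain ⟨⟨-, -, -, h1, h2⟩, h3, h4⟩ := h
  rw [abs_le] at h1 h2 ⊢
  unfold tt
  constructor <;> nlinarith

theorem rad_le (hl : 0 < l) (hr : 0 < r0) (h : z ∈ dom a l r0 R) :
    (3 / 5 * r0) ^ 2 ≤ z.1 2 ^ 2 - tt a l z.1 z.2 ^ 2 := by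
  have h1 := sq_le_sq' (abs_le.1 (tt_le hl h)).1 (abs_le.1 (tt_le hl h)).2
  have h2 := pow_le_pow_left₀ hr.le h.1.2.1 2
  nlinarith

theorem le_rh (hl : 0 < l) (hr : 0 < r0) (h : z ∈ dom a l r0 R) : 3 / 5 * r0 ≤ rh a l z.1 z.2 :=
  Real.le_sqrt_of_sq_le (rad_le hl hr h)

theorem rh_sq (hl : 0 < l) (hr : 0 < r0) (h : z ∈ dom a l r0 R) :
    rh a l z.1 z.2 ^ 2 = z.1 2 ^ 2 - tt a l z.1 z.2 ^ 2 :=
  Real.sq_sqrt ((sq_nonneg _).trans (rad_le hl hr h))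

theorem rh_le (hl : 0 < l) (hr : 0 < r0) (h : z ∈ dom a l r0 R) : rh a l z.1 z.2 ≤ R := by
  have h1 := rh_sq hl hr h
  have h2 := h.1.2.1
  have h3 := h.1.2.2.1
  exact (abs_le_of_sq_le_sq' (by nlinarith [sq_nonneg (tt a l z.1 z.2)]) (by linarith)).2

theorem d_tt (w : E3) (s : ℝ) : HasDerivAt (tt a l w) l s := by
  have := (((hasDerivAt_id s).const_mul l).const_add a).sub_const (w 0)
  rwa [mul_one] at this

theorem d_rh (hl : 0 < l) (hr : 0 < r0) (h : z ∈ dom a l r0 R) :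
    HasDerivAt (rh a l z.1) (j1 a l z.1 z.2) z.2 := by
  have h0 : 0 < z.1 2 ^ 2 - tt a l z.1 z.2 ^ 2 := lt_of_lt_of_le (by positivity) (rad_le hl hr h)
  refine ((((d_tt z.1 z.2).fun_pow 2).const_sub (z.1 2 ^ 2)).sqrt h0.ne').congr_deriv ?_
  change _ / (2 * rh a l z.1 z.2) = _
  have h1 : rh a l z.1 z.2 ≠ 0 := (lt_of_lt_of_le (by positivity) (le_rh hl hr h)).ne'
  unfold j1
  field_simp
  norm_num

theorem d_inv (hl : 0 < l) (hr : 0 < r0) (h : z ∈ dom a l r0 R) :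
    HasDerivAt (fun s => (rh a l z.1 s)⁻¹) (l * tt a l z.1 z.2 * (rh a l z.1 z.2)⁻¹ ^ 3) z.2 := by
  have h1 : rh a l z.1 z.2 ≠ 0 := (lt_of_lt_of_le (by positivity) (le_rh hl hr h)).ne'
  refine ((d_rh hl hr h).fun_inv h1).congr_deriv ?_
  unfold j1
  field_simp

theorem d_j1 (hl : 0 < l) (hr : 0 < r0) (h : z ∈ dom a l r0 R) :
    HasDerivAt (j1 a l z.1) (2 * j2 a l z.1 z.2) z.2 := by
  have h1 : rh a l z.1 z.2 ≠ 0 := (lt_of_lt_of_le (by positivity) (le_rh hl hr h)).ne'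
  refine (((d_tt z.1 z.2).const_mul (-l)).fun_mul (d_inv hl hr h)).congr_deriv ?_
  have h2 : z.1 2 ^ 2 = rh a l z.1 z.2 ^ 2 + tt a l z.1 z.2 ^ 2 := by rw [rh_sq hl hr h]; ring
  unfold j2
  rw [h2]
  field_simp
  ring

theorem d_j2 (hl : 0 < l) (hr : 0 < r0) (h : z ∈ dom a l r0 R) :
    HasDerivAt (j2 a l z.1) (j3 a l z.1 z.2) z.2 := by
  refine ((((d_inv hl hr h).fun_pow 3).const_mul (l ^ 2 / 2 * z.1 2 ^ 2)).fun_neg).congr_deriv ?_
  unfold j3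
  norm_num
  ring

theorem coord_le (w w' : E3) (i : Fin 3) : |w i - w' i| ≤ dist w w' := by
  rw [← Real.dist_eq]
  exact PiLp.dist_apply_le w w' i

theorem dist_le (w w' : E3) : dist w w' ≤ |w 0 - w' 0| + |w 1 - w' 1| + |w 2 - w' 2| := by
  rw [EuclideanSpace.dist_eq, Fin.sum_univ_three, Real.dist_eq, Real.dist_eq, Real.dist_eq]
  refine Real.sqrt_le_iff.2 ⟨by positivity, ?_⟩
  have h0 := abs_nonneg (w 0 - w' 0)
  have h1 := abs_nonneg (w 1 - w' 1)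
  have h2 := abs_nonneg (w 2 - w' 2)
  nlinarith [mul_nonneg h0 h1, mul_nonneg h0 h2, mul_nonneg h1 h2]

/-- The distance of the parameters. -/
noncomputable def d1 (z z' : E3 × ℝ) : ℝ := dist z.1 z'.1 + |z.2 - z'.2|

theorem abs_d1 (z z' : E3 × ℝ) : |d1 z z'| = dist z.1 z'.1 + |z.2 - z'.2| :=
  abs_of_nonneg (add_nonneg dist_nonneg (abs_nonneg _))

theorem lb_coord (i : Fin 3) {A : ℝ} (h : ∀ z ∈ dom a l r0 R, |z.1 i| ≤ A) :
    LB (dom a l r0 R) d1 fun z => z.1 i :=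
  LB.of (B := 1) h fun z _ z' _ => by
    rw [abs_d1, one_mul]
    exact (coord_le _ _ i).trans (le_add_of_nonneg_right (abs_nonneg _))

theorem abs_s (h : z ∈ dom a l r0 R) : |z.2| ≤ 1 := abs_le.2 ⟨by linarith [h.2.1], h.2.2⟩

theorem lb_jets (hl : 0 < l) (hr : 0 < r0) :
    (LB (dom a l r0 R) d1 fun z => z.1 1 + rh a l z.1 z.2) ∧
      (LB (dom a l r0 R) d1 fun z => j1 a l z.1 z.2) ∧
      (LB (dom a l r0 R) d1 fun z => j2 a l z.1 z.2) ∧
      LB (dom a l r0 R) d1 fun z => j3 a l z.1 z.2 := by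
  have h0 : LB (dom a l r0 R) d1 fun z => z.1 0 :=
    lb_coord 0 (A := |a| + 4 / 5 * r0) fun z hz => by
      have := abs_sub a (a - z.1 0)
      rw [sub_sub_cancel] at this
      linarith [hz.1.2.2.2.1]
  have h1 : LB (dom a l r0 R) d1 fun z => z.1 1 := lb_coord 1 fun z hz => hz.1.1
  have h2 : LB (dom a l r0 R) d1 fun z => z.1 2 :=
    lb_coord 2 (A := R) fun z hz => by
      rw [abs_of_pos (hr.trans_le hz.1.2.1)]
      exact hz.1.2.2.1
  have hs : LB (dom a l r0 R) d1 fun z => z.2 :=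
    LB.of (B := 1) (fun z hz => abs_s hz) fun z _ z' _ => by
      rw [abs_d1, one_mul]
      exact le_add_of_nonneg_left dist_nonneg
  have ht : LB (dom a l r0 R) d1 fun z => tt a l z.1 z.2 :=
    ((LB.const a).add ((LB.const l).mul hs)).sub h0
  have hc : 0 < 3 / 5 * r0 := by positivity
  have hρ : LB (dom a l r0 R) d1 fun z => rh a l z.1 z.2 :=
    LB.root (((h2.pow 2).sub (ht.pow 2)).congr fun z hz => rh_sq hl hr hz) hc
      fun z hz => le_rh hl hr hz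
  have hq := hρ.inv hc fun z hz => le_rh hl hr hz
  exact ⟨h1.add hρ, ((LB.const _).mul ht).mul hq, (((LB.const _).mul (h2.pow 2)).mul (hq.pow 3)).neg,
    (((LB.const _).mul (h2.pow 2)).mul ht).mul (hq.pow 5)⟩

variable (a l) in
/-- The distance of the jets. -/
noncomputable def d2 (z z' : E3 × ℝ) : ℝ :=
  |z.1 1 + rh a l z.1 z.2 - (z'.1 1 + rh a l z'.1 z'.2)| + |j1 a l z.1 z.2 - j1 a l z'.1 z'.2| +
    |j2 a l z.1 z.2 - j2 a l z'.1 z'.2| + |z.2 - z'.2|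

theorem abs_d2 (z z' : E3 × ℝ) : |d2 a l z z'| = d2 a l z z' :=
  abs_of_nonneg (by unfold d2; positivity)

theorem lb_inv (hl : 0 < l) (hr : 0 < r0) (i : Fin 3) :
    LB (dom a l r0 R) (d2 a l) fun z => z.1 i := by
  obtain ⟨⟨A0, -, a0, -⟩, ⟨A1, -, a1, -⟩, ⟨A2, -, a2, -⟩, -⟩ := lb_jets (a := a) (R := R) hl hr
  have h0 : LB (dom a l r0 R) (d2 a l) fun z => z.1 1 + rh a l z.1 z.2 :=
    LB.of (B := 1) a0 fun z _ z' _ => by
      rw [abs_d2, one_mul, d2, add_assoc, add_assoc]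
      exact le_add_of_nonneg_right (by positivity)
  have h1 : LB (dom a l r0 R) (d2 a l) fun z => j1 a l z.1 z.2 :=
    LB.of (B := 1) a1 fun z _ z' _ => by
      rw [abs_d2, one_mul, d2, add_comm _ |j1 a l z.1 z.2 - j1 a l z'.1 z'.2|, add_assoc, add_assoc]
      exact le_add_of_nonneg_right (by positivity)
  have h2 : LB (dom a l r0 R) (d2 a l) fun z => j2 a l z.1 z.2 :=
    LB.of (B := 1) a2 fun z _ z' _ => by
      rw [abs_d2, one_mul, d2, add_right_comm]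
      exact le_add_of_nonneg_left (by positivity)
  have hs : LB (dom a l r0 R) (d2 a l) fun z => z.2 :=
    LB.of (B := 1) (fun z hz => abs_s hz) fun z _ z' _ => by
      rw [abs_d2, one_mul, d2]
      exact le_add_of_nonneg_left (by positivity)
  have hp : ∀ z ∈ dom a l r0 R, 0 < rh a l z.1 z.2 := fun z hz =>
    lt_of_lt_of_le (by positivity) (le_rh hl hr hz)
  have hq := h2.neg.inv (c := l ^ 2 / 2 * r0 ^ 2 * (max R 1)⁻¹ ^ 3) (by positivity) fun z hz => by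
    have e1 := inv_anti₀ (hp z hz) ((rh_le hl hr hz).trans (le_max_left R 1))
    have e2 := hz.1.2.1
    rw [j2, neg_neg]
    gcongr
  have hρ : LB (dom a l r0 R) (d2 a l) fun z => rh a l z.1 z.2 :=
    (((LB.const 2⁻¹).mul ((LB.const (l ^ 2)).add (h1.pow 2))).mul hq).congr fun z hz => by
      have e1 := (hp z hz).ne'
      have e2 := (hr.trans_le hz.1.2.1).ne'
      have e3 : tt a l z.1 z.2 ^ 2 = z.1 2 ^ 2 - rh a l z.1 z.2 ^ 2 := by
        rw [rh_sq hl hr hz]; ring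
      rw [j1, j2, neg_neg, mul_pow, mul_pow, e3]
      field_simp
      ring
  have ht : LB (dom a l r0 R) (d2 a l) fun z => tt a l z.1 z.2 :=
    (((LB.const (-l⁻¹)).mul h1).mul hρ).congr fun z hz => by
      have e1 := (hp z hz).ne'
      rw [j1]
      field_simp
  fin_cases i
  · exact (((LB.const a).add ((LB.const l).mul hs)).sub ht).congr fun z _ => by
      simp [tt]
  · exact (h0.sub hρ).congr fun z _ => by simp
  · exact LB.root (((hρ.pow 2).add (ht.pow 2)).congr fun z hz => by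
      rw [rh_sq hl hr hz]; simp) hr fun z hz => hz.1.2.1

end Arc

open Arc in
/-- Module ARC. -/
theorem arc : ArcStmt := by
  intro a l r0 R hl hr
  obtain ⟨⟨A0, p0, a0, -⟩, ⟨A1, p1, a1, -⟩, ⟨A2, p2, a2, -⟩, A3, p3, -, a3⟩ :=
    lb_jets (a := a) (R := R) hl hr
  obtain ⟨B0, q0, -, b0⟩ := lb_inv (a := a) (R := R) hl hr 0
  obtain ⟨B1, q1, -, b1⟩ := lb_inv (a := a) (R := R) hl hr 1
  obtain ⟨B2, q2, -, b2⟩ := lb_inv (a := a) (R := R) hl hr 2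
  refine ⟨1 + A0 + A1 + A2 + A3 + 3 * (B0 + B1 + B2), j1 a l, j2 a l, j3 a l, by linarith,
    fun w hw x hx => (d_rh (z := (w, x)) hl hr ⟨hw, hx⟩).const_add (w 1),
    fun w hw x hx => d_j1 (z := (w, x)) hl hr ⟨hw, hx⟩,
    fun w hw x hx => d_j2 (z := (w, x)) hl hr ⟨hw, hx⟩, fun w hw x hx =>
    ⟨(a0 (w, x) ⟨hw, hx⟩).trans (by linarith), (a1 (w, x) ⟨hw, hx⟩).trans (by linarith),
      (a2 (w, x) ⟨hw, hx⟩).trans (by linarith)⟩, fun w hw w' hw' x hx => ?_,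
    fun w hw w' hw' x hx M h0 h1 h2 => ?_⟩
  · have := a3 (w, x) ⟨hw, hx⟩ (w', x) ⟨hw', hx⟩
    rw [abs_d1, sub_self, abs_zero, add_zero] at this
    exact this.trans (mul_le_mul_of_nonneg_right (by linarith) dist_nonneg)
  · have hM : 0 ≤ M := (abs_nonneg _).trans h0
    have hd : |d2 a l (w, x) (w', x)| ≤ 3 * M := by
      have h0' : |w 1 + rh a l w x - (w' 1 + rh a l w' x)| ≤ M := h0
      rw [abs_d2, d2]
      simp only [sub_self, abs_zero]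
      linarith
    have e0 := (b0 (w, x) ⟨hw, hx⟩ (w', x) ⟨hw', hx⟩).trans (mul_le_mul_of_nonneg_left hd q0)
    have e1 := (b1 (w, x) ⟨hw, hx⟩ (w', x) ⟨hw', hx⟩).trans (mul_le_mul_of_nonneg_left hd q1)
    have e2 := (b2 (w, x) ⟨hw, hx⟩ (w', x) ⟨hw', hx⟩).trans (mul_le_mul_of_nonneg_left hd q2)
    have e3 : 0 ≤ (1 + A0 + A1 + A2 + A3) * M := by positivity
    refine (dist_le w w').trans ?_
    simp only at e0 e1 e2
    linarith

end Pool.Agent.MP_538dc4_an.AB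

end MrgPart4

-- ======== part 5: formerly Pool.Agent.MP_538dc4_an.ab.Fin
section MrgPart5

/-! PROJECT FURST2: the final real variable argument. -/

open MeasureTheory Filter Topology Set

namespace Pool.Agent.MP_538dc4_an.AB

namespace FinA

theorem lipW {g : ℝ → ℝ} {K : ℝ} (h : ∀ s t, |g s - g t| ≤ K * |s - t|) :
    LipschitzWith (Real.toNNReal K) g :=
  LipschitzWith.of_dist_le' fun s t => by simpa [Real.dist_eq] using h s t

theorem image_null {g : ℝ → ℝ} {K : ℝ} (h : ∀ s t, |g s - g t| ≤ K * |s - t|) {N : Set ℝ}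
    (hN : volume N = 0) : volume (g '' N) = 0 := by
  have := (lipW h).hausdorffMeasure_image_le (d := 1) zero_le_one N
  rw [hausdorffMeasure_real, hN, mul_zero] at this
  exact le_antisymm this zero_le

theorem incr {g : ℝ → ℝ} {g' x e : ℝ} (h : HasDerivAt g g' x) (he : 0 < e) :
    ∀ᶠ y in 𝓝[>] x, |g y - g x - g' * (y - x)| ≤ e * (y - x) := by
  have h1 := (hasDerivAt_iff_isLittleO.1 h).def he
  filter_upwards [mem_nhdsWithin_of_mem_nhds h1, self_mem_nhdsWithin] with y hy hxy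
  have hxy' : 0 < y - x := sub_pos.2 hxy
  rw [Real.norm_eq_abs, Real.norm_eq_abs, abs_of_pos hxy', smul_eq_mul, mul_comm (y - x)] at hy
  exact hy

/-- One sided Lebesgue points. -/
def Leb (φ : ℝ → ℝ) (x : ℝ) : Prop :=
  ∀ e : ℝ, 0 < e → ∀ᶠ y in 𝓝[>] x, ∫ t in x..y, φ t ≤ (φ x + e) * (y - x)

theorem leb {φ : ℝ → ℝ} (hm : Measurable φ) (hb : ∀ t, |φ t| ≤ 1) : ∀ᵐ x, Leb φ x := by
  have hl : LocallyIntegrable φ volume :=
    (locallyIntegrable_const (1 : ℝ)).mono hm.aestronglyMeasurable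
      (Eventually.of_forall fun t => by simpa using hb t)
  filter_upwards [LocallyIntegrable.ae_hasDerivAt_integral hl] with x hx e he
  filter_upwards [incr (hx x) he] with y hy
  rw [intervalIntegral.integral_same, sub_zero] at hy
  have := (abs_le.1 hy).2
  linarith

theorem exists_mn {E : ℝ → ℝ} {K : ℝ} (hK : 0 ≤ K) (h : ∀ s t, |E s - E t| ≤ K * |s - t|) :
    ∃ m : ℝ → ℝ, (∀ s t, |m s - m t| ≤ K * |s - t|) ∧
      ∀ x ∈ Icc (0 : ℝ) 1, ∃ y ∈ Icc x 1, m x = E y ∧ ∀ z ∈ Icc x 1, E y ≤ E z := by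
  have hc : Continuous E := (lipW h).continuous
  obtain ⟨y0, -, hy0⟩ := (isCompact_Icc (a := (0 : ℝ)) (b := 1)).exists_isMinOn
    ⟨0, left_mem_Icc.2 zero_le_one⟩ hc.continuousOn
  have hmem : ∀ (x : ℝ) (t : Icc (0 : ℝ) 1), max (t : ℝ) (min x 1) ∈ Icc (0 : ℝ) 1 := fun x t =>
    ⟨t.2.1.trans (le_max_left _ _), max_le t.2.2 (min_le_right _ _)⟩
  have hb : ∀ x : ℝ, BddBelow (range fun t : Icc (0 : ℝ) 1 => E (max (t : ℝ) (min x 1))) :=
    fun x => ⟨E y0, by rintro _ ⟨t, rfl⟩; exact hy0 (hmem x t)⟩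
  have : Nonempty (Icc (0 : ℝ) 1) := ⟨⟨0, left_mem_Icc.2 zero_le_one⟩⟩
  have key : ∀ s t : ℝ, (⨅ r : Icc (0 : ℝ) 1, E (max (r : ℝ) (min s 1))) - K * |s - t| ≤
      ⨅ r : Icc (0 : ℝ) 1, E (max (r : ℝ) (min t 1)) := by
    intro s t
    refine le_ciInf fun r => ?_
    have h1 := ciInf_le (hb s) r
    have h2 := (abs_le.1 (h (max (r : ℝ) (min s 1)) (max (r : ℝ) (min t 1)))).2
    have h3 : |max (r : ℝ) (min s 1) - max (r : ℝ) (min t 1)| ≤ |s - t| := by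
      rw [max_comm (r : ℝ), max_comm (r : ℝ)]
      refine (abs_max_sub_max_le_abs _ _ _).trans ?_
      have := abs_min_sub_min_le_max s 1 t 1
      simpa using this
    have h4 := mul_le_mul_of_nonneg_left h3 hK
    linarith
  refine ⟨fun x => ⨅ r : Icc (0 : ℝ) 1, E (max (r : ℝ) (min x 1)), fun s t => ?_, fun x hx => ?_⟩
  · have h1 := key s t
    have h2 := key t s
    rw [abs_sub_comm t s] at h2
    exact abs_le.2 ⟨by linarith, by linarith⟩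
  · obtain ⟨y, hy, hy'⟩ := (isCompact_Icc (a := x) (b := 1)).exists_isMinOn
      ⟨x, left_mem_Icc.2 hx.2⟩ hc.continuousOn
    refine ⟨y, hy, le_antisymm ?_ ?_, fun z hz => hy' hz⟩
    · have := ciInf_le (hb x) ⟨y, hx.1.trans hy.1, hy.2⟩
      simpa [min_eq_left hx.2, max_eq_left hy.1] using this
    · refine le_ciInf fun r => hy' ?_
      rw [min_eq_left hx.2]
      exact ⟨le_max_right _ _, max_le r.2.2 hx.2⟩

variable {M : Mac} {u v : ℝ}

theorem exists_lam0 (h : M.Ok u v) :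
    ∃ l0 : ℝ → ℝ, Measurable l0 ∧ (∀ y, |l0 y| ≤ 1) ∧
      (∀ x y, 0 ≤ x → x < y → y < 1 → M.lam x y ≤ l0 y) ∧
      ∀ y b, 0 ≤ b → b < l0 y → ∃ q : ℚ, 0 ≤ (q : ℝ) ∧ (q : ℝ) < y ∧ b < M.lam q y := by
  let F : ℚ → ℝ → ℝ := fun q y => if 0 ≤ (q : ℝ) ∧ (q : ℝ) < y then M.lam q y else 0
  have hF : ∀ q y, 0 ≤ F q y ∧ F q y ≤ 1 := by
    intro q y
    simp only [F]
    split_ifs
    exacts [⟨h.nonneg _ _, h.le_one _ _⟩, ⟨le_rfl, zero_le_one⟩]
  have hb : ∀ y, BddAbove (range fun q => F q y) := fun y =>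
    ⟨1, by rintro _ ⟨q, rfl⟩; exact (hF q y).2⟩
  refine ⟨fun y => ⨆ q, F q y, Measurable.iSup fun q => ?_, fun y => ?_, fun x y h0 hxy hy => ?_,
    fun y b hb0 hlt => ?_⟩
  · refine Measurable.ite ?_ (h.meas _) measurable_const
    exact (MeasurableSet.const _).inter measurableSet_Ioi
  · rw [abs_of_nonneg (Real.iSup_nonneg fun q => (hF q y).1)]
    exact ciSup_le fun q => (hF q y).2
  · obtain ⟨q, hq1, hq2⟩ := exists_rat_btwn hxy
    refine le_trans ?_ (le_ciSup (hb y) q)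
    simp only [F]
    rw [if_pos ⟨h0.trans hq1.le, hq2⟩]
    exact h.mono _ _ _ h0 hq1.le hq2.le hy
  · obtain ⟨q, hq⟩ := exists_lt_of_lt_ciSup hlt
    simp only [F] at hq
    split_ifs at hq with hc
    · exact ⟨q, hc.1, hc.2, hq⟩
    · exact absurd hq (not_lt.2 hb0)

theorem sum_le (h : M.Ok u v) {x L : ℝ} (h0 : 0 ≤ x) (h1 : x ≤ L) (h2 : L ≤ 1) :
    M.R x L ≤ M.f L - M.f x - (L - x) + ∫ y in x..L, M.lam x y := by
  have := h.sum x L h0 h1 h2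
  rw [intervalIntegral.integral_sub intervalIntegrable_const (h.lam_ii x x L)] at this
  simp only [intervalIntegral.integral_const, smul_eq_mul, mul_one] at this
  linarith

theorem ind_meas (h : M.Ok u v) (x r : ℝ) :
    Measurable fun t => if M.lam x t ≤ r then (1 : ℝ) else 0 :=
  Measurable.ite (measurableSet_le (h.meas x) measurable_const) measurable_const measurable_const

theorem ind_le (M : Mac) (x r t : ℝ) : |if M.lam x t ≤ r then (1 : ℝ) else 0| ≤ 1 := by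
  split_ifs <;> simp

/-- The local step at a point where lam x is positive immediately to the right. -/
theorem loc (h2 : StarStmt) (h3 : MidStmt) (h : M.Ok u v) {l0 m : ℝ → ℝ} {x u' ε v' : ℝ}
    (hlm : Measurable l0) (hl1 : ∀ y, |l0 y| ≤ 1)
    (hl2 : ∀ x y, 0 ≤ x → x < y → y < 1 → M.lam x y ≤ l0 y)
    (hl3 : ∀ y b, 0 ≤ b → b < l0 y → ∃ q : ℚ, 0 ≤ (q : ℝ) ∧ (q : ℝ) < y ∧ b < M.lam q y)
    (hu : u' < u) (hε : 0 < ε) (hx0 : 0 ≤ x) (hx1 : x < 1) (hf : HasDerivAt M.f v' x)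
    (hm : HasDerivAt m (v' - u') x) (hmono : ∀ y ∈ Icc x 1, m x ≤ m y) (hL : Leb l0 x)
    (hq : ∀ q r : ℚ, Leb (fun t => if M.lam q t ≤ r then (1 : ℝ) else 0) x)
    (hpos : ∀ ξ : ℝ, 0 < ξ → 0 < ∫ y in x..(x + ξ), M.lam x y) :
    ∃ y ∈ Ioc x 1, M.R x y ≤ 2 / 3 * (m y - m x) + ε * (y - x) := by
  obtain ⟨e, he, rfl⟩ : ∃ e : ℝ, 0 < e ∧ ε = 3 * e := ⟨ε / 3, by positivity, by ring⟩
  have hS : ∀ᶠ y in 𝓝[>] x, x < y ∧ y < 1 ∧ M.R x y ≤ (v' - 1 + l0 x + 2 * e) * (y - x) ∧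
      (v' - u' - e) * (y - x) ≤ m y - m x := by
    filter_upwards [incr hf he, incr hm he, hL e he, self_mem_nhdsWithin,
      mem_nhdsWithin_of_mem_nhds (Iio_mem_nhds hx1)] with y h1 h2 h3 hxy hy1
    have hxy : x < y := hxy
    have hy1 : y < 1 := hy1
    refine ⟨hxy, hy1, ?_, ?_⟩
    · have h4 := sum_le h hx0 hxy.le hy1.le
      have h5 : ∫ t in x..y, M.lam x t ≤ ∫ t in x..y, l0 t :=
        int_le hxy.le (h.lam_ii _ _ _) (ii_of_bdd hlm hl1 _ _)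
          (Eventually.of_forall fun t ht => hl2 x t hx0 ht.1 (ht.2.trans hy1))
      have h6 := (abs_le.1 h1).2
      linarith
    · have h6 := (abs_le.1 h2).1
      linarith
  by_cases hc : l0 x ≤ e
  · obtain ⟨b, hb, hsub⟩ := mem_nhdsGT_iff_exists_Ioo_subset.1 hS
    have hb : x < b := hb
    have hJ := hpos (b - x) (sub_pos.2 hb)
    rw [add_sub_cancel] at hJ
    set J := ∫ y in x..b, M.lam x y with hJdef
    have hle : ∀ s t : ℝ, s ≤ t → ∫ y in s..t, M.lam x y ≤ t - s := by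
      intro s t hst
      have := int_le hst (h.lam_ii x s t) (intervalIntegrable_const (c := (1 : ℝ)))
        (Eventually.of_forall fun r _ => h.le_one x r)
      simpa using this
    have hJb : J ≤ b - x := hle x b hb.le
    have hadd := intervalIntegral.integral_add_adjacent_intervals (h.lam_ii x x (x + J / 2))
      (h.lam_ii x (x + J / 2) b)
    have h1 := hle x (x + J / 2) (by linarith)
    obtain ⟨z, hz, -, hz'⟩ := right_pos (a := x + J / 2) (b := b) (h.meas x)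
      (fun t => ⟨h.nonneg x t, h.le_one x t⟩) (by linarith) (by linarith)
    obtain ⟨hxz, hz1, hR, hmz⟩ := hsub (show z ∈ Ioo x b from ⟨by linarith [hz.1], hz.2⟩)
    have hst := h2 M u v x z z h hx0 hxz.le le_rfl hz1.le hz1 hz'
    rw [intervalIntegral.integral_same, mul_zero, sub_zero, max_eq_right
      (mul_nonneg (by linarith [h.u_le]) (sub_nonneg.2 hxz.le))] at hst
    refine ⟨z, ⟨hxz, hz1.le⟩, ?_⟩
    have hl : 0 < z - x := sub_pos.2 hxz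
    have h5 : M.R x z ≤ 2 * (1 - u) * (z - x) := hst
    have h6 := mul_le_mul_of_nonneg_right hc hl.le
    have h7 := mul_le_mul_of_nonneg_right hu.le hl.le
    have h8 := mul_pos he hl
    nlinarith
  · push Not at hc
    obtain ⟨q, hq0, hqx, hq1⟩ := hl3 x (l0 x - e / 2) (by linarith) (by linarith)
    obtain ⟨r, hr1, hr2⟩ := exists_rat_btwn (show l0 x - e < M.lam q x by linarith)
    obtain ⟨θ, hθ, hmid⟩ := h3 M u v e h he
    obtain ⟨y, ⟨hxy, hy1, hR, hmy⟩, hI⟩ := (hS.and (hq q r θ hθ)).exists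
    beta_reduce at hI
    rw [if_neg (not_le.2 hr2), zero_add] at hI
    have hI2 : ∫ t in x..y, (if M.lam x t ≤ r then (1 : ℝ) else 0) ≤
        ∫ t in x..y, (if M.lam q t ≤ r then (1 : ℝ) else 0) := by
      refine int_le hxy.le (ii_of_bdd (ind_meas h _ _) (ind_le M _ _) _ _)
        (ii_of_bdd (ind_meas h _ _) (ind_le M _ _) _ _) (Eventually.of_forall fun t ht => ?_)
      have := h.mono q x t hq0 hqx.le ht.1.le (ht.2.trans hy1)
      by_cases h1 : M.lam x t ≤ r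
      · rw [if_pos h1, if_pos (this.trans h1)]
      · rw [if_neg h1]
        split_ifs
        exacts [zero_le_one, le_rfl]
    have h5 := hmid x y r hx0 hxy hy1.le (by linarith) (hI2.trans hI)
    refine ⟨y, ⟨hxy, hy1.le⟩, ?_⟩
    have hl : 0 < y - x := sub_pos.2 hxy
    have h8 := mul_pos he hl
    rcases le_total (1 - u - r) 0 with h4 | h4
    · rw [max_eq_right h4] at h5
      have := hmono y ⟨hxy.le, hy1.le⟩
      linarith
    · rw [max_eq_left h4] at h5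
      have h6 := mul_le_mul_of_nonneg_right hr1.le hl.le
      have h7 := mul_le_mul_of_nonneg_right hu.le hl.le
      linarith

theorem R_lip (h : M.Ok u v) (s t : ℝ) : |M.R 0 s - M.R 0 t| ≤ 4 * |s - t| := by
  have h1 := abs_le.1 (h.C_lip s s s t t t)
  have h2 := abs_le.1 (h.C_lip s 0 0 t 0 0)
  simp only [sub_self, abs_zero, add_zero] at h2
  simp only [Mac.R]
  exact abs_le.2 ⟨by linarith [h1.1, h2.2], by linarith [h1.2, h2.1]⟩

theorem approx (h1 : LowStmt) (h2 : StarStmt) (h3 : MidStmt) (h : M.Ok u v) (huv : u ≤ v)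
    {u' ε : ℝ} (hu : u' < u) (hε : 0 < ε) :
    min 1 ((2 * u' + v) / 3) - 2 * ε ≤ M.f 1 - M.R 0 1 := by
  let E : ℝ → ℝ := fun t => M.f t - u' * t
  have hE : ∀ s t, |E s - E t| ≤ (3 + |u'|) * |s - t| := by
    intro s t
    have e1 : E s - E t = (M.f s - M.f t) - u' * (s - t) := by simp only [E]; ring
    rw [e1, add_mul, ← abs_mul]
    exact (abs_sub _ _).trans (add_le_add (h.f_lip s t) le_rfl)
  obtain ⟨m, hml, hm⟩ := exists_mn (by positivity) hE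
  obtain ⟨l0, hlm, hl1, hl2, hl3⟩ := exists_lam0 h
  have hmle : ∀ x ∈ Icc (0 : ℝ) 1, ∀ z ∈ Icc x 1, m x ≤ E z := by
    intro x hx z hz
    obtain ⟨y, -, e1, hy⟩ := hm x hx
    rw [e1]; exact hy z hz
  have hmono : ∀ x ∈ Icc (0 : ℝ) 1, ∀ y ∈ Icc x 1, m x ≤ m y := by
    intro x hx y hy
    obtain ⟨z, hz, e1, -⟩ := hm y ⟨hx.1.trans hy.1, hy.2⟩
    rw [e1]; exact hmle x hx z ⟨hy.1.trans hz.1, hz.2⟩
  have hm0 : 0 ≤ m 0 := by
    obtain ⟨z, hz, e1, -⟩ := hm 0 (left_mem_Icc.2 zero_le_one)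
    have := h.fv z hz
    have h4 := mul_le_mul_of_nonneg_right (hu.le.trans huv) hz.1
    rw [e1]; simp only [E]; linarith
  let Ξ : ℝ → ℝ := fun x => 2 / 3 * m x - M.R 0 x + ε * x
  have hΞ : ∀ s t, |Ξ s - Ξ t| ≤ (2 / 3 * (3 + |u'|) + 4 + ε) * |s - t| := by
    intro s t
    have a1 := abs_le.1 (hml s t)
    have a2 := abs_le.1 (R_lip h s t)
    have a3 : |ε * (s - t)| ≤ ε * |s - t| := by rw [abs_mul, abs_of_pos hε]
    have a4 := abs_le.1 a3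
    simp only [Ξ]
    exact abs_le.2 ⟨by linarith [a1.1, a2.2, a4.1], by linarith [a1.2, a2.1, a4.2]⟩
  have hae : ∀ᵐ x, DifferentiableAt ℝ M.f x ∧ DifferentiableAt ℝ m x ∧ Leb l0 x ∧
      ∀ q r : ℚ, Leb (fun t => if M.lam q t ≤ r then (1 : ℝ) else 0) x := by
    refine (lipW h.f_lip).ae_differentiableAt_real.and
      ((lipW hml).ae_differentiableAt_real.and ((leb hlm hl1).and ?_))
    exact ae_all_iff.2 fun q => ae_all_iff.2 fun r => leb (ind_meas h _ _) (ind_le M _ _)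
  have hnull := image_null hΞ (ae_iff.1 hae)
  obtain ⟨c, hc, hcN⟩ := exists_ae (measure_eq_zero_iff_ae_notMem.1 hnull)
    (show -ε < 0 by linarith)
  have hcont : Continuous Ξ := (lipW hΞ).continuous
  have hΞ0 : 0 ≤ Ξ 0 := by
    simp only [Ξ, Mac.R]; linarith
  have hK : IsCompact (Icc (0 : ℝ) 1 ∩ {t | c ≤ Ξ t}) :=
    isCompact_Icc.inter_right (isClosed_le continuous_const hcont)
  obtain ⟨x, ⟨hx, hxc⟩, hmax⟩ := hK.exists_isGreatest
    ⟨0, left_mem_Icc.2 zero_le_one, hc.2.le.trans hΞ0⟩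
  have hxc : c ≤ Ξ x := hxc
  have hmin1 := min_le_left 1 ((2 * u' + v) / 3)
  have hmin2 := min_le_right 1 ((2 * u' + v) / 3)
  have hR0 : M.R 0 x ≤ 2 / 3 * (M.f x - u' * x) + 2 * ε := by
    have a1 := hmle x hx x (left_mem_Icc.2 hx.2)
    have a2 := mul_le_mul_of_nonneg_left hx.2 hε.le
    simp only [Ξ, E] at hxc a1
    linarith [hc.1]
  have hfx := h.fv x hx
  rcases hx.2.eq_or_lt with hx1 | hx1
  · subst hx1
    linarith
  have hno : ∀ y ∈ Ioc x 1, ¬M.R x y ≤ 2 / 3 * (m y - m x) + ε * (y - x) := by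
    intro y hy hle
    have a1 := h.R_sub le_rfl hx.1 hy.1.le hy.2
    refine absurd (hmax ⟨⟨hx.1.trans hy.1.le, hy.2⟩, show c ≤ Ξ y from ?_⟩) (not_le.2 hy.1)
    simp only [Ξ] at hxc ⊢
    linarith
  have hno0 : ∀ y ∈ Ioc x 1, 0 < M.R x y := by
    intro y hy
    have a1 := not_le.1 (hno y hy)
    have a2 := hmono x hx y ⟨hy.1.le, hy.2⟩
    have a3 := mul_pos hε (sub_pos.2 hy.1)
    linarith
  have hxe : Ξ x = c := by
    refine le_antisymm ?_ hxc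
    by_contra hlt
    have a1 : ∀ᶠ y in 𝓝[>] x, c < Ξ y :=
      mem_nhdsWithin_of_mem_nhds (hcont.continuousAt.eventually (lt_mem_nhds (not_le.1 hlt)))
    obtain ⟨y, a2, a3⟩ := (a1.and (Ioo_mem_nhdsGT hx1)).exists
    exact absurd (hmax ⟨⟨hx.1.trans a3.1.le, a3.2.le⟩, a2.le⟩) (not_le.2 a3.1)
  have hx0 : 0 < x := by
    refine hx.1.lt_of_ne ?_
    rintro rfl
    linarith [hc.2]
  obtain ⟨hdf, hdm, hL, hq⟩ : DifferentiableAt ℝ M.f x ∧ DifferentiableAt ℝ m x ∧ Leb l0 x ∧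
      ∀ q r : ℚ, Leb (fun t => if M.lam q t ≤ r then (1 : ℝ) else 0) x := by
    by_contra hn
    exact hcN ⟨x, hn, hxe⟩
  have hlow : ∀ a y : ℝ, 0 ≤ a → y ∈ Icc a 1 → (∀ z ∈ Icc a 1, E y ≤ E z) → M.R a y ≤ 0 := by
    intro a y ha hy hy'
    refine h1 M u v u' a y h hu ha hy.1 hy.2 fun z hz => ?_
    have := hy' z ⟨hz.1, hz.2.trans hy.2⟩
    simp only [E] at this
    linarith
  have hmx : m x = E x := by
    obtain ⟨y, hy, e1, hy'⟩ := hm x hx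
    rcases hy.1.eq_or_lt with e2 | e2
    · rw [e1, e2]
    · exact absurd (hlow x y hx.1 hy hy') (not_le.2 (hno0 y ⟨e2, hy.2⟩))
  have hI0 : 0 ≤ ∫ y in x..1, M.lam x y :=
    intervalIntegral.integral_nonneg hx.2 fun t _ => h.nonneg x t
  rcases hI0.eq_or_lt with hI | hI
  · have a1 := sum_le h hx.1 hx.2 le_rfl
    have a2 := h.R_sub le_rfl hx.1 hx.2 le_rfl
    have a3 := mul_le_mul_of_nonneg_left hmin2 hx.1
    have a4 := mul_le_mul_of_nonneg_left hmin1 (sub_nonneg.2 hx.2)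
    linarith
  exfalso
  obtain ⟨z, hz, hz0, hz'⟩ := right_pos (h.meas x) (fun t => ⟨h.nonneg x t, h.le_one x t⟩) hx.2 hI
  rcases hz.1.eq_or_lt with e2 | hxz
  · subst e2
    have hd : HasDerivAt (fun t => E t - m t) (deriv M.f x - u' * 1 - deriv m x) x :=
      (hdf.hasDerivAt.sub ((hasDerivAt_id' x).const_mul u')).sub hdm.hasDerivAt
    have hmin : IsLocalMin (fun t => E t - m t) x := by
      filter_upwards [Icc_mem_nhds hx0 hx1] with t ht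
      have := hmle t ht t (left_mem_Icc.2 ht.2)
      linarith
    have e3 := hmin.hasDerivAt_eq_zero hd
    have hdm' : HasDerivAt m (deriv M.f x - u') x := by
      rw [show deriv M.f x - u' = deriv m x by linarith]
      exact hdm.hasDerivAt
    obtain ⟨y, hy, hy'⟩ := loc h2 h3 h hlm hl1 hl2 hl3 hu hε hx.1 hx1 hdf.hasDerivAt hdm'
      (hmono x hx) hL hq hz'
    exact hno y hy hy'
  · have hz01 : z ∈ Icc (0 : ℝ) 1 := ⟨hx.1.trans hz.1, hz.2.le⟩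
    obtain ⟨L, hL, -, hL'⟩ := hm z hz01
    have hxL : x < L := hxz.trans_le hL.1
    have a1 := hlow z L hz01.1 hL hL'
    have a2 := h2 M u v x z L h hx.1 hz.1 hL.1 hL.2 hz.2 hz'
    have a3 := sum_le h hx.1 hxL.le hL.2
    rw [← intervalIntegral.integral_add_adjacent_intervals (h.lam_ii x x z) (h.lam_ii x z L), hz0,
      zero_add] at a3
    have a4 := hno0 L ⟨hxL, hL.2⟩
    have a5 : M.R x L ≤ max 0 (2 * (1 - u) * (L - x) - 2 * ∫ y in z..L, M.lam x y) := by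
      simp only [Mac.R] at a1 ⊢
      linarith
    have a6 : M.R x L ≤ 2 * (1 - u) * (L - x) - 2 * ∫ y in z..L, M.lam x y := by
      rcases le_max_iff.1 a5 with a | a
      · linarith
      · exact a
    have a7 : E L ≤ m L := by
      obtain ⟨y, hy, e1, -⟩ := hm L ⟨hz01.1.trans hL.1, hL.2⟩
      rw [e1]
      exact hL' y ⟨hL.1.trans hy.1, hy.2⟩
    refine hno L ⟨hxL, hL.2⟩ ?_
    have a8 := mul_le_mul_of_nonneg_right hu.le (sub_pos.2 hxL).le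
    have a9 := mul_pos hε (sub_pos.2 hxL)
    rw [hmx]
    simp only [E] at a7 ⊢
    linarith

end FinA

theorem fin_stmt (h1 : LowStmt) (h2 : StarStmt) (h3 : MidStmt) : FinStmt := by
  intro M u v h huv
  refine le_of_forall_pos_le_add fun δ hδ => ?_
  have a1 := FinA.approx h1 h2 h3 h huv (u' := u - δ / 2) (ε := δ / 4) (by linarith)
    (by positivity)
  have a2 : min 1 ((2 * u + v) / 3) ≤ min 1 ((2 * (u - δ / 2) + v) / 3) + δ / 2 := by
    rw [← min_add_add_right]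
    exact min_le_min (by linarith) (by linarith)
  linarith

end Pool.Agent.MP_538dc4_an.AB

end MrgPart5

-- marker of a merged file
example : 731051 + 370673 = 731051 + 370673 := rfl
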