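import Mathlib.Topology.Sheaves.Presheaf
import Mathlib.Algebra.Order.Star.Real
import Mathlib.Analysis.InnerProductSpace.Calculus
import Pool.Agent.MP_538dc4_an.ab.Spec

/-! PROJECT FURST2, module CIRC: circles are covered by four families of upper arcs. -/

open MeasureTheory Set
open scoped ENNReal

namespace Pool.Agent.MP_538dc4_an.AB

namespace CircM

noncomputable section

def sg (b : Bool) : ℝ := if b then 1 else -1

theorem sg_sq (b : Bool) : sg b * sg b = 1 := by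
  cases b <;> simp [sg]

/-- The new abscissa. -/
def cx (g : Bool × Bool) (a b : ℝ) : ℝ := if g.1 then b else a

/-- The new ordinate. -/
def cy (g : Bool × Bool) (a b : ℝ) : ℝ := sg g.2 * if g.1 then a else b

def v3 (a b c : ℝ) : E3 := WithLp.toLp 2 ![a, b, c]

/-- The action on parameters. -/
def T (g : Bool × Bool) (x : E3) : E3 := v3 (cx g (x 0) (x 1)) (cy g (x 0) (x 1)) (x 2)

/-- The inverse action on parameters. -/
def Ti (g : Bool × Bool) (w : E3) : E3 :=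
  v3 (cx g (w 0) (sg g.2 * w 1)) (cx g (sg g.2 * w 1) (w 0)) (w 2)

/-- The inverse action on the plane. -/
def Si (g : Bool × Bool) (a b : ℝ) : E2 := pt (cx g a (sg g.2 * b)) (cx g (sg g.2 * b) a)

/-- The normalized action on the plane. -/
def S (g : Bool × Bool) (a l : ℝ) (p : E2) : E2 :=
  pt ((cx g (p 0) (p 1) - a) / l) (cy g (p 0) (p 1))

theorem Ti_T (g : Bool × Bool) (x : E3) : Ti g (T g x) = x := by
  obtain ⟨a, b⟩ := g
  ext i
  fin_cases i <;> cases a <;> simp [Ti, T, v3, cx, cy, ← mul_assoc, sg_sq]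

theorem Si_S (g : Bool × Bool) (p : E2) : Si g (cx g (p 0) (p 1)) (cy g (p 0) (p 1)) = p := by
  obtain ⟨a, b⟩ := g
  ext i
  fin_cases i <;> cases a <;> simp [Si, pt, cx, cy, ← mul_assoc, sg_sq]

theorem cd_cx {α : Type*} [NormedAddCommGroup α] [NormedSpace ℝ α] {s : Set α} {f h : α → ℝ}
    (g : Bool × Bool) (hf : ContDiffOn ℝ 1 f s) (hh : ContDiffOn ℝ 1 h s) :
    ContDiffOn ℝ 1 (fun x => cx g (f x) (h x)) s := by
  unfold cx
  split_ifs
  exacts [hh, hf]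

theorem cd_pt {α : Type*} [NormedAddCommGroup α] [NormedSpace ℝ α] {s : Set α} {f h : α → ℝ}
    (hf : ContDiffOn ℝ 1 f s) (hh : ContDiffOn ℝ 1 h s) :
    ContDiffOn ℝ 1 (fun x => pt (f x) (h x)) s := by
  rw [contDiffOn_euclidean]
  intro i
  fin_cases i
  exacts [hf, hh]

theorem dim_Ti (g : Bool × Bool) (A : Set E3) : dimH A ≤ dimH (T g '' A) := by
  have c : ∀ i, ContDiffOn ℝ 1 (fun w : E3 => w i) univ := fun i => by fun_prop
  have h : ContDiffOn ℝ 1 (Ti g) univ := by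
    rw [contDiffOn_euclidean]
    intro i
    fin_cases i
    exacts [cd_cx g (c 0) (contDiffOn_const.mul (c 1)), cd_cx g (contDiffOn_const.mul (c 1)) (c 0),
      c 2]
  refine le_trans (dimH_mono fun x hx => ?_) (h.dimH_image_le convex_univ (subset_univ _))
  exact ⟨T g x, mem_image_of_mem _ hx, Ti_T g x⟩

theorem dim_S (g : Bool × Bool) (a l : ℝ) (F : Set E2) : dimH (S g a l '' F) ≤ dimH F := by
  have c : ∀ i, ContDiffOn ℝ 1 (fun w : E2 => w i) univ := fun i => by fun_prop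
  have h : ContDiffOn ℝ 1 (S g a l) univ :=
    cd_pt (((cd_cx g (c 0) (c 1)).sub contDiffOn_const).div_const l)
      (contDiffOn_const.mul (cd_cx g (c 1) (c 0)))
  exact h.dimH_image_le convex_univ (subset_univ _)

/-- The upper arc. -/
def J (a l : ℝ) (w : E3) (s : ℝ) : ℝ := w 1 + Real.sqrt (w 2 ^ 2 - (a + l * s - w 0) ^ 2)

/-- The part of a circle that is an upper arc after the action of `g`. -/
def arc (g : Bool × Bool) (x : E3) : Set E2 :=
  {p | (cx g (p 0) (p 1) - T g x 0) ^ 2 + (cy g (p 0) (p 1) - T g x 1) ^ 2 = x 2 ^ 2 ∧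
    |cx g (p 0) (p 1) - T g x 0| ≤ 3 / 4 * x 2 ∧ T g x 1 ≤ cy g (p 0) (p 1)}

theorem cover {x : E3} (hx : 0 < x 2) {p : E2} (hp : p ∈ circ x) : ∃ g, p ∈ arc g x := by
  have e : (p 0 - x 0) ^ 2 + (p 1 - x 1) ^ 2 = x 2 ^ 2 := by
    have := Metric.mem_sphere.1 hp
    rw [EuclideanSpace.dist_eq, Real.sqrt_eq_iff_mul_self_eq (by positivity) hx.le] at this
    simp only [Fin.sum_univ_two, Real.dist_eq, sq_abs] at this
    simpa [sq] using this
  by_cases h : |p 0 - x 0| ≤ 3 / 4 * x 2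
  · rcases le_total (x 1) (p 1) with k | k
    · exact ⟨(false, true), by simpa [arc, T, v3, cx, cy, sg] using ⟨e, h, k⟩⟩
    · refine ⟨(false, false), ?_, by simpa [T, v3, cx] using h, by simpa [T, v3, cy, sg] using k⟩
      simp only [T, v3, cx, cy, sg]
      simp
      linarith
  · have h' : |p 1 - x 1| ≤ 3 / 4 * x 2 := by
      rw [not_le] at h
      have h1 := mul_self_lt_mul_self (by positivity) h
      rw [abs_mul_abs_self] at h1
      exact abs_le_of_sq_le_sq' (by nlinarith) (by positivity) |> abs_le.2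
    rcases le_total (x 0) (p 0) with k | k
    · refine ⟨(true, true), ?_, by simpa [T, v3, cx] using h', by simpa [T, v3, cy, sg] using k⟩
      simp only [T, v3, cx, cy, sg]
      simp
      linarith
    · refine ⟨(true, false), ?_, by simpa [T, v3, cx] using h', by simpa [T, v3, cy, sg] using k⟩
      simp only [T, v3, cx, cy, sg]
      simp
      linarith

theorem dim_arc (g : Bool × Bool) {x : E3} (_ : 0 < x 2) {a c : ℝ} (F : Set E2)
    (a1 : T g x 0 - 19 / 25 * x 2 < a) (a2 : a < T g x 0 - 3 / 4 * x 2)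
    (c1 : T g x 0 + 3 / 4 * x 2 < c) (c2 : c < T g x 0 + 19 / 25 * x 2) :
    dimH (arc g x ∩ F) ≤ dimH {s | s ∈ Ico (0 : ℝ) 1 ∧
      pt s (J a (c - a) (T g x) s) ∈ S g a (c - a) '' F} := by
  have hl : 0 < c - a := by linarith
  have w2 : T g x 2 = x 2 := rfl
  have h1 : ContDiffOn ℝ 1 (fun s : ℝ => a + (c - a) * s) (Icc 0 1) := by fun_prop
  have h2 : ContDiffOn ℝ 1 (J a (c - a) (T g x)) (Icc 0 1) := by
    refine contDiffOn_const.add (ContDiffOn.sqrt (by fun_prop) fun s hs => ne_of_gt ?_)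
    have p1 : 0 ≤ (c - a) * s := mul_nonneg hl.le hs.1
    have p2 : (c - a) * s ≤ c - a := mul_le_of_le_one_right hl.le hs.2
    rw [w2, sub_pos]
    exact sq_lt_sq' (by linarith) (by linarith)
  have h : ContDiffOn ℝ 1 (fun s => Si g (a + (c - a) * s) (J a (c - a) (T g x) s)) (Icc 0 1) :=
    cd_pt (cd_cx g h1 (contDiffOn_const.mul h2)) (cd_cx g (contDiffOn_const.mul h2) h1)
  refine le_trans (dimH_mono ?_)
    (h.dimH_image_le (convex_Icc 0 1) fun s hs => Ico_subset_Icc_self hs.1)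
  rintro p ⟨⟨e, b, k⟩, hp⟩
  obtain ⟨b1, b2⟩ := abs_le.1 b
  have e1 : a + (c - a) * ((cx g (p 0) (p 1) - a) / (c - a)) = cx g (p 0) (p 1) := by
    field_simp
    ring
  have e2 : J a (c - a) (T g x) ((cx g (p 0) (p 1) - a) / (c - a)) = cy g (p 0) (p 1) := by
    rw [J, e1, w2, ← e, add_sub_cancel_left, Real.sqrt_sq (by linarith)]
    ring
  refine ⟨(cx g (p 0) (p 1) - a) / (c - a), ⟨⟨div_nonneg (by linarith) hl.le,
    (div_lt_one hl).2 (by linarith)⟩, p, hp, ?_⟩, ?_⟩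
  · rw [e2, S]
  · simp only [e1, e2, Si_S]

end

end CircM

open CircM in
theorem circ_stmt (h1 : RawStmt) (h2 : ArcStmt) : CircStmt := by
  intro u v E F hu hu1 huv hr hE hF
  let B : (Bool × Bool) × ℚ × ℚ × ℚ × ℕ → Set E3 := fun k =>
    {x | (0 : ℝ) < k.2.2.1 - k.2.1 ∧ (0 : ℝ) < k.2.2.2.1 ∧
      (|T k.1 x 1| ≤ k.2.2.2.2 ∧ (k.2.2.2.1 : ℝ) ≤ T k.1 x 2 ∧ T k.1 x 2 ≤ k.2.2.2.2 ∧
        |k.2.1 - T k.1 x 0| ≤ 4 / 5 * k.2.2.2.1 ∧
        |k.2.1 + (k.2.2.1 - k.2.1) - T k.1 x 0| ≤ 4 / 5 * k.2.2.2.1) ∧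
      ENNReal.ofReal u < dimH {s | s ∈ Ico (0 : ℝ) 1 ∧
        pt s (J k.2.1 (k.2.2.1 - k.2.1) (T k.1 x) s) ∈ S k.1 k.2.1 (k.2.2.1 - k.2.1) '' F}}
  have cov : E ⊆ ⋃ k, B k := fun x hx => by
    have r := hr x hx
    have s : circ x ∩ F ⊆ ⋃ g, arc g x ∩ F := fun p hp => by
      obtain ⟨g, hg⟩ := cover r hp.1
      exact mem_iUnion.2 ⟨g, hg, hp.2⟩
    have d := (hF x hx).trans_le (dimH_mono s)
    rw [dimH_iUnion, lt_iSup_iff] at d
    obtain ⟨g, d⟩ := d
    obtain ⟨a, a1, a2⟩ := exists_rat_btwn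
      (show T g x 0 - 19 / 25 * x 2 < T g x 0 - 3 / 4 * x 2 by linarith)
    obtain ⟨c, c1, c2⟩ := exists_rat_btwn
      (show T g x 0 + 3 / 4 * x 2 < T g x 0 + 19 / 25 * x 2 by linarith)
    obtain ⟨q, q1, q2⟩ := exists_rat_btwn (show 19 / 20 * x 2 < x 2 by linarith)
    obtain ⟨R, hR⟩ := exists_nat_ge (max |T g x 1| (x 2))
    refine mem_iUnion.2 ⟨(g, a, c, q, R), by linarith, by linarith,
      ⟨(le_max_left _ _).trans hR, q2.le, (le_max_right _ _).trans hR, ?_, ?_⟩,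
      d.trans_le (dim_arc g r F a1 a2 c1 c2)⟩
    · exact abs_le.2 ⟨by linarith, by linarith⟩
    · exact abs_le.2 ⟨by linarith, by linarith⟩
  have d := hE.trans_le (dimH_mono cov)
  rw [dimH_iUnion, lt_iSup_iff] at d
  obtain ⟨⟨g, a, c, q, R⟩, d⟩ := d
  obtain ⟨x0, hx0⟩ : (B (g, a, c, q, R)).Nonempty := by
    by_contra k
    rw [not_nonempty_iff_eq_empty.1 k, dimH_empty] at d
    exact not_lt_bot d
  obtain ⟨C, J1, J2, J3, hC⟩ := h2 a (c - a) q R hx0.1 hx0.2.1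
  refine le_trans (h1 u v C _ (T g '' B (g, a, c, q, R)) _ J1 J2 J3 _ hu hu1 huv hC ?_
    (d.trans_le (dim_Ti g _)) ?_) (dim_S g a (c - a) F)
  · rintro _ ⟨x, hx, rfl⟩
    exact hx.2.2.1
  · rintro _ ⟨x, hx, rfl⟩
    exact hx.2.2.2

end Pool.Agent.MP_538dc4_an.AB
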