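import Mathlib.Algebra.Order.Star.Real
import Mathlib.Analysis.Complex.ExponentialBounds
import Pool.Agent.MP_538dc4_an.ab.Basic

/-! PROJECT FURST2: the entropy function of a random curve has the ABC property. -/

open Finset Real

namespace Pool.Agent.MP_538dc4_an.AB

namespace Inst

variable {Ω : Type} [Fintype Ω] {T : Jets Ω} {C : ℝ}

theorem ee_nonneg (h : 1 ≤ C) : 0 ≤ ee C :=
  mul_nonneg (by norm_num) (log_nonneg (by nlinarith))

/-- Entropy of a label. -/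
noncomputable def G (T : Jets Ω) (k a b c : ℕ) : ℝ := H T.p (T.lab k a b c)

theorem up (hJ : JoinStmt) (hT : T.Ok C) {k a b c k0 a0 b0 c0 : ℕ} (h1 : ValN k a b c)
    (h0 : ValN k0 a0 b0 c0) (hk : k0 ≤ k) (ha : a0 ≤ a) (hb : b0 ≤ b) (hc : c0 ≤ c) :
    H T.p (pair (T.lab k a b c) (T.lab k0 a0 b0 c0)) ≤ G T k a b c + ee C :=
  hJ Ω V T C _ k a b c k a b c k0 a0 b0 c0 hT h1 h1 h0 (le_max_of_le_left hk)
    (le_max_of_le_left ha) (le_max_of_le_left hb) (le_max_of_le_left hc) (fun _ _ e => e)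
    fun _ _ e => e

theorem snd_le {β γ : Type} {p : Ω → ℝ} (hp : IsP p) (X : Ω → β) (Y : Ω → γ) :
    H p Y ≤ H p (pair X Y) :=
  H_le_of_dt hp (Dt.of_forall fun _ _ e => congrArg Prod.snd e)

theorem x_of (hT : T.Ok C) {k : ℕ} {ω ω' : Ω} (e : ⌊T.x ω * 2 ^ k⌋ = ⌊T.x ω' * 2 ^ k⌋) :
    T.lab k 0 0 0 ω = T.lab k 0 0 0 ω' := by
  rw [Jets.lab_zero hT, Jets.lab_zero hT, e]

omit [Fintype Ω] in
theorem x_of_lab {k a b c : ℕ} {ω ω' : Ω} (e : T.lab k a b c ω = T.lab k a b c ω') :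
    ⌊T.x ω * 2 ^ k⌋ = ⌊T.x ω' * 2 ^ k⌋ := congrArg Prod.fst e

variable {ρ K B c n : ℕ}

omit [Fintype Ω] in
theorem c_of {ω ω' : Ω} (e1 : ⌊T.x ω * 2 ^ (K + n)⌋ = ⌊T.x ω' * 2 ^ (K + n)⌋)
    (e2 : ⌊T.x ω * 2 ^ K⌋ = ⌊T.x ω' * 2 ^ K⌋) :
    ⌊T.x ω * 2 ^ (K + n)⌋ - 2 ^ n * ⌊T.x ω * 2 ^ K⌋ =
      ⌊T.x ω' * 2 ^ (K + n)⌋ - 2 ^ n * ⌊T.x ω' * 2 ^ K⌋ := by
  rw [e1, e2]

theorem ku_x (hT : T.Ok C) {ω ω' : Ω}
    (e : (T.core ρ K B c n C).Ku ω = (T.core ρ K B c n C).Ku ω') :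
    T.lab (K + n) 0 0 0 ω = T.lab (K + n) 0 0 0 ω' := by
  have e1 : ⌊T.x ω * 2 ^ (K + n)⌋ - 2 ^ n * ⌊T.x ω * 2 ^ K⌋ =
      ⌊T.x ω' * 2 ^ (K + n)⌋ - 2 ^ n * ⌊T.x ω' * 2 ^ K⌋ := congrArg Prod.fst e
  have e2 : ⌊T.x ω * 2 ^ K⌋ = ⌊T.x ω' * 2 ^ K⌋ := x_of_lab (congrArg Prod.snd e)
  rw [e2, sub_left_inj] at e1
  exact x_of hT e1

/-- The admissible levels. -/
def Lv (ρ K B c n : ℕ) : Prop :=
  (ρ = 0 ∨ ρ = 1 ∧ B = c + K) ∧ c ≤ B ∧ n ≤ K ∧ B + n ≤ c + K + ρ * n

theorem Lv.cases (h : Lv ρ K B c n) (t : ℕ) : c ≤ B ∧ n ≤ K ∧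
    ((ρ * n = 0 ∧ (1 - ρ) * t = t ∧ ρ * t = 0 ∧ B + n ≤ c + K) ∨
      (ρ * n = n ∧ (1 - ρ) * t = 0 ∧ ρ * t = t ∧ B = c + K)) := by
  obtain ⟨h1 | ⟨h1, h2⟩, h3, h4, h5⟩ := h
  · subst h1
    exact ⟨h3, h4, Or.inl ⟨by simp, by simp, by simp, by simpa using h5⟩⟩
  · subst h1
    exact ⟨h3, h4, Or.inr ⟨by simp, by simp, by simp, h2⟩⟩

theorem uku_le (hJ : JoinStmt) (hT : T.Ok C) (h : Lv ρ K B c n) :
    H T.p (pair (T.core ρ K B c n C).U (T.core ρ K B c n C).Ku) ≤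
      G T (K + n) (B + K + n) B c + ee C := by
  have hl := h.cases 0
  refine le_trans (H_le_of_dt hT.isP (Dt.of_forall fun ω ω' e => ?_))
    (up hJ hT (k0 := K) (a0 := B + K) (b0 := B) (c0 := c) (by unfold ValN; omega)
      (by unfold ValN; omega) (by omega) (by omega) le_rfl le_rfl)
  have e1 := congrArg Prod.fst e
  have e2 : T.lab K (B + K) B c ω = T.lab K (B + K) B c ω' := congrArg Prod.snd e
  exact Prod.ext (congrArg (fun z : V => z.2.1) e1) (Prod.ext (c_of (x_of_lab e1) (x_of_lab e2)) e2)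

theorem ku_ge (hJ : JoinStmt) (hT : T.Ok C) (h : Lv ρ K B c n) :
    G T (K + n) (B + K) B c ≤ H T.p (T.core ρ K B c n C).Ku + ee C := by
  have hl := h.cases 0
  exact (snd_le hT.isP _ _).trans (hJ Ω _ T C (T.core ρ K B c n C).Ku (K + n) 0 0 0 K (B + K) B c
    (K + n) (B + K) B c hT (by unfold ValN; omega) (by unfold ValN; omega) (by unfold ValN; omega)
    (by omega) (by omega) (by omega) (by omega) (fun _ _ e => ku_x hT e)
    fun _ _ e => congrArg Prod.snd e)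

theorem ku_le (hJ : JoinStmt) (hT : T.Ok C) (h : Lv ρ K B c n) :
    H T.p (T.core ρ K B c n C).Ku ≤ G T (K + n) (B + K) B c + ee C := by
  have hl := h.cases 0
  refine le_trans (H_le_of_dt hT.isP (Dt.of_forall fun ω ω' e => ?_))
    (up hJ hT (k0 := K) (a0 := B + K) (b0 := B) (c0 := c) (by unfold ValN; omega)
      (by unfold ValN; omega) (by omega) le_rfl le_rfl le_rfl)
  have e1 := congrArg Prod.fst e
  have e2 : T.lab K (B + K) B c ω = T.lab K (B + K) B c ω' := congrArg Prod.snd e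
  exact Prod.ext (c_of (x_of_lab e1) (x_of_lab e2)) e2

theorem bku_le (hJ : JoinStmt) (hT : T.Ok C) (h : Lv ρ K B c n) :
    H T.p (pair (T.core ρ K B c n C).B (T.core ρ K B c n C).Ku) ≤
      G T (K + n) (B + K) (B + n) (c + ρ * n) + ee C := by
  have hl := h.cases 0
  refine le_trans (H_le_of_dt hT.isP (Dt.of_forall fun ω ω' e => ?_))
    (up hJ hT (k0 := K) (a0 := B + K) (b0 := B + n) (c0 := c + ρ * n) (by unfold ValN; omega)
      (by unfold ValN; omega) (by omega) le_rfl le_rfl le_rfl)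
  have e1 := congrArg Prod.fst e
  have e2 : T.lab K (B + K) (B + n) (c + ρ * n) ω = T.lab K (B + K) (B + n) (c + ρ * n) ω' :=
    congrArg Prod.snd e
  exact Prod.ext e2 (Prod.ext (c_of (x_of_lab e1) (x_of_lab e2))
    (Jets.lab_coarse le_rfl (Nat.le_add_right _ _) (Nat.le_add_right _ _) e2))

theorem ubku_ge (hJ : JoinStmt) (hT : T.Ok C) (h : Lv ρ K B c n) :
    G T (K + n) (B + K + n) (B + n) (c + ρ * n) ≤ H T.p (pair (T.core ρ K B c n C).U
      (pair (T.core ρ K B c n C).B (T.core ρ K B c n C).Ku)) + ee C := by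
  have hl := h.cases 0
  refine le_trans (H_le_of_dt hT.isP (Dt.of_forall fun ω ω' e => ?_))
    (hJ Ω _ T C _ (K + n) 0 0 0 K (B + K) (B + n) (c + ρ * n)
      (K + n) (B + K) (B + n) (c + ρ * n) hT (by unfold ValN; omega) (by unfold ValN; omega)
      (by unfold ValN; omega) (by omega) (by omega) (by omega) (by omega)
      (fun _ _ e => ku_x hT (congrArg (fun z => z.2.2) e))
      fun _ _ e => congrArg (fun z => z.2.1) e)
  have e1 := congrArg (fun z => z.1.1) e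
  have e2 : T.lab (K + n) (B + K) (B + n) (c + ρ * n) ω =
      T.lab (K + n) (B + K) (B + n) (c + ρ * n) ω' := congrArg Prod.snd e
  have e3 := congrArg (fun z : V => z.2.2) e2
  exact Prod.ext (x_of_lab e2) (Prod.ext e1 e3)

theorem wz_le (hT : T.Ok C) :
    H T.p (pair (T.core ρ K B c n C).W (T.core ρ K B c n C).Z) ≤
      G T K (B + K + n) (B + n) (c + ρ * n) :=
  H_le_of_dt hT.isP (Dt.of_forall fun _ _ e => Prod.ext e
    (Jets.lab_coarse (Nat.le_add_right _ _) (Nat.le_add_right _ _) (Nat.le_add_right _ _) e))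

theorem wku_ge (hJ : JoinStmt) (hT : T.Ok C) (h : Lv ρ K B c n) :
    G T (K + n) (B + K + n) (B + n) (c + ρ * n) ≤
      H T.p (pair (T.core ρ K B c n C).W (T.core ρ K B c n C).Ku) + ee C := by
  have hl := h.cases 0
  exact (snd_le hT.isP _ _).trans
    (hJ Ω _ T C (pair (T.core ρ K B c n C).W (T.core ρ K B c n C).Ku) (K + n) 0 0 0 K (B + K + n)
      (B + n) (c + ρ * n) (K + n) (B + K + n) (B + n) (c + ρ * n) hT (by unfold ValN; omega)
      (by unfold ValN; omega) (by unfold ValN; omega) (by omega) (by omega) (by omega) (by omega)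
      (fun _ _ e => ku_x hT (congrArg Prod.snd e)) fun _ _ e => congrArg Prod.fst e)

theorem d_le (hJ : JoinStmt) (hT : T.Ok C) (h : Lv ρ K B c n) :
    Hc T.p (T.core ρ K B c n C).D (pair (T.core ρ K B c n C).B (T.core ρ K B c n C).Ku) ≤
      ee C := by
  have hl := h.cases 0
  have h1 := hJ Ω _ T C (pair (T.core ρ K B c n C).B (T.core ρ K B c n C).Ku) (K + n) 0 0 0 K
    (B + K) (B + n) (c + ρ * n) (K + n) (B + K) (B + ρ * n) c hT (by unfold ValN; omega)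
    (by unfold ValN; omega) (by unfold ValN; omega) (by omega) (by omega) (by omega) (by omega)
    (fun _ _ e => ku_x hT (congrArg Prod.snd e)) fun _ _ e => congrArg Prod.fst e
  refine sub_le_iff_le_add'.2 (le_trans (H_le_of_dt hT.isP (Dt.of_forall fun ω ω' e => ?_)) h1)
  exact Prod.ext (congrArg Prod.snd e) (congrArg Prod.fst e)

theorem dl_ge (hJ : JoinStmt) (hT : T.Ok C) (h : Lv ρ K B c n) {t : ℕ} (ht : t ≤ n) :
    G T (K + n) (B + K) (B + ρ * n + (1 - ρ) * t) (c + ρ * t) ≤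
      H T.p (pair (T.lab (K + n) (B + K) (B + ρ * n) c)
        (T.lab K (B + K) (B + (1 - ρ) * t) (c + ρ * t))) + ee C := by
  have hl := h.cases t
  exact (snd_le hT.isP _ _).trans
    (hJ Ω _ T C _ (K + n) (B + K) (B + ρ * n) c K (B + K) (B + (1 - ρ) * t) (c + ρ * t)
      (K + n) (B + K) (B + ρ * n + (1 - ρ) * t) (c + ρ * t) hT (by unfold ValN; omega)
      (by unfold ValN; omega) (by unfold ValN; omega) (by omega) (by omega) (by omega) (by omega)
      (fun _ _ e => congrArg Prod.fst e) fun _ _ e => congrArg Prod.snd e)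

theorem dz_le (hJ : JoinStmt) (hT : T.Ok C) (h : Lv ρ K B c n) :
    H T.p (pair (T.lab (K + n) (B + K) (B + ρ * n) c) (T.lab K (B + K) B c)) ≤
      G T (K + n) (B + K) (B + ρ * n) c + ee C := by
  have hl := h.cases 0
  exact up hJ hT (by unfold ValN; omega) (by unfold ValN; omega) (by omega) le_rfl (by omega) le_rfl

theorem xz_ge (hJ : JoinStmt) (hT : T.Ok C) (h : Lv ρ K B c n) (t : ℕ) :
    G T (K + t) (B + K) B c ≤
      H T.p (pair (T.lab (K + t) 0 0 0) (T.lab K (B + K) B c)) + ee C := by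
  have hl := h.cases 0
  exact (snd_le hT.isP _ _).trans
    (hJ Ω _ T C _ (K + t) 0 0 0 K (B + K) B c (K + t) (B + K) B c hT (by unfold ValN; omega)
      (by unfold ValN; omega) (by unfold ValN; omega) (by omega) (by omega) (by omega) (by omega)
      (fun _ _ e => congrArg Prod.fst e) fun _ _ e => congrArg Prod.snd e)

/-- The concentration event. -/
def Ev (T : Jets Ω) (N q : ℕ) (a : ℝ) (ω : Ω) : Prop :=
  ∀ s : Fin 8 → ℕ, (∀ i, s i ≤ N) → |info T.p (T.lab2 q s) ω - H T.p (T.lab2 q s)| ≤ a * (N * q)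

theorem Ev.use {N q : ℕ} {a : ℝ} {ω : Ω} (h : Ev T N q a ω) (s0 s1 s2 s3 s4 s5 s6 s7 : ℕ)
    {u0 u1 u2 u3 u4 u5 u6 u7 : ℕ} (h0 : s0 ≤ N ∧ s1 ≤ N ∧ s2 ≤ N ∧ s3 ≤ N ∧ s4 ≤ N ∧ s5 ≤ N ∧
      s6 ≤ N ∧ s7 ≤ N) (e0 : u0 = s0 * q) (e1 : u1 = s1 * q) (e2 : u2 = s2 * q)
    (e3 : u3 = s3 * q) (e4 : u4 = s4 * q) (e5 : u5 = s5 * q) (e6 : u6 = s6 * q)
    (e7 : u7 = s7 * q) :
    |info T.p (pair (T.lab u0 u1 u2 u3) (T.lab u4 u5 u6 u7)) ω -
      H T.p (pair (T.lab u0 u1 u2 u3) (T.lab u4 u5 u6 u7))| ≤ a * (N * q) := by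
  subst e0 e1 e2 e3 e4 e5 e6 e7
  obtain ⟨b0, b1, b2, b3, b4, b5, b6, b7⟩ := h0
  refine h ![s0, s1, s2, s3, s4, s5, s6, s7] fun i => ?_
  fin_cases i
  exacts [b0, b1, b2, b3, b4, b5, b6, b7]

theorem hN_eq (N q k a b c : ℕ) :
    T.hN N q k a b c = G T (k * q) (a * q) (b * q) (c * q) / (N * q * log 2) := rfl

theorem le_conv {N q : ℕ} (hN : 1 ≤ N) (hq : 1 ≤ q) {x y : ℝ}
    (h : x / (N * q * log 2) ≤ y / N) : x ≤ y * q * log 2 := by
  have h1 : (0 : ℝ) < N := by exact_mod_cast hN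
  have h2 : (0 : ℝ) < q := by exact_mod_cast hq
  have h3 : 0 < log 2 := log_pos one_lt_two
  rw [div_le_iff₀ (by positivity)] at h
  refine h.trans (le_of_eq ?_)
  field_simp

theorem ge_conv {N q : ℕ} (hN : 1 ≤ N) (hq : 1 ≤ q) {x y : ℝ}
    (h : y / N ≤ x / (N * q * log 2)) : y * q * log 2 ≤ x := by
  have := le_conv hN hq (x := -x) (y := -y) (by rw [neg_div, neg_div]; linarith)
  linarith

/-- The final estimate of the pointwise hypotheses. -/
theorem loss {σ ε L E A x : ℝ} {t q η : ℕ} (hq : 1 ≤ q) (hσ0 : 0 ≤ σ) (hσ : σ ≤ 1)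
    (hL0 : 0 < L) (hL : L ≤ 1) (hε : 0 < ε) (hη : 1 ≤ ε / 4 * η) (hE : 8 * E ≤ ε * q)
    (hA : 8 * A ≤ ε * q) (hη1 : 1 ≤ η)
    (hx : (σ * (t / q : ℕ) - ε / 4 * η) * q * L - 2 * E - 2 * A ≤ x) :
    σ * t * L - ε * (η * q : ℕ) ≤ x := by
  have h1 : (t : ℝ) ≤ (t / q : ℕ) * q + q := by
    have := Nat.lt_div_mul_add (a := t) hq
    exact_mod_cast this.le
  have h2 : (1 : ℝ) ≤ q := by exact_mod_cast hq
  have h3 : (1 : ℝ) ≤ η := by exact_mod_cast hη1
  push_cast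
  have h4 : σ * t * L ≤ σ * ((t / q : ℕ) * q) * L + q := by
    have : σ * L ≤ 1 := mul_le_one₀ hσ hL0.le hL
    have h5 : σ * L * t ≤ σ * L * ((t / q : ℕ) * q + q) :=
      mul_le_mul_of_nonneg_left h1 (mul_nonneg hσ0 hL0.le)
    nlinarith
  have h6 : (q : ℝ) ≤ ε / 4 * η * q := le_mul_of_one_le_left (by linarith) hη
  have h7 : ε / 4 * η * q * L ≤ ε / 4 * η * q :=
    mul_le_of_le_one_right (by positivity) hL
  have h8 : ε * q ≤ ε * q * η := le_mul_of_one_le_right (by positivity) h3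
  nlinarith

end Inst

open Inst in
theorem inst (h1 : AbcStmt) (h2 : JoinStmt) (h3 : CoreStmt) : InstStmt := by
  intro ε0 hε0
  obtain ⟨ε, hε, hA⟩ := h1 (ε0 / 2) (by linarith)
  refine ⟨ε / 4, by linarith, fun N C hN => ?_⟩
  obtain ⟨n0, hA⟩ := hA (20 * C)
  obtain ⟨q1, hq1⟩ := exists_nat_ge (8 * ee C / ε)
  obtain ⟨q2, hq2⟩ := exists_nat_ge (8 * ee C / ε0)
  have hN0 : (0 : ℝ) < N := by exact_mod_cast hN
  refine ⟨min ε (ε / (8 * N)), n0 + q1 + q2 + 1, lt_min hε (by positivity),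
    fun q hq a ha Ω _ T hT hC => ?_⟩
  intro ρ k b c η s σ τ hρ hcb hη hηk hb hbN hσ0 hσ1 hτ0 hτ1 g1 g2 g3 g4 g5
  have hq0 : 1 ≤ q := by omega
  have hqR : (1 : ℝ) ≤ q := by exact_mod_cast hq0
  have hE1 : 8 * ee C ≤ ε * q := by
    rw [div_le_iff₀ hε] at hq1
    have : (q1 : ℝ) ≤ q := by exact_mod_cast (by omega : q1 ≤ q)
    nlinarith
  have hE2 : 8 * ee C ≤ ε0 * q := by
    rw [div_le_iff₀ hε0] at hq2
    have : (q2 : ℝ) ≤ q := by exact_mod_cast (by omega : q2 ≤ q)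
    nlinarith
  have hE0 := ee_nonneg hT.one_le
  have hη1 : 1 ≤ η := Nat.pos_of_ne_zero fun z => by
    rw [z, Nat.cast_zero, mul_zero] at hη
    linarith
  have hηR : (1 : ℝ) ≤ η := by exact_mod_cast hη1
  have hL0 : 1 / 2 < log 2 := by linarith [log_two_gt_d9]
  have hL1 : log 2 ≤ 1 := by linarith [log_two_lt_d9]
  have ha8 : 8 * (a * (N * q)) ≤ ε * q := by
    have := ha.trans (min_le_right _ _)
    rw [le_div_iff₀ (by positivity)] at this
    nlinarith
  have lv : Lv ρ (k * q) (b * q) (c * q) (η * q) := by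
    refine ⟨hρ.imp_right fun z => ⟨z.1, by rw [z.2, add_mul]⟩, Nat.mul_le_mul_right q hcb,
      Nat.mul_le_mul_right q hηk, ?_⟩
    have := Nat.mul_le_mul_right q hb
    rwa [add_mul, add_mul, add_mul, mul_assoc] at this
  have lv0 : Lv ρ k b c η := ⟨hρ, hcb, hηk, hb⟩
  obtain ⟨c1, c2, c3⟩ := h3 Ω T C ρ _ _ _ _ hT lv.1 lv.2.1 lv.2.2.1 lv.2.2.2
  simp only [hN_eq, ← sub_div, add_mul, mul_assoc ρ, mul_assoc (1 - ρ)] at g1 g2 g3 g4 g5
  replace g1 := le_conv hN hq0 g1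
  replace g2 := ge_conv hN hq0 g2
  replace g3 := le_conv hN hq0 g3
  have u1 := uku_le h2 hT lv
  have u2 := ku_ge h2 hT lv
  have u3 := ku_le h2 hT lv
  have u4 := bku_le h2 hT lv
  have u5 := ubku_ge h2 hT lv
  have u6 := wz_le (ρ := ρ) (K := k * q) (B := b * q) (c := c * q) (n := η * q) hT
  have u7 := wku_ge h2 hT lv
  have u8 := d_le h2 hT lv
  set X := T.core ρ (k * q) (b * q) (c * q) (η * q) C with hX
  have hn : (X.n : ℝ) = η * q := Nat.cast_mul η q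
  have k1 : ε * q ≤ ε * (η * q) :=
    mul_le_mul_of_nonneg_left (le_mul_of_one_le_left (by linarith) hηR) hε.le
  have k2 : ε / 4 * η * q * log 2 ≤ ε * (η * q) / 4 := by
    have : ε / 4 * η * q * log 2 ≤ ε / 4 * η * q := mul_le_of_le_one_right (by positivity) hL1
    linarith
  have ok : X.Ok (ε * X.n) := by
    rw [hn]
    refine c1 _ ?_ ?_ (by linarith)
    · unfold Ic
      linarith
    · have u9 : H T.p X.Z = G T (k * q) (b * q + k * q) (b * q) (c * q) := rfl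
      have u10 : H T.p (pair X.c X.Z) = H T.p X.Ku := rfl
      have u11 : H T.p (pair X.W (pair X.c X.Z)) = H T.p (pair X.W X.Ku) := rfl
      unfold Ic
      linarith
  have hdiv : ∀ t ≤ η * q, t / q ≤ η ∧ t / q * q ≤ t := fun t ht =>
    ⟨Nat.div_le_of_le_mul (by rwa [mul_comm]), Nat.div_mul_le_self t q⟩
  have hP : 1 - ε ≤ P T.p (Ev T N q a) := by
    have := ha.trans (min_le_left _ _)
    exact le_trans (by linarith) hC
  have main := hA Ω X σ τ le_rfl (le_trans (by omega) (Nat.le_mul_of_pos_left q hη1)) ok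
    (by linarith) hσ1 (by linarith) hτ1
    (hP.trans (P_mono hT.isP fun ω hω ev t ht => by
      obtain ⟨d1, d2⟩ := hdiv t ht
      have hl := lv0.cases (t / q)
      have i1 : info T.p (pair (X.ad (t / q * q)) X.Ka) ω ≤ info T.p (pair (X.ad t) X.Ka) ω :=
        info_mono hT.isP (X := pair (X.ad t) X.Ka) (Y := pair (X.ad (t / q * q)) X.Ka)
          (Dt.of_forall fun ω ω' e => by
            have e1 := congrArg Prod.fst e
            have e2 := congrArg Prod.snd e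
            exact Prod.ext (dg_eq_of_le d2 e1) e2) hω
      have i2 := info_congr hT.isP (Dt.of_forall fun ω ω' => (c2 _ (d2.trans ht) ω ω').1)
        (Dt.of_forall fun ω ω' => (c2 _ (d2.trans ht) ω ω').2) hω
      have i3 : info T.p X.Ka ω = info T.p (pair X.D X.Z) ω :=
        info_congr hT.isP (Dt.of_forall fun ω ω' e => congrArg Prod.snd e)
          (Dt.of_forall fun ω ω' e => Prod.ext
            (c_of (x_of_lab (congrArg Prod.fst e)) (x_of_lab (congrArg Prod.snd e))) e) hω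
      have i4 := abs_le.1 (ev.use (k + η) (b + k) (b + ρ * η) c k (b + k) (b + (1 - ρ) * (t / q))
        (c + ρ * (t / q)) (u0 := k * q + η * q) (u1 := b * q + k * q) (u2 := b * q + ρ * (η * q))
        (u5 := b * q + k * q) (u6 := b * q + (1 - ρ) * (t / q * q))
        (u7 := c * q + ρ * (t / q * q)) (by omega) (by ring) (by ring) (by ring) rfl rfl (by ring)
        (by ring) (by ring))
      have i5 : |info T.p (pair X.D X.Z) ω - H T.p (pair X.D X.Z)| ≤ a * (N * q) :=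
        ev.use (k + η) (b + k) (b + ρ * η) c k (b + k) b c (by omega) (by ring) (by ring)
          (by ring) rfl rfl (by ring) rfl rfl
      have i6 := dl_ge h2 hT lv (d2.trans ht)
      have i7 : H T.p (pair X.D X.Z) ≤ _ := dz_le h2 hT lv
      have i8 := ge_conv hN hq0 (g4 _ d1)
      refine loss hq0 (by linarith) hσ1 (by linarith) hL1 hε hη hE1 ha8 hη1 ?_
      have i9 := (abs_le.1 i5).2
      change _ ≤ info T.p (pair (X.ad t) X.Ka) ω - info T.p X.Ka ω
      linarith [i4.1]))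
    (hP.trans (P_mono hT.isP fun ω hω ev t ht => by
      obtain ⟨d1, d2⟩ := hdiv t ht
      have hl := lv0.cases (t / q)
      have i1 : info T.p (pair (X.cd (t / q * q)) X.Z) ω ≤ info T.p (pair (X.cd t) X.Z) ω :=
        info_mono hT.isP (X := pair (X.cd t) X.Z) (Y := pair (X.cd (t / q * q)) X.Z)
          (Dt.of_forall fun ω ω' e => by
            have e1 := congrArg Prod.fst e
            have e2 := congrArg Prod.snd e
            exact Prod.ext (dg_eq_of_le d2 e1) e2) hω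
      have i2 := info_congr hT.isP (Dt.of_forall fun ω ω' => (c3 _ (d2.trans ht) ω ω').1)
        (Dt.of_forall fun ω ω' => (c3 _ (d2.trans ht) ω ω').2) hω
      have i3 : info T.p X.Z ω = info T.p (pair X.Z X.Z) ω :=
        info_congr hT.isP (X := X.Z) (Y := pair X.Z X.Z)
          (Dt.of_forall fun ω ω' e => Prod.ext e e)
          (Dt.of_forall fun ω ω' e => congrArg Prod.fst e) hω
      have i4 := abs_le.1 (ev.use (k + t / q) 0 0 0 k (b + k) b c (u0 := k * q + t / q * q)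
        (u1 := 0) (u2 := 0) (u3 := 0) (u5 := b * q + k * q) (by omega) (by ring) (by ring)
        (by ring) (by ring) rfl (by ring) rfl rfl)
      have i5 : |info T.p (pair X.Z X.Z) ω - H T.p (pair X.Z X.Z)| ≤ a * (N * q) :=
        ev.use k (b + k) b c k (b + k) b c (by omega) rfl (by ring) rfl rfl rfl (by ring) rfl rfl
      have i6 := xz_ge h2 hT lv (t / q * q)
      have i7 : H T.p (pair X.Z X.Z) ≤ G T (k * q) (b * q + k * q) (b * q) (c * q) :=
        H_le_of_dt hT.isP (Dt.of_forall fun ω ω' e => Prod.ext e e)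
      have i8 := ge_conv hN hq0 (g5 _ d1)
      refine loss hq0 (by linarith) hτ1 (by linarith) hL1 hε hη hE1 ha8 hη1 ?_
      have i9 := (abs_le.1 i5).2
      change _ ≤ info T.p (pair (X.cd t) X.Z) ω - info T.p X.Z ω
      linarith [i4.1]))
  rw [hn] at main
  have f1 : Hc X.p X.U X.Ku ≤ s * η * q * log 2 + 2 * ee C := by
    change H T.p (pair X.U X.Ku) - H T.p X.Ku ≤ _
    linarith
  have f2 : 0 < η * q * log 2 := by positivity
  have f3 : (q : ℝ) / 2 ≤ η * q * log 2 := by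
    have : (q : ℝ) ≤ η * q := le_mul_of_one_le_left (by linarith) hηR
    nlinarith
  have f4 : 2 * ee C ≤ ε0 / 2 * (η * q * log 2) := by nlinarith
  refine le_of_mul_le_mul_right ?_ f2
  linarith

end Pool.Agent.MP_538dc4_an.AB
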