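import Pool.Agent.MP_538dc4_an.ab.Basic

/-! PROJECT FURST2: the invariance lemma and the counting lemma. -/

open Finset Real

namespace Pool.Agent.MP_538dc4_an.AB

namespace Invar

variable {Ω α β κ : Type} [Fintype Ω] {p : Ω → ℝ}

open Classical in
/-- Conditional probability of `b` given the cell of `a`. -/
noncomputable def cp (p : Ω → ℝ) (K : Ω → κ) (a b : Ω) : ℝ :=
  (if K b = K a then p b else 0) / pr p K (K a)

theorem cp_nonneg (hp : IsP p) (K : Ω → κ) (a b : Ω) : 0 ≤ cp p K a b := by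
  unfold cp
  refine div_nonneg ?_ (pr_nonneg hp _ _)
  split_ifs
  exacts [hp.nn b, le_rfl]

theorem sum_cp_eq (K : Ω → κ) (a : Ω) : ∑ b, cp p K a b = pr p K (K a) / pr p K (K a) := by
  unfold cp
  rw [← sum_div]
  rfl

theorem sum_cp_le (K : Ω → κ) (a : Ω) : ∑ b, cp p K a b ≤ 1 := by
  rw [sum_cp_eq]
  exact div_self_le_one _

theorem sum_cp (hp : IsP p) (K : Ω → κ) {a : Ω} (h : p a ≠ 0) : ∑ b, cp p K a b = 1 := by
  rw [sum_cp_eq]
  exact div_self (pr_pos hp K h).ne'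

theorem cp_congr (K : Ω → κ) {a a' : Ω} (h : K a = K a') (b : Ω) : cp p K a b = cp p K a' b := by
  unfold cp
  rw [h]

theorem cp_supp (K : Ω → κ) {a b : Ω} (h : cp p K a b ≠ 0) : p b ≠ 0 ∧ K b = K a := by
  unfold cp at h
  by_cases h1 : K b = K a
  · refine ⟨fun h0 => h ?_, h1⟩
    simp [h0]
  · exact absurd (by simp [h1]) h

theorem glue_eq (K : Ω → κ) (a b : Ω) : glue p K (a, b) = p a * cp p K a b := by
  unfold glue cp
  by_cases h : K a = K b
  · have h' : K b = K a := h.symm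
    simp only [if_pos h, if_pos h']
    ring
  · have h' : ¬K b = K a := fun e => h e.symm
    simp only [if_neg h, if_neg h']
    simp

/-- Both slots are fresh copies. -/
noncomputable def Q (p : Ω → ℝ) (X : Ω → α) (Y : Ω → β) (K : Ω → κ) (T : Ω → ℝ)
    (F : β → ℝ → α → α → ℝ) : ℝ :=
  ∑ a, p a * ∑ b, cp p K a b * ∑ b', cp p K a b' * F (Y a) (T a) (X b) (X b')

/-- The first slot is the original point. -/
noncomputable def S (p : Ω → ℝ) (X : Ω → α) (Y : Ω → β) (K : Ω → κ) (T : Ω → ℝ)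
    (F : β → ℝ → α → α → ℝ) : ℝ :=
  ∑ a, p a * ∑ b', cp p K a b' * F (Y a) (T a) (X a) (X b')

/-- Exchange of the two slots. -/
def sw (F : β → ℝ → α → α → ℝ) : β → ℝ → α → α → ℝ := fun y x a a' => F y x a' a

variable (X : Ω → α) (Y : Ω → β) (K : Ω → κ)

theorem Q_sw (T : Ω → ℝ) (F : β → ℝ → α → α → ℝ) : Q p X Y K T (sw F) = Q p X Y K T F := by
  unfold Q sw
  refine sum_congr rfl fun a _ => ?_
  congr 1
  simp only [mul_sum]
  rw [sum_comm]
  exact sum_congr rfl fun b _ => sum_congr rfl fun b' _ => by ring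

theorem inner_le (hp : IsP p) (a : Ω) (g : Ω → ℝ) {c : ℝ} (hc : 0 ≤ c) (hg : ∀ b, g b ≤ c) :
    ∑ b, cp p K a b * g b ≤ c := by
  calc ∑ b, cp p K a b * g b ≤ ∑ b, cp p K a b * c :=
        sum_le_sum fun b _ => mul_le_mul_of_nonneg_left (hg b) (cp_nonneg hp K a b)
    _ = (∑ b, cp p K a b) * c := by rw [sum_mul]
    _ ≤ c := mul_le_of_le_one_left hc (sum_cp_le K a)

theorem inner_nonneg (hp : IsP p) (a : Ω) (g : Ω → ℝ) (hg : ∀ b, 0 ≤ g b) :
    0 ≤ ∑ b, cp p K a b * g b :=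
  sum_nonneg fun b _ => mul_nonneg (cp_nonneg hp K a b) (hg b)

theorem S_sub_Q (hp : IsP p) (T : Ω → ℝ) (F : β → ℝ → α → α → ℝ) {l : ℝ} (hl : 0 < l)
    (hl1 : l ≤ 1) (h0 : ∀ y x a a', 0 ≤ F y x a a') (h1 : ∀ y x a a', F y x a a' ≤ 1) :
    |S p X Y K T F - Q p X Y K T F| ≤ Ic p X (pair Y T) K / l + l := by
  have key := pinsk hp X (pair Y T) K
    (fun a b => ∑ b', cp p K a b' * F (Y a) (T a) (X b) (X b')) hl hl1
    (fun a b => by
      rw [abs_of_nonneg (inner_nonneg K hp a _ fun _ => h0 _ _ _ _)]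
      exact inner_le K hp a _ zero_le_one fun _ => h1 _ _ _ _)
    (fun a a' b b' e1 e2 e3 _ => by
      have e4 : Y a = Y a' := (Prod.mk.inj e1).1
      have e5 : T a = T a' := (Prod.mk.inj e1).2
      refine sum_congr rfl fun c _ => ?_
      rw [cp_congr K e2, e3, e4, e5])
  have e : ∑ ω : Ω × Ω, glue p K ω * ∑ b', cp p K ω.1 b' * F (Y ω.1) (T ω.1) (X ω.2) (X b') =
      Q p X Y K T F := by
    rw [Fintype.sum_prod_type]
    unfold Q
    refine sum_congr rfl fun a _ => ?_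
    rw [mul_sum]
    refine sum_congr rfl fun b _ => ?_
    rw [glue_eq, mul_assoc]
  rw [e] at key
  exact key

theorem S_mono (hp : IsP p) {T T' : Ω → ℝ} {F F' : β → ℝ → α → α → ℝ}
    (h : ∀ a a', p a ≠ 0 → F (Y a) (T a) (X a) a' ≤ F' (Y a) (T' a) (X a) a') :
    S p X Y K T F ≤ S p X Y K T' F' := by
  unfold S
  refine sum_le_sum fun a _ => ?_
  by_cases h0 : p a = 0
  · simp [h0]
  · exact mul_le_mul_of_nonneg_left (sum_le_sum fun b _ =>
      mul_le_mul_of_nonneg_left (h a _ h0) (cp_nonneg hp K a b)) (hp.nn a)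

open Classical in
/-- Indicator of a proposition. -/
noncomputable def ind (A : Prop) : ℝ := if A then 1 else 0

theorem ind_nonneg (A : Prop) : 0 ≤ ind A := by
  unfold ind
  split_ifs <;> norm_num

theorem ind_le_one (A : Prop) : ind A ≤ 1 := by
  unfold ind
  split_ifs <;> norm_num

theorem ind_mono {A B : Prop} (h : A → B) : ind A ≤ ind B := by
  unfold ind
  by_cases ha : A
  · rw [if_pos ha, if_pos (h ha)]
  · rw [if_neg ha]
    exact ind_nonneg B

theorem ind_pos {A : Prop} (h : A) : ind A = 1 := if_pos h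

theorem ind_neg {A : Prop} (h : ¬A) : ind A = 0 := if_neg h

variable (φ : β → α → ℝ) (G : β → α → α → Prop) (Bad : β → ℝ → Prop) (e : ℝ)

/-- The test function after `k` steps. -/
noncomputable def F (k : ℕ) : β → ℝ → α → α → ℝ := fun y x a a' =>
  ind (G y a a' ∧ ∃ b, Bad y b ∧ |x + k * (φ y a' - φ y a) - b| ≤ 2 * k * e)

/-- The test function in the middle of a step. -/
noncomputable def F' (k : ℕ) : β → ℝ → α → α → ℝ := fun y z a a' =>
  ind (G y a a' ∧ ∃ b, Bad y b ∧ |z - φ y a + k * (φ y a' - φ y a) - b| ≤ (2 * k + 1) * e)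

theorem step (hp : IsP p) {U V : Ω → ℝ} {l : ℝ} (hl : 0 < l) (hl1 : l ≤ 1)
    (hV : ∀ ω, p ω ≠ 0 → |V ω - U ω - φ (Y ω) (X ω)| ≤ e) (k : ℕ) :
    Q p X Y K U (F φ G Bad e k) ≤ Q p X Y K U (F φ G Bad e (k + 1)) +
      2 * ((Ic p X (pair Y U) K / l + l) + (Ic p X (pair Y V) K / l + l)) := by
  have h1 := abs_le.1 (S_sub_Q X Y K hp U (F φ G Bad e k) hl hl1 (fun _ _ _ _ => ind_nonneg _)
    fun _ _ _ _ => ind_le_one _)
  have h2 : S p X Y K U (F φ G Bad e k) ≤ S p X Y K V (F' φ G Bad e k) := by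
    refine S_mono X Y K hp fun a a' h => ind_mono ?_
    rintro ⟨hg, b, hb, hd⟩
    refine ⟨hg, b, hb, ?_⟩
    have h3 := abs_le.1 (hV a h)
    have h4 := abs_le.1 hd
    rw [abs_le]
    constructor <;> linarith only [h3.1, h3.2, h4.1, h4.2]
  have h3 := abs_le.1 (S_sub_Q X Y K hp V (F' φ G Bad e k) hl hl1 (fun _ _ _ _ => ind_nonneg _)
    fun _ _ _ _ => ind_le_one _)
  have h4 := abs_le.1 (S_sub_Q X Y K hp V (sw (F' φ G Bad e k)) hl hl1
    (fun _ _ _ _ => ind_nonneg _) fun _ _ _ _ => ind_le_one _)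
  have h5 : S p X Y K V (sw (F' φ G Bad e k)) ≤ S p X Y K U (sw (F φ G Bad e (k + 1))) := by
    refine S_mono X Y K hp fun a a' h => ind_mono ?_
    rintro ⟨hg, b, hb, hd⟩
    refine ⟨hg, b, hb, ?_⟩
    have h3 := abs_le.1 (hV a h)
    have h4 := abs_le.1 hd
    rw [abs_le]
    push_cast
    constructor <;> linarith only [h3.1, h3.2, h4.1, h4.2]
  have h6 := abs_le.1 (S_sub_Q X Y K hp U (sw (F φ G Bad e (k + 1))) hl hl1
    (fun _ _ _ _ => ind_nonneg _) fun _ _ _ _ => ind_le_one _)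
  rw [Q_sw] at h4 h6
  linarith only [h1.1, h2, h3.2, h4.1, h5, h6.2]

theorem iter (hp : IsP p) {U V : Ω → ℝ} {l : ℝ} (hl : 0 < l) (hl1 : l ≤ 1)
    (hV : ∀ ω, p ω ≠ 0 → |V ω - U ω - φ (Y ω) (X ω)| ≤ e) (k : ℕ) :
    Q p X Y K U (F φ G Bad e 0) ≤ Q p X Y K U (F φ G Bad e k) +
      k * (2 * ((Ic p X (pair Y U) K / l + l) + (Ic p X (pair Y V) K / l + l))) := by
  induction k with
  | zero => simp
  | succ k ih =>
    have := step X Y K φ G Bad e hp hl hl1 hV k
    push_cast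
    linarith only [ih, this]

theorem sum_Q (T : Ω → ℝ) (I : Finset ℕ) (Fk : ℕ → β → ℝ → α → α → ℝ) :
    ∑ k ∈ I, Q p X Y K T (Fk k) = Q p X Y K T fun y x a a' => ∑ k ∈ I, Fk k y x a a' := by
  unfold Q
  rw [sum_comm]
  refine sum_congr rfl fun a _ => ?_
  rw [← mul_sum, sum_comm]
  congr 1
  refine sum_congr rfl fun b _ => ?_
  rw [← mul_sum, sum_comm]
  congr 1
  exact sum_congr rfl fun b' _ => by rw [← mul_sum]

theorem Q_le (hp : IsP p) (T : Ω → ℝ) (F : β → ℝ → α → α → ℝ) {c : ℝ} (hc : 0 ≤ c)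
    (h : ∀ y x a a', F y x a a' ≤ c) : Q p X Y K T F ≤ c := by
  unfold Q
  calc _ ≤ ∑ a, p a * c := sum_le_sum fun a _ => mul_le_mul_of_nonneg_left
        (inner_le K hp a _ hc fun _ => inner_le K hp a _ hc fun _ => h _ _ _ _) (hp.nn a)
    _ = c := by rw [← sum_mul, hp.sum, one_mul]

theorem inner_ind (a : Ω) (A : Ω → Prop) :
    ∑ b, cp p K a b * ind (A b) = (P p fun b => K b = K a ∧ A b) / pr p K (K a) := by
  unfold P cp ind
  rw [sum_div]
  refine sum_congr rfl fun b _ => ?_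
  by_cases h1 : K b = K a
  · by_cases h2 : A b
    · simp [h1, h2]
    · simp [h2]
  · simp [h1]

theorem le_Q (hp : IsP p) (U : Ω → ℝ) (E : Ω → Prop) {θ : ℝ}
    (hE : ∀ ω ω', E ω → p ω ≠ 0 → p ω' ≠ 0 → K ω' = K ω →
      θ * pr p K (K ω) ≤ P p fun ω'' => K ω'' = K ω ∧ G (Y ω) (X ω') (X ω'')) :
    θ * P p (fun ω => E ω ∧ Bad (Y ω) (U ω)) ≤ Q p X Y K U (F φ G Bad e 0) := by
  rw [P_eq_sum, mul_sum]
  unfold Q
  refine sum_le_sum fun a _ => ?_
  by_cases h0 : p a = 0
  · simp [h0]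
  rw [mul_left_comm]
  refine mul_le_mul_of_nonneg_left ?_ (hp.nn a)
  by_cases ha : E a ∧ Bad (Y a) (U a)
  · rw [if_pos ha, mul_one]
    calc θ = ∑ b, cp p K a b * θ := by rw [← sum_mul, sum_cp hp K h0, one_mul]
      _ ≤ _ := by
        refine sum_le_sum fun b _ => ?_
        by_cases hb : cp p K a b = 0
        · simp [hb]
        refine mul_le_mul_of_nonneg_left ?_ (cp_nonneg hp K a b)
        obtain ⟨hb1, hb2⟩ := cp_supp K hb
        have h1 := hE a b ha.1 h0 hb1 hb2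
        have h2 : θ ≤ ∑ b', cp p K a b' * ind (G (Y a) (X b) (X b')) := by
          rw [inner_ind, le_div_iff₀ (pr_pos hp K h0)]
          exact h1
        refine h2.trans (sum_le_sum fun b' _ =>
          mul_le_mul_of_nonneg_left (ind_mono fun hg => ⟨hg, U a, ha.2, ?_⟩) (cp_nonneg hp K a b'))
        simp
  · rw [if_neg ha, mul_zero]
    exact inner_nonneg K hp a _ fun _ => inner_nonneg K hp a _ fun _ => ind_nonneg _

/-! ### Counting -/

theorem card_le_diam {ι : Type} (A : Finset ι) (f : ι → ℤ) (hf : Set.InjOn f A) {D : ℝ}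
    (hD : 0 ≤ D) (h : ∀ a ∈ A, ∀ a' ∈ A, ((f a : ℝ) - f a') ≤ D) : (A.card : ℝ) ≤ D + 1 := by
  rcases A.eq_empty_or_nonempty with rfl | hA
  · simp only [card_empty, Nat.cast_zero]
    linarith only [hD]
  obtain ⟨m, hm, hmin⟩ := exists_min_image A f hA
  have h1 : A.card ≤ (Icc (f m) (f m + ⌊D⌋)).card := by
    refine card_le_card_of_injOn f (fun a ha => ?_) hf
    have h2 : f a - f m ≤ ⌊D⌋ := Int.le_floor.2 (by push_cast; exact h a ha m hm)
    have h3 := hmin a ha
    simp only [coe_Icc, Set.mem_Icc]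
    omega
  have h2 : (0 : ℤ) ≤ ⌊D⌋ := Int.floor_nonneg.2 hD
  have h3 : ((Icc (f m) (f m + ⌊D⌋)).card : ℤ) = ⌊D⌋ + 1 := by
    rw [Int.card_Icc]
    omega
  have h4 : (A.card : ℤ) ≤ ⌊D⌋ + 1 := by
    rw [← h3]
    exact_mod_cast h1
  have h5 : (A.card : ℝ) ≤ (⌊D⌋ : ℝ) + 1 := by exact_mod_cast h4
  linarith only [h5, Int.floor_le D]

theorem card_le_fib {ι : Type} (A : Finset ι) (f : ι → ℤ) {B : ℝ}
    (h : ∀ t, ((A.filter fun a => f a = t).card : ℝ) ≤ B) :
    (A.card : ℝ) ≤ (A.image f).card * B := by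
  rw [card_eq_sum_card_image f A, Nat.cast_sum, ← nsmul_eq_mul]
  exact sum_le_card_nsmul _ _ _ fun t _ => h t

theorem ediv_sub_le {M : ℕ} (hM : 1 ≤ M) (t t' : ℤ) :
    (M : ℤ) * (t / M - t' / M) ≤ t - t' + M - 1 := by
  have h0 : (0 : ℤ) < M := by exact_mod_cast hM
  have h1 := Int.mul_ediv_add_emod t M
  have h2 := Int.mul_ediv_add_emod t' M
  have h3 := Int.emod_nonneg t h0.ne'
  have h4 := Int.emod_lt_of_pos t' h0
  rw [mul_sub]
  omega

end Invar

open Invar

theorem inv : InvStmt := by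
  intro Ω α β κ _ p X Y K U V φ G Bad E e q θ l n hp _ he hq _ hl hl1 hn hV hE hC
  classical
  have hn' : (0 : ℝ) < n := by exact_mod_cast hn
  set s := (Ic p X (pair Y U) K / l + l) + (Ic p X (pair Y V) K / l + l) with hs
  have hs0 : 0 ≤ s := by
    have h1 := div_nonneg (Ic_nonneg hp X (pair Y U) K) hl.le
    have h2 := div_nonneg (Ic_nonneg hp X (pair Y V) K) hl.le
    linarith only [h1, h2, hl, hs]
  have h1 : ∀ k ∈ range n, Q p X Y K U (F φ G Bad e 0) ≤
      Q p X Y K U (F φ G Bad e k) + n * (2 * s) := by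
    intro k hk
    have h2 := iter X Y K φ G Bad e hp hl hl1 hV k
    have h3 : (k : ℝ) ≤ n := by exact_mod_cast (mem_range.1 hk).le
    have h4 : (k : ℝ) * (2 * s) ≤ n * (2 * s) :=
      mul_le_mul_of_nonneg_right h3 (by linarith only [hs0])
    linarith only [h2, h4]
  have h2 := sum_le_sum h1
  rw [sum_add_distrib, sum_const, sum_const, card_range, nsmul_eq_mul, nsmul_eq_mul, sum_Q] at h2
  have h3 : (Q p X Y K U fun y x a a' => ∑ k ∈ range n, F φ G Bad e k y x a a') ≤ q * n := by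
    refine Q_le X Y K hp U _ (mul_nonneg hq hn'.le) fun y x a a' => ?_
    by_cases hg : G y a a'
    · refine le_trans ?_ (hC y a a' x hg)
      rw [card_filter, Nat.cast_sum]
      refine sum_le_sum fun k hk => ?_
      split_ifs with h4
      · rw [Nat.cast_one]
        exact ind_le_one _
      · rw [Nat.cast_zero]
        refine le_of_eq (ind_neg ?_)
        rintro ⟨_, b, hb, hd⟩
        refine h4 ⟨b, hb, hd.trans ?_⟩
        have h5 : (k : ℝ) ≤ n := by exact_mod_cast (mem_range.1 hk).le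
        exact mul_le_mul_of_nonneg_right (by linarith only [h5]) he
    · have h4 : ∑ k ∈ range n, F φ G Bad e k y x a a' = 0 :=
        sum_eq_zero fun k _ => ind_neg fun h => hg h.1
      rw [h4]
      exact mul_nonneg hq hn'.le
  have h4 : Q p X Y K U (F φ G Bad e 0) ≤ q + n * (2 * s) := by
    refine le_of_mul_le_mul_left ?_ hn'
    rw [mul_add, mul_comm (n : ℝ) q]
    linarith only [h2, h3]
  have h5 := le_Q X Y K φ G Bad e hp U E hE
  have h6 : 2 * n * ((Ic p X (pair Y U) K + Ic p X (pair Y V) K) / l + 2 * l) = n * (2 * s) := by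
    rw [hs]
    ring
  linarith only [h4, h5, h6]

theorem count : CountStmt := by
  intro s h x ρ Hn M n Bad hs hM hh hMs hρ hH hB
  classical
  have hM' : (1 : ℝ) ≤ M := by exact_mod_cast hM
  have hMs0 : 0 < (M : ℝ) * s := mul_pos (by linarith only [hM']) hs
  have hh0 : 0 < |h| := by
    refine (abs_nonneg h).lt_of_ne' fun h0 => ?_
    rw [h0, mul_zero] at hMs
    linarith only [hMs, hMs0]
  set A := (range n).filter fun k : ℕ => ∃ y : ℝ, Bad ⌊y / s⌋ ∧ |x + k * h - y| ≤ ρ with hA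
  have hex : ∀ k : ℕ, ∃ y : ℝ, k ∈ A → Bad ⌊y / s⌋ ∧ |x + k * h - y| ≤ s := by
    intro k
    by_cases hk : k ∈ A
    · obtain ⟨y, h1, h2⟩ := (mem_filter.1 hk).2
      exact ⟨y, fun _ => ⟨h1, h2.trans hρ⟩⟩
    · exact ⟨0, fun h1 => absurd h1 hk⟩
  choose y hy using hex
  let t : ℕ → ℤ := fun k => ⌊y k / s⌋
  have ht1 : ∀ k, (t k : ℝ) * s ≤ y k := fun k => (le_div_iff₀ hs).1 (Int.floor_le _)
  have ht2 : ∀ k, y k < ((t k : ℝ) + 1) * s := fun k => (div_lt_iff₀ hs).1 (Int.lt_floor_add_one _)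
  have h1 : (A.card : ℝ) ≤ (A.image t).card * (4 * s / |h|) := by
    refine card_le_fib A t fun u => ?_
    have h2 := card_le_diam (A.filter fun a => t a = u) (fun k : ℕ => (k : ℤ))
      (fun a _ b _ e => Nat.cast_injective (R := ℤ) e) (D := 3 * s / |h|) (by positivity) (by
        intro a ha b hb
        obtain ⟨ha1, ha2⟩ := mem_filter.1 ha
        obtain ⟨hb1, hb2⟩ := mem_filter.1 hb
        have h3 := abs_le.1 (hy a ha1).2
        have h4 := abs_le.1 (hy b hb1).2
        have h5 := ht1 a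
        have h6 := ht2 a
        have h7 := ht1 b
        have h8 := ht2 b
        rw [ha2] at h5 h6
        rw [hb2] at h7 h8
        have h9 : |((a : ℝ) - b) * h| ≤ 3 * s := by
          rw [abs_le]
          constructor <;> linarith only [h3.1, h3.2, h4.1, h4.2, h5, h6, h7, h8]
        rw [abs_mul] at h9
        rw [le_div_iff₀ hh0]
        push_cast
        exact (mul_le_mul_of_nonneg_right (le_abs_self _) hh0.le).trans h9)
    have h3 : 1 ≤ s / |h| := (one_le_div hh0).2 hh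
    have h4 : 4 * s / |h| = 3 * s / |h| + s / |h| := by ring
    linarith only [h2, h3, h4]
  have h2 : ((A.image t).card : ℝ) ≤ ((A.image t).image fun u => u / (M : ℤ)).card * Hn := by
    refine card_le_fib _ _ fun Q => hB Q _ fun u hu => ?_
    obtain ⟨hu1, hu2⟩ := mem_filter.1 hu
    obtain ⟨k, hk, rfl⟩ := mem_image.1 hu1
    exact ⟨(hy k hk).1, hu2⟩
  have h3 : (((A.image t).image fun u => u / (M : ℤ)).card : ℝ) ≤ 5 * (n * |h| / (M * s)) := by
    have h4 := card_le_diam ((A.image t).image fun u => u / (M : ℤ)) id (fun _ _ _ _ e => e)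
      (D := n * |h| / (M * s) + 3) (by positivity) (by
        intro Q hQ Q' hQ'
        obtain ⟨u, hu, rfl⟩ := mem_image.1 hQ
        obtain ⟨a, ha, rfl⟩ := mem_image.1 hu
        obtain ⟨u', hu', rfl⟩ := mem_image.1 hQ'
        obtain ⟨b, hb, rfl⟩ := mem_image.1 hu'
        have h5 : (M : ℝ) * (((t a / M : ℤ) : ℝ) - ((t b / M : ℤ) : ℝ)) ≤
            (t a : ℝ) - t b + M - 1 := by exact_mod_cast ediv_sub_le hM (t a) (t b)
        have h6 := abs_le.1 (hy a ha).2
        have h7 := abs_le.1 (hy b hb).2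
        have h8 : (a : ℝ) < n := by exact_mod_cast mem_range.1 (mem_filter.1 ha).1
        have h9 : (b : ℝ) < n := by exact_mod_cast mem_range.1 (mem_filter.1 hb).1
        have h10 : |(a : ℝ) - b| ≤ n := by
          rw [abs_le]
          constructor <;> linarith only [h8, h9, Nat.cast_nonneg (α := ℝ) a,
            Nat.cast_nonneg (α := ℝ) b]
        have h11 : ((a : ℝ) - b) * h ≤ n * |h| := by
          refine (le_abs_self _).trans ?_
          rw [abs_mul]
          exact mul_le_mul_of_nonneg_right h10 hh0.le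
        have h12 := mul_le_mul_of_nonneg_right h5 hs.le
        have h13 : s ≤ M * s := le_mul_of_one_le_left hs.le hM'
        simp only [id]
        rw [← sub_le_iff_le_add, le_div_iff₀ hMs0]
        linarith only [h12, h6.1, h6.2, h7.1, h7.2, h11, h13, ht1 a, ht2 b])
    have h5 : 1 ≤ n * |h| / (M * s) := (one_le_div hMs0).2 hMs
    linarith only [h4, h5]
  have h4 : 0 ≤ 4 * s / |h| := by positivity
  calc (A.card : ℝ) ≤ 5 * (n * |h| / (M * s)) * Hn * (4 * s / |h|) :=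
        h1.trans (mul_le_mul_of_nonneg_right (h2.trans (mul_le_mul_of_nonneg_right h3 hH)) h4)
    _ = 20 * Hn / M * n := by
        field_simp
        ring

end Pool.Agent.MP_538dc4_an.AB
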