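import Mathlib.Tactic.Monotonicity.Lemmas
import Mathlib.Algebra.Order.Ring.Star
import Mathlib.Algebra.Order.Star.Real
import Pool.Agent.MP_538dc4_an.ab.Spec

/-! PROJECT FURST2, section 13: the limit of the discrete entropy functions. -/

open Filter Topology

namespace Pool.Agent.MP_538dc4_an.AB

namespace Limit

/-- Valid integer points. -/
abbrev Vp : Type := {p : ℕ × ℕ × ℕ × ℕ // ValN p.1 p.2.1 p.2.2.1 p.2.2.2}

instance : Nonempty Vp := ⟨⟨(0, 0, 0, 0), by simp [ValN]⟩⟩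

/-- The Lipschitz extension of h from the valid points of the grid. -/
noncomputable def G (N : ℕ) (h : ℕ → ℕ → ℕ → ℕ → ℝ) (k a b c : ℝ) : ℝ :=
  ⨅ p : Vp, h p.1.1 p.1.2.1 p.1.2.2.1 p.1.2.2.2 +
    (|k - p.1.1 / N| + |a - p.1.2.1 / N| + |b - p.1.2.2.1 / N| + |c - p.1.2.2.2 / N|)

section ext

variable {u v e : ℝ} {N : ℕ} {h : ℕ → ℕ → ℕ → ℕ → ℝ}

theorem h_ge (D : DStr u v N e h) {k a b c : ℕ} (hv : ValN k a b c) : -e ≤ h k a b c := by
  have := D.mono 0 0 0 0 k a b c (by simp [ValN]) (Nat.zero_le _) (Nat.zero_le _)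
    (Nat.zero_le _) (Nat.zero_le _) hv
  rw [D.zero] at this
  linarith

theorem term_ge (D : DStr u v N e h) (k a b c : ℝ) (p : Vp) :
    -e ≤ h p.1.1 p.1.2.1 p.1.2.2.1 p.1.2.2.2 +
      (|k - p.1.1 / N| + |a - p.1.2.1 / N| + |b - p.1.2.2.1 / N| + |c - p.1.2.2.2 / N|) := by
  have h1 := h_ge D p.2
  have : 0 ≤ |k - p.1.1 / N| + |a - p.1.2.1 / N| + |b - p.1.2.2.1 / N| + |c - p.1.2.2.2 / N| := by
    positivity
  linarith

theorem G_le (D : DStr u v N e h) (k a b c : ℝ) {k' a' b' c' : ℕ} (hv : ValN k' a' b' c') :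
    G N h k a b c ≤ h k' a' b' c' + (|k - k' / N| + |a - a' / N| + |b - b' / N| + |c - c' / N|) :=
  ciInf_le (f := fun p : Vp => h p.1.1 p.1.2.1 p.1.2.2.1 p.1.2.2.2 +
    (|k - p.1.1 / N| + |a - p.1.2.1 / N| + |b - p.1.2.2.1 / N| + |c - p.1.2.2.2 / N|))
    ⟨-e, by rintro _ ⟨p, rfl⟩; exact term_ge D k a b c p⟩ ⟨(k', a', b', c'), hv⟩

theorem G_ge (D : DStr u v N e h) (k a b c : ℝ) : -e ≤ G N h k a b c :=
  le_ciInf fun p => term_ge D k a b c p

theorem G_le_abs (D : DStr u v N e h) (k a b c : ℝ) : G N h k a b c ≤ |k| + |a| + |b| + |c| := by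
  have := G_le D k a b c (k' := 0) (a' := 0) (b' := 0) (c' := 0) (by simp [ValN])
  rw [D.zero] at this
  simpa using this

theorem G_lip1 (D : DStr u v N e h) (k a b c k' a' b' c' : ℝ) :
    G N h k a b c - (|k - k'| + |a - a'| + |b - b'| + |c - c'|) ≤ G N h k' a' b' c' := by
  refine le_ciInf fun p => ?_
  have h0 := G_le D k a b c p.2
  have h1 := abs_sub_le k k' (p.1.1 / N)
  have h2 := abs_sub_le a a' (p.1.2.1 / N)
  have h3 := abs_sub_le b b' (p.1.2.2.1 / N)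
  have h4 := abs_sub_le c c' (p.1.2.2.2 / N)
  linarith

theorem G_lip (D : DStr u v N e h) (k a b c k' a' b' c' : ℝ) :
    |G N h k a b c - G N h k' a' b' c'| ≤ |k - k'| + |a - a'| + |b - b'| + |c - c'| := by
  have h1 := G_lip1 D k a b c k' a' b' c'
  have h2 := G_lip1 D k' a' b' c' k a b c
  rw [abs_sub_comm k' k, abs_sub_comm a' a, abs_sub_comm b' b, abs_sub_comm c' c] at h2
  rw [abs_le]
  constructor <;> linarith

theorem valN_max {k a b c k' a' b' c' : ℕ} (h1 : ValN k a b c) (h2 : ValN k' a' b' c') :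
    ValN (max k k') (max a a') (max b b') (max c c') := by
  simp only [ValN] at *
  omega

theorem max_sub_div_le (x y N : ℕ) : (((max x y : ℕ) : ℝ) - y) / N ≤ |(x : ℝ) / N - y / N| := by
  rw [← sub_div, abs_div, Nat.abs_cast]
  refine div_le_div_of_nonneg_right ?_ (Nat.cast_nonneg _)
  rw [Nat.cast_max]
  rcases le_total (x : ℝ) y with h | h
  · rw [max_eq_right h, sub_self]; exact abs_nonneg _
  · rw [max_eq_left h]; exact le_abs_self _

theorem le_G (D : DStr u v N e h) {k a b c : ℕ} (hv : ValN k a b c) :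
    h k a b c - 2 * e ≤ G N h (k / N) (a / N) (b / N) (c / N) := by
  refine le_ciInf fun p => ?_
  obtain ⟨⟨k', a', b', c'⟩, hv'⟩ := p
  have h1 := D.mono k a b c _ _ _ _ hv (le_max_left k k') (le_max_left a a') (le_max_left b b')
    (le_max_left c c') (valN_max hv hv')
  have h2 := D.lip k' a' b' c' _ _ _ _ hv' (le_max_right k k') (le_max_right a a')
    (le_max_right b b') (le_max_right c c')
  have e1 := max_sub_div_le k k' N
  have e2 := max_sub_div_le a a' N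
  have e3 := max_sub_div_le b b' N
  have e4 := max_sub_div_le c c' N
  simp only [add_div] at h2
  simp only
  linarith

theorem abs_h_sub_G (D : DStr u v N e h) (he : 0 ≤ e) {k a b c : ℕ} (hv : ValN k a b c) :
    |h k a b c - G N h (k / N) (a / N) (b / N) (c / N)| ≤ 2 * e := by
  have h1 := le_G D hv
  have h2 := G_le D (k / N) (a / N) (b / N) (c / N) hv
  simp only [sub_self, abs_zero, add_zero] at h2
  rw [abs_le]
  constructor <;> linarith

end ext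

/-- H approximates h on the valid points of the grid of mesh 1 / N. -/
def Ap (N : ℕ) (h : ℕ → ℕ → ℕ → ℕ → ℝ) (H : ℝ → ℝ → ℝ → ℝ → ℝ) (e : ℝ) : Prop :=
  ∀ k a b c : ℕ, ValN k a b c → k ≤ 2 * N → a ≤ 2 * N → ∀ k' a' b' c' : ℝ,
    |h k a b c - H k' a' b' c'| ≤
      e + (|k / N - k'| + |a / N - a'| + |b / N - b'| + |c / N - c'|)

theorem l1_le (x y : ℝ × ℝ × ℝ × ℝ) :
    |x.1 - y.1| + |x.2.1 - y.2.1| + |x.2.2.1 - y.2.2.1| + |x.2.2.2 - y.2.2.2| ≤ 4 * dist x y := by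
  have h1 : dist x.1 y.1 ≤ dist x y := le_max_left _ _
  have h2 : dist x.2 y.2 ≤ dist x y := le_max_right _ _
  have h3 : dist x.2.1 y.2.1 ≤ dist x.2 y.2 := le_max_left _ _
  have h4 : dist x.2.2 y.2.2 ≤ dist x.2 y.2 := le_max_right _ _
  have h5 : dist x.2.2.1 y.2.2.1 ≤ dist x.2.2 y.2.2 := le_max_left _ _
  have h6 : dist x.2.2.2 y.2.2.2 ≤ dist x.2.2 y.2.2 := le_max_right _ _
  rw [Real.dist_eq] at h1 h3 h5 h6
  linarith

theorem exists_H {u v : ℝ} {h : ℕ → ℕ → ℕ → ℕ → ℕ → ℝ}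
    (D : ∀ ν : ℕ, DStr u v (ν + 1) (1 / (ν + 1)) (h ν)) :
    ∃ H : ℝ → ℝ → ℝ → ℝ → ℝ,
      (∀ k a b c k' a' b' c', |H k a b c - H k' a' b' c'| ≤
        |k - k'| + |a - a'| + |b - b'| + |c - c'|) ∧
      ∀ e : ℝ, 0 < e → ∀ j : ℕ, ∃ ν : ℕ, j ≤ ν ∧ 1 / ((ν : ℝ) + 1) ≤ e ∧
        Ap (ν + 1) (h ν) H e := by
  have hex : ∀ k a b c : ℝ, ∃ x : ℝ,
      Tendsto (fun ν => G (ν + 1) (h ν) k a b c) (hyperfilter ℕ) (𝓝 x) := by
    intro k a b c
    have hmem : ∀ ν : ℕ, G (ν + 1) (h ν) k a b c ∈ Set.Icc (-1 : ℝ) (|k| + |a| + |b| + |c|) := by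
      intro ν
      refine ⟨?_, G_le_abs (D ν) k a b c⟩
      have h1 := G_ge (D ν) k a b c
      have h2 : 1 / ((ν : ℝ) + 1) ≤ 1 := by
        rw [div_le_one (by positivity)]
        linarith [Nat.cast_nonneg (α := ℝ) ν]
      linarith
    obtain ⟨x, -, hx⟩ := isCompact_Icc.ultrafilter_le_nhds
      ((hyperfilter ℕ).map fun ν => G (ν + 1) (h ν) k a b c)
      (by
        rw [Ultrafilter.coe_map, le_principal_iff, mem_map]
        exact Eventually.of_forall hmem)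
    exact ⟨x, hx⟩
  choose H hH using hex
  have hlip : ∀ k a b c k' a' b' c', |H k a b c - H k' a' b' c'| ≤
      |k - k'| + |a - a'| + |b - b'| + |c - c'| := fun k a b c k' a' b' c' =>
    le_of_tendsto' (((hH k a b c).sub (hH k' a' b' c')).abs) fun ν =>
      G_lip (D ν) k a b c k' a' b' c'
  refine ⟨H, hlip, fun e he j => ?_⟩
  obtain ⟨t, -, tfin, tcov⟩ := finite_cover_balls_of_compact
    (isCompact_closedBall (0 : ℝ × ℝ × ℝ × ℝ) 2) (show 0 < e / 16 by positivity)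
  have E1 : ∀ᶠ ν in (hyperfilter ℕ : Filter ℕ), ∀ x ∈ t,
      |G (ν + 1) (h ν) x.1 x.2.1 x.2.2.1 x.2.2.2 - H x.1 x.2.1 x.2.2.1 x.2.2.2| < e / 4 := by
    rw [eventually_all_finite tfin]
    intro x _
    have := (Metric.tendsto_nhds.1 (hH x.1 x.2.1 x.2.2.1 x.2.2.2)) (e / 4) (by positivity)
    simpa only [Real.dist_eq] using this
  have E2 : ∀ᶠ ν : ℕ in (hyperfilter ℕ : Filter ℕ), 1 / ((ν : ℝ) + 1) < e / 8 :=
    (tendsto_one_div_add_atTop_nhds_zero_nat.eventually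
      (gt_mem_nhds (show (0 : ℝ) < e / 8 by positivity))).filter_mono Nat.hyperfilter_le_atTop
  have E3 : ∀ᶠ ν : ℕ in (hyperfilter ℕ : Filter ℕ), j ≤ ν :=
    (eventually_ge_atTop j).filter_mono Nat.hyperfilter_le_atTop
  obtain ⟨ν, h1, h2, h3⟩ := (E1.and (E2.and E3)).exists
  refine ⟨ν, h3, by linarith, ?_⟩
  intro k a b c hv hk ha k' a' b' c'
  have hN : (0 : ℝ) < ((ν + 1 : ℕ) : ℝ) := by positivity
  have hb2 : ∀ x : ℕ, x ≤ 2 * (ν + 1) → ‖(x : ℝ) / ((ν + 1 : ℕ) : ℝ)‖ ≤ 2 := by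
    intro x hx
    rw [Real.norm_eq_abs, abs_of_nonneg (by positivity), div_le_iff₀ hN]
    exact_mod_cast hx
  set y : ℝ × ℝ × ℝ × ℝ := ((k : ℝ) / ((ν + 1 : ℕ) : ℝ), (a : ℝ) / ((ν + 1 : ℕ) : ℝ),
    (b : ℝ) / ((ν + 1 : ℕ) : ℝ), (c : ℝ) / ((ν + 1 : ℕ) : ℝ)) with hy
  have hyb : y ∈ Metric.closedBall (0 : ℝ × ℝ × ℝ × ℝ) 2 := by
    rw [mem_closedBall_zero_iff, hy]
    simp only [Prod.norm_def, max_le_iff]
    obtain ⟨v1, v2, -, -⟩ := hv
    exact ⟨hb2 k hk, hb2 a ha, hb2 b (by omega), hb2 c (by omega)⟩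
  obtain ⟨x, hxt, hx⟩ := Set.mem_iUnion₂.1 (tcov hyb)
  have hd : dist y x < e / 16 := hx
  have l1 := l1_le y x
  have a1 := abs_h_sub_G (D ν) (by positivity) hv
  have a2 := G_lip (D ν) y.1 y.2.1 y.2.2.1 y.2.2.2 x.1 x.2.1 x.2.2.1 x.2.2.2
  have a3 := h1 x hxt
  have a4 := hlip y.1 y.2.1 y.2.2.1 y.2.2.2 x.1 x.2.1 x.2.2.1 x.2.2.2
  have a5 := hlip y.1 y.2.1 y.2.2.1 y.2.2.2 k' a' b' c'
  simp only [hy] at l1 a2 a4 a5
  rw [abs_le] at a1 a2 a4 a5 ⊢
  rw [abs_lt] at a3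
  constructor <;> linarith [a1.1, a1.2, a2.1, a2.2, a3.1, a3.2, a4.1, a4.2, a5.1, a5.2]

/-- Rounding to the grid. -/
noncomputable def fl (N : ℕ) (x : ℝ) : ℕ := ⌊x * N⌋₊

theorem fl_mono (N : ℕ) : Monotone (fl N) := fun _ _ h =>
  Nat.floor_mono (mul_le_mul_of_nonneg_right h (Nat.cast_nonneg _))

theorem fl_le (N : ℕ) {x : ℝ} (hx : 0 ≤ x) : (fl N x : ℝ) ≤ x * N :=
  Nat.floor_le (by positivity)

theorem lt_fl (N : ℕ) (x : ℝ) : x * N < fl N x + 1 := Nat.lt_floor_add_one _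

theorem fl_div_le {N : ℕ} (hN : 0 < N) {x : ℝ} (hx : 0 ≤ x) : (fl N x : ℝ) / N ≤ x := by
  rw [div_le_iff₀ (by exact_mod_cast hN)]
  exact fl_le N hx

theorem le_fl_div {N : ℕ} (hN : 0 < N) (x : ℝ) : x - 1 / N ≤ (fl N x : ℝ) / N := by
  have hN' : (0 : ℝ) < N := by exact_mod_cast hN
  rw [sub_le_iff_le_add, ← add_div, le_div_iff₀ hN']
  exact (lt_fl N x).le

theorem fl_le_N (N : ℕ) {x : ℝ} (hx : x ≤ 1) : fl N x ≤ N := by
  have := fl_mono N hx
  simpa [fl] using this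

theorem fl_add_le (N : ℕ) {x y z : ℝ} (hx : 0 ≤ x) (h : x ≤ y + z) :
    fl N x ≤ fl N y + (fl N z + 1) := by
  have h1 := fl_le N hx
  have h2 := lt_fl N y
  have h3 := lt_fl N z
  have h4 : x * N ≤ (y + z) * N := mul_le_mul_of_nonneg_right h (Nat.cast_nonneg _)
  have : (fl N x : ℝ) < fl N y + (fl N z + 1) + 1 := by linarith
  have : fl N x < fl N y + (fl N z + 1) + 1 := by exact_mod_cast this
  omega

theorem rd_val (N : ℕ) {k a b c : ℝ} (hv : Val k a b c) :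
    ValN (fl N k + 1) (fl N a) (fl N b) (fl N c) := by
  obtain ⟨h1, h2, h3, h4, h5, h6, h7⟩ := hv
  exact ⟨fl_mono N h2, fl_mono N h3, fl_add_le N (by linarith) h5, fl_add_le N (by linarith) h6⟩

theorem val_max {k a b c k' a' b' c' : ℝ} (h : Val k a b c) (h' : Val k' a' b' c') :
    Val (max k k') (max a a') (max b b') (max c c') := by
  obtain ⟨h1, h2, h3, h4, h5, h6, h7⟩ := h
  obtain ⟨g1, g2, g3, g4, g5, g6, g7⟩ := h'
  refine ⟨le_max_of_le_left h1, max_le_max h2 g2, max_le_max h3 g3, max_le h4 g4, ?_, ?_,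
    max_le h7 g7⟩
  · exact max_le (by linarith [le_max_left b b', le_max_left k k'])
      (by linarith [le_max_right b b', le_max_right k k'])
  · exact max_le (by linarith [le_max_left c c', le_max_left k k'])
      (by linarith [le_max_right c c', le_max_right k k'])

section ap

variable {N : ℕ} {h : ℕ → ℕ → ℕ → ℕ → ℝ} {H : ℝ → ℝ → ℝ → ℝ → ℝ} {e : ℝ}

theorem abs_fl (hN : 0 < N) (he : 1 / (N : ℝ) ≤ e) {x : ℝ} (hx : 0 ≤ x) :
    |(fl N x : ℝ) / N - x| ≤ e := by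
  have h1 := fl_div_le hN hx
  have h2 := le_fl_div hN x
  have h3 : (0 : ℝ) ≤ 1 / N := by positivity
  rw [abs_le]
  constructor <;> linarith

theorem rd_ap (A : Ap N h H e) (hN : 0 < N) (he : 1 / (N : ℝ) ≤ e) {k a b c : ℝ}
    (hv : Val k a b c) :
    |h (fl N k + 1) (fl N a) (fl N b) (fl N c) - H k a b c| ≤ 5 * e := by
  have hv' := hv
  obtain ⟨h1, h2, h3, h4, h5, h6, h7⟩ := hv'
  have hk := fl_le_N N h7
  have ha := fl_le_N N h4
  have := A _ _ _ _ (rd_val N hv) (by omega) (by omega) k a b c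
  have e2 := abs_fl hN he (show 0 ≤ a by linarith)
  have e3 := abs_fl hN he (show 0 ≤ b by linarith)
  have e4 := abs_fl hN he h1
  have e1 : |((fl N k + 1 : ℕ) : ℝ) / N - k| ≤ e := by
    have h1 := fl_div_le hN (show 0 ≤ k by linarith)
    have h2 := le_fl_div hN k
    have h3 : (0 : ℝ) ≤ 1 / N := by positivity
    push_cast
    rw [add_div, abs_le]
    constructor <;> linarith
  linarith

/-- A version of the approximation property with uniform errors. -/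
theorem ap_of (A : Ap N h H e) {k a b c : ℕ} (hv : ValN k a b c ∧ k ≤ 2 * N ∧ a ≤ 2 * N)
    {k' a' b' c' : ℝ} (h1 : |(k : ℝ) / N - k'| ≤ 4 * e) (h2 : |(a : ℝ) / N - a'| ≤ 4 * e)
    (h3 : |(b : ℝ) / N - b'| ≤ 4 * e) (h4 : |(c : ℝ) / N - c'| ≤ 4 * e) :
    h k a b c ≤ H k' a' b' c' + 17 * e ∧ H k' a' b' c' ≤ h k a b c + 17 * e := by
  have := A k a b c hv.1 hv.2.1 hv.2.2 k' a' b' c'
  rw [abs_le] at this
  constructor <;> linarith [this.1, this.2]

/-- The integer configuration attached to a real configuration. -/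
theorem config (hN : 0 < N) (he : 1 / (N : ℝ) ≤ e) {ρ k b c η : ℝ}
    (hρ : ρ = 0 ∨ ρ = 1 ∧ b = c + k) (hc : 0 ≤ c) (hcb : c ≤ b) (hη : 0 < η) (hηk : η ≤ k)
    (h1 : b + η ≤ c + k + ρ * η) (h2 : b + k + η ≤ 1) :
    ∃ r K B C Y : ℕ, (r : ℝ) = ρ ∧ (r = 0 ∨ r = 1 ∧ B = C + K) ∧ C ≤ B ∧ Y ≤ K ∧
      B + Y ≤ C + K + r * Y ∧ B + K + Y ≤ N ∧
      (k - e ≤ (K : ℝ) / N ∧ (K : ℝ) / N ≤ k) ∧ (b - 2 * e ≤ (B : ℝ) / N ∧ (B : ℝ) / N ≤ b) ∧
      (c - e ≤ (C : ℝ) / N ∧ (C : ℝ) / N ≤ c) ∧ (η - e ≤ (Y : ℝ) / N ∧ (Y : ℝ) / N ≤ η) := by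
  have hN' : (0 : ℝ) < N := by exact_mod_cast hN
  have hk0 : 0 ≤ k := by linarith
  have hb0 : 0 ≤ b := by linarith
  have k1 := fl_div_le hN hk0
  have k2 := le_fl_div hN k
  have c1 := fl_div_le hN hc
  have c2 := le_fl_div hN c
  have b1 := fl_div_le hN hb0
  have b2 := le_fl_div hN b
  have y1 := fl_div_le hN hη.le
  have y2 := le_fl_div hN η
  have he0 : (0 : ℝ) ≤ 1 / N := by positivity
  have hYK : fl N η ≤ fl N k := fl_mono N hηk
  have hCB : fl N c ≤ fl N b := fl_mono N hcb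
  have hsum : ∀ B : ℕ, (B : ℝ) / N ≤ b → B + fl N k + fl N η ≤ N := by
    intro B hB
    have : ((B : ℝ) + fl N k + fl N η) / N ≤ 1 := by
      rw [add_div, add_div]
      linarith
    rw [div_le_one hN'] at this
    exact_mod_cast this
  rcases hρ with rfl | ⟨rfl, hb⟩
  · have hB1 : ((min (fl N b) (fl N c + fl N k - fl N η) : ℕ) : ℝ) / N ≤ b :=
      (div_le_div_of_nonneg_right (by exact_mod_cast min_le_left _ _) hN'.le).trans b1
    refine ⟨0, fl N k, min (fl N b) (fl N c + fl N k - fl N η), fl N c, fl N η, by simp,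
      Or.inl rfl, by omega, hYK, by omega, hsum _ hB1, ⟨by linarith, k1⟩, ⟨?_, hB1⟩,
      ⟨by linarith, c1⟩, ⟨by linarith, y1⟩⟩
    rcases le_total (fl N b) (fl N c + fl N k - fl N η) with h | h
    · rw [min_eq_left h]
      linarith
    · rw [min_eq_right h, Nat.cast_sub (by omega)]
      push_cast
      rw [sub_div, add_div]
      linarith
  · have hB1 : ((fl N c + fl N k : ℕ) : ℝ) / N ≤ b := by
      push_cast
      rw [add_div]
      linarith
    refine ⟨1, fl N k, fl N c + fl N k, fl N c, fl N η, by simp, Or.inr ⟨rfl, rfl⟩, by omega, hYK,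
      by omega, hsum _ hB1, ⟨by linarith, k1⟩, ⟨?_, hB1⟩, ⟨by linarith, c1⟩, ⟨by linarith, y1⟩⟩
    push_cast
    rw [add_div]
    linarith

theorem abc_step {δ ε1 e' : ℝ} (A : Ap N h H δ) (hN : 0 < N) (hδ : 1 / (N : ℝ) ≤ δ)
    (Dd : DAbc N ε1 e h) {ρ k b c η s σ τ : ℝ} (he' : 0 < e') (he'e : e' ≤ e / 4)
    (hs : δ * (70 + |s| + e) ≤ e' * η)
    (hρ : ρ = 0 ∨ ρ = 1 ∧ b = c + k) (hc : 0 ≤ c) (hcb : c ≤ b) (hη : 0 < η) (hηk : η ≤ k)
    (h1 : b + η ≤ c + k + ρ * η) (h2 : b + k + η ≤ 1) (σ1 : ε1 ≤ σ) (σ2 : σ ≤ 1) (τ1 : ε1 ≤ τ)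
    (τ2 : τ ≤ 1)
    (m1 : H (k + η) (b + k + η) b c - H (k + η) (b + k) b c ≤ s * η)
    (m2 : (s - e / 4) * η ≤ H (k + η) (b + k + η) (b + η) (c + ρ * η) -
      H (k + η) (b + k) (b + η) (c + ρ * η))
    (m3 : H (k + η) (b + k) b c - H k (b + k) b c - (H (k + η) (b + k + η) (b + η) (c + ρ * η) -
      H k (b + k + η) (b + η) (c + ρ * η)) ≤ e / 4 * η)
    (m4 : ∀ t ∈ Set.Icc 0 η, σ * t - e / 4 * η ≤
      H (k + η) (b + k) (b + ρ * η + (1 - ρ) * t) (c + ρ * t) - H (k + η) (b + k) (b + ρ * η) c)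
    (m5 : ∀ t ∈ Set.Icc 0 η, τ * t - e / 4 * η ≤ H (k + t) (b + k) b c - H k (b + k) b c) :
    min 1 (σ + τ) - ε1 ≤ s + e' := by
  have hN' : (0 : ℝ) < N := by exact_mod_cast hN
  have hδ0 : 0 ≤ δ := le_trans (by positivity) hδ
  have he : 0 < e := by linarith
  obtain ⟨r, K, B, C, Y, hr, c1, c2, c3, c4, c5, ⟨k1, k2⟩, ⟨b1, b2⟩, ⟨g1, g2⟩, ⟨y1, y2⟩⟩ :=
    config hN hδ hρ hc hcb hη hηk h1 h2
  have hr1 : r ≤ 1 := by omega
  have hρ0 : 0 ≤ ρ := by rw [← hr]; positivity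
  have hρ1 : ρ ≤ 1 := by rw [← hr]; exact_mod_cast hr1
  have r1 : ρ * η - δ ≤ ρ * ((Y : ℝ) / N) := by
    have q1 := mul_le_mul_of_nonneg_left y1 hρ0
    have q2 := mul_le_mul_of_nonneg_right hρ1 hδ0
    linarith only [q1, q2]
  have r2 : ρ * ((Y : ℝ) / N) ≤ ρ * η := mul_le_mul_of_nonneg_left y2 hρ0
  have a1 : |((K + Y : ℕ) : ℝ) / N - (k + η)| ≤ 4 * δ := by
    push_cast; rw [abs_le, add_div]; constructor <;> linarith only [k1, k2, b1, b2, g1, g2, y1, y2, r1, r2, hδ0]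
  have a2 : |(K : ℝ) / N - k| ≤ 4 * δ := by
    rw [abs_le]; constructor <;> linarith only [k1, k2, b1, b2, g1, g2, y1, y2, r1, r2, hδ0]
  have a3 : ∀ t : ℕ, |((K + t : ℕ) : ℝ) / N - (k + t / N)| ≤ 4 * δ := by
    intro t; push_cast; rw [abs_le, add_div]; constructor <;> linarith only [k1, k2, b1, b2, g1, g2, y1, y2, r1, r2, hδ0]
  have a4 : |((B + K + Y : ℕ) : ℝ) / N - (b + k + η)| ≤ 4 * δ := by
    push_cast; rw [abs_le, add_div, add_div]; constructor <;> linarith only [k1, k2, b1, b2, g1, g2, y1, y2, r1, r2, hδ0]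
  have a5 : |((B + K : ℕ) : ℝ) / N - (b + k)| ≤ 4 * δ := by
    push_cast; rw [abs_le, add_div]; constructor <;> linarith only [k1, k2, b1, b2, g1, g2, y1, y2, r1, r2, hδ0]
  have a6 : |(B : ℝ) / N - b| ≤ 4 * δ := by
    rw [abs_le]; constructor <;> linarith only [k1, k2, b1, b2, g1, g2, y1, y2, r1, r2, hδ0]
  have a7 : |((B + Y : ℕ) : ℝ) / N - (b + η)| ≤ 4 * δ := by
    push_cast; rw [abs_le, add_div]; constructor <;> linarith only [k1, k2, b1, b2, g1, g2, y1, y2, r1, r2, hδ0]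
  have a8 : |((B + r * Y : ℕ) : ℝ) / N - (b + ρ * η)| ≤ 4 * δ := by
    push_cast; rw [abs_le, add_div, mul_div_assoc, hr]; constructor <;> linarith only [k1, k2, b1, b2, g1, g2, y1, y2, r1, r2, hδ0]
  have a9 : ∀ t : ℕ, |((B + r * Y + (1 - r) * t : ℕ) : ℝ) / N -
      (b + ρ * η + (1 - ρ) * (t / N))| ≤ 4 * δ := by
    intro t
    push_cast [Nat.cast_sub hr1]
    rw [abs_le, add_div, add_div, mul_div_assoc, mul_div_assoc, hr]; constructor <;> linarith only [k1, k2, b1, b2, g1, g2, y1, y2, r1, r2, hδ0]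
  have a10 : |(C : ℝ) / N - c| ≤ 4 * δ := by
    rw [abs_le]; constructor <;> linarith only [k1, k2, b1, b2, g1, g2, y1, y2, r1, r2, hδ0]
  have a11 : |((C + r * Y : ℕ) : ℝ) / N - (c + ρ * η)| ≤ 4 * δ := by
    push_cast; rw [abs_le, add_div, mul_div_assoc, hr]; constructor <;> linarith only [k1, k2, b1, b2, g1, g2, y1, y2, r1, r2, hδ0]
  have a12 : ∀ t : ℕ, |((C + r * t : ℕ) : ℝ) / N - (c + ρ * (t / N))| ≤ 4 * δ := by
    intro t; push_cast; rw [abs_le, add_div, mul_div_assoc, hr]; constructor <;> linarith only [k1, k2, b1, b2, g1, g2, y1, y2, r1, r2, hδ0]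
  have p1 := ap_of A (by simp only [ValN]; rcases c1 with rfl | ⟨rfl, _⟩ <;> omega) a1 a4 a6 a10
  have p2 := ap_of A (by simp only [ValN]; rcases c1 with rfl | ⟨rfl, _⟩ <;> omega) a1 a5 a6 a10
  have p3 := ap_of A (by simp only [ValN]; rcases c1 with rfl | ⟨rfl, _⟩ <;> omega) a1 a4 a7 a11
  have p4 := ap_of A (by simp only [ValN]; rcases c1 with rfl | ⟨rfl, _⟩ <;> omega) a1 a5 a7 a11
  have p5 := ap_of A (by simp only [ValN]; rcases c1 with rfl | ⟨rfl, _⟩ <;> omega) a2 a5 a6 a10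
  have p6 := ap_of A (by simp only [ValN]; rcases c1 with rfl | ⟨rfl, _⟩ <;> omega) a2 a4 a7 a11
  have p7 := ap_of A (by simp only [ValN]; rcases c1 with rfl | ⟨rfl, _⟩ <;> omega) a1 a5 a8 a10
  have hsa : 0 ≤ δ * |s| := by positivity
  have hea : 0 ≤ δ * e := by positivity
  have s0 : |s * ((Y : ℝ) / N - η)| ≤ |s| * δ := by
    rw [abs_mul]
    refine mul_le_mul_of_nonneg_left (abs_le.2 ⟨?_, ?_⟩) (abs_nonneg _) <;>
      linarith only [y1, y2, hδ0]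
  have s1 : s * η - δ * |s| ≤ s * ((Y : ℝ) / N) := by linarith only [(abs_le.1 s0).1]
  have s2 : s * ((Y : ℝ) / N) ≤ s * η + δ * |s| := by linarith only [(abs_le.1 s0).2]
  have s3 : e * η - δ * e ≤ e * ((Y : ℝ) / N) := by
    linarith only [mul_le_mul_of_nonneg_left y1 he.le]
  have s4 : e' * η - δ * e ≤ e' * ((Y : ℝ) / N) := by
    linarith only [mul_le_mul_of_nonneg_left y1 he'.le, mul_le_mul_of_nonneg_left he'e hδ0, hea]
  have s5 : e' * ((Y : ℝ) / N) ≤ e' * η := mul_le_mul_of_nonneg_left y2 he'.le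
  have s6 : e' * η ≤ e / 4 * η := mul_le_mul_of_nonneg_right he'e hη.le
  have s7 : 0 < e' * η := by positivity
  have ht : ∀ t : ℕ, t ≤ Y → (t : ℝ) / N ∈ Set.Icc 0 η := fun t htY =>
    ⟨by positivity, (div_le_div_of_nonneg_right (by exact_mod_cast htY) hN'.le).trans y2⟩
  refine Dd r K B C Y (s + e') σ τ c1 c2 ?_ c3 c4 c5 σ1 σ2 τ1 τ2 ?_ ?_ ?_ ?_ ?_
  · have : 1 / (N : ℝ) ≤ e * Y / N := by
      rw [mul_div_assoc]
      linarith only [hδ, hs, hδ0, hsa, hea, s1, s2, s3, s4, s5, s6, s7]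
    exact (div_le_div_iff_of_pos_right hN').1 this
  · rw [mul_div_assoc]
    linarith only [p1.1, p2.2, m1, hs, hδ0, hsa, hea, s1, s2, s3, s4, s5, s6, s7]
  · rw [mul_div_assoc]
    linarith only [p3.2, p4.1, m2, hs, hδ0, hsa, hea, s1, s2, s3, s4, s5, s6, s7]
  · rw [mul_div_assoc]
    linarith only [p2.1, p5.2, p3.2, p6.1, m3, hs, hδ0, hsa, hea, s1, s2, s3, s4, s5, s6, s7]
  · intro t htY
    have p8 := ap_of A (by simp only [ValN]; rcases c1 with rfl | ⟨rfl, _⟩ <;> omega)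
      a1 a5 (a9 t) (a12 t)
    have := m4 _ (ht t htY)
    rw [sub_div, mul_div_assoc, mul_div_assoc]
    linarith only [p8.2, p7.1, this, hs, hδ0, hsa, hea, s1, s2, s3, s4, s5, s6, s7]
  · intro t htY
    have p9 := ap_of A (by simp only [ValN]; rcases c1 with rfl | ⟨rfl, _⟩ <;> omega)
      (a3 t) a5 a6 a10
    have := m5 _ (ht t htY)
    rw [sub_div, mul_div_assoc, mul_div_assoc]
    linarith only [p9.2, p5.1, this, hs, hδ0, hsa, hea, s1, s2, s3, s4, s5, s6, s7]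

end ap

theorem le_of_mul {x y c : ℝ} (hc : 0 ≤ c) (h : ∀ e : ℝ, 0 < e → x ≤ y + c * e) : x ≤ y := by
  refine le_of_forall_pos_le_add fun e he => ?_
  have := h (e / (c + 1)) (by positivity)
  have h2 : c * (e / (c + 1)) ≤ e := by
    rw [← mul_div_assoc, div_le_iff₀ (by positivity)]
    nlinarith
  linarith

end Limit

open Limit in
theorem limit : LimitStmt := by
  intro u v s ef h hef D Dd hs
  obtain ⟨H, hlip, hap⟩ := exists_H D
  have hap' : ∀ e : ℝ, 0 < e → ∀ j : ℕ, ∃ ν : ℕ, j ≤ ν ∧ 1 / ((ν : ℝ) + 1) ≤ e ∧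
      1 / ((ν + 1 : ℕ) : ℝ) ≤ e ∧ Ap (ν + 1) (h ν) H e := by
    intro e he j
    obtain ⟨ν, h1, h2, h3⟩ := hap e he j
    exact ⟨ν, h1, h2, by push_cast; exact h2, h3⟩
  refine ⟨H, ⟨hlip, ?_, ?_, ?_, ?_, ?_, ?_⟩, ?_⟩
  · intro k a b c k' a' b' c' hv hv' h1 h2 h3 h4
    refine le_of_mul (c := 11) (by norm_num) fun e he => ?_
    obtain ⟨ν, -, e1, e2, A⟩ := hap' e he 0
    have p1 := abs_le.1 (rd_ap A ν.succ_pos e2 hv)
    have p2 := abs_le.1 (rd_ap A ν.succ_pos e2 hv')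
    have := (D ν).mono _ _ _ _ _ _ _ _ (rd_val (ν + 1) hv)
      (Nat.add_le_add_right (fl_mono _ h1) 1) (fl_mono _ h2) (fl_mono _ h3) (fl_mono _ h4)
      (rd_val (ν + 1) hv')
    linarith [p1.1, p2.2]
  · intro k a b c k' a' b' c' k0 a0 b0 c0 hv hv' hv0 h1 h2 h3 h4 g1 g2 g3 g4
    refine le_of_mul (c := 21) (by norm_num) fun e he => ?_
    obtain ⟨ν, -, e1, e2, A⟩ := hap' e he 0
    have p1 := abs_le.1 (rd_ap A ν.succ_pos e2 hv)
    have p2 := abs_le.1 (rd_ap A ν.succ_pos e2 hv')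
    have p3 := abs_le.1 (rd_ap A ν.succ_pos e2 hv0)
    have p4 := abs_le.1 (rd_ap A ν.succ_pos e2 (val_max hv hv'))
    have := (D ν).sub _ _ _ _ _ _ _ _ _ _ _ _ (rd_val (ν + 1) hv) (rd_val (ν + 1) hv')
      (rd_val (ν + 1) hv0)
      (Nat.add_le_add_right (fl_mono _ h1) 1) (fl_mono _ h2) (fl_mono _ h3) (fl_mono _ h4)
      (Nat.add_le_add_right (fl_mono _ g1) 1) (fl_mono _ g2) (fl_mono _ g3) (fl_mono _ g4)
    rw [Nat.add_max_add_right, ← (fl_mono _).map_max, ← (fl_mono _).map_max,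
      ← (fl_mono _).map_max, ← (fl_mono _).map_max] at this
    linarith [p1.2, p2.2, p3.1, p4.1]
  · have key : ∀ e : ℝ, 0 < e → |H 0 0 0 0| ≤ 0 + 1 * e := by
      intro e he
      obtain ⟨ν, -, -, -, A⟩ := hap' e he 0
      have := A 0 0 0 0 (by simp [ValN]) (by omega) (by omega) 0 0 0 0
      rw [(D ν).zero] at this
      simpa using this
    exact abs_nonpos_iff.1 (le_of_mul zero_le_one key)
  · rintro t ⟨t0, t1⟩
    refine le_of_mul (c := 18 + |v|) (by positivity) fun e he => ?_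
    obtain ⟨ν, -, e1, e2, A⟩ := hap' e he 0
    have ht := fl_le_N (ν + 1) t1
    have a1 := abs_fl ν.succ_pos e2 t0
    have a2 : |(fl (ν + 1) t : ℝ) / ((ν + 1 : ℕ) : ℝ) - t| ≤ 4 * e := by
      refine a1.trans ?_
      linarith
    have p := ap_of A (k := 0) (k' := 0) (by simp only [ValN]; omega)
      (by simp only [Nat.cast_zero, zero_div, sub_self, abs_zero]; positivity) a2 a2 a2
    have q := (D ν).fv _ ht
    rw [mul_div_assoc] at q
    have q2 : |v * ((fl (ν + 1) t : ℝ) / ((ν + 1 : ℕ) : ℝ) - t)| ≤ |v| * e := by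
      rw [abs_mul]
      exact mul_le_mul_of_nonneg_left a1 (abs_nonneg _)
    rw [abs_le] at q2
    linarith [p.1, q2.1]
  · rintro t ⟨t0, t1⟩
    refine le_of_mul (c := 35 + |u|) (by positivity) fun e he => ?_
    obtain ⟨ν, -, e1, e2, A⟩ := hap' e he 0
    have ht := fl_le_N (ν + 1) t1
    have a1 := abs_fl ν.succ_pos e2 t0
    have a2 : |(fl (ν + 1) t : ℝ) / ((ν + 1 : ℕ) : ℝ) - t| ≤ 4 * e := by
      refine a1.trans ?_
      linarith
    have a3 : |((ν + 1 : ℕ) : ℝ) / ((ν + 1 : ℕ) : ℝ) - 1| ≤ 4 * e := by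
      rw [div_self (by positivity), sub_self, abs_zero]
      positivity
    have p1 := ap_of A (by simp only [ValN]; omega) a2 a3 a3 a3
    have p2 := ap_of A (k := 0) (k' := 0) (by simp only [ValN]; omega)
      (by simp only [Nat.cast_zero, zero_div, sub_self, abs_zero]; positivity) a3 a3 a3
    have q := (D ν).gu _ ht
    rw [mul_div_assoc] at q
    have q2 : |u * ((fl (ν + 1) t : ℝ) / ((ν + 1 : ℕ) : ℝ) - t)| ≤ |u| * e := by
      rw [abs_mul]
      exact mul_le_mul_of_nonneg_left a1 (abs_nonneg _)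
    rw [abs_le] at q2
    linarith [p1.1, p2.2, q2.1]
  · intro ε0 hε0
    obtain ⟨j, hj⟩ := exists_nat_one_div_lt (show 0 < ε0 / 2 by positivity)
    have he := hef j
    refine ⟨ef j / 4, by positivity, ?_⟩
    intro ρ k b c η s σ τ hρ hc hcb hη hηk h1 h2 σ1 σ2 τ1 τ2 m1 m2 m3 m4 m5
    have he' : 0 < min (ef j / 4) (ε0 / 2) := by positivity
    have hd : 0 < 70 + |s| + ef j := by positivity
    obtain ⟨ν, hν, -, e2, A⟩ := hap' (min (ef j / 4) (ε0 / 2) * η / (70 + |s| + ef j))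
      (by positivity) j
    have := abc_step A ν.succ_pos e2 (Dd j ν hν) he' (min_le_left _ _)
      (div_mul_cancel₀ _ hd.ne').le hρ hc hcb hη hηk h1 h2 (by linarith) σ2 (by linarith) τ2
      m1 m2 m3 m4 m5
    linarith [min_le_right (ef j / 4) (ε0 / 2)]
  · refine le_of_mul zero_le_one fun e he => ?_
    obtain ⟨ν, -, -, -, A⟩ := hap' e he 0
    have := A (ν + 1) (ν + 1) 0 0 (by simp [ValN]) (by omega) (by omega) 1 1 0 0
    rw [div_self (by positivity)] at this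
    simp only [sub_self, abs_zero, Nat.cast_zero, zero_div, add_zero] at this
    linarith [hs ν, (abs_le.1 this).1]

end Pool.Agent.MP_538dc4_an.AB
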