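import Mathlib.Analysis.Calculus.Rademacher
import Mathlib.Analysis.Real.Pi.Bounds
import Mathlib.Combinatorics.SimpleGraph.Triangle.Removal
import Mathlib.Combinatorics.SimpleGraph.Triangle.Tripartite
import Mathlib.Order.CompletePartialOrder
import Pool.Agent.MP_538dc4_an.ab.Spec
import Pool.Agent.MP_538dc4_an.ab.Basic
import Pool.Agent.MP_538dc4_an.ab.Star
import Pool.Agent.MP_538dc4_an.ab.Inv
import Pool.Agent.MP_538dc4_an.ab.Fin
import Pool.Agent.MP_538dc4_an.ab.Small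
import Pool.Agent.MP_538dc4_an.ab.Inst
import Pool.Agent.MP_538dc4_an.ab.Limit
import Pool.Agent.MP_538dc4_an.ab.Circ

-- ======== part 0: formerly Pool.Agent.MP_538dc4_an.ab.Dens
section MrgPart0

/-! PROJECT FURST2: information is carried by the spread blocks. -/

open Finset Real

namespace Pool.Agent.MP_538dc4_an.AB

namespace Dens

variable {Ω α β κ : Type} [Fintype Ω] {p : Ω → ℝ}

theorem info_le (hp : IsP p) {X : Ω → α} {Y : Ω → β} (h1 : ∀ ω ω', X ω = X ω' → Y ω = Y ω')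
    {ω : Ω} (h : p ω ≠ 0) : info p Y ω ≤ info p X ω :=
  neg_le_neg (log_le_log (pr_pos hp X h) (pr_mono hp fun ω' _ e => h1 ω' ω e))

open Classical in
theorem mk (hp : IsP p) {A : Ω → Prop} {f : Ω → ℝ} (hf : ∀ ω, p ω ≠ 0 → 0 ≤ f ω) {t : ℝ}
    (ht : 0 < t) (hA : ∀ ω, p ω ≠ 0 → A ω → t ≤ f ω) : P p A ≤ (∑ ω, p ω * f ω) / t := by
  rw [sum_div]
  refine sum_le_sum fun ω _ => ?_
  by_cases h0 : p ω = 0
  · simp [h0]
  split_ifs with h
  · rw [le_div_iff₀ ht]
    exact mul_le_mul_of_nonneg_left (hA ω h0 h) (hp.nn ω)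
  · exact div_nonneg (mul_nonneg (hp.nn ω) (hf ω h0)) ht.le

open Classical in
theorem cell (hp : IsP p) (K : Ω → κ) (Y : Ω → α) (s : κ → Finset α) (hs : ∀ ω, Y ω ∈ s (K ω))
    (g : κ → α → ℝ) (hg : ∀ k y, 0 ≤ g k y) :
    ∑ ω, p ω * (pr p K (K ω) / pr p (pair Y K) (pair Y K ω) * g (K ω) (Y ω)) ≤
      ∑ ω, p ω * ∑ y ∈ s (K ω), g (K ω) y := by
  have e : ∀ ω, p ω * (pr p K (K ω) / pr p (pair Y K) (pair Y K ω) * g (K ω) (Y ω)) =
      ∑ ω', p ω' * ∑ y ∈ s (K ω'), g (K ω') y *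
        ((if pair Y K ω = (y, K ω') then p ω else 0) / pr p (pair Y K) (y, K ω')) := by
    intro ω
    rw [pr.eq_1 p K, sum_div, sum_mul, mul_sum]
    refine sum_congr rfl fun ω' _ => ?_
    by_cases h : K ω' = K ω
    · rw [if_pos h, h, sum_eq_single_of_mem (Y ω) (hs ω)]
      · rw [if_pos (show pair Y K ω = (Y ω, K ω) from rfl)]
        unfold pair
        ring
      · intro y _ hy
        rw [if_neg fun e => hy (congrArg Prod.fst e).symm]
        simp
    · rw [if_neg h, sum_eq_zero]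
      · simp
      · intro y _
        rw [if_neg fun e => h (congrArg Prod.snd e).symm]
        simp
  rw [sum_congr rfl fun ω _ => e ω, sum_comm]
  refine sum_le_sum fun ω' _ => ?_
  rw [← mul_sum, sum_comm]
  refine mul_le_mul_of_nonneg_left (sum_le_sum fun y _ => ?_) (hp.nn ω')
  rw [← mul_sum]
  refine mul_le_of_le_one_right (hg _ _)
    (le_of_eq_of_le (sum_congr rfl fun ω _ => ?_) (sum_ite_div_le hp (pair Y K) (y, K ω')))
  split_ifs <;> rfl

open Classical in
theorem rare (hp : IsP p) (K : Ω → κ) (A : κ → Ω → Prop) {θ : ℝ} (hθ : 0 ≤ θ)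
    (h : ∀ k, P p (fun ω => K ω = k ∧ A k ω) ≤ θ * pr p K k) :
    ∑ ω, p ω * (if A (K ω) ω then 1 else 0) ≤ θ := by
  rw [← sum_fiberwise_of_maps_to (s := univ) (t := univ.image K) (g := K)
    fun ω _ => mem_image_of_mem K (mem_univ ω)]
  refine le_trans (sum_le_sum fun k _ => le_of_eq_of_le ?_ (h k)) ?_
  · rw [sum_filter, P]
    refine sum_congr rfl fun ω _ => ?_
    by_cases h1 : K ω = k
    · subst h1
      by_cases h2 : A (K ω) ω <;> simp [h2]
    · simp [h1]
  · rw [← mul_sum]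
    exact mul_le_of_le_one_right hθ (sum_pr_le hp K _)

theorem log_six : log 6 ≤ 2 := by
  rw [log_le_iff_le_exp (by norm_num), show (2 : ℝ) = 1 + 1 by norm_num, exp_add]
  nlinarith [exp_one_gt_d9]

theorem wsum (s : Finset ℤ) (b : ℤ) {M : ℝ} (hM : 0 < M) (hs : (s.card : ℝ) ≤ M) :
    ∑ y ∈ s, (if 2 ≤ |y - b| then 1 / (2 * M) else (1 / 6 : ℝ)) ≤ 1 := by
  rw [sum_ite, sum_const, sum_const, nsmul_eq_mul, nsmul_eq_mul]
  have h1 : ((s.filter fun y => 2 ≤ |y - b|).card : ℝ) ≤ M :=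
    le_trans (by exact_mod_cast card_filter_le _ _) hs
  have h2 : ((s.filter fun y => ¬2 ≤ |y - b|).card : ℝ) ≤ 3 := by
    have : (s.filter fun y => ¬2 ≤ |y - b|) ⊆ Icc (b - 1) (b + 1) := fun y hy => by
      have := abs_lt.1 (not_le.1 (mem_filter.1 hy).2)
      rw [mem_Icc]
      omega
    have h3 := card_le_card this
    rw [Int.card_Icc, show b + 1 + 1 - (b - 1) = 3 by ring] at h3
    exact_mod_cast h3
  have h3 : ((s.filter fun y => 2 ≤ |y - b|).card : ℝ) * (1 / (2 * M)) ≤ 1 / 2 := by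
    calc _ ≤ M * (1 / (2 * M)) := by gcongr
      _ = _ := by field_simp
  linarith

open Classical in
theorem block (hp : IsP p) (K : Ω → κ) (Y : Ω → ℤ) (s : κ → Finset ℤ) (m : ℕ) {θ : ℝ}
    (hθ : 0 ≤ θ) (hs : ∀ ω, Y ω ∈ s (K ω)) (hc : ∀ k, ((s k).card : ℝ) ≤ 2 ^ m) :
    ∃ R : Ω → ℝ, (∀ ω, p ω ≠ 0 → 0 ≤ R ω) ∧ ∑ ω, p ω * R ω ≤ 3 + θ * (m + 1) ∧
      ∀ ω, info p (pair Y K) ω - info p K ω ≤
        m * log 2 * (if Spr p K Y θ ω then 1 else 0) + R ω := by
  have M0 : (0 : ℝ) < 2 ^ m := by positivity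
  obtain ⟨S, hS⟩ : ∃ S : κ → Prop, S = fun k =>
      ∀ b : ℤ, θ * pr p K k ≤ P p fun ω' => K ω' = k ∧ 2 ≤ |Y ω' - b| := ⟨_, rfl⟩
  have hS' : ∀ ω, Spr p K Y θ ω ↔ S (K ω) := fun ω => by rw [hS]; rfl
  have hb : ∀ k, ∃ b : ℤ, P p (fun ω => K ω = k ∧ (¬S k ∧ 2 ≤ |Y ω - b|)) ≤ θ * pr p K k := by
    intro k
    by_cases h : S k
    · refine ⟨0, ?_⟩
      simp only [h, not_true, false_and, and_false, P, if_false, sum_const_zero]
      exact mul_nonneg hθ (pr_nonneg hp K k)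
    · have h' := h
      rw [hS] at h'
      obtain ⟨b, hb⟩ := not_forall.1 h'
      refine ⟨b, ?_⟩
      simp only [h, not_false_eq_true, true_and]
      exact (not_le.1 hb).le
  choose b hb using hb
  obtain ⟨u, hu⟩ : ∃ u : Ω → ℝ, u = fun ω => pr p K (K ω) / pr p (pair Y K) (pair Y K ω) :=
    ⟨_, rfl⟩
  have u0 : ∀ ω, p ω ≠ 0 → 0 < u ω := fun ω h => by
    rw [hu]; exact div_pos (pr_pos hp K h) (pr_pos hp _ h)
  have io : ∀ ω, p ω ≠ 0 → info p (pair Y K) ω - info p K ω = log (u ω) := fun ω h => by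
    rw [hu, log_div (pr_pos hp K h).ne' (pr_pos hp _ h).ne', info, info]
    ring
  obtain ⟨w, hw⟩ : ∃ w : κ → ℤ → ℝ, w = fun k y =>
      if 2 ≤ |y - b k| then 1 / (2 * 2 ^ m) else 1 / 6 := ⟨_, rfl⟩
  have w0 : ∀ k y, 0 < w k y := fun k y => by rw [hw]; dsimp only; split_ifs <;> positivity
  have c1 := cell hp K Y s hs (fun k y => 1 / 2 ^ m + if S k then 0 else w k y) fun k y => by
    have := w0 k y
    split_ifs <;> positivity
  have c2 : ∑ ω, p ω * (if ¬S (K ω) ∧ 2 ≤ |Y ω - b (K ω)| then 1 else 0) ≤ θ := by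
    refine le_of_eq_of_le (sum_congr rfl fun ω _ => ?_)
      (rare hp K (fun k ω => ¬S k ∧ 2 ≤ |Y ω - b k|) hθ hb)
    split_ifs <;> rfl
  refine ⟨fun ω => (if S (K ω) then 0 else info p (pair Y K) ω - info p K ω) +
    max (info p (pair Y K) ω - info p K ω - m * log 2) 0, fun ω h => ?_, ?_, fun ω => ?_⟩
  · have := info_le hp (X := pair Y K) (Y := K) (fun _ _ e => congrArg Prod.snd e) h
    refine add_nonneg ?_ (le_max_right _ _)
    split_ifs
    · exact le_rfl
    · linarith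
  · have k1 : ∀ ω, p ω * ((if S (K ω) then 0 else info p (pair Y K) ω - info p K ω) +
        max (info p (pair Y K) ω - info p K ω - m * log 2) 0) ≤
        p ω * (u ω * (1 / 2 ^ m + if S (K ω) then 0 else w (K ω) (Y ω))) -
          p ω * (if S (K ω) then 0 else 1) + 2 * p ω +
          (m + 1) * (p ω * if ¬S (K ω) ∧ 2 ≤ |Y ω - b (K ω)| then 1 else 0) := by
      intro ω
      by_cases h : p ω = 0
      · simp [h]
      have a0 := u0 ω h
      have a1 : max (log (u ω) - m * log 2) 0 ≤ u ω * (1 / 2 ^ m) := by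
        refine max_le ?_ (by positivity)
        have := log_le_sub_one_of_pos (div_pos a0 M0)
        rw [log_div a0.ne' M0.ne', log_pow] at this
        rw [mul_one_div]
        linarith
      have a2 : (if S (K ω) then 0 else log (u ω)) ≤
          u ω * (if S (K ω) then 0 else w (K ω) (Y ω)) - (if S (K ω) then 0 else 1) + 2 +
            (m + 1) * (if ¬S (K ω) ∧ 2 ≤ |Y ω - b (K ω)| then 1 else 0) := by
        by_cases h1 : S (K ω)
        · simp [h1]
        have a3 := log_le_sub_one_of_pos (mul_pos a0 (w0 (K ω) (Y ω)))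
        rw [log_mul a0.ne' (w0 _ _).ne'] at a3
        have a4 : -log (w (K ω) (Y ω)) ≤
            2 + (m + 1) * (if ¬S (K ω) ∧ 2 ≤ |Y ω - b (K ω)| then 1 else 0) := by
          rw [hw]
          by_cases h2 : 2 ≤ |Y ω - b (K ω)|
          · simp only [h1, h2, if_true, not_false_eq_true, and_self, mul_one]
            rw [one_div, log_inv, neg_neg, ← pow_succ', log_pow]
            have := log_le_sub_one_of_pos (show (0 : ℝ) < 2 by norm_num)
            push_cast
            nlinarith [(Nat.cast_nonneg m : (0 : ℝ) ≤ m)]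
          · simp only [h2, if_false, and_false, mul_zero, add_zero]
            rw [one_div, log_inv, neg_neg]
            exact log_six
        simp only [if_neg h1]
        linarith
      rw [io ω h]
      nlinarith [mul_le_mul_of_nonneg_left (add_le_add a2 a1) (hp.nn ω)]
    refine (sum_le_sum fun ω _ => k1 ω).trans ?_
    rw [sum_add_distrib, sum_add_distrib, sum_sub_distrib, ← mul_sum, ← mul_sum, hp.sum]
    have k2 : ∑ ω, p ω * ∑ y ∈ s (K ω), (1 / 2 ^ m + if S (K ω) then 0 else w (K ω) y) ≤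
        ∑ ω, (p ω + p ω * if S (K ω) then 0 else 1) := by
      refine sum_le_sum fun ω _ => ?_
      rw [← mul_one_add]
      refine mul_le_mul_of_nonneg_left ?_ (hp.nn ω)
      rw [sum_add_distrib, sum_const, nsmul_eq_mul, mul_one_div]
      refine add_le_add ((div_le_one M0).2 (hc _)) ?_
      by_cases h1 : S (K ω)
      · simp [h1]
      · simp only [if_neg h1]
        rw [hw]
        exact wsum _ _ M0 (hc _)
    rw [sum_add_distrib, hp.sum] at k2
    have k3 := mul_le_mul_of_nonneg_left c2 (show (0 : ℝ) ≤ m + 1 by positivity)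
    have k4 := c1.trans k2
    simp only [hu]
    linarith
  · have := le_max_left (info p (pair Y K) ω - info p K ω - m * log 2) 0
    have := le_max_right (info p (pair Y K) ω - info p K ω - m * log 2) 0
    by_cases h1 : S (K ω)
    · simp only [(hS' ω).2 h1, h1, if_true]
      linarith
    · simp only [mt (hS' ω).1 h1, h1, if_false]
      linarith

theorem dg_step {n m i : ℕ} (h : (i + 1) * m ≤ n) (x : ℤ) :
    dg n (i * m) x = dg n ((i + 1) * m) x / 2 ^ m := by
  unfold dg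
  rw [Int.ediv_ediv_of_nonneg (by positivity), ← pow_add]
  congr 2
  rw [add_mul, one_mul] at h ⊢
  omega

end Dens

open Dens Classical in
theorem dens : DensStmt := by
  intro Ω κ _ p X K n m N θ ξ hp hX _ hN hθ hξ
  have hi : ∀ i < N, (i + 1) * m ≤ n := fun i h => (Nat.mul_le_mul_right m h).trans hN
  have M0 : (0 : ℤ) < 2 ^ m := by positivity
  have hR : ∀ i, ∃ R : Ω → ℝ, i < N → (∀ ω, p ω ≠ 0 → 0 ≤ R ω) ∧
      ∑ ω, p ω * R ω ≤ 3 + θ * (m + 1) ∧ ∀ ω, p ω ≠ 0 →
        info p (pair (fun ω => dg n ((i + 1) * m) (X ω)) K) ω -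
          info p (pair (fun ω => dg n (i * m) (X ω)) K) ω ≤
        m * log 2 * (if Spr p (pair (fun ω => dg n (i * m) (X ω)) K)
          (fun ω => dg n ((i + 1) * m) (X ω)) θ ω then 1 else 0) + R ω := by
    intro i
    by_cases h : i < N
    swap
    · exact ⟨0, fun h' => absurd h' h⟩
    obtain ⟨R, h1, h2, h3⟩ := block hp (pair (fun ω => dg n (i * m) (X ω)) K)
      (fun ω => dg n ((i + 1) * m) (X ω)) (fun k => Ico (k.1 * 2 ^ m) ((k.1 + 1) * 2 ^ m)) m hθ
      (fun ω => by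
        rw [mem_Ico]
        dsimp only [pair]
        rw [dg_step (hi i h)]
        exact ⟨Int.ediv_mul_le _ M0.ne', Int.lt_ediv_add_one_mul_self _ M0⟩)
      (fun k => by
        rw [Int.card_Ico, show (k.1 + 1) * 2 ^ m - k.1 * 2 ^ m = ((2 ^ m : ℕ) : ℤ) by
          push_cast; ring, Int.toNat_natCast]
        exact le_of_eq (by push_cast; rfl))
    refine ⟨R, fun _ => ⟨h1, h2, fun ω h0 => le_trans (sub_le_sub_right ?_ _) (h3 ω)⟩⟩
    refine info_le hp (fun ω ω' e => ?_) h0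
    exact Prod.ext (congrArg Prod.fst e :) (congrArg Prod.snd (congrArg Prod.snd e) :)
  choose R hR using hR
  have key : ∀ ω, p ω ≠ 0 → ∀ t ≤ N, info p (pair (fun ω => dg n (t * m) (X ω)) K) ω -
      info p K ω ≤ m * log 2 * (((range t).filter fun i =>
        Spr p (pair (fun ω => dg n (i * m) (X ω)) K) (fun ω => dg n ((i + 1) * m) (X ω)) θ ω).card
        : ℝ) + ∑ i ∈ range t, R i ω := by
    intro ω h0 t
    induction t with
    | zero =>
      intro _
      have z : ∀ ω, dg n (0 * m) (X ω) = 0 := fun ω => by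
        rw [dg, zero_mul, Nat.sub_zero]
        exact Int.ediv_eq_zero_of_lt (hX ω).1 (hX ω).2
      have := info_le hp (X := K) (Y := pair (fun ω => dg n (0 * m) (X ω)) K)
        (fun ω ω' e => Prod.ext ((z ω).trans (z ω').symm) e) h0
      simp only [range_zero, filter_empty, card_empty, Nat.cast_zero, mul_zero, sum_empty]
      linarith
    | succ t ih =>
      intro ht
      have a1 := ih (by omega)
      have a2 := (hR t (by omega)).2.2 ω h0
      rw [card_filter] at a1 ⊢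
      rw [sum_range_succ, sum_range_succ]
      push_cast at a1 ⊢
      linarith
  have sub : ∀ ω, p ω ≠ 0 → ∀ t ≤ N, ∑ i ∈ range t, R i ω ≤ ∑ i ∈ range N, R i ω :=
    fun ω h0 t ht => sum_le_sum_of_subset_of_nonneg (range_subset_range.2 ht)
      fun i h _ => (hR i (mem_range.1 h)).1 ω h0
  rcases Nat.eq_zero_or_pos N with rfl | N0
  · refine le_trans (le_of_eq (sum_eq_zero fun ω _ => ?_)) (by positivity)
    by_cases h0 : p ω = 0
    · simp only [h0, ite_self]
    refine if_neg ?_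
    rintro ⟨t, ht, h⟩
    have a1 := key ω h0 t ht
    have a2 := sub ω h0 t ht
    simp only [range_zero, sum_empty, Nat.cast_zero, mul_zero] at a2 h
    linarith
  have N1 : (0 : ℝ) < N := by exact_mod_cast N0
  refine (mk hp (f := fun ω => ∑ i ∈ range N, R i ω) (t := ξ * N)
    (fun ω h0 => sum_nonneg fun i h => (hR i (mem_range.1 h)).1 ω h0) (by positivity) ?_).trans ?_
  · rintro ω h0 ⟨t, ht, h⟩
    have a1 := key ω h0 t ht
    have a2 := sub ω h0 t ht
    linarith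
  · simp only [mul_sum]
    rw [sum_comm, div_le_div_iff₀ (by positivity) hξ]
    have := sum_le_card_nsmul (range N) (fun i => ∑ ω, p ω * R i ω) _
      fun i h => (hR i (mem_range.1 h)).2.1
    rw [card_range, nsmul_eq_mul] at this
    nlinarith

end Pool.Agent.MP_538dc4_an.AB

end MrgPart0

-- ======== part 1: formerly Pool.Agent.MP_538dc4_an.ab.Sum
section MrgPart1

/-! PROJECT FURST2, module SUM: the theorem of Mann and a robust sumset estimate. -/

open Finset

namespace Pool.Agent.MP_538dc4_an.AB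

/-- The Dyson transform does not lose the elements of `B` up to `s`. -/
lemma dyson_count (A B : Finset ℕ) (e s t : ℕ) (hs : s ≤ t)
    (h : ∀ b ∈ B, 1 ≤ b → b ≤ s → b + e ≤ t) :
    (A ∩ Icc 1 t).card + (B ∩ Icc 1 s).card ≤ ((A ∪ B.image (e + ·)) ∩ Icc 1 t).card +
      ((B.filter fun b => e + b ∈ A) ∩ Icc 1 t).card := by
  have h1 := card_filter_add_card_filter_not (s := B ∩ Icc 1 s) fun b => e + b ∈ A
  have h2 : ((B ∩ Icc 1 s).filter fun b => e + b ∈ A).card ≤
      ((B.filter fun b => e + b ∈ A) ∩ Icc 1 t).card := card_le_card fun b hb => by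
    simp only [mem_filter, mem_inter, mem_Icc] at hb ⊢
    exact ⟨⟨hb.1.1, hb.2⟩, hb.1.2.1, hb.1.2.2.trans hs⟩
  have h3 : (A ∩ Icc 1 t).card + ((B ∩ Icc 1 s).filter fun b => ¬ e + b ∈ A).card ≤
      ((A ∪ B.image (e + ·)) ∩ Icc 1 t).card := by
    rw [← card_image_of_injective (((B ∩ Icc 1 s).filter fun b => ¬ e + b ∈ A))
      (add_right_injective e), ← card_union_of_disjoint]
    · refine card_le_card (union_subset (inter_subset_inter_right subset_union_left) fun x hx => ?_)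
      obtain ⟨b, hb, rfl⟩ := mem_image.1 hx
      simp only [mem_filter, mem_inter, mem_Icc] at hb
      have := h b hb.1.1 hb.1.2.1 hb.1.2.2
      exact mem_inter.2 ⟨mem_union_right _ (mem_image_of_mem _ hb.1.1), mem_Icc.2 (by omega)⟩
    · refine disjoint_left.2 fun x hx hx' => ?_
      obtain ⟨b, hb, rfl⟩ := mem_image.1 hx'
      exact (mem_filter.1 hb).2 (mem_inter.1 hx).1
  omega

theorem mann : MannStmt := by
  classical
  intro n
  induction n using Nat.strong_induction_on with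
  | _ n ih =>
  intro A B γ hA hB hγ H
  induction hc : B.card using Nat.strong_induction_on generalizing A B with
  | _ c ih' =>
  by_cases h0 : ∀ b ∈ B, b = 0
  · rcases Nat.eq_zero_or_pos n with rfl | hn
    · simp
    have h1 : B ∩ Icc 1 n = ∅ := eq_empty_of_forall_notMem fun b hb => by
      have := h0 b (mem_inter.1 hb).1
      have := mem_Icc.1 (mem_inter.1 hb).2
      omega
    have h2 := H n hn le_rfl
    rw [h1, card_empty, Nat.cast_zero, add_zero] at h2
    exact h2.trans (Nat.cast_le.2 (card_le_card fun a ha =>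
      mem_filter.2 ⟨(mem_inter.1 ha).2, a, (mem_inter.1 ha).1, 0, hB, rfl⟩))
  have ex : ∃ e ∈ A, ∃ b ∈ B, e + b ∉ A := by
    push Not at h0
    obtain ⟨b, hb, hb0⟩ := h0
    refine ⟨A.max' ⟨0, hA⟩, max'_mem _ _, b, hb, fun h => ?_⟩
    have := le_max' A _ h
    omega
  obtain ⟨he, b₁, hb₁, hb₁'⟩ := Nat.find_spec ex
  have hmin : ∀ a ∈ A, a < Nat.find ex → ∀ b ∈ B, a + b ∈ A := fun a ha hlt b hb => by
    by_contra h
    exact Nat.find_min ex hlt ⟨ha, b, hb, h⟩
  set e := Nat.find ex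
  refine (ih' _ (hc ▸ card_lt_card (filter_ssubset.2 ⟨b₁, hb₁, hb₁'⟩)) (A ∪ B.image (e + ·))
    (B.filter fun b => e + b ∈ A) (mem_union_left _ hA) (mem_filter.2 ⟨hB, he⟩)
    (fun t ht1 htn => ?_) rfl).trans (Nat.cast_le.2 (card_le_card fun s hs => ?_))
  · by_cases h1 : ∃ b, b ∈ B ∧ 1 ≤ b ∧ b ≤ t ∧ t < b + e
    swap
    · refine (H t ht1 htn).trans ?_
      exact_mod_cast dyson_count A B e t t le_rfl fun b hb h2 h3 =>
        not_lt.1 fun h4 => h1 ⟨b, hb, h2, h3, h4⟩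
    obtain ⟨g1, g2, g3, g4⟩ := Nat.find_spec h1
    have g5 := dyson_count A B e (Nat.find h1 - 1) t (by omega) fun b hb h2 h3 =>
      not_lt.1 fun h4 => Nat.find_min h1 (m := b) (by omega) ⟨hb, h2, by omega, h4⟩
    set b₀ := Nat.find h1
    obtain ⟨u, hu⟩ : ∃ u, b₀ = u + 1 := ⟨b₀ - 1, by omega⟩
    obtain ⟨r, hr⟩ : ∃ r, t = u + 1 + r := ⟨t - b₀, by omega⟩
    have g6 : γ * r ≤ (A ∩ Icc 1 r).card :=
      (ih r (by omega) A B γ hA hB hγ fun t h2 h3 => H t h2 (by omega)).trans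
        (Nat.cast_le.2 (card_le_card fun s hs => by
          obtain ⟨h2, a, ha, b, hb, rfl⟩ := mem_filter.1 hs
          have := mem_Icc.1 h2
          exact mem_inter.2 ⟨hmin a ha (by omega) b hb, h2⟩))
    have g7 : γ * u ≤ (A ∩ Icc 1 u).card + (B ∩ Icc 1 u).card := by
      rcases Nat.eq_zero_or_pos u with rfl | h2
      · simp
      · exact H u h2 (by omega)
    have g8 : (A ∩ Icc 1 u).card + ((A ∩ Icc 1 r).card + 1) ≤ (A ∩ Icc 1 t).card := by
      rw [← card_insert_of_notMem (show 0 ∉ A ∩ Icc 1 r by simp),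
        ← card_image_of_injective (insert 0 (A ∩ Icc 1 r)) (add_left_injective b₀),
        ← card_union_of_disjoint]
      · refine card_le_card (union_subset (inter_subset_inter_left (Icc_subset_Icc_right
          (by omega))) fun x hx => ?_)
        obtain ⟨a, ha, rfl⟩ := mem_image.1 hx
        have h2 : a ∈ A ∧ a ≤ r := by
          rcases mem_insert.1 ha with rfl | ha
          · exact ⟨hA, Nat.zero_le _⟩
          · exact ⟨(mem_inter.1 ha).1, (mem_Icc.1 (mem_inter.1 ha).2).2⟩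
        exact mem_inter.2 ⟨hmin a h2.1 (by omega) _ g1, mem_Icc.2 (by omega)⟩
      · refine disjoint_left.2 fun x hx hx' => ?_
        obtain ⟨a, -, rfl⟩ := mem_image.1 hx'
        have := mem_Icc.1 (mem_inter.1 hx).2
        omega
    rw [show b₀ - 1 = u by omega] at g5
    have g9 := (Nat.cast_le (α := ℝ)).2 g5
    have g10 := (Nat.cast_le (α := ℝ)).2 g8
    have g11 : (t : ℝ) = u + 1 + r := by exact_mod_cast hr
    push_cast at g9 g10
    rw [g11]
    linarith
  · obtain ⟨h1, a, ha, b, hb, rfl⟩ := mem_filter.1 hs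
    obtain ⟨h2, h3⟩ := mem_filter.1 hb
    refine mem_filter.2 ⟨h1, ?_⟩
    rcases mem_union.1 ha with ha | ha
    · exact ⟨a, ha, b, h2, rfl⟩
    · obtain ⟨b', hb', rfl⟩ := mem_image.1 ha
      exact ⟨e + b, h3, b', hb', by omega⟩

/-- A starting point after which the density is bounded below. -/
lemma exists_start (N : ℕ) (B B' : Finset ℕ) {σ e η δ : ℝ} (hδ : δ ≤ η)
    (h1 : ∀ t ≤ N, σ * t - δ * N ≤ ((B ∩ range t).card : ℝ)) (h2 : ((B \ B').card : ℝ) ≤ η * N) :
    ∃ t₀ : ℕ, e * t₀ ≤ 2 * η * N ∧ ∀ t, t₀ + t ≤ N → (σ - e) * t ≤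
      (((B'.filter (t₀ ≤ ·)).image (· - t₀ + 1) ∩ Icc 1 t).card : ℝ) := by
  obtain ⟨t₀, h3, h4⟩ := exists_min_image (range (N + 1))
    (fun t => ((B' ∩ range t).card : ℝ) - (σ - e) * t) ⟨0, by simp⟩
  refine ⟨t₀, ?_, fun t ht => ?_⟩
  · have h5 := h4 0 (by simp)
    have h6 := h1 t₀ (by simpa [Nat.lt_succ_iff] using h3)
    have h7 : (B ∩ range t₀).card ≤ (B' ∩ range t₀).card + (B \ B').card :=
      (card_le_card fun x hx => by
        simp only [mem_union, mem_inter, mem_sdiff] at hx ⊢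
        tauto).trans (card_union_le _ _)
    have h8 := (Nat.cast_le (α := ℝ)).2 h7
    have h9 := mul_le_mul_of_nonneg_right hδ (Nat.cast_nonneg (α := ℝ) N)
    simp only [range_zero, inter_empty, card_empty, Nat.cast_zero, mul_zero, sub_zero] at h5
    push_cast at h8
    linarith
  · have h5 := h4 (t₀ + t) (mem_range.2 (by omega))
    have h6 : (B' ∩ range (t₀ + t)).card ≤ (B' ∩ range t₀).card +
        ((B'.filter (t₀ ≤ ·)).image (· - t₀ + 1) ∩ Icc 1 t).card := by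
      refine le_trans (card_le_card fun x hx => ?_) ((card_union_le _ _).trans
        (Nat.add_le_add_left (card_image_le (f := (· - 1 + t₀))) _))
      obtain ⟨e1, e2⟩ := mem_inter.1 hx
      have e3 := mem_range.1 e2
      by_cases e4 : x < t₀
      · exact mem_union_left _ (mem_inter.2 ⟨e1, mem_range.2 e4⟩)
      · exact mem_union_right _ (mem_image.2 ⟨x - t₀ + 1, mem_inter.2 ⟨mem_image_of_mem _
          (mem_filter.2 ⟨e1, by omega⟩), mem_Icc.2 (by omega)⟩, by omega⟩)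
    have h7 := (Nat.cast_le (α := ℝ)).2 h6
    push_cast at h5 h7
    linarith

lemma start_mem {B' : Finset ℕ} {t₀ β : ℕ} {c : ℝ} (hc : 0 < c)
    (h : c * (1 : ℕ) ≤ (((B'.filter (t₀ ≤ ·)).image (· - t₀ + 1) ∩ Icc 1 1).card : ℝ))
    (hβ : β ∈ insert 0 ((B'.filter (t₀ ≤ ·)).image (· - t₀ + 1))) :
    ∃ b ∈ B', ∃ e ≤ 1, β + t₀ = b + e := by
  rcases mem_insert.1 hβ with rfl | hβ
  · obtain ⟨x, hx⟩ := card_pos.1 (Nat.cast_pos.1 ((by simpa using hc : 0 < c * (1 : ℕ)).trans_le h))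
    obtain ⟨b, hb, rfl⟩ := mem_image.1 (mem_inter.1 hx).1
    have := mem_Icc.1 (mem_inter.1 hx).2
    have := (mem_filter.1 hb).2
    exact ⟨b, (mem_filter.1 hb).1, 0, Nat.zero_le _, by omega⟩
  · obtain ⟨b, hb, rfl⟩ := mem_image.1 hβ
    have := (mem_filter.1 hb).2
    exact ⟨b, (mem_filter.1 hb).1, 1, le_rfl, by omega⟩

theorem sum_stmt (h : RemStmt) : SumStmt := by
  classical
  intro ε hε
  obtain ⟨δ, hδ, H⟩ := h (ε ^ 2 / 100) (by positivity)
  refine ⟨min δ (ε ^ 2 / 100), by positivity, fun N A B C σ τ hσ hτ hB hC h1 h2 h3 => ?_⟩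
  have hN : (0 : ℝ) ≤ N := Nat.cast_nonneg _
  rcases le_total 1 ε with h4 | h4
  · exact (mul_nonpos_of_nonpos_of_nonneg (sub_nonpos.2 ((min_le_left _ _).trans h4)) hN).trans
      (Nat.cast_nonneg _)
  set S := (range N).filter fun s => ∃ e ≤ 2, s + e < N ∧ s + e ∉ A with hS
  obtain ⟨B', -, C', -, S', -, e1, e2, e3, e4⟩ := H N B C S hB hC (filter_subset _ _)
    ((Nat.cast_le.2 (card_le_card fun z hz =>
      mem_filter.2 ⟨(mem_filter.1 hz).1, (mem_filter.1 (mem_filter.1 hz).2).2⟩)).trans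
      (h3.trans (mul_le_mul_of_nonneg_right (min_le_left _ _) (by positivity))))
  obtain ⟨s, s1, s2⟩ := exists_start (e := ε / 4) N B B' (min_le_right _ _) h1 e1
  obtain ⟨t, t1, t2⟩ := exists_start (e := ε / 4) N C C' (min_le_right _ _) h2 e2
  have h5 : (s : ℝ) + t ≤ 4 / 25 * ε * N := le_of_mul_le_mul_left (by nlinarith) hε
  rcases lt_or_ge (s + t) N with h6 | h6
  swap
  · have h7 : (N : ℝ) ≤ s + t := by exact_mod_cast h6
    rw [show (N : ℝ) = 0 by nlinarith, mul_zero]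
    exact Nat.cast_nonneg _
  obtain ⟨n, hn⟩ := Nat.exists_eq_add_of_lt h6
  set B₁ := (B'.filter (s ≤ ·)).image (· - s + 1)
  set C₁ := (C'.filter (t ≤ ·)).image (· - t + 1)
  have h7 := mann n (insert 0 B₁) (insert 0 C₁) (min 1 (σ + τ) - ε / 2) (mem_insert_self _ _)
    (mem_insert_self _ _) (by linarith [min_le_left 1 (σ + τ)]) fun u _ hu => by
      rw [insert_inter_of_notMem (by simp), insert_inter_of_notMem (by simp)]
      have g1 := s2 u (by omega)
      have g2 := t2 u (by omega)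
      have g3 := mul_le_mul_of_nonneg_right (min_le_right 1 (σ + τ)) (Nat.cast_nonneg (α := ℝ) u)
      linarith
  set T := (Icc 1 n).filter fun x => ∃ a ∈ insert 0 B₁, ∃ b ∈ insert 0 C₁, a + b = x
  have h8 : T.card + 1 ≤ (A ∩ range N).card + (S \ S').card * 3 := by
    rw [← card_insert_of_notMem (show 0 ∉ T by simp [T]),
      ← card_image_of_injective (insert 0 T) (add_left_injective (s + t)), ← card_range 3,
      ← card_product]
    refine le_trans (card_le_card fun x hx => ?_) ((card_union_le _ _).trans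
      (Nat.add_le_add_left (card_image_le (f := fun p : ℕ × ℕ => p.1 + p.2)) _))
    obtain ⟨y, hy, rfl⟩ := mem_image.1 hx
    obtain ⟨g1, a, ha, b, hb, rfl⟩ : y ≤ n ∧ ∃ a ∈ insert 0 B₁, ∃ b ∈ insert 0 C₁, a + b = y := by
      rcases mem_insert.1 hy with rfl | hy
      · exact ⟨Nat.zero_le _, 0, mem_insert_self _ _, 0, mem_insert_self _ _, rfl⟩
      · exact ⟨(mem_Icc.1 (mem_filter.1 hy).1).2, (mem_filter.1 hy).2⟩
    obtain ⟨b', hb', i, hi, g2⟩ := start_mem (by linarith) (s2 1 (by omega)) ha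
    obtain ⟨c', hc', j, hj, g3⟩ := start_mem (by linarith) (t2 1 (by omega)) hb
    by_cases g4 : a + b + (s + t) ∈ A
    · exact mem_union_left _ (mem_inter.2 ⟨g4, mem_range.2 (by omega)⟩)
    refine mem_union_right _ (mem_image.2 ⟨(b' + c', i + j), mem_product.2 ⟨mem_sdiff.2
      ⟨mem_filter.2 ⟨mem_range.2 (by omega), i + j, by omega, by omega, ?_⟩, e4 _ hb' _ hc'⟩,
      mem_range.2 (by omega)⟩, by omega⟩)
    rwa [show b' + c' + (i + j) = a + b + (s + t) by omega]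
  have h9 := (Nat.cast_le (α := ℝ)).2 h8
  have h10 : (N : ℝ) = s + t + n + 1 := by exact_mod_cast hn
  have h11 := min_le_left 1 (σ + τ)
  have h12 : (min 1 (σ + τ) - ε / 2) * (s + t + 1) ≤ s + t + 1 :=
    mul_le_of_le_one_left (by positivity) (by linarith)
  have h13 : ε ^ 2 * N ≤ ε * N := mul_le_mul_of_nonneg_right (by nlinarith) hN
  have h14 : (min 1 (σ + τ) - ε / 2) * N =
      (min 1 (σ + τ) - ε / 2) * n + (min 1 (σ + τ) - ε / 2) * (s + t + 1) := by rw [h10]; ring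
  have h15 : 0 ≤ ε * N := by positivity
  push_cast at h9
  linarith

end Pool.Agent.MP_538dc4_an.AB

end MrgPart1

-- ======== part 2: formerly Pool.Agent.MP_538dc4_an.ab.Rem
section MrgPart2

/-! PROJECT FURST2, module REM: the arithmetic removal lemma. -/

open Finset SimpleGraph SimpleGraph.TripartiteFromTriangles

namespace Pool.Agent.MP_538dc4_an.AB

/-- The triangles attached to a family of pairs. -/
def remT (M : ℕ) (F : Finset (ℕ × ℕ)) : Finset (Fin M × Fin M × Fin M) :=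
  univ.filter fun p => ∃ f ∈ F, (p.2.1 : ℕ) = p.1 + f.1 ∧ (p.2.2 : ℕ) = p.1 + f.1 + f.2

lemma mem_remT {M : ℕ} {F : Finset (ℕ × ℕ)} {x y z : Fin M} : (x, y, z) ∈ remT M F ↔
    ∃ f ∈ F, (y : ℕ) = x + f.1 ∧ (z : ℕ) = x + f.1 + f.2 := by
  simp only [remT, mem_filter, mem_univ, true_and]

lemma card_remT_le (M : ℕ) (F : Finset (ℕ × ℕ)) : (remT M F).card ≤ M * F.card := by
  have := card_le_card_of_injOn (s := remT M F) (t := univ ×ˢ F)
    (fun p => (p.1, ((p.2.1 : ℕ) - p.1, (p.2.2 : ℕ) - p.2.1))) (fun ⟨x, y, z⟩ hp => by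
      obtain ⟨f, hf, h1, h2⟩ := mem_remT.1 hp
      have : ((y : ℕ) - x, (z : ℕ) - y) = f := Prod.ext (by dsimp only; omega) (by dsimp only; omega)
      simpa [this] using hf) (fun ⟨x, y, z⟩ hp ⟨x', y', z'⟩ hp' e => by
      obtain ⟨f, -, h1, h2⟩ := mem_remT.1 hp
      obtain ⟨f', -, h3, h4⟩ := mem_remT.1 hp'
      simp only [Prod.mk.injEq, Fin.ext_iff] at e ⊢
      omega)
  simpa using this

lemma le_card_remT (N : ℕ) (F : Finset (ℕ × ℕ)) (hF : ∀ f ∈ F, f.1 < N ∧ f.2 < N) :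
    N * F.card ≤ (remT (3 * N) F).card := by
  have : range N ×ˢ F ⊆ (remT (3 * N) F).image
      fun p => ((p.1 : ℕ), ((p.2.1 : ℕ) - p.1, (p.2.2 : ℕ) - p.2.1)) := fun ⟨x, f⟩ hp => by
    obtain ⟨h1, h2⟩ := mem_product.1 hp
    have h3 := mem_range.1 h1
    have h4 := hF f h2
    dsimp only at h3
    refine mem_image.2 ⟨(⟨x, by omega⟩, ⟨x + f.1, by omega⟩, ⟨x + f.1 + f.2, by omega⟩),
      mem_remT.2 ⟨f, h2, rfl, rfl⟩, ?_⟩
    simp
  simpa using (card_le_card this).trans card_image_le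

theorem rem : RemStmt := by
  intro η hη
  refine ⟨triangleRemovalBound (η / 81), triangleRemovalBound_pos (by positivity), ?_⟩
  intro N B C S hB hC _ hbad
  set A := (B ×ˢ C).filter fun z => z.1 + z.2 ∈ S with hA
  have mA : ∀ f, f ∈ A ↔ f.1 ∈ B ∧ f.2 ∈ C ∧ f.1 + f.2 ∈ S := fun f => by
    rw [hA, mem_filter, mem_product, and_assoc]
  obtain ⟨F, hF, hmax⟩ := exists_max_image (A.powerset.filter fun F => ∀ f ∈ F, ∀ g ∈ F,
    (f.1 = g.1 ∨ f.2 = g.2 ∨ f.1 + f.2 = g.1 + g.2) → f = g) card ⟨∅, by simp⟩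
  obtain ⟨h1, h2⟩ := mem_filter.1 hF
  rw [mem_powerset] at h1
  by_cases hc : (F.card : ℝ) ≤ η * N
  · have key : ∀ (X : Finset ℕ) (φ : ℕ × ℕ → ℕ), ((X \ (X \ F.image φ)).card : ℝ) ≤ η * N :=
      fun X φ => le_trans (Nat.cast_le.2 ((card_le_card fun x hx => by
        simp only [mem_sdiff] at hx
        tauto).trans card_image_le)) hc
    refine ⟨B \ F.image Prod.fst, sdiff_subset, C \ F.image Prod.snd, sdiff_subset,
      S \ F.image fun f => f.1 + f.2, sdiff_subset, key _ _, key _ _, key _ _,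
      fun b hb c hc hs => ?_⟩
    simp only [mem_sdiff, mem_image, not_exists, not_and] at hb hc hs
    have h3 : (b, c) ∉ F := fun h => hb.2 _ h rfl
    have h4 := hmax (insert (b, c) F) (mem_filter.2 ⟨mem_powerset.2
      (insert_subset ((mA _).2 ⟨hb.1, hc.1, hs.1⟩) h1), fun f hf g hg e => by
        rcases mem_insert.1 hf with rfl | hf <;> rcases mem_insert.1 hg with rfl | hg
        · rfl
        · exact (e.elim (fun e => hb.2 g hg e.symm) fun e => e.elim (fun e => hc.2 g hg e.symm)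
            fun e => hs.2 g hg e.symm).elim
        · exact (e.elim (hb.2 f hf) fun e => e.elim (hc.2 f hf) (hs.2 f hf)).elim
        · exact h2 f hf g hg e⟩)
    rw [card_insert_of_notMem h3] at h4
    omega
  exfalso
  have h3 : ∀ f ∈ F, f.1 < N ∧ f.2 < N := fun f hf =>
    ⟨mem_range.1 (hB ((mA f).1 (h1 hf)).1), mem_range.1 (hC ((mA f).1 (h1 hf)).2.1)⟩
  have hN : (0 : ℝ) < N := by
    rcases F.eq_empty_or_nonempty with rfl | ⟨f, hf⟩
    · exact (hc (by simp only [card_empty, Nat.cast_zero]; positivity)).elim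
    · exact Nat.cast_pos.2 ((Nat.zero_le _).trans_lt (h3 f hf).1)
  have : ExplicitDisjoint (remT (3 * N) F) := by
    constructor <;> intro a b c d ha hb <;> obtain ⟨f, hf, e1, e2⟩ := mem_remT.1 ha <;>
      obtain ⟨g, hg, e3, e4⟩ := mem_remT.1 hb <;>
      obtain rfl := h2 f hf g hg (by omega) <;> exact Fin.ext (by omega)
  have h4 : (graph (remT (3 * N) F)).FarFromTriangleFree (η / 81) := by
    refine farFromTriangleFree _ ?_
    have h5 : ((N * F.card : ℕ) : ℝ) ≤ (remT (3 * N) F).card := Nat.cast_le.2 (le_card_remT N F h3)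
    refine le_trans ?_ h5
    simp only [Fintype.card_fin]
    push_cast
    nlinarith [not_le.1 hc]
  have h5 : (graph (remT (3 * N) F)).cliqueFinset 3 ⊆ (remT (3 * N) A).map toTriangle := by
    intro s hs
    obtain ⟨x, y, z, hxy, hxz, hyz, rfl⟩ := is3Clique_iff.1 (mem_cliqueFinset_iff.1 hs)
    obtain ⟨a, b, c, e, hab, hac, hbc⟩ := graph_triple hxy hxz hyz
    obtain ⟨_, hc'⟩ := Graph.in₀₁_iff.1 hab
    obtain ⟨_, hb'⟩ := Graph.in₀₂_iff.1 hac
    obtain ⟨_, ha'⟩ := Graph.in₁₂_iff.1 hbc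
    obtain ⟨f, hf, e1, -⟩ := mem_remT.1 hc'
    obtain ⟨g, hg, -, e2⟩ := mem_remT.1 hb'
    obtain ⟨u, hu, e3, e4⟩ := mem_remT.1 ha'
    refine mem_map.2 ⟨(a, b, c), mem_remT.2 ⟨(f.1, u.2), (mA _).2 ⟨((mA f).1 (h1 hf)).1,
      ((mA u).1 (h1 hu)).2.1, ?_⟩, e1, by dsimp only; omega⟩, e⟩
    rw [show f.1 + u.2 = g.1 + g.2 by omega]
    exact ((mA g).1 (h1 hg)).2.2
  have h6 := h4.le_card_cliqueFinset
  have h7 : (((graph (remT (3 * N) F)).cliqueFinset 3).card : ℝ) ≤ (3 * N * A.card : ℕ) :=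
    Nat.cast_le.2 ((card_le_card h5).trans ((card_map _).trans_le (card_remT_le _ _)))
  have h8 := triangleRemovalBound_pos (show 0 < η / 81 by positivity)
  simp only [Fintype.card_sum, Fintype.card_fin] at h6
  push_cast at h6 h7
  have h9 : 0 < triangleRemovalBound (η / 81) * (N : ℝ) ^ 3 := by positivity
  nlinarith [mul_le_mul_of_nonneg_left hbad hN.le]

end Pool.Agent.MP_538dc4_an.AB

end MrgPart2

-- ======== part 3: formerly Pool.Agent.MP_538dc4_an.ab.Aep
section MrgPart3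

/-! PROJECT FURST2: conditioning on an event makes all informations concentrate. -/

open Finset Real

namespace Pool.Agent.MP_538dc4_an.AB

namespace Aep

variable {Ω α β ι : Type} [Fintype Ω] {p : Ω → ℝ}

/-- Splitting a probability according to the value of a variable. -/
theorem P_split (A : Ω → Prop) (X : Ω → α) (s : Finset α) (h : ∀ ω, A ω → X ω ∈ s) :
    P p A = ∑ x ∈ s, P p fun ω => A ω ∧ X ω = x := by
  classical
  simp only [P]
  rw [sum_comm]
  refine sum_congr rfl fun ω _ => ?_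
  by_cases hA : A ω
  · rw [if_pos hA, sum_eq_single_of_mem (X ω) (h ω hA)]
    · rw [if_pos ⟨hA, rfl⟩]
    · intro x _ hx
      rw [if_neg fun e => hx e.2.symm]
  · rw [if_neg hA]
    exact (sum_eq_zero fun x _ => if_neg fun e => hA e.1).symm

/-- Values of small probability have small total probability. -/
theorem tail (hp : IsP p) (X : Ω → α) (s : Finset α) (w : α → ℝ) (hs : ∀ ω, X ω ∈ s)
    (hw : ∀ x, 0 ≤ w x) : P p (fun ω => pr p X (X ω) < w (X ω)) ≤ ∑ x ∈ s, w x := by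
  classical
  rw [P_split _ X s fun ω _ => hs ω]
  refine sum_le_sum fun x _ => ?_
  by_cases hx : pr p X x < w x
  · refine le_trans ?_ hx.le
    unfold P pr
    refine sum_le_sum fun ω _ => ?_
    by_cases h1 : X ω = x
    · rw [if_pos h1]
      split_ifs
      exacts [le_rfl, hp.nn ω]
    · rw [if_neg h1, if_neg fun e => h1 e.2]
  · refine le_trans (le_of_eq ?_) (hw x)
    unfold P
    refine sum_eq_zero fun ω _ => if_neg fun e => hx ?_
    have := e.1
    rwa [e.2] at this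

/-- The union bound. -/
theorem union (hp : IsP p) (I : Finset ι) (B : ι → Ω → Prop) (A : Ω → Prop)
    (h : ∀ ω, p ω ≠ 0 → (∀ i ∈ I, ¬B i ω) → A ω) : 1 - ∑ i ∈ I, P p (B i) ≤ P p A := by
  classical
  rw [← hp.sum]
  simp only [P]
  rw [sum_comm, ← sum_sub_distrib]
  refine sum_le_sum fun ω _ => ?_
  have hn : ∀ i ∈ I, 0 ≤ (if B i ω then p ω else 0) := fun i _ => by
    split_ifs
    exacts [hp.nn ω, le_rfl]
  have h0 := sum_nonneg hn
  by_cases hA : A ω
  · rw [if_pos hA]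
    linarith
  · rw [if_neg hA]
    by_cases hz : p ω = 0
    · linarith
    · obtain ⟨i, hi, hb⟩ : ∃ i ∈ I, B i ω := by
        by_contra hc
        exact hA (h ω hz fun i hi hb => hc ⟨i, hi, hb⟩)
      have := single_le_sum hn hi
      simp only [hb, if_true] at this
      linarith

open Classical in
/-- The law conditioned on an event. -/
noncomputable def cnd (p : Ω → ℝ) (G : Ω → Prop) (ω : Ω) : ℝ := if G ω then p ω / P p G else 0

theorem cnd_isP (hp : IsP p) {G : Ω → Prop} (h : 0 < P p G) : IsP (cnd p G) where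
  nn ω := by
    unfold cnd
    split_ifs
    exacts [div_nonneg (hp.nn ω) h.le, le_rfl]
  sum := by
    have : ∀ ω, cnd p G ω = (@ite _ (G ω) (Classical.propDecidable _) (p ω) 0) / P p G := by
      intro ω
      unfold cnd
      split_ifs
      exacts [rfl, (zero_div _).symm]
    simp only [this]
    rw [← sum_div]
    exact div_self h.ne'

theorem cnd_supp {G : Ω → Prop} {ω : Ω} (h : cnd p G ω ≠ 0) : G ω ∧ p ω ≠ 0 := by
  unfold cnd at h
  split_ifs at h with h1
  · exact ⟨h1, fun e => h (by rw [e, zero_div])⟩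
  · exact absurd rfl h

theorem cnd_le (hp : IsP p) {G : Ω → Prop} {t : ℝ} (h : exp (-t) ≤ P p G) (ω : Ω) :
    cnd p G ω ≤ exp t * p ω := by
  unfold cnd
  split_ifs
  · refine (div_le_div_of_nonneg_left (hp.nn ω) (exp_pos _) h).trans (le_of_eq ?_)
    rw [exp_neg, div_inv_eq_mul, mul_comm]
  · exact mul_nonneg (exp_pos _).le (hp.nn ω)

theorem pr_le {p' : Ω → ℝ} {c : ℝ} (h : ∀ ω, p' ω ≤ c * p ω) (X : Ω → α) (x : α) :
    pr p' X x ≤ c * pr p X x := by
  unfold pr
  rw [mul_sum]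
  refine sum_le_sum fun ω _ => ?_
  split_ifs
  exacts [h ω, by simp]

theorem H_eq (X : Ω → α) : H p X = ∑ ω, p ω * info p X ω := by
  simp only [H, info, mul_neg, sum_neg_distrib]

/-- One variable: the information is close to the entropy off the event where the new
probability is much smaller than the old one. -/
theorem one (hp : IsP p) {p' : Ω → ℝ} (hp' : IsP p') {t h : ℝ}
    (hle : ∀ ω, p' ω ≤ exp t * p ω) (X : Ω → α) (s : Finset α) (hs : ∀ ω, X ω ∈ s)
    (hb : ∀ ω, p' ω ≠ 0 → h ≤ info p X ω ∧ info p X ω ≤ h + t) {ω : Ω} (hω : p' ω ≠ 0)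
    (hg : ¬pr p' X (X ω) < exp (-t) * pr p X (X ω)) :
    |info p' X ω - H p' X| ≤ 3 * t := by
  have hs0 : ∀ ω, p' ω ≠ 0 → p ω ≠ 0 := fun ω h e =>
    h (le_antisymm (by simpa [e] using hle ω) (hp'.nn ω))
  have lo : ∀ ω, p' ω ≠ 0 → h - t ≤ info p' X ω := fun ω h0 => by
    have h1 := log_le_log (pr_pos hp' X h0) (pr_le hle X (X ω))
    rw [log_mul (exp_pos _).ne' (pr_pos hp X (hs0 ω h0)).ne', log_exp] at h1
    have := (hb ω h0).1
    unfold info at this ⊢
    linarith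
  have hi : info p' X ω ≤ h + 2 * t := by
    have h1 := log_le_log (mul_pos (exp_pos _) (pr_pos hp X (hs0 ω hω))) (not_lt.1 hg)
    rw [log_mul (exp_pos _).ne' (pr_pos hp X (hs0 ω hω)).ne', log_exp] at h1
    have := (hb ω hω).2
    unfold info at this ⊢
    linarith
  have H1 : h - t ≤ H p' X := by
    rw [H_eq]
    calc h - t = ∑ ω, p' ω * (h - t) := by rw [← sum_mul, hp'.sum, one_mul]
      _ ≤ _ := sum_le_sum fun ω _ => by
          by_cases h0 : p' ω = 0
          · simp [h0]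
          · exact mul_le_mul_of_nonneg_left (lo ω h0) (hp'.nn ω)
  have H2 : H p' X ≤ h + t := by
    have g := gibbs hp' X s (pr p X) (fun b _ => pr_nonneg hp X b)
      fun ω h0 => ⟨hs ω, pr_pos hp X (hs0 ω h0)⟩
    have g0 := log_nonpos (sum_nonneg fun b _ => pr_nonneg hp X b) (sum_pr_le hp X s)
    have g1 : ∑ ω, p' ω * (-(h + t)) ≤ ∑ ω, p' ω * log (pr p X (X ω)) :=
      sum_le_sum fun ω _ => by
        by_cases h0 : p' ω = 0
        · simp [h0]
        · refine mul_le_mul_of_nonneg_left ?_ (hp'.nn ω)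
          have := (hb ω h0).2
          unfold info at this
          linarith
    rw [← sum_mul, hp'.sum, one_mul] at g1
    linarith
  have := lo ω hω
  have ht : 0 ≤ t := by linarith
  rw [abs_le]
  constructor <;> linarith

/-- A popular event on which all informations are almost constant. -/
theorem pop (hp : IsP p) (I : Finset ι) (X : ι → Ω → α) {M K : ℕ} {L n t : ℝ} (hI : I.card ≤ M)
    (ht : 0 < t) (hK : (L + 1) * n ≤ K * t) (hn : 2 * (M : ℝ) ≤ exp n)
    (hs : ∀ i ∈ I, ∃ s : Finset α, (∀ ω, X i ω ∈ s) ∧ (s.card : ℝ) ≤ exp (L * n)) :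
    ∃ (G : Ω → Prop) (h : ι → ℝ), 1 ≤ 2 * ((K : ℝ) + 1) ^ M * P p G ∧
      ∀ ω, G ω → ∀ i ∈ I, h i ≤ info p (X i) ω ∧ info p (X i) ω ≤ h i + t := by
  classical
  let G0 : Ω → Prop := fun ω => ∀ i ∈ I, ¬pr p (X i) (X i ω) < exp (-((L + 1) * n))
  have h0 : 1 / 2 ≤ P p G0 := by
    refine le_trans ?_ (union hp I (fun i ω => pr p (X i) (X i ω) < exp (-((L + 1) * n))) G0
      fun ω _ h => h)
    have h1 : ∑ i ∈ I, P p (fun ω => pr p (X i) (X i ω) < exp (-((L + 1) * n))) ≤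
        ∑ _i ∈ I, exp (-n) := sum_le_sum fun i hi => by
      obtain ⟨s, hs1, hs2⟩ := hs i hi
      refine (tail hp (X i) s (fun _ => exp (-((L + 1) * n))) hs1 fun _ => (exp_pos _).le).trans ?_
      rw [sum_const, nsmul_eq_mul]
      refine (mul_le_mul_of_nonneg_right hs2 (exp_pos _).le).trans (le_of_eq ?_)
      rw [← exp_add]
      congr 1
      ring
    rw [sum_const, nsmul_eq_mul] at h1
    have h2 : (I.card : ℝ) ≤ M := by exact_mod_cast hI
    have h3 : exp n * exp (-n) = 1 := by rw [← exp_add, add_neg_cancel, exp_zero]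
    have h4 := exp_pos (-n)
    nlinarith
  let v : Ω → I → ℕ := fun ω i => ⌊info p (X i) ω / t⌋₊
  let T : Finset (I → ℕ) := Fintype.piFinset fun _ => range (K + 1)
  have hv : ∀ ω, G0 ω → v ω ∈ T := fun ω h => Fintype.mem_piFinset.2 fun i => by
    rw [mem_range, Nat.lt_succ_iff]
    refine Nat.floor_le_of_le ?_
    rw [div_le_iff₀ ht]
    have h1 := log_le_log (exp_pos _) (not_lt.1 (h i i.2))
    rw [log_exp] at h1
    unfold info
    linarith
  have hT : (T.card : ℝ) ≤ ((K : ℝ) + 1) ^ M := by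
    rw [Fintype.card_piFinset, prod_const, card_range, card_univ, Fintype.card_coe]
    push_cast
    exact pow_le_pow_right₀ (by linarith [Nat.cast_nonneg (α := ℝ) K]) hI
  have hR : (0 : ℝ) < ((K : ℝ) + 1) ^ M := by positivity
  rw [P_split G0 v T hv] at h0
  obtain ⟨x, -, hx⟩ : ∃ x ∈ T, 1 ≤ 2 * ((K : ℝ) + 1) ^ M * P p fun ω => G0 ω ∧ v ω = x := by
    by_contra hc
    have hc' : ∀ x ∈ T, 2 * ((K : ℝ) + 1) ^ M * P p (fun ω => G0 ω ∧ v ω = x) < 1 :=
      fun x hx => not_le.1 fun h => hc ⟨x, hx, h⟩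
    have hne : T.Nonempty := ⟨fun _ => 0, Fintype.mem_piFinset.2 fun _ => by simp⟩
    have h1 := sum_lt_sum_of_nonempty hne hc'
    rw [← mul_sum, sum_const, nsmul_eq_mul, mul_one] at h1
    nlinarith
  refine ⟨_, fun i => if hi : i ∈ I then x ⟨i, hi⟩ * t else 0, hx, fun ω h i hi => ?_⟩
  simp only [hi, dif_pos]
  have e : x ⟨i, hi⟩ = ⌊info p (X i) ω / t⌋₊ := by rw [← h.2]
  have hin : 0 ≤ info p (X i) ω :=
    neg_nonneg.2 (log_nonpos (pr_nonneg hp _ _) (pr_le_one hp _ _))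
  have h1 := Nat.floor_le (div_nonneg hin ht.le)
  have h2 := Nat.lt_floor_add_one (info p (X i) ω / t)
  rw [le_div_iff₀ ht] at h1
  rw [div_lt_iff₀ ht] at h2
  rw [e]
  constructor <;> linarith

end Aep

theorem aep : AepStmt := by
  intro M L a hL ha
  set b : ℝ := a / 4 with hb
  have hb0 : 0 < b := by positivity
  set K : ℕ := ⌈(L + 1) / b⌉₊ with hK
  set R : ℝ := ((K : ℝ) + 1) ^ M with hR
  have hR0 : 0 < R := by positivity
  have hM : (0 : ℝ) ≤ M := Nat.cast_nonneg M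
  refine ⟨1 + 2 * M + 2 * R / b + M / a / b, fun n hn Ω ι α _ p I X hp hI hs => ?_⟩
  have q1 : 0 ≤ 2 * R / b := by positivity
  have q2 : 0 ≤ M / a / b := by positivity
  have hn0 : 0 < n := by linarith
  have ht : 0 < b * n := mul_pos hb0 hn0
  have e1 : 2 * (M : ℝ) ≤ exp n := by linarith [add_one_le_exp n]
  have e2 : 2 * R ≤ exp (b * n) := by
    have : 2 * R / b ≤ n := by linarith
    rw [div_le_iff₀ hb0] at this
    linarith [add_one_le_exp (b * n)]
  have e3 : (M : ℝ) ≤ exp (b * n) * a := by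
    have : M / a / b ≤ n := by linarith
    rw [div_le_iff₀ hb0] at this
    rw [← div_le_iff₀ ha]
    linarith [add_one_le_exp (b * n)]
  have hKb : (L + 1) * n ≤ K * (b * n) := by
    have := Nat.le_ceil ((L + 1) / b)
    rw [div_le_iff₀ hb0, ← hK] at this
    nlinarith
  obtain ⟨G, h, hG, hh⟩ := Aep.pop hp I X hI ht hKb e1 hs
  have ex : exp (b * n) * exp (-(b * n)) = 1 := by rw [← exp_add, add_neg_cancel, exp_zero]
  have ep := exp_pos (-(b * n))
  have hG1 : exp (-(b * n)) ≤ P p G := by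
    by_contra hc
    have h1 : 2 * R * P p G < 2 * R * exp (-(b * n)) :=
      mul_lt_mul_of_pos_left (not_le.1 hc) (by linarith)
    have h2 := mul_le_mul_of_nonneg_right e2 ep.le
    linarith
  have hp' := Aep.cnd_isP hp (ep.trans_le hG1)
  have hle := Aep.cnd_le hp hG1
  refine ⟨Aep.cnd p G, hp', fun ω => (hle ω).trans (mul_le_mul_of_nonneg_right
    (exp_le_exp.2 (by nlinarith)) (hp.nn ω)), ?_⟩
  refine le_trans ?_ (Aep.union hp' I (fun i ω => pr (Aep.cnd p G) (X i) (X i ω) <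
    exp (-(b * n)) * pr p (X i) (X i ω)) _ fun ω hω hg i hi => ?_)
  · have h1 : ∑ i ∈ I, P (Aep.cnd p G) (fun ω => pr (Aep.cnd p G) (X i) (X i ω) <
        exp (-(b * n)) * pr p (X i) (X i ω)) ≤ ∑ _i ∈ I, exp (-(b * n)) :=
      sum_le_sum fun i hi => by
        obtain ⟨s, hs1, -⟩ := hs i hi
        refine (Aep.tail hp' (X i) s (fun x => exp (-(b * n)) * pr p (X i) x) hs1
          fun x => mul_nonneg ep.le (pr_nonneg hp _ _)).trans ?_
        rw [← mul_sum]
        exact mul_le_of_le_one_right ep.le (sum_pr_le hp _ s)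
    rw [sum_const, nsmul_eq_mul] at h1
    have h2 : (I.card : ℝ) ≤ M := by exact_mod_cast hI
    have h3 := mul_le_mul_of_nonneg_right (h2.trans e3) ep.le
    have h4 : exp (b * n) * a * exp (-(b * n)) = a := by
      rw [mul_right_comm, ex, one_mul]
    linarith
  · obtain ⟨s, hs1, -⟩ := hs i hi
    refine (Aep.one hp hp' hle (X i) s hs1
      (fun ω h0 => hh ω (Aep.cnd_supp h0).1 i hi) hω (hg i hi)).trans ?_
    nlinarith

end Pool.Agent.MP_538dc4_an.AB

end MrgPart3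

-- ======== part 4: formerly Pool.Agent.MP_538dc4_an.ab.Disc
section MrgPart4

/-! PROJECT FURST2: the single scale statement from the entropy modules. -/

open Finset Real Filter Topology

namespace Pool.Agent.MP_538dc4_an.AB

namespace Disc

theorem err_mono {u v e e' : ℝ} {N : ℕ} {h : ℕ → ℕ → ℕ → ℕ → ℝ} (H : DStr u v N e h)
    (he : e ≤ e') : DStr u v N e' h where
  mono k a b c k' a' b' c' h1 h2 h3 h4 h5 h6 := by
    linarith [H.mono k a b c k' a' b' c' h1 h2 h3 h4 h5 h6]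
  lip k a b c k' a' b' c' h1 h2 h3 h4 h5 := by
    linarith [H.lip k a b c k' a' b' c' h1 h2 h3 h4 h5]
  sub k a b c k' a' b' c' k0 a0 b0 c0 h1 h2 h3 h4 h5 h6 h7 h8 h9 h10 h11 := by
    linarith [H.sub k a b c k' a' b' c' k0 a0 b0 c0 h1 h2 h3 h4 h5 h6 h7 h8 h9 h10 h11]
  zero := H.zero
  fv t ht := by linarith [H.fv t ht]
  gu k hk := by linarith [H.gu k hk]

/-- The possible labels. -/
noncomputable def box (k a b c : ℕ) : Finset V :=
  Ico (0 : ℤ) (2 ^ k) ×ˢ Ico (0 : ℤ) (2 ^ a) ×ˢ Ico (0 : ℤ) (2 ^ b) ×ˢ Ico (0 : ℤ) (2 ^ c)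

theorem card_ico (k : ℕ) : (Ico (0 : ℤ) (2 ^ k)).card = 2 ^ k := by
  rw [Int.card_Ico, sub_zero]
  exact_mod_cast Int.toNat_natCast (2 ^ k)

theorem card_box {k a b c n : ℕ} (hk : k ≤ n) (ha : a ≤ n) (hb : b ≤ n) (hc : c ≤ n) :
    (box k a b c).card ≤ 2 ^ (4 * n) := by
  simp only [box, card_product, card_ico, ← pow_add]
  exact Nat.pow_le_pow_right two_pos (by omega)

theorem exists_box {Ω : Type} [Fintype Ω] {T : Jets Ω} {C : ℝ} (h : T.Ok C) {N q : ℕ}
    {s : Fin 8 → ℕ} (hs : ∀ i, s i ≤ N) : ∃ B : Finset (V × V), (∀ ω, T.lab2 q s ω ∈ B) ∧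
      (B.card : ℝ) ≤ exp (6 * (N * q)) := by
  have h1 : ∀ i, s i * q ≤ N * q := fun i => Nat.mul_le_mul_right q (hs i)
  refine ⟨box (s 0 * q) (s 1 * q) (s 2 * q) (s 3 * q) ×ˢ box (s 4 * q) (s 5 * q) (s 6 * q) (s 7 * q),
    fun ω => mem_product.2 ⟨Jets.lab_mem h _ _ _ _ ω, Jets.lab_mem h _ _ _ _ ω⟩, ?_⟩
  have h2 := Nat.mul_le_mul (card_box (h1 0) (h1 1) (h1 2) (h1 3))
    (card_box (h1 4) (h1 5) (h1 6) (h1 7))
  rw [← card_product, ← pow_add] at h2
  refine (Nat.cast_le.2 h2).trans ?_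
  push_cast
  rw [← exp_log two_pos, ← exp_nat_mul]
  refine exp_le_exp.2 ?_
  push_cast
  have h3 : (0 : ℝ) ≤ N * q := by positivity
  nlinarith [log_two_lt_d9]

theorem ev_le (A : ℝ) {c : ℝ} (hc : 0 < c) : ∀ᶠ q : ℕ in atTop, A ≤ c * q :=
  (tendsto_natCast_atTop_atTop.const_mul_atTop hc).eventually_ge_atTop A

/-- One counterexample at a fine scale gives an approximate entropy function. -/
theorem step (h1 : SampStmt) (h2 : AepStmt) (h3 : StrStmt) {u v C τ : ℝ} (hu : 0 < u) (hv : 0 < v)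
    (hτ : 0 < τ) {e₀ ef : ℕ → ℝ} {N : ℕ} (hN : 1 ≤ N)
    (h4 : ∀ j, ∃ (a : ℝ) (q0 : ℕ), 0 < a ∧ ∀ q ≥ q0, ∀ a' ≤ a, ∀ (Ω : Type) [Fintype Ω] (T : Jets Ω),
      T.Ok C → T.Conc N q a' → DAbc N (e₀ j) (ef j) (T.hN N q))
    (hn : ∀ (a : ℝ) (n0 : ℕ), 0 < a → ∃ n ≥ n0, ∃ δ : ℝ, δ = ((2 : ℝ) ^ (N * n))⁻¹ ∧
      ∃ (S E : Set E3) (J0 J1 J2 : E3 → ℝ → ℝ) (Q : Finset E2), Cine C S J0 J1 J2 ∧ E ⊆ S ∧
        ENNReal.ofReal (δ ^ a) ≤ hc v E ∧
        (∀ w ∈ E, ENNReal.ofReal (δ ^ a) ≤ hc u (near J0 Q δ w)) ∧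
        (Q.card : ℝ) < δ⁻¹ ^ (bnd u v - τ)) :
    ∃ h : ℕ → ℕ → ℕ → ℕ → ℝ, DStr u v N (1 / N) h ∧ (∀ j < N, DAbc N (e₀ j) (ef j) h) ∧
      h N N 0 0 ≤ bnd u v - τ / 2 := by
  choose af qf haf hq using h4
  have hN' : (1 : ℝ) ≤ N := by exact_mod_cast hN
  obtain ⟨a, ⟨ha1, ha2⟩, ha⟩ : ∃ a : ℝ, ((∀ j ∈ range N, a ≤ af j) ∧ a ≤ 1 / (8 * N)) ∧ 0 < a := by
    have e : ∀ x : ℝ, 0 < x → ∀ᶠ a in 𝓝[>] (0 : ℝ), a ≤ x := fun x hx =>
      mem_nhdsWithin_of_mem_nhds (Iic_mem_nhds hx)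
    exact ((((range N).eventually_all.2 fun j _ => e _ (haf j)).and
      (e _ (by positivity))).and self_mem_nhdsWithin).exists
  obtain ⟨n0, hA⟩ := h2 ((N + 1) ^ 8) 6 a (by norm_num) ha
  obtain ⟨q0, hq0⟩ := eventually_atTop.1 ((((range N).eventually_all.2 fun j _ =>
    eventually_ge_atTop (qf j)).and (eventually_ge_atTop 1)).and ((ev_le |n0| one_pos).and
      ((ev_le (v * log C + 3 * ee C) (show (0 : ℝ) < 2 / 5 by norm_num)).and
        (ev_le (log (21 * C)) (show 0 < τ / 4 by positivity)))))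
  obtain ⟨q, hqq, δ, hδ, S, E, J0, J1, J2, Q, hC, hE, g1, g2, g3⟩ := hn a q0 ha
  obtain ⟨⟨q1, q2⟩, q3, q4, q5⟩ := hq0 q hqq
  have hq' : (1 : ℝ) ≤ q := by exact_mod_cast q2
  have hC1 := hC.one_le
  have hl1 := log_two_gt_d9
  have hl2 := log_two_lt_d9
  have hNq : (q : ℝ) ≤ N * q := le_mul_of_one_le_left (by positivity) hN'
  have hδ0 : 0 < δ := by rw [hδ]; positivity
  have hδ1 : δ ≤ 1 := by rw [hδ]; exact inv_le_one_of_one_le₀ (one_le_pow₀ one_le_two)
  have hlog : log δ = -(N * q * log 2) := by rw [hδ, log_inv, log_pow]; push_cast; rfl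
  obtain ⟨Ω, _, T, hT, hF, s, s1, s2⟩ := h1 u v C (δ ^ a) (N * q) S E J0 J1 J2 Q hu hv
    (rpow_pos_of_pos hδ0 a) (rpow_le_one hδ0.le hδ1 ha.le) hC hE g1 (hδ ▸ g2)
  have hb : log (C ^ v / δ ^ a) = v * log C + a * (N * q * log 2) := by
    rw [log_div (rpow_pos_of_pos (by linarith) v).ne' (rpow_pos_of_pos hδ0 a).ne',
      log_rpow (by linarith), log_rpow hδ0, hlog]
    ring
  obtain ⟨p', hp', p1, p2⟩ := hA (N * q) (by linarith [le_abs_self n0]) Ω (Fin 8 → ℕ) (V × V) T.p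
    (Fintype.piFinset fun _ => range (N + 1)) (T.lab2 q) hT.isP (by simp) fun s hs =>
      exists_box hT fun i => Nat.lt_succ_iff.1 (mem_range.1 (Fintype.mem_piFinset.1 hs i))
  have hD : (0 : ℝ) < N * q * log 2 := by positivity
  refine ⟨(T.re p').hN N q, err_mono (h3 Ω T p' u v C _ _ N q hT hN q2 ?_ (by positivity) hp' p1 hF)
    ?_, fun j hj => hq j q (q1 j (mem_range.2 hj)) a (ha1 j (mem_range.2 hj)) Ω _
      (Jets.re_ok hT hp') (p2.trans (P_mono hp' fun ω _ h s hs =>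
        h s (Fintype.mem_piFinset.2 fun i => mem_range.2 (Nat.lt_succ_of_le (hs i))))), ?_⟩
  · rw [hb]
    have := log_nonneg hC1
    positivity
  · have h5 : a * (N * q) ≤ q / 8 := by
      rw [le_div_iff₀ (by positivity)] at ha2
      nlinarith
    rw [hb, div_le_div_iff₀ hD (by positivity), ← mul_assoc a, ← mul_assoc a]
    have h6 : v * log C + a * N * q * log 2 + a * N * q + 3 * ee C ≤ q * log 2 := by
      rw [← mul_assoc] at h5
      nlinarith
    nlinarith
  · obtain ⟨ω⟩ : Nonempty Ω := by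
      by_contra h
      rw [not_nonempty_iff] at h
      simpa using hp'.sum
    have h5 : (0 : ℝ) < s.card := by exact_mod_cast card_pos.2 ⟨_, s1 ω⟩
    have h6 : H p' (T.lab (N * q) (N * q) 0 0) ≤ log (21 * C * δ⁻¹ ^ (bnd u v - τ)) :=
      (H_le_log_card hp' _ s fun ω _ => s1 ω).trans (log_le_log h5 (s2.trans (by gcongr)))
    rw [log_mul (by positivity) (rpow_pos_of_pos (inv_pos.2 hδ0) _).ne', log_rpow (inv_pos.2 hδ0),
      log_inv, hlog, neg_neg] at h6
    rw [Jets.hN, div_le_iff₀ hD, zero_mul]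
    refine h6.trans ?_
    have h7 : τ / 4 * q ≤ τ / 2 * (N * q * log 2) := by
      have : (q : ℝ) / 2 ≤ N * q * log 2 := by nlinarith
      nlinarith
    nlinarith

end Disc

theorem disc (h1 : SampStmt) (h2 : AepStmt) (h3 : StrStmt) (h4 : InstStmt) (h5 : LimitStmt)
    (h6 : MacroStmt) : DiscStmt := by
  intro u v C τ hu hu1 huv hτ
  by_contra! hn
  choose ef hef hI using fun j : ℕ => h4 (1 / (j + 1)) (by positivity)
  choose h a1 a2 a3 using fun ν : ℕ => Disc.step h1 h2 h3 hu (hu.trans_le huv) hτ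
    (e₀ := fun j => 1 / (j + 1)) (ef := ef) (N := ν + 1) (Nat.succ_pos ν)
    (fun j => hI j _ C (Nat.succ_pos ν)) fun a n0 ha => hn _ a n0 (Nat.succ_pos ν) ha
  obtain ⟨H, b1, b2⟩ := h5 u v _ ef h hef (fun ν => by simpa using a1 ν)
    (fun j ν hj => a2 ν j (Nat.lt_succ_of_le hj)) a3
  linarith [h6 u v H hu hu1 huv b1]

end Pool.Agent.MP_538dc4_an.AB

end MrgPart4

-- ======== part 5: formerly Pool.Agent.MP_538dc4_an.ab.Raw
section MrgPart5

/-! PROJECT FURST2: normalization of smooth families, and the sine waves. -/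

open Set Real

namespace Pool.Agent.MP_538dc4_an.AB

namespace RawAux

theorem mvt {f f' : ℝ → ℝ} {x y K : ℝ} (hd : ∀ t ∈ uIcc x y, HasDerivAt f (f' t) t)
    (hb : ∀ t ∈ uIcc x y, |f' t| ≤ K) : |f y - f x| ≤ K * |y - x| :=
  (convex_uIcc x y).norm_image_sub_le_of_norm_hasDerivWithin_le
    (fun t ht => (hd t ht).hasDerivWithinAt) hb left_mem_uIcc right_mem_uIcc

theorem taylor {D0 D1 D2 D3 : ℝ → ℝ} {K x : ℝ} (hx : x ∈ Icc (0 : ℝ) 1)
    (d0 : ∀ t ∈ Icc (0 : ℝ) 1, HasDerivAt D0 (D1 t) t)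
    (d1 : ∀ t ∈ Icc (0 : ℝ) 1, HasDerivAt D1 (2 * D2 t) t)
    (d2 : ∀ t ∈ Icc (0 : ℝ) 1, HasDerivAt D2 (D3 t) t) (h3 : ∀ t ∈ Icc (0 : ℝ) 1, |D3 t| ≤ K) :
    ∀ y ∈ Icc (0 : ℝ) 1,
      |D0 y - D0 x - (y - x) * D1 x - (y - x) ^ 2 * D2 x| ≤ 2 * K * |y - x| ^ 3 ∧
      |D1 y - D1 x - 2 * (y - x) * D2 x| ≤ 2 * K * |y - x| ^ 2 ∧ |D2 y - D2 x| ≤ K * |y - x| := by
  have hK : 0 ≤ K := (abs_nonneg _).trans (h3 x hx)
  have hs : ∀ y ∈ Icc (0 : ℝ) 1, uIcc x y ⊆ Icc (0 : ℝ) 1 := fun y hy => uIcc_subset_Icc hx hy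
  have a2 : ∀ y ∈ Icc (0 : ℝ) 1, |D2 y - D2 x| ≤ K * |y - x| := fun y hy =>
    mvt (fun t ht => d2 t (hs y hy ht)) fun t ht => h3 t (hs y hy ht)
  have a1 : ∀ y ∈ Icc (0 : ℝ) 1, |D1 y - D1 x - 2 * (y - x) * D2 x| ≤ 2 * K * |y - x| ^ 2 := by
    intro y hy
    have := mvt (f := fun t => D1 t - 2 * (t - x) * D2 x) (f' := fun t => 2 * D2 t - 2 * 1 * D2 x)
      (x := x) (y := y) (K := 2 * K * |y - x|)
      (fun t ht => (d1 t (hs y hy ht)).sub
        ((((hasDerivAt_id' t).sub_const x).const_mul 2).mul_const _)) fun t ht => by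
        have e : 2 * D2 t - 2 * 1 * D2 x = 2 * (D2 t - D2 x) := by ring
        have h1 := mul_le_mul_of_nonneg_left (abs_sub_left_of_mem_uIcc ht) hK
        rw [e, abs_mul, abs_two]
        linarith [a2 t (hs y hy ht)]
    have e : D1 y - D1 x - 2 * (y - x) * D2 x =
        D1 y - 2 * (y - x) * D2 x - (D1 x - 2 * (x - x) * D2 x) := by ring
    rw [e]
    exact this.trans_eq (by ring)
  intro y hy
  refine ⟨?_, a1 y hy, a2 y hy⟩
  have := mvt (f := fun t => D0 t - (t - x) * D1 x - (t - x) * (t - x) * D2 x)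
    (f' := fun t => D1 t - 1 * D1 x - (1 * (t - x) + (t - x) * 1) * D2 x)
    (x := x) (y := y) (K := 2 * K * |y - x| ^ 2)
    (fun t ht => ((d0 t (hs y hy ht)).sub (((hasDerivAt_id' t).sub_const x).mul_const _)).sub
      ((((hasDerivAt_id' t).sub_const x).mul ((hasDerivAt_id' t).sub_const x)).mul_const _))
    fun t ht => by
      have e : D1 t - 1 * D1 x - (1 * (t - x) + (t - x) * 1) * D2 x =
          D1 t - D1 x - 2 * (t - x) * D2 x := by ring
      rw [e]
      refine (a1 t (hs y hy ht)).trans ?_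
      have := abs_sub_left_of_mem_uIcc ht
      gcongr
  have e : D0 y - D0 x - (y - x) * D1 x - (y - x) ^ 2 * D2 x =
      D0 y - (y - x) * D1 x - (y - x) * (y - x) * D2 x -
        (D0 x - (x - x) * D1 x - (x - x) * (x - x) * D2 x) := by ring
  rw [e]
  exact this.trans_eq (by ring)

/-- The normalization map. -/
noncomputable def nr (C t : ℝ) : ℝ := (t + C) / (2 * C + 1)

theorem nr_mem {C t : ℝ} (h : |t| ≤ C) : nr C t ∈ Ico (0 : ℝ) 1 := by
  obtain ⟨h1, h2⟩ := abs_le.1 h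
  have h3 : 0 < 2 * C + 1 := by linarith
  exact ⟨div_nonneg (by linarith) h3.le, (div_lt_one h3).2 (by linarith)⟩

theorem nr_sub (C s t : ℝ) : nr C s - nr C t = (s - t) / (2 * C + 1) := by
  rw [nr, nr, ← sub_div]
  congr 1
  ring

theorem abs_le_of_nr {C s t M : ℝ} (hC : 1 ≤ C) (h : |nr C s - nr C t| ≤ M) :
    |s - t| ≤ (2 * C + 1) * M := by
  have h3 : 0 < 2 * C + 1 := by linarith
  rwa [nr_sub, abs_div, abs_of_pos h3, div_le_iff₀' h3] at h

theorem cine {C : ℝ} {S : Set E3} {J0 J1 J2 J3 : E3 → ℝ → ℝ} (h : Raw C S J0 J1 J2 J3) :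
    Cine (3 * C ^ 2) S (fun w x => nr C (J0 w x)) (fun w x => nr C (J1 w x))
      fun w x => nr C (J2 w x) := by
  have hC := h.one_le
  have h3 : 0 < 2 * C + 1 := by linarith
  refine ⟨by nlinarith, fun w hw => ⟨fun x hx => ?_, fun x hx y hy => ?_⟩,
    fun w hw w' hw' x hx y hy M m0 m1 m2 => ?_, fun w hw w' hw' M m0 m1 m2 => ?_⟩
  · obtain ⟨b0, b1, b2⟩ := h.bdd w hw x (Ico_subset_Icc_self hx)
    exact ⟨nr_mem b0, nr_mem b1, nr_mem b2⟩
  · have hs := uIcc_subset_Icc (Ico_subset_Icc_self hy) (Ico_subset_Icc_self hx)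
    have := mvt (fun t ht => h.d0 w hw t (hs ht)) fun t ht => (h.bdd w hw t (hs ht)).2.1
    rw [nr_sub, abs_div, abs_of_pos h3]
    refine (div_le_self (abs_nonneg _) (by linarith)).trans (this.trans ?_)
    exact mul_le_mul_of_nonneg_right (by nlinarith) (abs_nonneg _)
  · have hM : 0 ≤ M := (abs_nonneg _).trans m0
    have hd := h.nd w hw w' hw' x (Ico_subset_Icc_self hx) _ (abs_le_of_nr hC m0)
      (abs_le_of_nr hC m1) (abs_le_of_nr hC m2)
    obtain ⟨t0, t1, t2⟩ := taylor (D0 := fun t => (J0 w t - J0 w' t) / (2 * C + 1))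
      (D1 := fun t => (J1 w t - J1 w' t) / (2 * C + 1))
      (D2 := fun t => (J2 w t - J2 w' t) / (2 * C + 1))
      (D3 := fun t => (J3 w t - J3 w' t) / (2 * C + 1)) (K := C ^ 2 * M) (Ico_subset_Icc_self hx)
      (fun t ht => ((h.d0 w hw t ht).sub (h.d0 w' hw' t ht)).div_const _)
      (fun t ht => (((h.d1 w hw t ht).sub (h.d1 w' hw' t ht)).div_const _).congr_deriv (by ring))
      (fun t ht => ((h.d2 w hw t ht).sub (h.d2 w' hw' t ht)).div_const _)
      (fun t ht => by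
        rw [abs_div, abs_of_pos h3, div_le_iff₀ h3]
        refine (h.lip w hw w' hw' t ht).trans ?_
        exact (mul_le_mul_of_nonneg_left hd (by linarith)).trans_eq (by ring))
      y (Ico_subset_Icc_self hy)
    simp only [nr_sub]
    have p1 : 0 ≤ C ^ 2 * M * |y - x| := by positivity
    have p2 : 0 ≤ C ^ 2 * M * |y - x| ^ 2 := by positivity
    have p3 : 0 ≤ C ^ 2 * M * |y - x| ^ 3 := by positivity
    exact ⟨by linarith, by linarith, by linarith⟩
  · have hM : 0 ≤ M := (abs_nonneg _).trans m0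
    refine (h.nd w hw w' hw' 0 (left_mem_Icc.2 zero_le_one) _ (abs_le_of_nr hC m0)
      (abs_le_of_nr hC m1) (abs_le_of_nr hC m2)).trans ?_
    rw [← mul_assoc]
    exact mul_le_mul_of_nonneg_right (by nlinarith) hM

theorem dim_le {X Y : Type} [NormedAddCommGroup X] [NormedSpace ℝ X] [NormedAddCommGroup Y]
    [NormedSpace ℝ Y] [SecondCountableTopology X] {f : X → Y} (h : ContDiff ℝ 1 f) (s : Set X) :
    dimH (f '' s) ≤ dimH s :=
  dimH_image_le_of_locally_lipschitzOn fun x _ =>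
    let ⟨C, t, ht, hf⟩ := (h.contDiffAt (x := x)).exists_lipschitzOnWith
    ⟨C, t, mem_nhdsWithin_of_mem_nhds ht, hf⟩

theorem cd_pt {X : Type} [NormedAddCommGroup X] [NormedSpace ℝ X] {f g : X → ℝ}
    (hf : ContDiff ℝ 1 f) (hg : ContDiff ℝ 1 g) : ContDiff ℝ 1 fun y => pt (f y) (g y) :=
  contDiff_euclidean.2 fun i => by
    fin_cases i
    exacts [hf, hg]

theorem cd_co (i : Fin 2) : ContDiff ℝ 1 fun y : E2 => y i := contDiff_euclidean.1 contDiff_id i

theorem eq_pt (z : E2) : z = pt (z 0) (z 1) := by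
  ext i
  fin_cases i <;> rfl

/-- The two rotated coordinates. -/
noncomputable def sA (w : E3) (s : ℝ) : ℝ := w 0 * cos (2 * π * s) + w 1 * sin (2 * π * s)

noncomputable def sB (w : E3) (s : ℝ) : ℝ := w 1 * cos (2 * π * s) - w 0 * sin (2 * π * s)

theorem d_lin (s : ℝ) : HasDerivAt (fun s => 2 * π * s) (2 * π) s := by
  simpa using (hasDerivAt_id' s).const_mul (2 * π)

theorem d_sA (w : E3) (s : ℝ) : HasDerivAt (sA w) (2 * π * sB w s) s :=
  (((d_lin s).cos.const_mul (w 0)).add ((d_lin s).sin.const_mul (w 1))).congr_deriv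
    (by rw [sB]; ring)

theorem d_sB (w : E3) (s : ℝ) : HasDerivAt (sB w) (-(2 * π * sA w s)) s :=
  (((d_lin s).cos.const_mul (w 1)).sub ((d_lin s).sin.const_mul (w 0))).congr_deriv
    (by rw [sA]; ring)

theorem sA_sub (w w' : E3) (s : ℝ) : sA w s - sA w' s = sA (w - w') s := by
  simp only [sA, PiLp.sub_apply]
  ring

theorem sB_sub (w w' : E3) (s : ℝ) : sB w s - sB w' s = sB (w - w') s := by
  simp only [sB, PiLp.sub_apply]
  ring

theorem norm_sq (w : E3) (s : ℝ) : ‖w‖ ^ 2 = sA w s ^ 2 + sB w s ^ 2 + w 2 ^ 2 := by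
  rw [EuclideanSpace.real_norm_sq_eq, Fin.sum_univ_three, sA, sB]
  linear_combination (-(w 0 ^ 2 + w 1 ^ 2)) * cos_sq_add_sin_sq (2 * π * s)

theorem abs_le_norm (w : E3) (s : ℝ) : |sA w s| ≤ ‖w‖ ∧ |sB w s| ≤ ‖w‖ ∧ |w 2| ≤ ‖w‖ := by
  have := norm_sq w s
  refine ⟨?_, ?_, ?_⟩ <;> refine abs_le_of_sq_le_sq' ?_ (norm_nonneg w) |> abs_le.2 <;>
    nlinarith [sq_nonneg (sA w s), sq_nonneg (sB w s), sq_nonneg (w 2)]

theorem abs_mul_div_le {c t T K : ℝ} (hc : |c| ≤ K) (ht : |t| ≤ T) : |c * t / √2| ≤ K * T := by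
  rw [abs_div, abs_of_pos (a := √2) (by positivity), abs_mul]
  exact (div_le_self (by positivity) one_lt_sqrt_two.le).trans
    (mul_le_mul hc ht (abs_nonneg _) ((abs_nonneg _).trans hc))

theorem abs_le_of_mul_div {c t M : ℝ} (hc : 1 ≤ |c|) (h : |c * t / √2| ≤ M) : |t| ≤ 2 * M := by
  have h2 : √2 ≤ 2 := sqrt_le_iff.2 ⟨by norm_num, by norm_num⟩
  have hM : 0 ≤ M := (abs_nonneg _).trans h
  rw [abs_div, abs_of_pos (a := √2) (by positivity), abs_mul, div_le_iff₀ (by positivity)] at h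
  nlinarith [abs_nonneg t]

theorem raw_sine (R : ℝ) (hR : 0 ≤ R) :
    Raw (256 + 32 * R) (Metric.closedBall 0 R) (fun w s => (sA w s + w 2) / √2)
      (fun w s => 2 * π * sB w s / √2) (fun w s => -(2 * π ^ 2) * sA w s / √2)
      fun w s => -(4 * π ^ 3) * sB w s / √2 := by
  have p3 := pi_gt_three
  have p4 := pi_le_four
  have c1 : |2 * π| = 2 * π := abs_of_pos (by positivity)
  have c2 : |-(2 * π ^ 2)| = 2 * π ^ 2 := by rw [abs_neg, abs_of_pos (by positivity)]
  have c3 : |-(4 * π ^ 3)| = 4 * π ^ 3 := by rw [abs_neg, abs_of_pos (by positivity)]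
  refine ⟨by linarith, fun w _ x _ => ((d_sA w x).add_const _).div_const _,
    fun w _ x _ => (((d_sB w x).const_mul _).div_const _).congr_deriv (by ring),
    fun w _ x _ => (((d_sA w x).const_mul _).div_const _).congr_deriv (by ring),
    fun w hw x _ => ?_, fun w _ w' _ x _ => ?_, fun w _ w' _ x _ M m0 m1 m2 => ?_⟩
  · obtain ⟨a, b, c⟩ := abs_le_norm w x
    have hw : ‖w‖ ≤ R := mem_closedBall_zero_iff.1 hw
    have h0 := abs_mul_div_le (c := 1) (K := 1) (T := 2 * R) abs_one.le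
      ((abs_add_le (sA w x) (w 2)).trans (by linarith))
    have h1 := abs_mul_div_le (c := 2 * π) (K := 8) (by linarith) (b.trans hw)
    have h2 := abs_mul_div_le (c := -(2 * π ^ 2)) (K := 32) (by rw [c2]; nlinarith) (a.trans hw)
    rw [one_mul] at h0
    exact ⟨by linarith, by linarith, by linarith⟩
  · rw [← sub_div, ← mul_sub, sB_sub, dist_eq_norm]
    have : π ^ 3 ≤ 4 ^ 3 := pow_le_pow_left₀ pi_pos.le p4 3
    refine (abs_mul_div_le (K := 256) (by rw [c3]; linarith) (abs_le_norm _ x).2.1).trans ?_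
    exact mul_le_mul_of_nonneg_right (by linarith) (norm_nonneg _)
  · have hM : 0 ≤ M := (abs_nonneg _).trans m0
    rw [← sub_div, ← mul_sub, sB_sub] at m1
    rw [← sub_div, ← mul_sub, sA_sub] at m2
    rw [← sub_div, add_sub_add_comm, sA_sub, ← PiLp.sub_apply, ← one_mul (_ + _)] at m0
    have h0 := abs_le.1 (abs_le_of_mul_div abs_one.ge m0)
    have h1 := abs_le.1 (abs_le_of_mul_div (by rw [c1]; linarith) m1)
    have h2 := abs_le.1 (abs_le_of_mul_div (by rw [c2]; nlinarith) m2)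
    have h3 := sq_le_sq' h1.1 h1.2
    have h4 := sq_le_sq' h2.1 h2.2
    have h5 : (w - w') 2 ^ 2 ≤ (4 * M) ^ 2 := sq_le_sq' (by linarith) (by linarith)
    have h6 : ‖w - w'‖ ≤ 5 * M :=
      (abs_le_of_sq_le_sq' (by rw [norm_sq _ x]; nlinarith) (by positivity)).2
    rw [dist_eq_norm]
    exact h6.trans (mul_le_mul_of_nonneg_right (by linarith) hM)

end RawAux

open RawAux

theorem raw (h : RedStmt) : RawStmt := by
  intro u v C S E J0 J1 J2 J3 F hu hu1 hv hR hE hd hF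
  refine (h u v _ S E _ _ _ ((fun z : E2 => pt (z 0) (nr C (z 1))) '' F) hu hu1 hv (cine hR) hE hd
    fun w hw => (hF w hw).trans_le (dimH_mono fun x hx => ⟨hx.1, _, hx.2, rfl⟩)).trans
    (dim_le (cd_pt (cd_co 0) (((cd_co 1).add contDiff_const).div_const _)) F)

theorem sine_stmt (h : RawStmt) : SineStmt := by
  intro u v E F hu hu1 hv hE hF
  have hsub : E ⊆ ⋃ R : ℕ, E ∩ Metric.closedBall 0 R := fun x hx =>
    let ⟨R, hR⟩ := exists_nat_ge ‖x‖
    mem_iUnion.2 ⟨R, hx, mem_closedBall_zero_iff.2 hR⟩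
  have h1 := hE.trans_le (dimH_mono hsub)
  rw [dimH_iUnion, lt_iSup_iff] at h1
  obtain ⟨R, hR⟩ := h1
  have hp : 0 < 2 * π := by positivity
  refine (h u v _ _ _ _ _ _ _ ((fun z : E2 => pt (z 0 / (2 * π)) (z 1)) '' F) hu hu1 hv
    (raw_sine R R.cast_nonneg) inter_subset_right hR fun w hw => (hF w hw.1).trans_le ?_).trans
    (dim_le (cd_pt ((cd_co 0).div_const _) (cd_co 1)) F)
  have hc : ContDiff ℝ 1 fun s : ℝ => pt (2 * π * s) ((sA w s + w 2) / √2) :=
    cd_pt (by fun_prop) (by unfold sA; fun_prop)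
  have hU : ∀ T : Set ℝ, dimH ({1} ∪ T) ≤ dimH T := fun T => by
    rw [dimH_union, dimH_singleton]
    exact max_le bot_le le_rfl
  refine le_trans (dimH_mono ?_) ((dim_le hc _).trans (hU _))
  rintro z ⟨⟨h1, h2⟩, hz⟩
  have e : 2 * π * (z 0 / (2 * π)) = z 0 := mul_div_cancel₀ _ hp.ne'
  have e2 : (sA w (z 0 / (2 * π)) + w 2) / √2 = z 1 := by rw [sA, e, h2]
  refine ⟨z 0 / (2 * π), ?_, by simp only [e, e2]; exact (eq_pt z).symm⟩
  rcases ((div_le_one hp).2 h1.2).eq_or_lt with h3 | h3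
  · exact Or.inl h3
  · exact Or.inr ⟨⟨div_nonneg h1.1 hp.le, h3⟩, z, hz, by simp only [e2]⟩

end Pool.Agent.MP_538dc4_an.AB

end MrgPart5

-- ======== part 6: formerly Pool.Agent.MP_538dc4_an.ab.Red
section MrgPart6

/-! PROJECT FURST2, module RED: from the discrete estimate to Hausdorff dimension. -/

open MeasureTheory Filter Topology
open scoped ENNReal NNReal

namespace Pool.Agent.MP_538dc4_an.AB

namespace Red

theorem hcPos (X : Type) [EMetricSpace X] (s : ℝ) (A : Set X) (hs : 0 < s)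
    (h : ENNReal.ofReal s < dimH A) : 0 < hc s A := by
  refine pos_iff_ne_zero.2 fun h0 => h.not_ge ?_
  borelize X
  refine dimH_le_of_hausdorffMeasure_ne_top (d := s.toNNReal) (ne_top_of_le_ne_top (b := 1)
    ENNReal.one_ne_top ?_)
  rw [Real.coe_toNNReal s hs.le, Measure.hausdorffMeasure_apply]
  refine iSup₂_le fun r hr => ?_
  have h1 : hc s A < min 1 (r ^ s) := h0 ▸ lt_min one_pos (ENNReal.rpow_pos_of_nonneg hr hs.le)
  rw [hc, OuterMeasure.boundedBy_apply] at h1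
  simp only [iInf_lt_iff] at h1
  obtain ⟨t, h2, h3⟩ := h1
  refine iInf_le_of_le t (iInf_le_of_le h2 (iInf_le_of_le (fun n => ?_)
    (h3.le.trans (min_le_left _ _))))
  rcases (t n).eq_empty_or_nonempty with e | e
  · simp [e]
  · have h4 := ((ENNReal.le_tsum n).trans_lt h3).trans_le (min_le_right _ _)
    rw [iSup_pos e] at h4
    exact ((ENNReal.rpow_lt_rpow_iff hs).1 h4).le

theorem cover (F : Set E2) (s r : ℝ) (hs : 0 < s) (hr : 0 < r) (h : dimH F < ENNReal.ofReal s) :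
    ∃ (x : ℕ → E2) (d : ℕ → ℝ), (∀ n, 0 < d n ∧ d n ≤ r) ∧ Summable (fun n => d n ^ s) ∧
      ∑' n, d n ^ s ≤ 2 ∧ F ⊆ ⋃ n, Metric.closedBall (x n) (d n) := by
  have h0 := hausdorffMeasure_of_dimH_lt (d := s.toNNReal) h
  rw [Real.coe_toNNReal s hs.le, Measure.hausdorffMeasure_apply] at h0
  have h1 := ((le_iSup₂ (f := fun (ρ : ℝ≥0∞) (_ : 0 < ρ) => ⨅ (t : ℕ → Set E2) (_ : F ⊆ ⋃ n, t n)
    (_ : ∀ n, Metric.ediam (t n) ≤ ρ), ∑' n, ⨆ _ : (t n).Nonempty, Metric.ediam (t n) ^ s)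
    (ENNReal.ofReal r) (ENNReal.ofReal_pos.2 hr)).trans h0.le).trans_lt one_pos
  simp only [iInf_lt_iff] at h1
  obtain ⟨t, h2, h3, h4⟩ := h1
  have h5 : ∀ n, Metric.ediam (t n) ≠ ⊤ := fun n => ne_top_of_le_ne_top ENNReal.ofReal_ne_top (h3 n)
  have h6 : ∀ n, (⨆ _ : (t n).Nonempty, Metric.ediam (t n) ^ s) =
      ENNReal.ofReal (Metric.diam (t n) ^ s) := fun n => by
    rcases (t n).eq_empty_or_nonempty with e | e
    · simp [e, hs.ne']
    · rw [iSup_pos e, ← ENNReal.ofReal_rpow_of_nonneg Metric.diam_nonneg hs.le, Metric.diam,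
        ENNReal.ofReal_toReal (h5 n)]
  simp only [h6] at h4
  have h7 : ∀ n, 0 ≤ Metric.diam (t n) ^ s := fun n => Real.rpow_nonneg Metric.diam_nonneg s
  have h8 : Summable fun n => Metric.diam (t n) ^ s := by
    simpa [ENNReal.toReal_ofReal (h7 _)] using ENNReal.summable_toReal h4.ne_top
  rw [← ENNReal.ofReal_tsum_of_nonneg h7 h8, ENNReal.ofReal_lt_one] at h4
  have h9 : ∀ n, ∃ x : E2, t n ⊆ Metric.closedBall x (Metric.diam (t n)) := fun n => by
    rcases (t n).eq_empty_or_nonempty with e | ⟨x, e⟩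
    · exact ⟨0, by simp [e]⟩
    · exact ⟨x, fun y hy => Metric.dist_le_diam_of_mem' (h5 n) hy e⟩
  choose x hx using h9
  have k1 : ∀ n : ℕ, max (Metric.diam (t n)) (min r ((1 / 2 / 2 ^ n : ℝ) ^ s⁻¹)) ^ s ≤
      Metric.diam (t n) ^ s + 1 / 2 / 2 ^ n := fun n => by
    have a : (0 : ℝ) < 1 / 2 / 2 ^ n := by positivity
    rcases max_choice (Metric.diam (t n)) (min r ((1 / 2 / 2 ^ n : ℝ) ^ s⁻¹)) with e | e <;> rw [e]
    · linarith
    · have b := Real.rpow_le_rpow (le_min hr.le (Real.rpow_nonneg a.le _))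
        (min_le_right r ((1 / 2 / 2 ^ n : ℝ) ^ s⁻¹)) hs.le
      rw [Real.rpow_inv_rpow a.le hs.ne'] at b
      linarith [h7 n]
  have k2 := h8.add (summable_geometric_two' 1)
  have k3 : Summable fun n : ℕ =>
      max (Metric.diam (t n)) (min r ((1 / 2 / 2 ^ n : ℝ) ^ s⁻¹)) ^ s :=
    k2.of_nonneg_of_le (fun n => Real.rpow_nonneg (le_max_of_le_left Metric.diam_nonneg) s) k1
  refine ⟨x, fun n => max (Metric.diam (t n)) (min r ((1 / 2 / 2 ^ n : ℝ) ^ s⁻¹)),
    fun n => ⟨lt_max_of_lt_right (lt_min hr (by positivity)), max_le ?_ (min_le_left _ _)⟩, k3,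
    (k3.tsum_le_tsum k1 k2).trans ?_, h2.trans (Set.iUnion_mono fun n =>
      (hx n).trans (Metric.closedBall_subset_closedBall (le_max_left _ _)))⟩
  · exact ENNReal.toReal_le_of_le_ofReal hr.le (h3 n)
  · rw [h8.tsum_add (summable_geometric_two' 1), tsum_geometric_two']
    linarith

/-- Countable pigeonhole principle for outer measures. -/
theorem pig {X : Type*} (μ : OuterMeasure X) {A : Set X} {B : ℕ → Set X} (h : A ⊆ ⋃ n, B n)
    {w : ℕ → ℝ≥0∞} (hw : ∑' n, w n < μ A) : ∃ n, w n ≤ μ (B n) := by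
  by_contra hc
  push Not at hc
  have h1 : μ A ≤ ∑' n, μ (B n) := (μ.mono h).trans (measure_iUnion_le B)
  have h2 : ∑' n, μ (B n) ≤ ∑' n, w n := ENNReal.tsum_le_tsum fun n => (hc n).le
  exact absurd (h1.trans h2) (not_le.mpr hw)

theorem pig0 {X : Type*} (μ : OuterMeasure X) {A : Set X} {B : ℕ → Set X} (h : A ⊆ ⋃ n, B n)
    (hA : 0 < μ A) : ∃ n, 0 < μ (B n) := by
  by_contra hc
  push Not at hc
  have h1 : μ A ≤ ∑' n, μ (B n) := (μ.mono h).trans (measure_iUnion_le B)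
  have h2 : ∑' n, μ (B n) = 0 := by
    rw [ENNReal.tsum_eq_zero]
    exact fun n => le_antisymm (hc n) bot_le
  rw [h2] at h1
  exact absurd h1 (not_le.mpr hA)

/-- The scales. -/
noncomputable def dl (g n : ℕ) : ℝ := ((2 : ℝ) ^ (g * n))⁻¹

theorem dl_pos (g n : ℕ) : 0 < dl g n := by
  unfold dl
  positivity

theorem dl_eq (g n : ℕ) : dl g n = (((2 : ℝ) ^ g)⁻¹) ^ n := by
  rw [dl, pow_mul, inv_pow]

theorem dl_succ (g n : ℕ) : dl g (n + 1) = dl g n * ((2 : ℝ) ^ g)⁻¹ := by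
  rw [dl_eq, dl_eq, pow_succ]

theorem base_lt {g : ℕ} (hg : 1 ≤ g) : ((2 : ℝ) ^ g)⁻¹ < 1 :=
  inv_lt_one_of_one_lt₀ (one_lt_pow₀ (by norm_num) (by omega))

theorem dl_rpow (g n : ℕ) (a : ℝ) : dl g n ^ a = ((((2 : ℝ) ^ g)⁻¹) ^ a) ^ n := by
  rw [dl_eq, ← Real.rpow_natCast, ← Real.rpow_mul (by positivity), mul_comm,
    Real.rpow_mul (by positivity), Real.rpow_natCast]

theorem dl_tendsto {g : ℕ} (hg : 1 ≤ g) {a : ℝ} (ha : 0 < a) :
    Tendsto (fun n => dl g n ^ a) atTop (𝓝 0) := by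
  simp only [dl_rpow]
  exact tendsto_pow_atTop_nhds_zero_of_lt_one (by positivity)
    (Real.rpow_lt_one (by positivity) (base_lt hg) ha)

theorem dl_summable {g : ℕ} (hg : 1 ≤ g) {a : ℝ} (ha : 0 < a) :
    Summable fun n => dl g n ^ a := by
  simp only [dl_rpow]
  exact summable_geometric_of_lt_one (by positivity)
    (Real.rpow_lt_one (by positivity) (base_lt hg) ha)

/-- The tails of the geometric series are eventually small. -/
theorem tail_small {g : ℕ} (hg : 1 ≤ g) {a : ℝ} (ha : 0 < a) {c : ℝ≥0∞} (hc : 0 < c) :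
    ∀ᶠ n1 in atTop, ∑' m, ENNReal.ofReal (dl g (m + n1) ^ a) < c := by
  have h := ENNReal.tendsto_sum_nat_add (fun n => ENNReal.ofReal (dl g n ^ a))
    (dl_summable hg ha).tsum_ofReal_ne_top
  exact h.eventually (gt_mem_nhds hc)

/-- Every small positive number lies between two consecutive scales. -/
theorem exists_scale {g : ℕ} (hg : 1 ≤ g) (n1 : ℕ) {d : ℝ} (hd : 0 < d) (hd1 : d ≤ dl g n1) :
    ∃ m, dl g (m + n1 + 1) < d ∧ d ≤ dl g (m + n1) := by
  classical
  have hex : ∃ m, dl g (m + n1 + 1) < d := by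
    have h := (dl_tendsto hg one_pos).eventually (gt_mem_nhds hd)
    obtain ⟨N, hN⟩ := eventually_atTop.mp h
    exact ⟨N, by simpa using hN (N + n1 + 1) (by omega)⟩
  refine ⟨Nat.find hex, Nat.find_spec hex, ?_⟩
  rcases Nat.eq_zero_or_pos (Nat.find hex) with h0 | h0
  · rw [h0, zero_add]
    exact hd1
  · have := Nat.find_min hex (m := Nat.find hex - 1) (by omega)
    rw [show Nat.find hex - 1 + n1 + 1 = Nat.find hex + n1 by omega] at this
    exact not_lt.mp this

/-- Few radii of a cover are larger than a given number. -/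
theorem few {d : ℕ → ℝ} {s ρ : ℝ} (hs : 0 < s) (hρ : 0 < ρ) (hd : ∀ n, 0 < d n)
    (hsum : Summable fun n => d n ^ s) (h2 : ∑' n, d n ^ s ≤ 2) :
    ∃ I : Finset ℕ, (∀ i, ρ < d i → i ∈ I) ∧ (I.card : ℝ) * ρ ^ s ≤ 2 := by
  classical
  have hfin : {i | ρ < d i}.Finite := by
    have h := hsum.tendsto_atTop_zero.eventually (gt_mem_nhds (Real.rpow_pos_of_pos hρ s))
    obtain ⟨N, hN⟩ := eventually_atTop.mp h
    refine (Set.finite_lt_nat N).subset fun i hi => ?_
    by_contra hc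
    have h1 := hN i (not_lt.mp hc)
    have h3 : ρ ^ s < d i ^ s := Real.rpow_lt_rpow hρ.le hi hs
    linarith
  refine ⟨hfin.toFinset, fun i hi => by simpa using hi, ?_⟩
  calc (hfin.toFinset.card : ℝ) * ρ ^ s = ∑ _i ∈ hfin.toFinset, ρ ^ s := by
        rw [Finset.sum_const, nsmul_eq_mul]
    _ ≤ ∑ i ∈ hfin.toFinset, d i ^ s := Finset.sum_le_sum fun i hi =>
        Real.rpow_le_rpow hρ.le (le_of_lt (by simpa using hi)) hs.le
    _ ≤ ∑' n, d n ^ s := hsum.sum_le_tsum _ fun i _ => Real.rpow_nonneg (hd i).le _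
    _ ≤ 2 := h2

theorem small_eventually {c : ℝ≥0∞} (hc : 0 < c) :
    ∀ᶠ i : ℕ in atTop, ENNReal.ofReal (1 / ((i : ℝ) + 1)) < c := by
  have h4 : Tendsto (fun i : ℕ => ENNReal.ofReal (1 / ((i : ℝ) + 1))) atTop
      (𝓝 (ENNReal.ofReal 0)) :=
    ENNReal.tendsto_ofReal tendsto_one_div_add_atTop_nhds_zero_nat
  rw [ENNReal.ofReal_zero] at h4
  exact h4.eventually (gt_mem_nhds hc)

end Red

open Red in
/-- RED. -/
theorem red (hD : DiscStmt) : RedStmt := by
  classical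
  intro u v C S E J0 J1 J2 F hu0 hu1 huv hS hES hE hA
  have hv0 : 0 < v := hu0.trans_le huv
  by_contra hcon
  obtain ⟨s', -, hs1, hs2⟩ := ENNReal.lt_iff_exists_real_btwn.mp (not_le.mp hcon)
  have hs0 : 0 < s' := ENNReal.ofReal_pos.mp (lt_of_le_of_lt bot_le hs1)
  have hs3 : s' < bnd u v :=
    (ENNReal.ofReal_lt_ofReal_iff_of_nonneg hs0.le).mp hs2
  set s := bnd u v with hs
  set τ := (s - s') / 2 with hτ
  have hτ0 : 0 < τ := by rw [hτ]; linarith
  -- a piece of E with uniform constants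
  let A : E3 → Set ℝ := fun X => {φ | φ ∈ Set.Ico (0 : ℝ) 1 ∧ pt φ (J0 X φ) ∈ F}
  let Ei : ℕ → Set E3 := fun i => {X | X ∈ S ∧
    ENNReal.ofReal (1 / ((i : ℝ) + 1)) < hc u (A X)}
  have hcov : E ⊆ ⋃ i, Ei i := fun X hX => by
    obtain ⟨i, h2⟩ := (small_eventually (hcPos ℝ u (A X) hu0 (hA X hX))).exists
    exact Set.mem_iUnion.mpr ⟨i, hES hX, h2⟩
  obtain ⟨i, hi⟩ := pig0 (hc v) hcov (hcPos E3 v E hv0 hE)
  obtain ⟨g, a, n0, hg, ha, hdisc⟩ := hD u v C τ hu0 hu1 huv hτ0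
  -- choice of the first scale
  have hB : 0 < (((2 : ℝ) ^ g)⁻¹) ^ s' / 2 := by positivity
  obtain ⟨N, hN⟩ := eventually_atTop.mp ((dl_tendsto hg hτ0).eventually (gt_mem_nhds hB))
  obtain ⟨n1, ⟨⟨t1, t2⟩, t3⟩, t4⟩ := ((((tail_small hg ha hi).and (tail_small hg ha
    (c := ENNReal.ofReal (1 / ((i : ℝ) + 1))) (ENNReal.ofReal_pos.mpr (by positivity)))).and
      (eventually_ge_atTop n0)).and (eventually_ge_atTop N)).exists
  obtain ⟨x, d, hd, hsum, h2, hF⟩ := cover F s' (dl g n1) hs0 (dl_pos g n1) hs1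
  choose I hI hIc using fun m : ℕ =>
    few hs0 (dl_pos g (m + n1 + 1)) (fun n => (hd n).1) hsum h2
  let Am : ℕ → E3 → Set ℝ := fun m X => near J0 ((I m).image x) (dl g (m + n1)) X
  have hAm : ∀ X, A X ⊆ ⋃ m, Am m X := fun X φ hφ => by
    obtain ⟨j, hj⟩ := Set.mem_iUnion.mp (hF hφ.2)
    obtain ⟨m, h1, h3⟩ := exists_scale hg n1 (hd j).1 (hd j).2
    refine Set.mem_iUnion.mpr ⟨m, hφ.1, x j, Finset.mem_image_of_mem _ (hI m j h1), ?_⟩
    rw [dist_comm]
    exact (Metric.mem_closedBall.mp hj).trans h3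
  let Em : ℕ → Set E3 := fun m => {X | X ∈ S ∧
    ENNReal.ofReal (dl g (m + n1) ^ a) ≤ hc u (Am m X)}
  have hEm : Ei i ⊆ ⋃ m, Em m := fun X hX => by
    obtain ⟨m, hm⟩ := pig (hc u) (hAm X) (t2.trans hX.2)
    exact Set.mem_iUnion.mpr ⟨m, hX.1, hm⟩
  obtain ⟨m, hm⟩ := pig (hc v) hEm t1
  have key := hdisc (m + n1) (by omega) (dl g (m + n1)) rfl S (Em m) J0 J1 J2 ((I m).image x) hS
    (fun X hX => hX.1) hm (fun X hX => hX.2)
  -- the contradiction
  have hδ := dl_pos g (m + n1)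
  have hcard : (((I m).image x).card : ℝ) ≤ (I m).card := by
    exact_mod_cast Finset.card_image_le
  have h5 := hIc m
  rw [dl_succ, Real.mul_rpow hδ.le (by positivity)] at h5
  have h6 := hN (m + n1) (by omega)
  have h7 : (dl g (m + n1))⁻¹ ^ (s - τ) * (dl g (m + n1) ^ s' * dl g (m + n1) ^ τ) = 1 := by
    rw [← Real.rpow_add hδ, Real.inv_rpow hδ.le, show s' + τ = s - τ by rw [hτ]; ring]
    exact inv_mul_cancel₀ (Real.rpow_pos_of_pos hδ _).ne'
  have p1 := Real.rpow_pos_of_pos hδ s'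
  have p2 := Real.rpow_pos_of_pos hδ τ
  have h8 : 1 ≤ ((I m).card : ℝ) * (dl g (m + n1) ^ s' * dl g (m + n1) ^ τ) := by
    rw [← h7]
    exact mul_le_mul_of_nonneg_right (key.trans hcard) (by positivity)
  have hc0 : (0 : ℝ) < (I m).card := by
    by_contra h0
    have : ((I m).card : ℝ) * (dl g (m + n1) ^ s' * dl g (m + n1) ^ τ) ≤ 0 :=
      mul_nonpos_of_nonpos_of_nonneg (not_lt.mp h0) (by positivity)
    linarith
  have h9 : ((I m).card : ℝ) * (dl g (m + n1) ^ s' * dl g (m + n1) ^ τ) <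
      ((I m).card : ℝ) * (dl g (m + n1) ^ s' * ((((2 : ℝ) ^ g)⁻¹) ^ s' / 2)) :=
    mul_lt_mul_of_pos_left (mul_lt_mul_of_pos_left h6 p1) hc0
  nlinarith


theorem lim_bound {u v : ℝ} (hu : 0 < u) (huv : u ≤ v) {d : ℝ≥0∞}
    (h : ∀ u' v' : ℝ, 0 < u' → u' < u → u' ≤ v' → v' < v → ENNReal.ofReal (bnd u' v') ≤ d) :
    ENNReal.ofReal (bnd u v) ≤ d := by
  have hv : 0 < v := hu.trans_le huv
  have hc : Continuous fun s : ℝ => ENNReal.ofReal (bnd (s * u) (s * v)) :=
    ENNReal.continuous_ofReal.comp (by unfold bnd; fun_prop)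
  have ht : Tendsto (fun s : ℝ => ENNReal.ofReal (bnd (s * u) (s * v)))
      (𝓝[<] 1) (𝓝 (ENNReal.ofReal (bnd u v))) := by
    have := (hc.tendsto 1).mono_left (nhdsWithin_le_nhds (s := Set.Iio 1))
    simpa only [one_mul] using this
  refine le_of_tendsto ht ?_
  filter_upwards [Ioo_mem_nhdsLT (show (0 : ℝ) < 1 by norm_num)] with s hs
  exact h _ _ (mul_pos hs.1 hu) (by nlinarith [hs.2]) (by nlinarith [hs.1])
    (by nlinarith [hs.2])

theorem main_of (hC : CircStmt) (hS : SineStmt) {u v : ℝ} (hu : 0 < u) (hu1 : u ≤ 1)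
    (huv : u ≤ v) {F : Set E2} (hF : IsCircFurst u v F ∨ IsSineFurst u v F) :
    ENNReal.ofReal (min ((5 * u + v) / 3) (u + 1)) ≤ dimH F := by
  have hv : 0 < v := hu.trans_le huv
  have e : min ((5 * u + v) / 3) (u + 1) = bnd u v := by
    rw [bnd, ← min_add_add_left, min_comm]
    congr 1
    ring
  rw [e]
  refine lim_bound hu huv fun u' v' h1 h2 h3 h4 => ?_
  have a1 : ENNReal.ofReal u' < ENNReal.ofReal u := (ENNReal.ofReal_lt_ofReal_iff hu).2 h2
  have a2 : ENNReal.ofReal v' < ENNReal.ofReal v := (ENNReal.ofReal_lt_ofReal_iff hv).2 h4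
  rcases hF with ⟨E, hE, hd, hx⟩ | ⟨E, hd, hx⟩
  · exact hC u' v' E F h1 (by linarith) h3 hE (a2.trans_le hd)
      fun x hxE => a1.trans_le (hx x hxE)
  · exact hS u' v' E F h1 (by linarith) h3 (a2.trans_le hd)
      fun x hxE => a1.trans_le (hx x hxE)

theorem macro_of (h1 : LamStmt) (h2 : MacStmt) (h3 : FinStmt) : MacroStmt := by
  intro u v H hu hu1 huv hH
  obtain ⟨lam, hl⟩ := h1 u v H hH
  have a := h3 _ u v (h2 u v H lam hu hu1 hH hl) huv
  have b := hH.gu 1 ⟨zero_le_one, le_rfl⟩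
  simp only [mac, Mac.R] at a
  rw [bnd]
  linarith

end Pool.Agent.MP_538dc4_an.AB

end MrgPart6

-- ======== part 7: formerly Pool.Agent.MP_538dc4_an.ab.MacOk
section MrgPart7

/-! PROJECT FURST2, module MAC: the data attached to an entropy function are admissible. -/

open MeasureTheory Filter Topology Set

namespace Pool.Agent.MP_538dc4_an.AB

namespace MacX

lemma et_pos (n : ℕ) : 0 < et n := pow_pos (by norm_num) n

lemma et_lt {δ : ℝ} (h : 0 < δ) : ∀ᶠ n in atTop, et n < δ :=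
  (tendsto_pow_atTop_nhds_zero_of_lt_one (r := (2 : ℝ)⁻¹) (by norm_num) (by norm_num)).eventually
    (gt_mem_nhds h)

/-- Increments near a point of differentiability. -/
lemma incr {E : Type} [NormedAddCommGroup E] [NormedSpace ℝ E] {F : E → ℝ} {z : E}
    (h : DifferentiableAt ℝ F z) {ε : ℝ} (hε : 0 < ε) : ∀ᶠ n in atTop, ∀ p q : E, ‖p‖ ≤ et n →
      ‖q‖ ≤ et n → fderiv ℝ F z (p - q) - ε * et n ≤ F (z + p) - F (z + q) := by
  have h1 := (hasFDerivAt_iff_isLittleO_nhds_zero.1 h.hasFDerivAt).def (half_pos hε)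
  obtain ⟨δ, hδ, h2⟩ := Metric.eventually_nhds_iff.1 h1
  filter_upwards [et_lt hδ] with n hn p q hp hq
  have h3 := abs_le.1 ((h2 (y := p) (by simpa using hp.trans_lt hn)).trans
    (mul_le_mul_of_nonneg_left hp (half_pos hε).le))
  have h4 := abs_le.1 ((h2 (y := q) (by simpa using hq.trans_lt hn)).trans
    (mul_le_mul_of_nonneg_left hq (half_pos hε).le))
  rw [map_sub]
  linarith [h3.1, h4.2]

variable {u v : ℝ} {H : ℝ → ℝ → ℝ → ℝ → ℝ} {lam : ℝ → ℝ → ℝ}

/-- The constraint at one configuration. -/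
lemma core (hM : Macro u v H) (hL : Lam H lam) {ρ k b c x L : ℝ}
    (hρ : ρ = 0 ∧ b < c + k ∨ ρ = 1 ∧ b = c + k) (hc : 0 < c) (hb : c < b) (hk : 0 < k)
    (hy : b + k < L) (h1 : L ≤ 1) (hx : 0 ≤ x) (hxc : x ≤ c) (hs : Small H ρ k b c)
    (hd : DifferentiableAt ℝ (fun z : ℝ × ℝ => H 1 L z.1 z.2) (b, c))
    (hW : DifferentiableAt ℝ (mac H lam).W k) {σ : ℝ}
    (hσ : fderiv ℝ (fun z : ℝ × ℝ => H 1 L z.1 z.2) (b, c) (1 - ρ, ρ) = σ) (h0 : 0 < σ)
    (hl : 0 < lam x (b + k)) : min 1 (σ + lam x (b + k)) ≤ (mac H lam).om k := by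
  set ω := (mac H lam).om k with hω
  rcases le_or_gt 1 ω with h2 | h2
  · exact (min_le_left _ _).trans h2
  have hρ0 : 0 ≤ ρ ∧ ρ ≤ 1 ∧ b ≤ c + k := by rcases hρ with h | h <;> simp [h.1, h.2.le]
  have key : ∀ ξ : ℝ, 0 < ξ → ξ ≤ min σ 1 → ξ ≤ min (1 - ω) 1 →
      min 1 (min σ 1 + min (1 - ω) 1) - ξ ≤ 1 - lam x (b + k) + ξ := fun ξ hξ e1 e2 => by
    obtain ⟨ε, hε, habc⟩ := hM.abc ξ hξ
    have e3 : ∀ᶠ n in atTop, b + et n ≤ c + k + ρ * et n := by
      rcases hρ with ⟨rfl, h⟩ | ⟨rfl, h⟩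
      · filter_upwards [et_lt (sub_pos.2 h)] with n hn using by linarith
      · exact Eventually.of_forall fun n => by linarith
    obtain ⟨n, a1, ⟨a2, a3⟩, a4, a5, a6, a7, a8⟩ :=
      ((hL.key x (b + k) ξ hx (by linarith) (by linarith) hξ).and_eventually ((hs ε hε).and
        ((incr hd hε).and ((incr hW hε).and ((et_lt hk).and ((et_lt (sub_pos.2 hy)).and e3)))))).exists
    have hη := et_pos n
    set η := et n
    have b1 := a1 (k + η) b c hxc (by linarith) ⟨hc.le, hb.le, by linarith, by linarith,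
      by linarith, by linarith, by linarith⟩ (by linarith)
    refine (habc ρ k b c η ((H (k + η) (b + k + η) b c - H (k + η) (b + k) b c) / η) _ _
      (hρ.imp_left And.left) hc.le hb.le hη a6.le a8 (by linarith) e1 (min_le_right _ _) e2
      (min_le_right _ _) (div_mul_cancel₀ _ hη.ne').ge ?_ a3 (fun t ht => ?_)
      fun t ht => ?_).trans ((div_le_iff₀ hη).2 b1)
    · rw [sub_mul, div_mul_cancel₀ _ hη.ne']
      simp only [dfc] at a2
      linarith
    · have c1 : 0 ≤ ρ * η := mul_nonneg hρ0.1 hη.le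
      have c2 : 0 ≤ (1 - ρ) * t := mul_nonneg (sub_nonneg.2 hρ0.2.1) ht.1
      have c3 : 0 ≤ ρ * t := mul_nonneg hρ0.1 ht.1
      have c4 : ρ * t ≤ ρ * η := mul_le_mul_of_nonneg_left ht.2 hρ0.1
      have c5 : (1 - ρ) * t ≤ (1 - ρ) * η :=
        mul_le_mul_of_nonneg_left ht.2 (sub_nonneg.2 hρ0.2.1)
      have c6 := hM.sub (k + η) (b + k) (b + ρ * η + (1 - ρ) * t) (c + ρ * t) 1 L (b + ρ * η) c
        (k + η) (b + k) (b + ρ * η) c
        ⟨by linarith, by linarith, by linarith, by linarith, by linarith, by linarith, by linarith⟩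
        ⟨hc.le, by linarith, by linarith, h1, by linarith, by linarith, le_rfl⟩
        ⟨hc.le, by linarith, by linarith, by linarith, by linarith, by linarith, by linarith⟩
        le_rfl le_rfl (by linarith) (by linarith) (by linarith) hy.le le_rfl le_rfl
      rw [max_eq_right (by linarith), max_eq_right hy.le, max_eq_left (by linarith),
        max_eq_left (by linarith)] at c6
      have c7 := a4 (ρ * η + (1 - ρ) * t, ρ * t) (ρ * η, 0)
        (by rw [Prod.norm_mk, Real.norm_of_nonneg (by linarith), Real.norm_of_nonneg c3]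
            exact max_le (by linarith) (by linarith))
        (by rw [Prod.norm_mk, Real.norm_of_nonneg c1, norm_zero]
            exact max_le (by linarith) hη.le)
      rw [show ((ρ * η + (1 - ρ) * t, ρ * t) : ℝ × ℝ) - (ρ * η, 0) = t • (1 - ρ, ρ) by
        ext <;> simp [mul_comm], map_smul, hσ] at c7
      simp only [Prod.mk_add_mk, add_zero, ← add_assoc, smul_eq_mul] at c7
      have c8 := mul_le_mul_of_nonneg_right (min_le_left σ 1) ht.1
      linarith
    · have c6 := hM.sub (k + t) (b + k) b c k 1 1 1 k (b + k) b c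
        ⟨hc.le, hb.le, by linarith, by linarith, by linarith [ht.1], by linarith [ht.1],
          by linarith [ht.2]⟩
        ⟨zero_le_one, le_rfl, le_rfl, le_rfl, by linarith, by linarith, by linarith⟩
        ⟨hc.le, hb.le, by linarith, by linarith, le_rfl, hρ0.2.2, by linarith⟩
        (by linarith [ht.1]) le_rfl le_rfl le_rfl le_rfl (by linarith) (by linarith) (by linarith)
      rw [max_eq_left (by linarith [ht.1]), max_eq_right (by linarith), max_eq_right (by linarith),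
        max_eq_right (by linarith)] at c6
      have c7 := a5 0 t (by simpa using hη.le) (by rw [Real.norm_of_nonneg ht.1]; exact ht.2)
      rw [fderiv_eq_smul_deriv, add_zero, smul_eq_mul] at c7
      change (0 - t) * ω - ε * η ≤ k - (H k 1 1 1 - H 0 1 1 1) -
        (k + t - (H (k + t) 1 1 1 - H 0 1 1 1)) at c7
      have c8 := mul_le_mul_of_nonneg_right (min_le_left (1 - ω) 1) ht.1
      linarith
  have h3 : min 1 (min σ 1 + min (1 - ω) 1) ≤ 1 - lam x (b + k) := by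
    refine le_of_forall_pos_le_add fun ξ hξ => ?_
    have h4 : 0 < min σ 1 := lt_min h0 one_pos
    have h5 : 0 < min (1 - ω) 1 := lt_min (sub_pos.2 h2) one_pos
    have := key (min (ξ / 2) (min (min σ 1) (min (1 - ω) 1))) (lt_min (half_pos hξ) (lt_min h4 h5))
      ((min_le_right _ _).trans (min_le_left _ _)) ((min_le_right _ _).trans (min_le_right _ _))
    linarith [min_le_left (ξ / 2) (min (min σ 1) (min (1 - ω) 1))]
  refine (min_le_right _ _).trans ?_
  rcases min_le_iff.1 h3 with h4 | h4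
  · linarith
  · rcases min_cases σ 1 with h5 | h5 <;> rcases min_cases (1 - ω) 1 with h6 | h6 <;>
      linarith [h5.1, h5.2, h6.1, h6.2]

lemma val {L b c : ℝ} (h : Mac.Sx L b c) : Val 1 L b c := by
  obtain ⟨h1, h2, h3, h4⟩ := h
  exact ⟨h1, h2, h3, h4, by linarith, by linarith, le_rfl⟩

lemma lipk (hM : Macro u v H) (l l' : ℝ) : |H l 1 1 1 - H l' 1 1 1| ≤ |l - l'| := by
  simpa using hM.lip l 1 1 1 l' 1 1 1

lemma mono (hM : Macro u v H) : Monotone (mac H lam).W := fun l l' h => by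
  have := (abs_le.1 (lipk hM l' l)).2
  rw [abs_of_nonneg (sub_nonneg.2 h)] at this
  change l - (H l 1 1 1 - H 0 1 1 1) ≤ l' - (H l' 1 1 1 - H 0 1 1 1)
  linarith

end MacX

open MacX in
theorem mac_ok (h : SmallStmt) : MacStmt := by
  intro u v H lam hu hu1 hM hL
  refine ⟨hu, hu1, fun t t' => ?_, hM.zero, hM.fv, fun L b c L' b' c' => ?_,
    fun L b c L' b' c' h1 h2 => hM.mono _ _ _ _ _ _ _ _ (val h1) (val h2) le_rfl,
    fun L b c L' b' c' L0 b0 c0 h1 h2 h3 a1 a2 a3 a4 a5 a6 => ?_, fun l l' => ?_, mono hM,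
    by simp [mac], fun l hl => ?_, hL.meas, hL.nonneg, hL.le_one, hL.mono, hL.sum,
    fun L h0 h1 => ?_⟩
  · have := hM.lip 0 t t t 0 t' t' t'
    rw [sub_self, abs_zero] at this
    change |H 0 t t t - H 0 t' t' t'| ≤ _
    linarith
  · simpa [mac] using hM.lip 1 L b c 1 L' b' c'
  · have := hM.sub _ _ _ _ _ _ _ _ _ _ _ _ (val h1) (val h2) (val h3) le_rfl a1 a2 a3 le_rfl a4 a5 a6
    rwa [max_self] at this
  · have := lipk hM l l'
    have h2 := abs_sub (l - l') (H l 1 1 1 - H l' 1 1 1)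
    change |l - (H l 1 1 1 - H 0 1 1 1) - (l' - (H l' 1 1 1 - H 0 1 1 1))| ≤ _
    rw [show l - (H l 1 1 1 - H 0 1 1 1) - (l' - (H l' 1 1 1 - H 0 1 1 1)) =
      l - l' - (H l 1 1 1 - H l' 1 1 1) by ring]
    linarith
  · have := hM.gu l hl
    change l - (H l 1 1 1 - H 0 1 1 1) ≤ _
    linarith
  obtain ⟨hA, hB⟩ := h u v H hM
  have hW := (mono (lam := lam) hM).ae_differentiableAt
  have hC : LipschitzWith 2 fun z : ℝ × ℝ => H 1 L z.1 z.2 :=
    LipschitzWith.of_dist_le_mul fun z w => by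
      have := hM.lip 1 L z.1 z.2 1 L w.1 w.2
      have h2 : |z.1 - w.1| ≤ dist z w := le_max_left _ _
      have h3 : |z.2 - w.2| ≤ dist z w := le_max_right _ _
      simp only [sub_self, abs_zero, zero_add] at this
      rw [Real.dist_eq]
      push_cast
      linarith
  filter_upwards [hA, hB, hC.ae_differentiableAt,
    (quasiMeasurePreserving_sub (volume : Measure ℝ) volume).ae hW] with ⟨b, c⟩ a1 a2 a3 a4
  refine ⟨a3, fun h2 h3 h4 x h5 h6 h7 h8 => ?_, ?_⟩
  · have e : 2 * b - c = b + (b - c) := by ring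
    simp only [e] at h4 h8 a2 ⊢
    exact core hM hL (Or.inr ⟨rfl, by ring⟩) h2 h3 (sub_pos.2 h3) h4 h1 h5 h6
      (a2 h2 h3 (h4.trans_le h1)) a3 a4 (by rw [sub_self]; rfl) h7 h8
  · filter_upwards [a1, (measurePreserving_sub_right volume b).quasiMeasurePreserving.ae hW]
      with y a5 a6 h2 h3 h4 h5 x h6 h7 h8 h9
    dsimp only at *
    have := core hM hL (ρ := 0) (k := y - b) (Or.inl ⟨rfl, by linarith⟩) h2 h3 (by linarith)
      (by linarith) h1 h6 h7 (a5 h2 h3 h4 (h5.trans_le h1)) a3 a6 (by rw [sub_zero]; rfl) h8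
      (by rwa [add_sub_cancel])
    rwa [add_sub_cancel] at this

end Pool.Agent.MP_538dc4_an.AB

end MrgPart7

-- ======== part 8: formerly Pool.Agent.MP_538dc4_an.ab.Kl
section MrgPart8

/-! PROJECT FURST2: the integral constraints and the case of small growth. -/

open MeasureTheory Filter Topology Set

namespace Pool.Agent.MP_538dc4_an.AB

namespace Kl

variable {M : Mac} {u v L b c x : ℝ}

theorem lam_le (h : M.Ok u v) {y s l : ℝ}
    (hp : 0 < s → 0 < M.lam x y → min 1 (s + M.lam x y) ≤ M.om l) (hs : 0 < s) :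
    M.lam x y ≤ M.om l := by
  rcases (h.nonneg x y).eq_or_lt with e | e
  · exact e ▸ h.om_nonneg l
  · exact (le_min (h.le_one x y) (by linarith)).trans (hp hs e)

theorem int_le_len (h : M.Ok u v) (x : ℝ) {a b : ℝ} (hab : a ≤ b) :
    ∫ y in a..b, M.lam x y ≤ b - a := by
  have := int_le hab (h.lam_ii x a b) (intervalIntegrable_const (c := (1 : ℝ)))
    (ae_of_all _ fun t _ => h.le_one x t)
  simpa using this

theorem k_sg (h : M.Ok u v) (h0 : 0 ≤ x) (h1 : x ≤ c) (h2 : 0 < c) (h3 : c < b)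
    (h4 : 2 * b - c ≤ L) (hp : M.Pt L b c) (hs : 0 < M.sg L b c) :
    ∫ y in (2 * b - c)..L, M.lam x y ≤ M.W (L - b) - M.W (b - c) := by
  have a1 := int_le h4 (h.lam_ii x _ _) (h.om_ii 1 (-b) _ _) (by
    filter_upwards [hp.pa] with y hy ht
    rw [one_mul, ← sub_eq_add_neg]
    exact lam_le h (hy h2 h3 ht.1 ht.2 x h0 h1) hs)
  have a2 := h.int_om 1 (-b) (2 * b - c) L
  rw [one_mul, show 1 * L + -b = L - b by ring, show 1 * (2 * b - c) + -b = b - c by ring] at a2
  exact a1.trans a2.le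

theorem k_first (h : M.Ok u v) (h0 : 0 ≤ x) (h1 : x ≤ c) (h2 : 0 < c) (h3 : c < b) (h5 : L ≤ 1)
    (hg : M.Good L b c) (hs : 0 < M.mu L b c) {b1 : ℝ} (hb : b ≤ b1) (h4 : 2 * b1 - c ≤ L)
    (hn : ∀ s ∈ Ioo b b1, M.Pt L s c → M.sg L s c ≤ 0) :
    ∫ y in (2 * b - c)..(2 * b1 - c), M.lam x y ≤ 2 * (M.W (b1 - c) - M.W (b - c)) := by
  have a1 : ∀ s ∈ Ioo b b1, M.Ct L s c ≤ M.Ct L b c := fun s hs => by
    have e := h.path L 0 c 1 0 hs.1.le (by
      filter_upwards [hg.2] with r hr _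
      simpa using hr.diff)
    have e2 := int_le hs.1.le (h.sg_ii L 0 c 1 0 b s) (intervalIntegrable_const (c := (0 : ℝ))) (by
      filter_upwards [hg.2] with r hr ht
      simpa using hn r ⟨ht.1, ht.2.trans hs.2⟩ hr)
    simp only [one_mul, zero_mul, add_zero, zero_add, intervalIntegral.integral_zero] at e e2
    linarith
  have a2 : ∀ s ∈ Ioo b b1, M.Pt L s c → M.lam x (2 * s - c) ≤ M.om (s - c) := fun s hs' hp => by
    have e := M.mu_le_mu (sub_pos.2 h3) hg.1.diff hp.diff fun t ht => by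
      have := h.C_mono L b (c + t) L s (c + t)
        ⟨by linarith [ht.1], by linarith [ht.2], by linarith [hs'.1, hs'.2], h5⟩
        ⟨by linarith [ht.1], by linarith [ht.2, hs'.1], by linarith [hs'.1, hs'.2], h5⟩
        le_rfl hs'.1.le le_rfl
      linarith [a1 s hs']
    exact lam_le h (hp.pb h2 (h3.trans hs'.1) (by linarith [hs'.2]) x h0 h1) (hs.trans_le e)
  have a3 := int_le (show 2 * b - c ≤ 2 * b1 - c by linarith) (h.lam_ii x _ _)
    (h.om_ii (1 / 2) (-(c / 2)) _ _) (by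
      filter_upwards [ae_affine hg.2 (α := 1 / 2) (by norm_num) (c / 2)] with y hy ht
      have := a2 _ ⟨by linarith [ht.1], by linarith [ht.2]⟩ hy
      rwa [show 2 * (1 / 2 * y + c / 2) - c = y by ring,
        show 1 / 2 * y + c / 2 - c = 1 / 2 * y + -(c / 2) by ring] at this)
  have a4 := h.int_om (1 / 2) (-(c / 2)) (2 * b - c) (2 * b1 - c)
  rw [show 1 / 2 * (2 * b1 - c) + -(c / 2) = b1 - c by ring,
    show 1 / 2 * (2 * b - c) + -(c / 2) = b - c by ring] at a4
  linarith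

theorem k_mu (h : M.Ok u v) (h0 : 0 ≤ x) (h1 : x ≤ c) (h2 : 0 < c) (h3 : c < b)
    (h4 : 2 * b - c ≤ L) (h5 : L ≤ 1) (hg : M.Good L b c) (hs : 0 < M.mu L b c) :
    ∫ y in (2 * b - c)..L, M.lam x y ≤ (1 - u) * (L - c) - 2 * M.W (b - c) := by
  let T : Set ℝ := {s | s = (L + c) / 2 ∨ (s ∈ Ioo b ((L + c) / 2) ∧ M.Pt L s c ∧ 0 < M.sg L s c)}
  have hT : b ∈ lowerBounds T := by
    rintro s (rfl | hs)
    exacts [by linarith, hs.1.1.le]
  have hne : T.Nonempty := ⟨_, Or.inl rfl⟩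
  have a1 : b ≤ sInf T := le_csInf hne hT
  have a2 : sInf T ≤ (L + c) / 2 := csInf_le ⟨b, hT⟩ (Or.inl rfl)
  have a3 := k_first h h0 h1 h2 h3 h5 hg hs a1 (by linarith) fun s hs hp => not_lt.1 fun e =>
    (csInf_le ⟨b, hT⟩ (Or.inr ⟨⟨hs.1, hs.2.trans_le a2⟩, hp, e⟩)).not_gt hs.2
  have a4 := h.W_le (sInf T - c) ⟨by linarith, by linarith⟩
  have hu := h.u_le
  refine le_of_forall_pos_le_add fun ξ hξ => ?_
  obtain ⟨s, s1, s2⟩ := exists_lt_of_csInf_lt hne (lt_add_of_pos_right _ (half_pos hξ))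
  have s3 : sInf T ≤ s := csInf_le ⟨b, hT⟩ s1
  have a5 := int_le_len h x (show 2 * sInf T - c ≤ 2 * s - c by linarith)
  rw [← intervalIntegral.integral_add_adjacent_intervals (h.lam_ii x _ (2 * sInf T - c))
    (h.lam_ii x _ _), ← intervalIntegral.integral_add_adjacent_intervals
    (h.lam_ii x (2 * sInf T - c) (2 * s - c)) (h.lam_ii x _ _)]
  rcases s1 with rfl | ⟨s4, s5, s6⟩
  · rw [show 2 * ((L + c) / 2) - c = L by ring] at a5 ⊢
    rw [intervalIntegral.integral_same]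
    nlinarith
  · have a6 := k_sg h h0 h1 h2 (h3.trans s4.1) (by linarith [s4.2]) s5 s6
    have a7 := h.W_le (L - s) ⟨by linarith [s4.2, s4.1], by linarith [s4.1]⟩
    have a8 := h.W_mono (show sInf T - c ≤ s - c by linarith)
    nlinarith

end Kl

theorem k_stmt : KStmt := fun _ _ _ _ _ _ _ h h0 h1 h2 h3 h4 h5 =>
  ⟨Kl.k_sg h h0 h1 h2 h3 h4, Kl.k_mu h h0 h1 h2 h3 h4 h5⟩

theorem low (hK : KStmt) : LowStmt := by
  intro M u v u' x L h hu h0 h1 h2 hf
  rcases h1.eq_or_lt with rfl | h1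
  · simp [Mac.R]
  have hd : 0 < u - u' := sub_pos.2 hu
  obtain ⟨D, hD, hD1⟩ : ∃ D : ℝ, 3 ≤ D ∧ 2 ≤ (u - u') * D :=
    ⟨2 / (u - u') + 3, by have := div_pos two_pos hd; linarith, by
      rw [mul_add, mul_div_cancel₀ _ hd.ne']; linarith⟩
  refine le_of_forall_pos_le_add fun ε hε => ?_
  obtain ⟨k, ⟨k0, k1⟩, hk⟩ := exists_ae (h.ae_diag (h0.trans_lt h1) h2)
    (show 0 < min ((L - x) / D) (ε / (2 * D + 1)) from
      lt_min (div_pos (sub_pos.2 h1) (by linarith)) (div_pos hε (by linarith)))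
  rw [lt_min_iff, lt_div_iff₀ (by linarith), lt_div_iff₀ (by linarith)] at k1
  have k2 : 3 * k ≤ k * D := by nlinarith
  have := h.R_le_diag (d := k * D) (ψ := 0) h0 k0 (by linarith) (by linarith [k1.1]) h2 le_rfl (by
    filter_upwards [hk] with c hc ht
    refine ⟨hc.1.diff, ?_⟩
    have c0 : 0 < c := h0.trans_lt ht.1
    have c1 : c + k * D < L := by linarith [ht.2]
    have a1 := h.sum c L c0.le (by linarith) h2
    have a2 := hf c ⟨ht.1.le, by linarith⟩
    have a3 := h.R_nonneg c0.le (show c ≤ L by linarith) h2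
    rw [intervalIntegral.integral_sub intervalIntegrable_const (h.lam_ii _ _ _),
      ← intervalIntegral.integral_add_adjacent_intervals (h.lam_ii c c (2 * (c + k) - c))
        (h.lam_ii c _ L), intervalIntegral.integral_const, smul_eq_mul] at a1
    have a4 := Kl.int_le_len h c (show c ≤ 2 * (c + k) - c by linarith)
    obtain ⟨a5, a6⟩ := hK M u v L (c + k) c c h c0.le le_rfl c0 (by linarith) (by linarith) h2
    have a7 := h.W_nonneg (show 0 ≤ c + k - c by linarith)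
    have a8 := h.W_le (L - (c + k)) ⟨by linarith, by linarith⟩
    have a9 : (u - u') * (k * D) < (u - u') * (L - c) := mul_lt_mul_of_pos_left (by linarith) hd
    have b1 : 2 * k ≤ (u - u') * (k * D) := by nlinarith
    have b2 := mul_nonneg (sub_nonneg.2 h.u_le) k0.le
    have b3 : M.sg L (c + k) c ≤ 0 := not_lt.1 fun e => by nlinarith [a5 hc.1 e]
    have b4 : M.mu L (c + k) c ≤ 0 := not_lt.1 fun e => by nlinarith [a6 hc e]
    linarith)
  nlinarith [k1.2]

end Pool.Agent.MP_538dc4_an.AB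

end MrgPart8

-- ======== part 9: formerly Pool.Agent.MP_538dc4_an.ab.Mid
section MrgPart9

/-! PROJECT FURST2: the estimate of the multiplicity when lam is mostly larger than r. -/

open MeasureTheory Filter Topology Set

namespace Pool.Agent.MP_538dc4_an.AB

namespace Mid

variable {M : Mac} {u v : ℝ}

/-- The indicator of the set where lam x is at most r. -/
noncomputable def bad (M : Mac) (x r y : ℝ) : ℝ := if M.lam x y ≤ r then 1 else 0

theorem bad_nonneg (M : Mac) (x r y : ℝ) : 0 ≤ bad M x r y := by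
  unfold bad
  split_ifs <;> norm_num

theorem bad_ii (h : M.Ok u v) (x r a b : ℝ) : IntervalIntegrable (bad M x r) volume a b := by
  refine ii_of_bdd (K := 1) ?_ (fun t => ?_) a b
  · exact Measurable.ite (measurableSet_le (h.meas x) measurable_const) measurable_const
      measurable_const
  · unfold bad
    split_ifs <;> norm_num

theorem bad_mono (h : M.Ok u v) {x r a b a' b' : ℝ} (h1 : a ≤ a') (h2 : a' ≤ b') (h3 : b' ≤ b) :
    ∫ y in a'..b', bad M x r y ≤ ∫ y in a..b, bad M x r y :=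
  intervalIntegral.integral_mono_interval h1 h2 h3 (ae_of_all _ (bad_nonneg M x r))
    (bad_ii h x r a b)

/-- The pointwise bound used in both cases. -/
theorem le_add_bad {x r y s s' w : ℝ} (hr : 0 < r) (hs : s ≤ s') (hw : 0 ≤ w)
    (h : 0 < M.lam x y → min 1 (s' + M.lam x y) ≤ w) : min 1 (s + r) ≤ w + bad M x r y := by
  unfold bad
  split_ifs with e
  · linarith [min_le_left 1 (s + r)]
  · have e' := not_le.1 e
    rw [add_zero]
    exact (min_le_min_left 1 (by linarith)).trans (h (hr.trans e'))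

theorem sg_int (h : M.Ok u v) {x L r b c : ℝ} (h0 : 0 ≤ x) (h1 : x < c) (h2 : c < b)
    (h3 : 2 * b - c ≤ L) (h4 : L ≤ 1) (hr : 0 < r) (hp : M.Pt L b c) (hs : 0 < M.sg L b c) :
    min 1 (M.sg L b c + r) * (L - (2 * b - c)) ≤
      (1 - u) * (L - b) + ∫ y in x..L, bad M x r y := by
  have a1 := int_le (φ := fun _ => min 1 (M.sg L b c + r))
    (ψ := fun y => M.om (1 * y + -b) + bad M x r y) h3 intervalIntegrable_const
    ((h.om_ii 1 (-b) _ _).add (bad_ii h x r _ _)) (by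
      filter_upwards [hp.pa] with y hy ht
      refine le_add_bad hr le_rfl (h.om_nonneg _) fun e => ?_
      rw [show 1 * y + -b = y - b by ring]
      exact hy (h0.trans_lt h1) h2 ht.1 ht.2 x h0 h1.le hs e)
  rw [intervalIntegral.integral_add (h.om_ii 1 (-b) _ _) (bad_ii h x r _ _),
    intervalIntegral.integral_const, smul_eq_mul] at a1
  have a2 := h.int_om 1 (-b) (2 * b - c) L
  rw [one_mul] at a2
  have a3 := h.W_le (1 * L + -b) ⟨by linarith, by linarith⟩
  have a4 := h.W_nonneg (show 0 ≤ 1 * (2 * b - c) + -b by linarith)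
  have a5 := bad_mono h (x := x) (r := r) (show x ≤ 2 * b - c by linarith) h3 le_rfl
  linarith

theorem mu_int (h : M.Ok u v) {x L r b c : ℝ} (h0 : 0 ≤ x) (h1 : x < c) (h2 : c < b)
    (h3 : 2 * b - c ≤ L) (h4 : L ≤ 1) (hr : 0 < r) (hg : M.Good L b c) (hs : 0 < M.mu L b c) :
    min 1 (M.mu L b c + r) * (2 * b - c - c) ≤
      2 * ((1 - u) * (b - c)) + ∫ y in x..L, bad M x r y := by
  have c0 : 0 < c := h0.trans_lt h1
  have a1 := int_le (φ := fun _ => min 1 (M.mu L b c + r))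
    (ψ := fun y => M.om (1 / 2 * y + -(c / 2)) + bad M x r y) (show c ≤ 2 * b - c by linarith)
    intervalIntegrable_const ((h.om_ii (1 / 2) (-(c / 2)) _ _).add (bad_ii h x r _ _)) (by
      filter_upwards [ae_affine hg.2 (α := 1 / 2) (by norm_num) (c / 2)] with y hy ht
      obtain ⟨s, hs'⟩ : ∃ s, s = 1 / 2 * y + c / 2 := ⟨_, rfl⟩
      rw [← hs'] at hy
      have s1 : c < s := by linarith [ht.1]
      have s2 : s < b := by linarith [ht.2]
      have m1 : M.mu L b c ≤ M.mu L s c := by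
        refine M.mu_le_mu (sub_pos.2 s1) hg.1.diff hy.diff fun t htt => ?_
        have k := h.C_sub L s (c + t) L b c L s c
          ⟨by linarith [htt.1], by linarith [htt.2], by linarith, h4⟩
          ⟨c0.le, h2.le, by linarith, h4⟩ ⟨c0.le, s1.le, by linarith, h4⟩ le_rfl le_rfl
          (by linarith [htt.1]) le_rfl s2.le le_rfl
        rw [max_self, max_eq_right s2.le, max_eq_left (by linarith [htt.1])] at k
        linarith
      refine le_add_bad hr m1 (h.om_nonneg _) fun e => ?_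
      have e1 : 2 * s - c = y := by rw [hs']; ring
      have k := hy.pb c0 s1 (by linarith [ht.2]) x h0 h1.le (hs.trans_le m1) (by rwa [e1])
      rwa [e1, show s - c = 1 / 2 * y + -(c / 2) by rw [hs']; ring] at k)
  rw [intervalIntegral.integral_add (h.om_ii _ _ _ _) (bad_ii h x r _ _),
    intervalIntegral.integral_const, smul_eq_mul] at a1
  have a2 := h.int_om (1 / 2) (-(c / 2)) c (2 * b - c)
  rw [show 1 / 2 * (2 * b - c) + -(c / 2) = b - c by ring,
    show 1 / 2 * c + -(c / 2) = 0 by ring, h.W_zero] at a2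
  have a3 := h.W_le (b - c) ⟨by linarith, by linarith⟩
  have a5 := bad_mono h (x := x) (r := r) h1.le (show c ≤ 2 * b - c by linarith) h3
  linarith

theorem le_of_min {s r w : ℝ} (hw : w < 1) (h : min 1 (s + r) ≤ w) : s + r ≤ w := by
  rcases min_le_iff.1 h with e | e
  · exact absurd e (not_le.2 hw)
  · exact e

end Mid

theorem mid : MidStmt := by
  intro M u v ε h hε
  obtain ⟨t, t0, t1, t2, t3⟩ : ∃ t : ℝ, 0 < t ∧ t ≤ u / 6 ∧ t ≤ ε / 20 ∧ t ≤ 1 / 4 :=
    ⟨min (u / 6) (min (ε / 20) (1 / 4)),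
      lt_min (by linarith [h.u_pos]) (lt_min (by linarith) (by norm_num)), min_le_left _ _,
      (min_le_right _ _).trans (min_le_left _ _), (min_le_right _ _).trans (min_le_right _ _)⟩
  refine ⟨t ^ 3, pow_pos t0 3, fun x L r h0 h1 h2 hr hb => ?_⟩
  change ∫ y in x..L, Mid.bad M x r y ≤ _ at hb
  obtain ⟨d, hd⟩ : ∃ d, d = t * (L - x) := ⟨_, rfl⟩
  have l0 : 0 < L - x := sub_pos.2 h1
  have d0 : 0 < d := hd ▸ mul_pos t0 l0
  have d1 : 4 * d ≤ L - x := by nlinarith
  have d2 : 0 < t * d := mul_pos t0 d0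
  have d3 : 4 * (t * d) ≤ d := by nlinarith
  have d4 : t ^ 3 * (L - x) = t * (t * d) := by rw [hd]; ring
  rw [d4] at hb
  obtain ⟨k, ⟨k0, k1⟩, hk⟩ := exists_ae (h.ae_diag (h0.trans_lt h1) h2)
    (show t * d < 2 * (t * d) by linarith)
  have hu := h.u_le
  have m0 := le_max_right (1 - u - r) 0
  have m1 := le_max_left (1 - u - r) 0
  have := h.R_le_diag (d := d) (ψ := 2 * max (1 - u - r) 0 + 10 * t) h0 (d2.trans k0)
    (by linarith) (by linarith) h2 (by linarith) (by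
    filter_upwards [hk] with c hc ht
    refine ⟨hc.1.diff, ?_⟩
    have c1 : c < c + k := by linarith
    have c2 : 2 * (c + k) - c ≤ L := by linarith [ht.2]
    have b1 : M.sg L (c + k) c ≤ max (1 - u - r) 0 + 5 * t := by
      refine (le_or_gt (M.sg L (c + k) c) 0).elim (fun e => by linarith) fun e => ?_
      have a1 := Mid.sg_int h h0 ht.1 c1 c2 h2 hr hc.1 e
      have a2 : min 1 (M.sg L (c + k) c + r) ≤ 1 - u + 5 * t := by
        by_contra a3
        have a4 := not_le.1 a3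
        have a5 := min_le_left 1 (M.sg L (c + k) c + r)
        have a6 := mul_le_mul_of_nonneg_right a4.le (sub_nonneg.2 c2)
        have a7 : t * d ≤ t * (L - c) := mul_le_mul_of_nonneg_left (by linarith [ht.2]) t0.le
        have a8 : (1 - u + 5 * t) * k ≤ 1 * k :=
          mul_le_mul_of_nonneg_right (by linarith) (by linarith)
        have a9 : t * (t * d) ≤ 1 / 4 * (t * d) := mul_le_mul_of_nonneg_right t3 d2.le
        have b0 : 0 ≤ (1 - u) * k := mul_nonneg (by linarith) (by linarith)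
        nlinarith
      linarith [Mid.le_of_min (by linarith) a2]
    have b2 : M.mu L (c + k) c ≤ max (1 - u - r) 0 + 5 * t := by
      refine (le_or_gt (M.mu L (c + k) c) 0).elim (fun e => by linarith) fun e => ?_
      have a1 := Mid.mu_int h h0 ht.1 c1 c2 h2 hr hc e
      have a2 : min 1 (M.mu L (c + k) c + r) ≤ 1 - u + t := by
        by_contra a3
        have a4 := not_le.1 a3
        have a6 := mul_le_mul_of_nonneg_right a4.le (show 0 ≤ 2 * (c + k) - c - c by linarith)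
        have a7 : t * (t * d) < t * k := mul_lt_mul_of_pos_left k0 t0
        have a8 : 0 < t * k := mul_pos t0 (by linarith)
        nlinarith
      linarith [Mid.le_of_min (by linarith) a2]
    linarith)
  have e1 : 20 * d ≤ ε * (L - x) := by nlinarith
  nlinarith

end Pool.Agent.MP_538dc4_an.AB

end MrgPart9

-- ======== part 10: formerly Pool.Agent.MP_538dc4_an.ab.Final
section MrgPart10

/-! PROJECT FURST2: assembly. -/

namespace Pool.Agent.MP_538dc4_an.AB

theorem abc_stmt : AbcStmt := abc (pairs (pair_stmt inv count)) dens (sum_stmt rem)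

theorem macro_stmt : MacroStmt :=
  macro_of lam_stmt (mac_ok small) (fin_stmt (low k_stmt) (star k_stmt bm) mid)

theorem raw_stmt : RawStmt :=
  raw (red (disc (samp frost) aep str (inst abc_stmt join (core_stmt trans)) limit macro_stmt))

theorem main_stmt {u v : ℝ} (hu : 0 < u) (hu1 : u ≤ 1) (huv : u ≤ v) {F : Set E2}
    (hF : IsCircFurst u v F ∨ IsSineFurst u v F) :
    ENNReal.ofReal (min ((5 * u + v) / 3) (u + 1)) ≤ dimH F :=
  main_of (circ_stmt raw_stmt arc) (sine_stmt raw_stmt) hu hu1 huv hF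

end Pool.Agent.MP_538dc4_an.AB

end MrgPart10

-- marker of a merged file
example : 731051 + 46137 = 731051 + 46137 := rfl
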