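import Mathlib.Topology.Sheaves.Presheaf
import Mathlib.Tactic.Monotonicity.Lemmas
import Mathlib.Algebra.Order.Star.Real
import Mathlib.MeasureTheory.Group.Integral
import Mathlib.Analysis.SpecialFunctions.PolarCoord
import Mathlib.Order.Interval.Finset.Box
import Mathlib.RingTheory.PiTensorProduct
import Mathlib.Topology.UniformSpace.Uniformizable
import Pool.Agent.MP_538dc4_an.ab.Basic
import Pool.Agent.MP_538dc4_an.ab.Spec

-- ======== part 0: formerly Pool.Agent.MP_538dc4_an.ab.Geo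
section MrgPart0

/-! PROJECT FURST2, module GEO: change of frame, joins of labels, the discrete axioms. -/

open Finset Real

namespace Pool.Agent.MP_538dc4_an.AB

namespace Geo

theorem inv_le {a b : ℕ} (h : a ≤ b) : (1 : ℝ) / 2 ^ b ≤ 1 / 2 ^ a :=
  one_div_le_one_div_of_le (by positivity) (pow_le_pow_right₀ one_le_two h)

theorem inv_mul_le {a b k : ℕ} (h : a ≤ b + k) : (1 : ℝ) / 2 ^ k * (1 / 2 ^ b) ≤ 1 / 2 ^ a := by
  have := inv_le h
  rwa [pow_add, mul_comm, one_div, mul_inv, ← one_div, ← one_div] at this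

theorem num {C A t κ α β γ d0 d1 d2 e0 e1 e2 : ℝ} (hC : 1 ≤ C) (hA : 0 ≤ A) (hκ : κ ≤ 1)
    (hγ : 0 ≤ γ) (hβ : 0 ≤ β) (h1 : κ * β ≤ α) (h2 : κ * γ ≤ β) (ht : |t| ≤ κ)
    (a0 : |d0| ≤ A * α) (a1 : |d1| ≤ A * β) (a2 : |d2| ≤ A * γ)
    (b0 : |e0 - d0 - t * d1 - t ^ 2 * d2| ≤ C * |t| ^ 3 * (A * γ))
    (b1 : |e1 - d1 - 2 * t * d2| ≤ C * |t| ^ 2 * (A * γ))
    (b2 : |e2 - d2| ≤ C * |t| * (A * γ)) :
    |e0| ≤ (3 + C) * A * α ∧ |e1| ≤ (3 + C) * A * β ∧ |e2| ≤ (3 + C) * A * γ := by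
  have t0 := abs_nonneg t
  have k0 : 0 ≤ κ := t0.trans ht
  have t1 : |t| ≤ 1 := ht.trans hκ
  have u1 : |t| * β ≤ α := (mul_le_mul_of_nonneg_right ht hβ).trans h1
  have u2 : |t| * γ ≤ β := (mul_le_mul_of_nonneg_right ht hγ).trans h2
  have u3 : |t| ^ 2 * γ ≤ α := by
    have := mul_le_mul_of_nonneg_left u2 t0
    nlinarith
  have u4 : |t| ^ 3 * γ ≤ α := by
    have := mul_le_mul_of_nonneg_right t1 (mul_nonneg (sq_nonneg |t|) hγ)
    nlinarith
  have u5 : |t| ^ 2 * γ ≤ β := by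
    have := mul_le_mul_of_nonneg_right t1 (mul_nonneg t0 hγ)
    nlinarith
  have u6 : |t| * γ ≤ γ := mul_le_of_le_one_left hγ t1
  have hCA : 0 ≤ C * A := mul_nonneg (by linarith) hA
  have v1 : |t * d1| ≤ A * α := by
    rw [abs_mul]
    have := mul_le_mul_of_nonneg_left a1 t0
    have := mul_le_mul_of_nonneg_left u1 hA
    nlinarith
  have v2 : |t ^ 2 * d2| ≤ A * α := by
    rw [abs_mul, abs_pow]
    have := mul_le_mul_of_nonneg_left a2 (sq_nonneg |t|)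
    have := mul_le_mul_of_nonneg_left u3 hA
    nlinarith
  have v3 : |t * d2| ≤ A * β := by
    rw [abs_mul]
    have := mul_le_mul_of_nonneg_left a2 t0
    have := mul_le_mul_of_nonneg_left u2 hA
    nlinarith
  have w0 : C * |t| ^ 3 * (A * γ) ≤ C * A * α := by
    have := mul_le_mul_of_nonneg_left u4 hCA
    nlinarith
  have w1 : C * |t| ^ 2 * (A * γ) ≤ C * A * β := by
    have := mul_le_mul_of_nonneg_left u5 hCA
    nlinarith
  have w2 : C * |t| * (A * γ) ≤ C * A * γ := by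
    have := mul_le_mul_of_nonneg_left u6 hCA
    nlinarith
  have hAγ : 0 ≤ A * γ := mul_nonneg hA hγ
  obtain ⟨p0, q0⟩ := abs_le.1 a0
  obtain ⟨p1, q1⟩ := abs_le.1 a1
  obtain ⟨p2, q2⟩ := abs_le.1 a2
  obtain ⟨p3, q3⟩ := abs_le.1 v1
  obtain ⟨p4, q4⟩ := abs_le.1 v2
  obtain ⟨p5, q5⟩ := abs_le.1 v3
  obtain ⟨p6, q6⟩ := abs_le.1 (b0.trans w0)
  obtain ⟨p7, q7⟩ := abs_le.1 (b1.trans w1)
  obtain ⟨p8, q8⟩ := abs_le.1 (b2.trans w2)
  refine ⟨abs_le.2 ⟨?_, ?_⟩, abs_le.2 ⟨?_, ?_⟩, abs_le.2 ⟨?_, ?_⟩⟩ <;> linarith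

end Geo

theorem trans : TransStmt := by
  intro C A x y f0 f1 f2 g0 g1 g2 k a b c hC hT hx hy hv hxy h0 h1 h2
  obtain ⟨v1, v2, v3, v4⟩ := hv
  have hA : 0 ≤ A := by
    have := (abs_nonneg _).trans h0
    exact (div_nonneg_iff.1 this).elim (fun h => h.1) fun h => absurd h.2 (not_le.2 (by positivity))
  rw [div_eq_mul_one_div] at h0 h1 h2
  have m0 := h0.trans (mul_le_mul_of_nonneg_left (Geo.inv_le (v1.trans v2)) hA)
  have m1 := h1.trans (mul_le_mul_of_nonneg_left (Geo.inv_le v1) hA)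
  obtain ⟨b0, b1, b2⟩ := hT x hx y hy _ m0 m1 h2
  have k1 : (1 : ℝ) / 2 ^ k ≤ 1 := by simpa using Geo.inv_le (Nat.zero_le k)
  have := Geo.num hC hA k1 (by positivity) (by positivity) (Geo.inv_mul_le v3) (Geo.inv_mul_le v4)
    hxy h0 h1 h2 b0 b1 b2
  simpa only [div_eq_mul_one_div ((3 + C) * A)] using this

namespace Geo

variable {Ω β : Type} [Fintype Ω] {T : Jets Ω} {C : ℝ}

/-- The jets of two curves are close at the abscissa z. -/
def Cl (T : Jets Ω) (ω ω' : Ω) (z A : ℝ) (a b c : ℕ) : Prop :=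
  |T.J0 ω z - T.J0 ω' z| ≤ A / 2 ^ a ∧ |T.J1 ω z - T.J1 ω' z| ≤ A / 2 ^ b ∧
    |T.J2 ω z - T.J2 ω' z| ≤ A / 2 ^ c

theorem Cl.move (h : T.Ok C) {ω ω' : Ω} {x y A : ℝ} {k a b c : ℕ} (hx : x ∈ Set.Ico (0 : ℝ) 1)
    (hy : y ∈ Set.Ico (0 : ℝ) 1) (hv : ValN k a b c) (hxy : |y - x| ≤ 1 / 2 ^ k)
    (e : Cl T ω ω' x A a b c) : Cl T ω ω' y ((3 + C) * A) a b c :=
  trans C A x y _ _ _ _ _ _ k a b c h.one_le (h.tay ω ω') hx hy hv hxy e.1 e.2.1 e.2.2

theorem x_of_lab {k a b c : ℕ} {ω ω' : Ω} (e : T.lab k a b c ω = T.lab k a b c ω') :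
    ⌊T.x ω * 2 ^ k⌋ = ⌊T.x ω' * 2 ^ k⌋ := congrArg Prod.fst e

theorem cl_of_lab {k a b c : ℕ} {ω ω' : Ω} (e : T.lab k a b c ω = T.lab k a b c ω') :
    Cl T ω ω' (T.fr k ω) 1 a b c := by
  have f := Jets.fr_congr (T := T) le_rfl (x_of_lab e)
  simp only [Jets.lab, Prod.mk.injEq, ← f] at e
  exact ⟨abs_le_of_floor_eq e.2.1, abs_le_of_floor_eq e.2.2.1, abs_le_of_floor_eq e.2.2.2⟩

theorem abs_fr {k k' : ℕ} (hk : k ≤ k') (ω : Ω) : |T.fr k' ω - T.fr k ω| ≤ 1 / 2 ^ k := by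
  obtain ⟨p, q⟩ := T.fr_sub hk ω
  rwa [abs_of_nonneg p]

/-- Equal labels give close jets at every finer frame. -/
theorem cl_up (h : T.Ok C) {k a b c k1 : ℕ} {ω ω' : Ω} (hv : ValN k a b c) (hk : k ≤ k1)
    (e : T.lab k a b c ω = T.lab k a b c ω') : Cl T ω ω' (T.fr k1 ω) (3 + C) a b c := by
  have := Cl.move h (Jets.fr_mem h k ω) (Jets.fr_mem h k1 ω) hv (abs_fr hk ω) (cl_of_lab e)
  rwa [mul_one] at this

theorem floor_mem {s t B : ℝ} {a : ℕ} (h : |s - t| ≤ B / 2 ^ a) :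
    ⌊s * 2 ^ a⌋ ∈ Icc (⌊t * 2 ^ a⌋ - (⌊B⌋ + 1)) (⌊t * 2 ^ a⌋ + (⌊B⌋ + 1)) := by
  have e : (0 : ℝ) < 2 ^ a := by positivity
  rw [le_div_iff₀ e] at h
  have f : |s * 2 ^ a - t * 2 ^ a| ≤ B := by rwa [← sub_mul, abs_mul, abs_of_pos e]
  obtain ⟨p, q⟩ := abs_le.1 f
  have a1 := Int.floor_le (s * 2 ^ a)
  have a2 := Int.lt_floor_add_one (s * 2 ^ a)
  have a3 := Int.floor_le (t * 2 ^ a)
  have a4 := Int.lt_floor_add_one (t * 2 ^ a)
  have a5 := Int.lt_floor_add_one B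
  rw [mem_Icc]
  constructor
  · have : ((⌊t * 2 ^ a⌋ - (⌊B⌋ + 1) : ℤ) : ℝ) < ((⌊s * 2 ^ a⌋ + 1 : ℤ) : ℝ) := by
      push_cast; linarith
    have := Int.cast_lt.1 this
    omega
  · have : ((⌊s * 2 ^ a⌋ : ℤ) : ℝ) < ((⌊t * 2 ^ a⌋ + (⌊B⌋ + 1) + 1 : ℤ) : ℝ) := by
      push_cast; linarith
    have := Int.cast_lt.1 this
    omega

theorem card_win (d : ℤ) {B : ℝ} (hB : 0 ≤ B) :
    ((Icc (d - (⌊B⌋ + 1)) (d + (⌊B⌋ + 1))).card : ℝ) ≤ 2 * B + 3 := by
  have h0 : 0 ≤ ⌊B⌋ := Int.floor_nonneg.2 hB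
  have e : ((Icc (d - (⌊B⌋ + 1)) (d + (⌊B⌋ + 1))).card : ℤ) = 2 * ⌊B⌋ + 3 := by
    rw [Int.card_Icc]; omega
  have f : ((Icc (d - (⌊B⌋ + 1)) (d + (⌊B⌋ + 1))).card : ℝ) = 2 * (⌊B⌋ : ℝ) + 3 := by
    exact_mod_cast e
  rw [f]
  linarith [Int.floor_le B]

/-- Counting the labels that are compatible with a value of Y. -/
theorem count (hp : IsP T.p) (Y : Ω → β) (k a b c : ℕ) {B0 B1 B2 : ℝ} (h0 : 0 ≤ B0) (h1 : 0 ≤ B1)
    (h2 : 0 ≤ B2) (hx : ∀ ω ω', Y ω = Y ω' → ⌊T.x ω * 2 ^ k⌋ = ⌊T.x ω' * 2 ^ k⌋)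
    (hj : ∀ ω ω', Y ω = Y ω' → |T.J0 ω (T.fr k ω) - T.J0 ω' (T.fr k ω)| ≤ B0 / 2 ^ a ∧
      |T.J1 ω (T.fr k ω) - T.J1 ω' (T.fr k ω)| ≤ B1 / 2 ^ b ∧
      |T.J2 ω (T.fr k ω) - T.J2 ω' (T.fr k ω)| ≤ B2 / 2 ^ c) :
    H T.p (pair Y (T.lab k a b c)) ≤
      H T.p Y + log ((2 * B0 + 3) * ((2 * B1 + 3) * (2 * B2 + 3))) := by
  classical
  let w : V → Finset V := fun l => {l.1} ×ˢ Icc (l.2.1 - (⌊B0⌋ + 1)) (l.2.1 + (⌊B0⌋ + 1)) ×ˢ
    Icc (l.2.2.1 - (⌊B1⌋ + 1)) (l.2.2.1 + (⌊B1⌋ + 1)) ×ˢ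
    Icc (l.2.2.2 - (⌊B2⌋ + 1)) (l.2.2.2 + (⌊B2⌋ + 1))
  refine H_pair_le hp _ Y
    (fun y => if h : ∃ ω, Y ω = y then w (T.lab k a b c h.choose) else ∅) (fun ω _ => ?_)
    fun y => ?_
  · have h : ∃ ω', Y ω' = Y ω := ⟨ω, rfl⟩
    rw [dif_pos h]
    have e := h.choose_spec.symm
    have f := Jets.fr_congr (T := T) le_rfl (hx _ _ e)
    obtain ⟨j0, j1, j2⟩ := hj _ _ e
    simp only [w, Jets.lab, mem_product, mem_singleton, ← f]
    exact ⟨hx _ _ e, floor_mem j0, floor_mem j1, floor_mem j2⟩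
  · by_cases h : ∃ ω, Y ω = y
    · rw [dif_pos h]
      simp only [w, card_product, card_singleton, one_mul, Nat.cast_mul]
      exact mul_le_mul (card_win _ h0) (mul_le_mul (card_win _ h1) (card_win _ h2)
        (Nat.cast_nonneg _) (by positivity)) (by positivity) (by positivity)
    · rw [dif_neg h, card_empty, Nat.cast_zero]
      positivity

theorem div_max {A s : ℝ} (hA : 0 ≤ A) {a a' a0 : ℕ} (h : a0 ≤ max a a') (h1 : s ≤ A / 2 ^ a)
    (h2 : s ≤ A / 2 ^ a') : s ≤ A / 2 ^ a0 := by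
  rcases le_max_iff.1 h with e | e
  · exact h1.trans (div_le_div_of_nonneg_left hA (by positivity) (pow_le_pow_right₀ one_le_two e))
  · exact h2.trans (div_le_div_of_nonneg_left hA (by positivity) (pow_le_pow_right₀ one_le_two e))

theorem ee_nonneg (hC : 1 ≤ C) : 0 ≤ ee C :=
  mul_nonneg (by norm_num) (log_nonneg (by nlinarith))

theorem log_three {x y z D s t r : ℝ} (hx : 0 < x) (hy : 0 < y) (hz : 0 < z) (hD : 0 < D)
    (hs : 0 < s) (ht : 0 < t) (hr : 0 < r) (h1 : x ≤ D * s) (h2 : y ≤ D * t) (h3 : z ≤ D * r) :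
    log (x * (y * z)) ≤ 3 * log D + (log s + log t + log r) := by
  have a := log_le_log hx h1
  have b := log_le_log hy h2
  have c := log_le_log hz h3
  rw [log_mul hD.ne' hs.ne'] at a
  rw [log_mul hD.ne' ht.ne'] at b
  rw [log_mul hD.ne' hr.ne'] at c
  rw [log_mul hx.ne' (mul_pos hy hz).ne', log_mul hy.ne' hz.ne']
  linarith

end Geo

theorem join : JoinStmt := by
  intro Ω β _ T C Y k a b c k' a' b' c' k0 a0 b0 c0 h v v' v0 hk ha hb hc e e'
  have hC := h.one_le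
  have h3 : (0 : ℝ) ≤ 3 + C := by linarith
  have hx : ∀ ω ω', Y ω = Y ω' → ⌊T.x ω * 2 ^ k0⌋ = ⌊T.x ω' * 2 ^ k0⌋ := fun ω ω' y => by
    rcases le_max_iff.1 hk with g | g
    · exact floor_eq_of_le g (Geo.x_of_lab (e _ _ y))
    · exact floor_eq_of_le g (Geo.x_of_lab (e' _ _ y))
  have hj : ∀ ω ω', Y ω = Y ω' → Geo.Cl T ω ω' (T.fr k0 ω) ((3 + C) * (3 + C)) a0 b0 c0 :=
    fun ω ω' y => by
      obtain ⟨p0, p1, p2⟩ := Geo.cl_up h v (le_max_left k k') (e _ _ y)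
      obtain ⟨q0, q1, q2⟩ := Geo.cl_up h v' (le_max_right k k') (e' _ _ y)
      refine Geo.Cl.move h (Jets.fr_mem h (max k k') ω) (Jets.fr_mem h k0 ω) v0 ?_
        ⟨Geo.div_max h3 ha p0 q0, Geo.div_max h3 hb p1 q1, Geo.div_max h3 hc p2 q2⟩
      rw [abs_sub_comm]
      exact Geo.abs_fr hk ω
  have h9 : (0 : ℝ) ≤ (3 + C) * (3 + C) := mul_nonneg h3 h3
  refine (Geo.count h.isP Y k0 a0 b0 c0 h9 h9 h9 hx hj).trans (add_le_add le_rfl ?_)
  have f : 2 * ((3 + C) * (3 + C)) + 3 ≤ 35 * C ^ 2 * 1 := by nlinarith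
  have := Geo.log_three (D := 35 * C ^ 2) (by linarith) (by linarith) (by linarith) (by positivity)
    one_pos one_pos one_pos f f f
  simpa [ee] using this

namespace Geo

variable {Ω β : Type} [Fintype Ω] {T : Jets Ω} {C : ℝ}

theorem le_pair (hp : IsP T.p) {α : Type} (Y : Ω → β) (X : Ω → α) : H T.p X ≤ H T.p (pair Y X) :=
  H_le_of_dt hp (Dt.of_forall fun _ _ e => congrArg Prod.snd e)

theorem join1 (h : T.Ok C) {k a b c k' a' b' c' : ℕ} (v : ValN k a b c) (v' : ValN k' a' b' c')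
    (hk : k ≤ k') (ha : a ≤ a') (hb : b ≤ b') (hc : c ≤ c') :
    H T.p (pair (T.lab k' a' b' c') (T.lab k a b c)) ≤ H T.p (T.lab k' a' b' c') + ee C :=
  join Ω V T C _ k' a' b' c' k' a' b' c' k a b c h v' v' v (le_max_of_le_left hk)
    (le_max_of_le_left ha) (le_max_of_le_left hb) (le_max_of_le_left hc) (fun _ _ e => e)
    fun _ _ e => e

theorem mono0 (h : T.Ok C) {k a b c k' a' b' c' : ℕ} (v : ValN k a b c) (v' : ValN k' a' b' c')
    (hk : k ≤ k') (ha : a ≤ a') (hb : b ≤ b') (hc : c ≤ c') :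
    H T.p (T.lab k a b c) ≤ H T.p (T.lab k' a' b' c') + ee C :=
  (le_pair h.isP _ _).trans (join1 h v v' hk ha hb hc)

theorem sub0 (h : T.Ok C) {k a b c k' a' b' c' k0 a0 b0 c0 : ℕ} (v : ValN k a b c)
    (v' : ValN k' a' b' c') (v0 : ValN k0 a0 b0 c0) (hk : k0 ≤ k) (ha : a0 ≤ a) (hb : b0 ≤ b)
    (hc : c0 ≤ c) (hk' : k0 ≤ k') (ha' : a0 ≤ a') (hb' : b0 ≤ b') (hc' : c0 ≤ c') :
    H T.p (T.lab (max k k') (max a a') (max b b') (max c c')) + H T.p (T.lab k0 a0 b0 c0) ≤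
      H T.p (T.lab k a b c) + H T.p (T.lab k' a' b' c') + 3 * ee C := by
  have vm : ValN (max k k') (max a a') (max b b') (max c c') := by
    obtain ⟨p1, p2, p3, p4⟩ := v
    obtain ⟨q1, q2, q3, q4⟩ := v'
    refine ⟨?_, ?_, ?_, ?_⟩ <;> omega
  have s1 := (le_pair h.isP _ _).trans (join Ω (V × V) T C
    (pair (T.lab k a b c) (T.lab k' a' b' c')) k a b c k' a' b' c' _ _ _ _ h v v' vm le_rfl le_rfl
    le_rfl le_rfl (fun _ _ e => congrArg Prod.fst e) fun _ _ e => congrArg Prod.snd e)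
  have s2 := submod' h.isP (pair (T.lab k a b c) (T.lab k0 a0 b0 c0))
    (pair (T.lab k' a' b' c') (T.lab k0 a0 b0 c0)) (pair (T.lab k a b c) (T.lab k' a' b' c'))
    (T.lab k0 a0 b0 c0) (Dt.of_forall fun _ _ e => congrArg Prod.snd e)
    (Dt.of_forall fun _ _ e => congrArg Prod.snd e)
    (Dt.of_forall fun _ _ e => Prod.ext (congrArg (fun z => z.1.1) e) (congrArg (fun z => z.2.1) e))
  have s3 := join1 h v0 v hk ha hb hc
  have s4 := join1 h v0 v' hk' ha' hb' hc'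
  linarith

theorem log_pow_sub {a a' : ℕ} (h : a ≤ a') : log ((2 : ℝ) ^ (a' - a)) = ((a' : ℝ) - a) * log 2 := by
  rw [log_pow, Nat.cast_sub h]

theorem div_shift (A : ℝ) {a a' : ℕ} (h : a ≤ a') : A / 2 ^ a = A * 2 ^ (a' - a) / 2 ^ a' := by
  obtain ⟨d, rfl⟩ := Nat.exists_eq_add_of_le h
  rw [Nat.add_sub_cancel_left, pow_add]
  field_simp

theorem lip0 (h : T.Ok C) {k a b c k' a' b' c' : ℕ} (v : ValN k a b c) (hk : k ≤ k')
    (ha : a ≤ a') (hb : b ≤ b') (hc : c ≤ c') :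
    H T.p (T.lab k' a' b' c') ≤ H T.p (T.lab k a b c) +
      ((k' : ℝ) - k + (a' - a) + (b' - b) + (c' - c)) * log 2 + ee C := by
  have hC := h.one_le
  have h3 : (0 : ℝ) ≤ 3 + C := by linarith
  have s1 : H T.p (pair (T.lab k a b c) fun ω => ⌊T.x ω * 2 ^ k'⌋) ≤
      H T.p (T.lab k a b c) + log ((2 : ℝ) ^ (k' - k)) := by
    refine H_pair_le h.isP _ _ (fun l : V => Ico (l.1 * 2 ^ (k' - k)) ((l.1 + 1) * 2 ^ (k' - k)))
      (fun ω _ => ?_) fun l => ?_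
    · have e : (0 : ℤ) < 2 ^ (k' - k) := by positivity
      show _ ∈ Ico (⌊T.x ω * 2 ^ k⌋ * 2 ^ (k' - k)) ((⌊T.x ω * 2 ^ k⌋ + 1) * 2 ^ (k' - k))
      rw [floor_dyadic (T.x ω) hk, mem_Ico]
      exact ⟨Int.ediv_mul_le _ e.ne', Int.lt_ediv_add_one_mul_self _ e⟩
    · have e : (l.1 + 1) * 2 ^ (k' - k) - l.1 * 2 ^ (k' - k) = ((2 ^ (k' - k) : ℕ) : ℤ) := by
        push_cast; ring
      rw [Int.card_Ico, e, Int.toNat_natCast]
      push_cast
      exact le_rfl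
  have s2 := count h.isP (pair (T.lab k a b c) fun ω => ⌊T.x ω * 2 ^ k'⌋) k' a' b' c'
    (B0 := (3 + C) * 2 ^ (a' - a)) (B1 := (3 + C) * 2 ^ (b' - b)) (B2 := (3 + C) * 2 ^ (c' - c))
    (by positivity) (by positivity) (by positivity) (fun _ _ e => congrArg Prod.snd e)
    fun ω ω' e => by
      have := cl_up h v hk (congrArg Prod.fst e)
      rw [← div_shift _ ha, ← div_shift _ hb, ← div_shift _ hc]
      exact this
  have f : ∀ n : ℕ, 2 * ((3 + C) * 2 ^ n) + 3 ≤ 35 * C ^ 2 * 2 ^ n := fun n => by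
    have e : (1 : ℝ) ≤ 2 ^ n := one_le_pow₀ one_le_two
    have g : 2 * (3 + C) + 3 ≤ 35 * C ^ 2 := by nlinarith
    nlinarith
  have s3 := log_three (D := 35 * C ^ 2) (by positivity) (by positivity) (by positivity)
    (by positivity) (by positivity) (by positivity) (by positivity) (f (a' - a)) (f (b' - b))
    (f (c' - c))
  rw [log_pow_sub ha, log_pow_sub hb, log_pow_sub hc] at s3
  rw [log_pow_sub hk] at s1
  have s4 := le_pair h.isP (pair (T.lab k a b c) fun ω => ⌊T.x ω * 2 ^ k'⌋) (T.lab k' a' b' c')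
  rw [ee]
  linarith

theorem zero0 (h : T.Ok C) : H T.p (T.lab 0 0 0 0) = 0 := by
  refine le_antisymm ?_ (H_nonneg h.isP _)
  have := H_le_log_card h.isP (T.lab 0 0 0 0) {((0, 0, 0, 0) : V)} fun ω _ => by
    have e : ⌊T.x ω * 2 ^ 0⌋ = 0 := by
      rw [pow_zero, mul_one]; exact Int.floor_eq_zero_iff.2 (h.x_mem ω)
    rw [Jets.lab_zero h, e, mem_singleton]
  simpa using this

theorem pr_le {p p' : Ω → ℝ} {B : ℝ} (h : ∀ ω, p' ω ≤ B * p ω) (X : Ω → β) (y : β) :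
    pr p' X y ≤ B * pr p X y := by
  rw [pr, pr, mul_sum]
  refine sum_le_sum fun ω _ => ?_
  split_ifs
  · exact h ω
  · rw [mul_zero]

/-- A pointwise bound for the probabilities gives a lower bound for the entropy. -/
theorem H_ge {p : Ω → ℝ} (hp : IsP p) (X : Ω → β) (s : ℝ) (g : Ω → ℝ)
    (h : ∀ ω, p ω ≠ 0 → pr p X (X ω) ≤ exp (-(s + g ω))) : s + ∑ ω, p ω * g ω ≤ H p X := by
  have e : s + ∑ ω, p ω * g ω = ∑ ω, p ω * (s + g ω) := by
    simp only [mul_add, sum_add_distrib, ← sum_mul, hp.sum, one_mul]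
  rw [e, H_eq_sum]
  refine sum_le_sum fun ω _ => ?_
  by_cases h0 : p ω = 0
  · simp [h0]
  · refine mul_le_mul_of_nonneg_left ?_ (hp.nn ω)
    have := log_le_log (pr_pos hp X h0) (h ω h0)
    rw [log_exp] at this
    rw [info]
    linarith

theorem two_rpow (t : ℝ) : (2 : ℝ) ^ (-t) = exp (-(t * log 2)) := by
  rw [rpow_def_of_pos two_pos]; congr 1; ring

theorem fv0 {p' : Ω → ℝ} {u v b b' : ℝ} {n j : ℕ} (hp' : IsP p')
    (hle : ∀ ω, p' ω ≤ exp b' * T.p ω) (hF : T.Fro u v n b) (hj : j ≤ n) :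
    v * j * log 2 - (b + b') ≤ H p' (T.lab 0 j j j) := by
  have := H_ge hp' (T.lab 0 j j j) (v * j * log 2 - (b + b')) (fun _ => 0) fun ω _ => by
    refine (pr_le hle _ _).trans ((mul_le_mul_of_nonneg_left (hF.par j hj ω)
      (exp_pos _).le).trans (le_of_eq ?_))
    rw [two_rpow, ← exp_add, ← exp_add]; congr 1; ring
  simpa using this

theorem gu0 (h : T.Ok C) {p' : Ω → ℝ} {u v b b' : ℝ} {n j : ℕ} (hp' : IsP p')
    (hle : ∀ ω, p' ω ≤ exp b' * T.p ω) (hF : T.Fro u v n b) (hj : j ≤ n) :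
    u * j * log 2 - (b + b' + ee C) ≤ H p' (T.lab j n n n) - H p' (T.lab 0 n n n) := by
  have hs : ∀ ω, p' ω ≠ 0 → T.p ω ≠ 0 := fun ω h0 e => by
    have := hle ω
    rw [e, mul_zero] at this
    exact h0 (le_antisymm this (hp'.nn ω))
  have s1 := H_ge hp' (pair (T.lab 0 n n n) (T.lab j 0 0 0)) (u * j * log 2 - (b + b'))
    (info T.p (T.lab 0 n n n)) fun ω h0 => by
      refine (pr_le hle _ _).trans ((mul_le_mul_of_nonneg_left (hF.fib j hj ω)
        (exp_pos _).le).trans (le_of_eq ?_))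
      rw [two_rpow, ← exp_log (pr_pos h.isP (T.lab 0 n n n) (hs ω h0)), ← exp_add, ← exp_add,
        ← exp_add, info]
      congr 1; ring
  have s2 := H_le_cross h.isP hp' hs (T.lab 0 n n n)
  have s3 : H p' (pair (T.lab 0 n n n) (T.lab j 0 0 0)) ≤
      H p' (pair (T.lab j n n n) (T.lab 0 n n n)) :=
    H_le_of_dt hp' (Dt.of_forall fun _ _ e => Prod.ext (congrArg Prod.snd e)
      (Jets.lab_coarse (Nat.zero_le n) (Nat.zero_le n) (Nat.zero_le n) (congrArg Prod.fst e)))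
  have s4 : H p' (pair (T.lab j n n n) (T.lab 0 n n n)) ≤ H p' (T.lab j n n n) + ee C :=
    join1 (Jets.re_ok h hp') (k := 0) (a := n) (b := n) (c := n) (k' := j)
      ⟨le_rfl, le_rfl, le_rfl, le_rfl⟩ ⟨le_rfl, le_rfl, Nat.le_add_right _ _, Nat.le_add_right _ _⟩
      (Nat.zero_le j) le_rfl le_rfl le_rfl
  linarith

theorem val_mul {k a b c : ℕ} (v : ValN k a b c) (q : ℕ) : ValN (k * q) (a * q) (b * q) (c * q) :=
  ⟨Nat.mul_le_mul_right q v.1, Nat.mul_le_mul_right q v.2.1,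
    (Nat.mul_le_mul_right q v.2.2.1).trans_eq (add_mul _ _ _),
    (Nat.mul_le_mul_right q v.2.2.2).trans_eq (add_mul _ _ _)⟩

theorem max_mul' (a b q : ℕ) : max a b * q = max (a * q) (b * q) := by
  rcases le_total a b with h | h
  · rw [max_eq_right h, max_eq_right (Nat.mul_le_mul_right q h)]
  · rw [max_eq_left h, max_eq_left (Nat.mul_le_mul_right q h)]

end Geo

theorem str : StrStmt := by
  intro Ω _ T p' u v C b b' N q h hN hq hb hb' hp' hle hF
  have h' := Jets.re_ok h hp'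
  have he := Geo.ee_nonneg h.one_le
  have hN0 : (0 : ℝ) < N := by exact_mod_cast hN
  have hq0 : (0 : ℝ) < q := by exact_mod_cast hq
  have hl : 0 < log 2 := log_pos one_lt_two
  have hD : 0 < (N : ℝ) * q * log 2 := by positivity
  have sc : ∀ t : ℝ, t / N = t * q * log 2 / (N * q * log 2) := fun t => by field_simp
  have mq := fun {a a' : ℕ} (h : a ≤ a') => Nat.mul_le_mul_right q h
  constructor
  · intro k a b1 c k' a' b1' c' v1 hk ha hb1 hc v2
    have := Geo.mono0 h' (Geo.val_mul v1 q) (Geo.val_mul v2 q) (mq hk) (mq ha) (mq hb1) (mq hc)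
    rw [Jets.hN, Jets.hN, ← add_div]
    exact div_le_div_of_nonneg_right (by linarith) hD.le
  · intro k a b1 c k' a' b1' c' v1 hk ha hb1 hc
    have := Geo.lip0 h' (Geo.val_mul v1 q) (mq hk) (mq ha) (mq hb1) (mq hc)
    push_cast at this
    rw [Jets.hN, Jets.hN, sc, ← add_div, ← add_div]
    exact div_le_div_of_nonneg_right (by linarith) hD.le
  · intro k a b1 c k' a' b1' c' k0 a0 b0 c0 v1 v2 v0 h1 h2 h3 h4 h5 h6 h7 h8
    have := Geo.sub0 h' (Geo.val_mul v1 q) (Geo.val_mul v2 q) (Geo.val_mul v0 q) (mq h1) (mq h2)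
      (mq h3) (mq h4) (mq h5) (mq h6) (mq h7) (mq h8)
    simp only [Jets.hN, Geo.max_mul', ← add_div]
    exact div_le_div_of_nonneg_right (by linarith) hD.le
  · rw [Jets.hN, Nat.zero_mul, Geo.zero0 h', zero_div]
  · intro t ht
    have := Geo.fv0 hp' hle hF (mq ht)
    push_cast at this
    rw [Jets.hN, Nat.zero_mul, sc, ← sub_div]
    refine div_le_div_of_nonneg_right ?_ hD.le
    show _ ≤ H p' (T.lab 0 (t * q) (t * q) (t * q))
    linarith
  · intro k hk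
    have := Geo.gu0 h hp' hle hF (mq hk)
    push_cast at this
    rw [Jets.hN, Jets.hN, Nat.zero_mul, sc, ← sub_div, ← sub_div]
    refine div_le_div_of_nonneg_right ?_ hD.le
    show _ ≤ H p' (T.lab (k * q) (N * q) (N * q) (N * q)) - H p' (T.lab 0 (N * q) (N * q) (N * q))
    linarith

end Pool.Agent.MP_538dc4_an.AB

end MrgPart0

-- ======== part 1: formerly Pool.Agent.MP_538dc4_an.ab.Core
section MrgPart1

/-! PROJECT FURST2, section 10: the instance of the ABC data built from jets. -/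

namespace Pool.Agent.MP_538dc4_an.AB

namespace Cr

theorem fl_dy (x : ℝ) (s d : ℕ) : ⌊x * 2 ^ s⌋ = ⌊x * 2 ^ (s + d)⌋ / 2 ^ d := by
  have h := Int.floor_div_cast_of_nonneg (k := ℝ) (n := 2 ^ d) (by positivity) (x * 2 ^ (s + d))
  rw [← h]
  congr 1
  push_cast
  rw [pow_add]
  field_simp

theorem fl_le {x y : ℝ} {s t : ℕ} (h : s ≤ t) (e : ⌊x * 2 ^ t⌋ = ⌊y * 2 ^ t⌋) :
    ⌊x * 2 ^ s⌋ = ⌊y * 2 ^ s⌋ := by
  obtain ⟨d, rfl⟩ := Nat.exists_eq_add_of_le h
  rw [fl_dy x s d, fl_dy y s d, e]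

theorem fl_abs {x y : ℝ} {t : ℕ} (e : ⌊x * 2 ^ t⌋ = ⌊y * 2 ^ t⌋) : |x - y| ≤ 1 / 2 ^ t := by
  have h := Int.abs_sub_lt_one_of_floor_eq_floor e
  have hp : (0 : ℝ) < 2 ^ t := by positivity
  rw [← sub_mul, abs_mul, abs_of_pos hp] at h
  rw [le_div_iff₀ hp]
  exact h.le

theorem rng (z : ℝ) (s n : ℕ) : 0 ≤ ⌊z * 2 ^ (s + n)⌋ - 2 ^ n * ⌊z * 2 ^ s⌋ ∧
    ⌊z * 2 ^ (s + n)⌋ - 2 ^ n * ⌊z * 2 ^ s⌋ < 2 ^ n := by
  rw [fl_dy z s n]
  have hp : (0 : ℤ) < 2 ^ n := by positivity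
  have h1 := Int.emod_nonneg ⌊z * 2 ^ (s + n)⌋ hp.ne'
  have h2 := Int.emod_lt_of_pos ⌊z * 2 ^ (s + n)⌋ hp
  rw [Int.emod_def] at h1 h2
  exact ⟨h1, h2⟩

theorem dg_rem (z : ℝ) (s : ℕ) {n t : ℕ} (h : t ≤ n) :
    dg n t (⌊z * 2 ^ (s + n)⌋ - 2 ^ n * ⌊z * 2 ^ s⌋) =
      ⌊z * 2 ^ (s + t)⌋ - 2 ^ t * ⌊z * 2 ^ s⌋ := by
  obtain ⟨d, rfl⟩ := Nat.exists_eq_add_of_le h
  have hp : (2 : ℤ) ^ d ≠ 0 := by positivity
  rw [dg, Nat.add_sub_cancel_left, fl_dy z (s + t) d, ← add_assoc]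
  have e : ⌊z * 2 ^ (s + t + d)⌋ - 2 ^ (t + d) * ⌊z * 2 ^ s⌋ =
      ⌊z * 2 ^ (s + t + d)⌋ + (-(2 ^ t * ⌊z * 2 ^ s⌋)) * 2 ^ d := by
    rw [pow_add (2 : ℤ) t d]
    ring
  rw [e, Int.add_mul_ediv_right _ _ hp]
  ring

theorem fl_diff (u v : ℝ) : |((⌊u⌋ : ℝ) - ⌊v⌋) - (u - v)| ≤ 1 := by
  have h1 := Int.floor_le u
  have h2 := Int.lt_floor_add_one u
  have h3 := Int.floor_le v
  have h4 := Int.lt_floor_add_one v
  rw [abs_le]
  constructor <;> linarith

theorem pw_le {s t : ℕ} (h : s ≤ t) : (2 : ℝ) ^ s * (1 / 2 ^ t) ≤ 1 := by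
  have hp : (0 : ℝ) < 2 ^ t := by positivity
  rw [mul_one_div, div_le_one hp]
  exact pow_le_pow_right₀ one_le_two h

/-- The second order expansion of the difference of two curves at two points. -/
theorem expand {C x0 x x' : ℝ} {f0 f1 f2 g0 g1 g2 : ℝ → ℝ} {k c Y : ℕ} (hC : 1 ≤ C)
    (ht : Tay C f0 f1 f2 g0 g1 g2) (m0 : x0 ∈ Set.Ico (0 : ℝ) 1) (m : x ∈ Set.Ico (0 : ℝ) 1)
    (m' : x' ∈ Set.Ico (0 : ℝ) 1) (hx : |x - x0| ≤ 1 / 2 ^ k) (hx' : |x' - x0| ≤ 1 / 2 ^ k)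
    (d0 : |f0 x0 - g0 x0| ≤ 1 / 2 ^ c) (d1 : |f1 x0 - g1 x0| ≤ 1 / 2 ^ c)
    (d2 : |f2 x0 - g2 x0| ≤ 1 / 2 ^ c) (hY : Y ≤ 3 * k + c) :
    |2 ^ Y * ((f0 x' - g0 x') - (f0 x - g0 x)) - 2 ^ Y * ((x' - x) * (f1 x0 - g1 x0) +
      ((x' - x0) ^ 2 - (x - x0) ^ 2) * (f2 x0 - g2 x0))| ≤ 2 * C := by
  have key : ∀ y ∈ Set.Ico (0 : ℝ) 1, |y - x0| ≤ 1 / 2 ^ k →
      |2 ^ Y * (f0 y - g0 y - (f0 x0 - g0 x0) - (y - x0) * (f1 x0 - g1 x0) -
        (y - x0) ^ 2 * (f2 x0 - g2 x0))| ≤ C := by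
    intro y hy hyx
    have h1 := (ht x0 m0 y hy _ d0 d1 d2).1
    have h2 : |y - x0| ^ 3 ≤ (1 / 2 ^ k) ^ 3 := pow_le_pow_left₀ (abs_nonneg _) hyx 3
    have h3 : C * |y - x0| ^ 3 * (1 / 2 ^ c) ≤ C * (1 / 2 ^ (3 * k + c)) := by
      have e : (1 : ℝ) / 2 ^ (3 * k + c) = (1 / 2 ^ k) ^ 3 * (1 / 2 ^ c) := by
        rw [pow_add, mul_comm 3 k, pow_mul]
        field_simp
      rw [e, mul_assoc]
      exact mul_le_mul_of_nonneg_left (mul_le_mul_of_nonneg_right h2 (by positivity))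
        (by linarith)
    have h4 := pw_le hY
    rw [abs_mul, abs_of_pos (by positivity : (0 : ℝ) < 2 ^ Y)]
    calc _ ≤ 2 ^ Y * (C * (1 / 2 ^ (3 * k + c))) :=
          mul_le_mul_of_nonneg_left (h1.trans h3) (by positivity)
      _ = C * (2 ^ Y * (1 / 2 ^ (3 * k + c))) := by ring
      _ ≤ C := mul_le_of_le_one_right (by linarith) h4
  have k1 := abs_le.1 (key x m hx)
  have k2 := abs_le.1 (key x' m' hx')
  rw [abs_le]
  constructor <;> linarith [k1.1, k1.2, k2.1, k2.2]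

/-- The main term in the linear case. -/
theorem main0 {h0 h1 r d1 d2 A : ℝ} {k b c n : ℕ} (p0 : 0 ≤ h0) (q0 : h0 ≤ 1 / 2 ^ k)
    (p1 : 0 ≤ h1) (q1 : h1 ≤ 1 / 2 ^ k) (hr : h1 - h0 = r / 2 ^ k) (e2 : |d2| ≤ 1 / 2 ^ c)
    (hA : |A - d1 * 2 ^ (b + n)| ≤ 1) (hb : b + n ≤ c + k) :
    |2 ^ (b + k + n) * ((h1 - h0) * d1 + (h1 ^ 2 - h0 ^ 2) * d2) - r * A| ≤ 2 := by
  have hk : (0 : ℝ) < 2 ^ k := by positivity
  have hr1 : |r| ≤ 1 := by
    have : r = (h1 - h0) * 2 ^ k := by rw [hr]; field_simp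
    rw [le_div_iff₀ hk] at q0 q1
    rw [this, abs_le]
    constructor <;> nlinarith [mul_nonneg p0 hk.le, mul_nonneg p1 hk.le]
  have hs : |h1 ^ 2 - h0 ^ 2| ≤ (1 / 2 ^ k) ^ 2 := by
    have a0 := pow_le_pow_left₀ p0 q0 2
    have a1 := pow_le_pow_left₀ p1 q1 2
    rw [abs_le]
    constructor <;> nlinarith [sq_nonneg h0, sq_nonneg h1]
  have t2 : |2 ^ (b + k + n) * ((h1 ^ 2 - h0 ^ 2) * d2)| ≤ 1 := by
    rw [abs_mul, abs_mul, abs_of_pos (by positivity : (0 : ℝ) < 2 ^ (b + k + n))]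
    have e : (1 : ℝ) / 2 ^ (2 * k + c) = (1 / 2 ^ k) ^ 2 * (1 / 2 ^ c) := by
      rw [pow_add, mul_comm 2 k, pow_mul]
      field_simp
    refine le_trans (mul_le_mul_of_nonneg_left ?_ (by positivity))
      (pw_le (s := b + k + n) (t := 2 * k + c) (by omega))
    rw [e]
    exact mul_le_mul hs e2 (abs_nonneg _) (by positivity)
  have t1 : |r * (A - d1 * 2 ^ (b + n))| ≤ 1 := by
    rw [abs_mul]
    exact mul_le_one₀ hr1 (abs_nonneg _) hA
  have e1 : 2 ^ (b + k + n) * ((h1 - h0) * d1) = r * (d1 * 2 ^ (b + n)) := by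
    rw [hr, pow_add, pow_add, pow_add]
    field_simp
  have e : 2 ^ (b + k + n) * ((h1 - h0) * d1 + (h1 ^ 2 - h0 ^ 2) * d2) - r * A =
      2 ^ (b + k + n) * ((h1 ^ 2 - h0 ^ 2) * d2) - r * (A - d1 * 2 ^ (b + n)) := by
    rw [mul_add, e1]
    ring
  rw [e]
  exact (abs_sub _ _).trans (by linarith)

/-- The main term in the quadratic case. -/
theorem main1 {C h0 h1 r d1 d2 d A : ℝ} {k c n : ℕ} (hC : 1 ≤ C) (p0 : 0 ≤ h0)
    (q0 : h0 ≤ 1 / 2 ^ k) (p1 : 0 ≤ h1) (q1 : h1 ≤ 1 / 2 ^ k) (hr : h1 - h0 = r / 2 ^ k)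
    (hd : |d - d1 - 2 * h0 * d2| ≤ C * |h0| ^ 2 * (1 / 2 ^ c)) (hd' : |d| ≤ 1 / 2 ^ (c + k + n))
    (hA : |A - d2 * 2 ^ (c + n)| ≤ 1) (hn : n ≤ k) :
    |2 ^ (c + k + k + n) * ((h1 - h0) * d1 + (h1 ^ 2 - h0 ^ 2) * d2) - r ^ 2 * A| ≤ 2 + C := by
  have hk : (0 : ℝ) < 2 ^ k := by positivity
  have hr1 : |r| ≤ 1 := by
    have : r = (h1 - h0) * 2 ^ k := by rw [hr]; field_simp
    rw [le_div_iff₀ hk] at q0 q1
    rw [this, abs_le]
    constructor <;> nlinarith [mul_nonneg p0 hk.le, mul_nonneg p1 hk.le]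
  have s1 : |2 ^ (c + k + n) * d| ≤ 1 := by
    rw [abs_mul, abs_of_pos (by positivity : (0 : ℝ) < 2 ^ (c + k + n))]
    exact (mul_le_mul_of_nonneg_left hd' (by positivity)).trans (pw_le le_rfl)
  have s2 : |2 ^ (c + k + n) * (d - d1 - 2 * h0 * d2)| ≤ C := by
    rw [abs_mul, abs_of_pos (by positivity : (0 : ℝ) < 2 ^ (c + k + n))]
    have e : (1 : ℝ) / 2 ^ (2 * k + c) = (1 / 2 ^ k) ^ 2 * (1 / 2 ^ c) := by
      rw [pow_add, mul_comm 2 k, pow_mul]
      field_simp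
    have a0 : |h0| ^ 2 ≤ (1 / 2 ^ k) ^ 2 := by
      rw [abs_of_nonneg p0]
      exact pow_le_pow_left₀ p0 q0 2
    have a1 : C * |h0| ^ 2 * (1 / 2 ^ c) ≤ C * (1 / 2 ^ (2 * k + c)) := by
      rw [e, mul_assoc]
      exact mul_le_mul_of_nonneg_left (mul_le_mul_of_nonneg_right a0 (by positivity))
        (by linarith)
    calc _ ≤ 2 ^ (c + k + n) * (C * (1 / 2 ^ (2 * k + c))) :=
          mul_le_mul_of_nonneg_left (hd.trans a1) (by positivity)
      _ = C * (2 ^ (c + k + n) * (1 / 2 ^ (2 * k + c))) := by ring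
      _ ≤ C := mul_le_of_le_one_right (by linarith) (pw_le (by omega))
  have s3 : |2 ^ (c + k + n) * (d1 + 2 * h0 * d2)| ≤ 1 + C := by
    have e : 2 ^ (c + k + n) * (d1 + 2 * h0 * d2) =
        2 ^ (c + k + n) * d - 2 ^ (c + k + n) * (d - d1 - 2 * h0 * d2) := by ring
    rw [e]
    exact (abs_sub _ _).trans (by linarith)
  have t2 : |r * (2 ^ (c + k + n) * (d1 + 2 * h0 * d2))| ≤ 1 + C := by
    rw [abs_mul]
    exact (mul_le_of_le_one_left (abs_nonneg _) hr1).trans s3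
  have t1 : |r ^ 2 * (A - d2 * 2 ^ (c + n))| ≤ 1 := by
    rw [abs_mul, abs_pow]
    exact mul_le_one₀ (pow_le_one₀ (abs_nonneg _) hr1) (abs_nonneg _) hA
  have e : 2 ^ (c + k + k + n) * ((h1 - h0) * d1 + (h1 ^ 2 - h0 ^ 2) * d2) - r ^ 2 * A =
      r * (2 ^ (c + k + n) * (d1 + 2 * h0 * d2)) - r ^ 2 * (A - d2 * 2 ^ (c + n)) := by
    have e1 : h1 = h0 + r / 2 ^ k := by linarith
    rw [e1]
    simp only [pow_add]
    field_simp
    ring
  rw [e]
  exact (abs_sub _ _).trans (by linarith)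

section jets

variable {Ω : Type} [Fintype Ω] {T : Jets Ω} {C : ℝ}

omit [Fintype Ω] in
theorem fr_le (T : Jets Ω) (k : ℕ) (ω : Ω) :
    T.fr k ω ≤ T.x ω ∧ T.x ω < T.fr k ω + 1 / 2 ^ k := by
  have hk : (0 : ℝ) < 2 ^ k := by positivity
  rw [Jets.fr, ← add_div, div_le_iff₀ hk, lt_div_iff₀ hk]
  exact ⟨Int.floor_le _, Int.lt_floor_add_one _⟩

theorem fr_mem (h : T.Ok C) (k : ℕ) (ω : Ω) : T.fr k ω ∈ Set.Ico (0 : ℝ) 1 := by
  have hx := h.x_mem ω
  refine ⟨?_, (fr_le T k ω).1.trans_lt hx.2⟩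
  have : (0 : ℤ) ≤ ⌊T.x ω * 2 ^ k⌋ := Int.floor_nonneg.2 (mul_nonneg hx.1 (by positivity))
  exact div_nonneg (by exact_mod_cast this) (by positivity)

omit [Fintype Ω] in
theorem fr_sub (T : Jets Ω) (k n : ℕ) (ω : Ω) :
    T.fr (k + n) ω - T.fr k ω =
      ((⌊T.x ω * 2 ^ (k + n)⌋ - 2 ^ n * ⌊T.x ω * 2 ^ k⌋ : ℤ) : ℝ) / 2 ^ n / 2 ^ k := by
  simp only [Jets.fr]
  push_cast
  rw [pow_add]
  field_simp

omit [Fintype Ω] in
theorem fr_sub_mem (T : Jets Ω) (k n : ℕ) (ω : Ω) :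
    0 ≤ T.fr (k + n) ω - T.fr k ω ∧ T.fr (k + n) ω - T.fr k ω ≤ 1 / 2 ^ k := by
  rw [fr_sub]
  obtain ⟨h1, h2⟩ := rng (T.x ω) k n
  have h1' : (0 : ℝ) ≤ ((⌊T.x ω * 2 ^ (k + n)⌋ - 2 ^ n * ⌊T.x ω * 2 ^ k⌋ : ℤ) : ℝ) := by
    exact_mod_cast h1
  have h2' : ((⌊T.x ω * 2 ^ (k + n)⌋ - 2 ^ n * ⌊T.x ω * 2 ^ k⌋ : ℤ) : ℝ) ≤ 2 ^ n := by
    exact_mod_cast h2.le
  refine ⟨by positivity, div_le_div_of_nonneg_right ?_ (by positivity)⟩
  exact (div_le_one (by positivity)).2 h2'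

omit [Fintype Ω] in
theorem lab_eq {k a b c : ℕ} {ω ω' : Ω} : T.lab k a b c ω = T.lab k a b c ω' ↔
    ⌊T.x ω * 2 ^ k⌋ = ⌊T.x ω' * 2 ^ k⌋ ∧
    ⌊T.J0 ω (T.fr k ω) * 2 ^ a⌋ = ⌊T.J0 ω' (T.fr k ω') * 2 ^ a⌋ ∧
    ⌊T.J1 ω (T.fr k ω) * 2 ^ b⌋ = ⌊T.J1 ω' (T.fr k ω') * 2 ^ b⌋ ∧
    ⌊T.J2 ω (T.fr k ω) * 2 ^ c⌋ = ⌊T.J2 ω' (T.fr k ω') * 2 ^ c⌋ := by
  simp only [Jets.lab, Prod.mk.injEq]

omit [Fintype Ω] in
theorem lab_le {k a b c a' b' c' : ℕ} (ha : a ≤ a') (hb : b ≤ b') (hc : c ≤ c') {ω ω' : Ω}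
    (e : T.lab k a' b' c' ω = T.lab k a' b' c' ω') : T.lab k a b c ω = T.lab k a b c ω' := by
  rw [lab_eq] at e ⊢
  exact ⟨e.1, fl_le ha e.2.1, fl_le hb e.2.2.1, fl_le hc e.2.2.2⟩

theorem lab_zero (h : T.Ok C) (k : ℕ) {ω ω' : Ω} : T.lab k 0 0 0 ω = T.lab k 0 0 0 ω' ↔
    ⌊T.x ω * 2 ^ k⌋ = ⌊T.x ω' * 2 ^ k⌋ := by
  have z : ∀ y : ℝ, y ∈ Set.Ico (0 : ℝ) 1 → ⌊y * 2 ^ 0⌋ = 0 := fun y hy => by
    rw [pow_zero, mul_one]
    exact Int.floor_eq_zero_iff.2 hy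
  have a := (h.rng ω).1 _ (fr_mem h k ω)
  have a' := (h.rng ω').1 _ (fr_mem h k ω')
  rw [lab_eq, z _ a.1, z _ a.2.1, z _ a.2.2, z _ a'.1, z _ a'.2.1, z _ a'.2.2]
  simp

omit [Fintype Ω] in
theorem fr_eq {k : ℕ} {ω ω' : Ω} (e : ⌊T.x ω * 2 ^ k⌋ = ⌊T.x ω' * 2 ^ k⌋) :
    T.fr k ω = T.fr k ω' := by
  rw [Jets.fr, Jets.fr, e]

/-- Equal labels at valid levels give close values at the finer frames. -/
theorem move (ht : TransStmt) (h : T.Ok C) {k a b c : ℕ} (hv : ValN k a b c) {ω ω' : Ω}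
    (e : T.lab k a b c ω = T.lab k a b c ω') (n : ℕ) :
    |2 ^ a * (T.J0 ω (T.fr (k + n) ω) - T.J0 ω' (T.fr (k + n) ω))| ≤ 3 + C := by
  rw [lab_eq] at e
  obtain ⟨e0, e1, e2, e3⟩ := e
  rw [← fr_eq e0] at e1 e2 e3
  have hs := fr_sub_mem T k n ω
  have := (ht C 1 _ _ _ _ _ _ _ _ k a b c h.one_le (h.tay ω ω') (fr_mem h k ω)
    (fr_mem h (k + n) ω) hv (by rw [abs_of_nonneg hs.1]; exact hs.2) (fl_abs e1) (fl_abs e2)
    (fl_abs e3)).1
  have hp : (0 : ℝ) < 2 ^ a := by positivity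
  rw [mul_one, le_div_iff₀ hp] at this
  rw [abs_mul, abs_of_pos hp, mul_comm]
  exact this

theorem one_div_le {s t : ℕ} (h : s ≤ t) : (1 : ℝ) / 2 ^ t ≤ 1 / 2 ^ s :=
  one_div_le_one_div_of_le (by positivity) (pow_le_pow_right₀ one_le_two h)

theorem shift (ht : TransStmt) (h : T.Ok C) {ρ k b c n : ℕ} (hρ : ρ = 0 ∨ ρ = 1 ∧ b = c + k)
    (hcb : c ≤ b) (hn : n ≤ k) (hb : b + n ≤ c + k + ρ * n) (ω1 ω1' ω2 ω2' : Ω)
    (w1 : (T.core ρ k b c n C).W ω1 = (T.core ρ k b c n C).W ω1')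
    (w2 : (T.core ρ k b c n C).W ω2 = (T.core ρ k b c n C).W ω2')
    (hz : (T.core ρ k b c n C).Z ω1 = (T.core ρ k b c n C).Z ω2)
    (hd : (T.core ρ k b c n C).D ω1 = (T.core ρ k b c n C).D ω2)
    (hc' : (T.core ρ k b c n C).c ω1' = (T.core ρ k b c n C).c ω2') :
    |(((T.core ρ k b c n C).U ω1' : ℝ) - (T.core ρ k b c n C).U ω1) -
      (((T.core ρ k b c n C).U ω2' : ℝ) - (T.core ρ k b c n C).U ω2) -
      ((((T.core ρ k b c n C).c ω1' : ℝ) - (T.core ρ k b c n C).c ω1) / 2 ^ n) ^ (1 + ρ) *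
        (((T.core ρ k b c n C).a ω1 : ℝ) - (T.core ρ k b c n C).a ω2)| ≤ 20 * C := by
  have hC := h.one_le
  have hρn : ρ * n ≤ n := by rcases hρ with rfl | ⟨rfl, _⟩ <;> omega
  have hv : ValN k (b + k + n) (b + n) (c + ρ * n) := ⟨by omega, by omega, by omega, by omega⟩
  simp only [Jets.core] at w1 w2 hz hd hc' ⊢
  have m1 := move ht h hv w1.symm n
  have m2 := move ht h hv w2.symm n
  obtain ⟨a1, -⟩ := lab_eq.1 w1
  obtain ⟨a2, -⟩ := lab_eq.1 w2
  obtain ⟨z0, z1, z2, z3⟩ := lab_eq.1 hz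
  obtain ⟨d0, -, d2, -⟩ := lab_eq.1 hd
  have d0' : ⌊T.x ω1' * 2 ^ (k + n)⌋ = ⌊T.x ω2' * 2 ^ (k + n)⌋ := by
    rw [← a1, ← a2, z0] at hc'
    linarith
  have s1 := fr_sub T k n ω1
  have s1' := fr_sub T k n ω1'
  have b1 := fr_sub_mem T k n ω1
  have b1' := fr_sub_mem T k n ω1'
  rw [← fr_eq a1] at s1' b1'
  rw [← fr_eq z0] at z1 z2 z3 ⊢
  rw [← fr_eq d0] at d2 ⊢
  rw [← fr_eq d0'] at m2 ⊢
  have mx0 := fr_mem h k ω1
  have mx := fr_mem h (k + n) ω1
  have mx' := fr_mem h (k + n) ω1'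
  generalize T.fr k ω1 = x0 at *
  generalize T.fr (k + n) ω1 = x at *
  generalize T.fr (k + n) ω1' = x' at *
  generalize ((⌊T.x ω1 * 2 ^ (k + n)⌋ - 2 ^ n * ⌊T.x ω1 * 2 ^ k⌋ : ℤ) : ℝ) = c1 at *
  generalize ((⌊T.x ω1' * 2 ^ (k + n)⌋ - 2 ^ n * ⌊T.x ω1' * 2 ^ k⌋ : ℤ) : ℝ) = c1' at *
  have e0 := (fl_abs z1).trans (one_div_le (by omega : c ≤ b + k))
  have e1 := (fl_abs z2).trans (one_div_le hcb)
  have e2 := fl_abs z3
  have hx : |x - x0| ≤ 1 / 2 ^ k := by rw [abs_of_nonneg b1.1]; exact b1.2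
  have hx' : |x' - x0| ≤ 1 / 2 ^ k := by rw [abs_of_nonneg b1'.1]; exact b1'.2
  have ex := expand (Y := b + k + n) hC (h.tay ω1 ω2) mx0 mx mx' hx hx' e0 e1 e2 (by omega)
  have f1 := fl_diff (T.J0 ω1' x' * 2 ^ (b + k + n)) (T.J0 ω1 x * 2 ^ (b + k + n))
  have f2 := fl_diff (T.J0 ω2' x' * 2 ^ (b + k + n)) (T.J0 ω2 x * 2 ^ (b + k + n))
  have hr : (x' - x0) - (x - x0) = (c1' - c1) / 2 ^ n / 2 ^ k := by
    rw [s1, s1']
    ring
  have e3 : x' - x = (x' - x0) - (x - x0) := by ring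
  rw [e3] at ex
  rw [abs_le] at m1 m2 ex f1 f2 ⊢
  rcases hρ with rfl | ⟨rfl, rfl⟩
  · have hA := fl_diff (T.J1 ω1 x0 * 2 ^ (b + n)) (T.J1 ω2 x0 * 2 ^ (b + n))
    rw [← sub_mul] at hA
    have := abs_le.1 (main0 b1.1 b1.2 b1'.1 b1'.2 hr e2 hA (by omega))
    simp only [if_true, add_zero, pow_one, z2]
    push_cast
    constructor <;> linarith [this.1, this.2, m1.1, m1.2, m2.1, m2.2, ex.1, ex.2, f1.1, f1.2,
      f2.1, f2.2]
  · have hA := fl_diff (T.J2 ω1 x0 * 2 ^ (c + n)) (T.J2 ω2 x0 * 2 ^ (c + n))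
    rw [← sub_mul] at hA
    rw [one_mul] at d2
    have := abs_le.1 (main1 hC b1.1 b1.2 b1'.1 b1'.2 hr
      (h.tay ω1 ω2 x0 mx0 x mx _ e0 e1 e2).2.1 (fl_abs d2) hA hn)
    simp only [one_ne_zero, if_false, z3, one_add_one_eq_two]
    push_cast
    constructor <;> linarith [this.1, this.2, m1.1, m1.2, m2.1, m2.2, ex.1, ex.2, f1.1, f1.2,
      f2.1, f2.2]

end jets

end Cr

theorem core_stmt (h : TransStmt) : CoreStmt := by
  intro Ω _ T C ρ k b c n hT hρ hcb hn hb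
  refine ⟨fun e h1 h2 h3 => ⟨hT.isP, ?_, ?_, fun ω ω' hw => ?_, fun ω ω' hw => ?_,
    fun ω ω' hw => ?_, fun ω => ?_, fun ω => Cr.rng _ _ _,
    fun ω1 ω1' ω2 ω2' w1 w2 hz hd _ hc' => Cr.shift h hT hρ hcb hn hb ω1 ω1' ω2 ω2' w1 w2 hz hd hc',
    h1, h2, h3⟩, fun t ht ω ω' => ?_, fun t ht ω ω' => ?_⟩
  · rcases hρ with rfl | ⟨rfl, _⟩
    · exact Or.inl rfl
    · exact Or.inr rfl
  · have := hT.one_le
    change 0 ≤ 20 * C
    linarith
  · exact Cr.lab_le (Nat.le_add_right _ _) le_rfl le_rfl hw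
  · exact Cr.lab_le le_rfl (Nat.le_add_right _ _) (Nat.le_add_right _ _) hw
  · obtain ⟨-, -, e2, e3⟩ := Cr.lab_eq.1 hw
    rcases hρ with rfl | ⟨rfl, _⟩
    · simp only [Jets.core, if_true]
      rw [e2, Cr.fl_le (Nat.le_add_right b n) e2]
    · rw [one_mul] at e3
      simp only [Jets.core, one_ne_zero, if_false]
      rw [e3, Cr.fl_le (Nat.le_add_right c n) e3]
  · simp only [Jets.core]
    split_ifs
    · exact Cr.rng _ _ _
    · exact Cr.rng _ _ _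
  · rcases hρ with rfl | ⟨rfl, _⟩
    · simp only [pair, Core.ad, Core.Ka, Jets.core, if_true, Prod.mk.injEq, Cr.dg_rem _ _ ht,
        Nat.sub_zero, one_mul, zero_mul, add_zero]
      constructor
      · rintro ⟨e1, -, e3, e4⟩
        obtain ⟨z0, z1, z2, z3⟩ := Cr.lab_eq.1 e4
        refine ⟨e3, Cr.lab_eq.2 ⟨z0, z1, ?_, z3⟩⟩
        rw [z2] at e1
        linarith
      · rintro ⟨e1, e2⟩
        have e4 := Cr.lab_le le_rfl (Nat.le_add_right b t) le_rfl e2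
        obtain ⟨z0, -, z2, -⟩ := Cr.lab_eq.1 e4
        refine ⟨?_, ?_, e1, e4⟩
        · rw [z2, (Cr.lab_eq.1 e2).2.2.1]
        · rw [z0, (Cr.lab_eq.1 e1).1]
    · simp only [pair, Core.ad, Core.Ka, Jets.core, one_ne_zero, if_false, Prod.mk.injEq,
        Cr.dg_rem _ _ ht, Nat.sub_self, one_mul, zero_mul, add_zero]
      constructor
      · rintro ⟨e1, -, e3, e4⟩
        obtain ⟨z0, z1, z2, z3⟩ := Cr.lab_eq.1 e4
        refine ⟨e3, Cr.lab_eq.2 ⟨z0, z1, z2, ?_⟩⟩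
        rw [z3] at e1
        linarith
      · rintro ⟨e1, e2⟩
        have e4 := Cr.lab_le le_rfl le_rfl (Nat.le_add_right c t) e2
        obtain ⟨z0, -, -, z3⟩ := Cr.lab_eq.1 e4
        refine ⟨?_, ?_, e1, e4⟩
        · rw [z3, (Cr.lab_eq.1 e2).2.2.2]
        · rw [z0, (Cr.lab_eq.1 e1).1]
  · simp only [pair, Core.cd, Jets.core, Prod.mk.injEq, Cr.dg_rem _ _ ht, Cr.lab_zero hT]
    constructor
    · rintro ⟨e1, e2⟩
      refine ⟨?_, e2⟩
      rw [(Cr.lab_eq.1 e2).1] at e1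
      linarith
    · rintro ⟨e1, e2⟩
      refine ⟨?_, e2⟩
      rw [(Cr.lab_eq.1 e2).1, e1]

end Pool.Agent.MP_538dc4_an.AB

end MrgPart1

-- ======== part 2: formerly Pool.Agent.MP_538dc4_an.ab.Lam
section MrgPart2

/-! PROJECT FURST2: the deficiency function lam. -/

open MeasureTheory Finset Filter Topology
open scoped ENNReal

namespace Pool.Agent.MP_538dc4_an.AB

namespace LamA

variable {u v : ℝ} {H : ℝ → ℝ → ℝ → ℝ → ℝ}

theorem etp (n : ℕ) : 0 < et n := by unfold et; positivity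

theorem et1 (n : ℕ) : et n ≤ 1 := pow_le_one₀ (by norm_num) (by norm_num)

theorem ett : Tendsto et atTop (𝓝 0) :=
  tendsto_pow_atTop_nhds_zero_of_lt_one (by norm_num) (by norm_num)

theorem et_sq (n : ℕ) : ((4 ^ n : ℕ) : ℝ) * (et n * et n) = 1 := by
  unfold et
  push_cast
  rw [← mul_pow, ← mul_pow]
  norm_num

theorem val_up {k k' a b c : ℝ} (h : Val k a b c) (h1 : k ≤ k') (h2 : k' ≤ 1) : Val k' a b c := by
  obtain ⟨a1, a2, a3, a4, a5, a6, -⟩ := h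
  exact ⟨a1, a2, a3, a4, by linarith, by linarith, h2⟩

theorem val_diag {k x : ℝ} (h0 : 0 ≤ x) (h1 : x ≤ 1) (hk : 0 ≤ k) (hk1 : k ≤ 1) : Val k x x x :=
  ⟨h0, le_rfl, le_rfl, h1, by linarith, by linarith, hk1⟩

/-- Increments in the first variable decrease. -/
theorem decr (hM : Macro u v H) {k k' a b c a' b' c' : ℝ} (h : Val k a b c) (h' : Val k a' b' c')
    (h1 : k ≤ k') (h2 : k' ≤ 1) (ha : a ≤ a') (hb : b ≤ b') (hc : c ≤ c') :
    H k' a' b' c' - H k a' b' c' ≤ H k' a b c - H k a b c := by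
  have := hM.sub k' a b c k a' b' c' k a b c (val_up h h1 h2) h' h h1 le_rfl le_rfl le_rfl
    le_rfl ha hb hc
  rw [max_eq_left h1, max_eq_right ha, max_eq_right hb, max_eq_right hc] at this
  linarith

/-- Increments in the second variable decrease. -/
theorem subA (hM : Macro u v H) {k y y' b c b' c' : ℝ} (h1 : Val k y' b c) (h2 : Val k y b' c')
    (h3 : Val k y b c) (hy : y ≤ y') (hb : b ≤ b') (hc : c ≤ c') :
    H k y' b' c' - H k y b' c' ≤ H k y' b c - H k y b c := by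
  have := hM.sub k y' b c k y b' c' k y b c h1 h2 h3 le_rfl hy le_rfl le_rfl le_rfl le_rfl hb hc
  rw [max_self, max_eq_left hy, max_eq_right hb, max_eq_right hc] at this
  linarith

/-- The least admissible levels. -/
noncomputable def n1 (x η k y : ℝ) : ℝ := max x (y + η - k)

noncomputable def n2 (x η k y : ℝ) : ℝ := max x (y + η - 2 * k)

theorem n1_anti {x x' η k k' y y' : ℝ} (hx : x ≤ x') (hk : k' ≤ k) (hy : y ≤ y') :
    n1 x η k y ≤ n1 x' η k' y' := max_le_max hx (by linarith)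

theorem n2_anti {x x' η k k' y y' : ℝ} (hx : x ≤ x') (hk : k' ≤ k) (hy : y ≤ y') :
    n2 x η k y ≤ n2 x' η k' y' := max_le_max hx (by linarith)

theorem n1_le {x η k y : ℝ} (hxy : x ≤ y) (hk : η ≤ k) : n1 x η k y ≤ y :=
  max_le hxy (by linarith)

theorem n2_le {x η k y : ℝ} (hk : 0 ≤ k) : n2 x η k y ≤ n1 x η k y :=
  max_le_max le_rfl (by linarith)

theorem val_n {x η k y a : ℝ} (h0 : 0 ≤ x) (hη : 0 ≤ η) (hxy : x ≤ y) (hk : η ≤ k) (hk1 : k ≤ 1)
    (ha : y ≤ a) (ha' : a ≤ y + η) (ha1 : a ≤ 1) : Val k a (n1 x η k y) (n2 x η k y) := by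
  refine ⟨h0.trans (le_max_left _ _), n2_le (hη.trans hk), (n1_le hxy hk).trans ha, ha1, ?_, ?_,
    hk1⟩
  · have : y + η - k ≤ n1 x η k y := le_max_right _ _
    linarith
  · have h1 : x ≤ n2 x η k y := le_max_left _ _
    have h2 : y + η - 2 * k ≤ n2 x η k y := le_max_right _ _
    exact max_le (by linarith) (by linarith)

variable (H) in
/-- The largest increment at the level k. -/
noncomputable def s0 (x η k y : ℝ) : ℝ :=
  H k (y + η) (n1 x η k y) (n2 x η k y) - H k y (n1 x η k y) (n2 x η k y)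

theorem s0_le (hM : Macro u v H) {x η : ℝ} (hη : 0 ≤ η) (k y : ℝ) : s0 H x η k y ≤ η := by
  have := hM.lip k (y + η) (n1 x η k y) (n2 x η k y) k y (n1 x η k y) (n2 x η k y)
  simp only [sub_self, abs_zero, add_sub_cancel_left, abs_of_nonneg hη, zero_add,
    add_zero] at this
  exact (le_abs_self _).trans this

theorem s0_nonneg (hM : Macro u v H) {x η k y : ℝ} (h0 : 0 ≤ x) (hη : 0 ≤ η) (hxy : x ≤ y)
    (hk : η ≤ k) (hk1 : k ≤ 1) (hy : y + η ≤ 1) : 0 ≤ s0 H x η k y :=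
  sub_nonneg.2 (hM.mono _ _ _ _ _ _ _ _
    (val_n h0 hη hxy hk hk1 le_rfl (by linarith) (by linarith))
    (val_n h0 hη hxy hk hk1 (by linarith) le_rfl hy) le_rfl (by linarith) le_rfl le_rfl)

theorem s0_anti (hM : Macro u v H) {x x' η k y : ℝ} (h0 : 0 ≤ x) (hη : 0 ≤ η) (hx : x ≤ x')
    (hxy : x' ≤ y) (hk : η ≤ k) (hk1 : k ≤ 1) (hy : y + η ≤ 1) :
    s0 H x' η k y ≤ s0 H x η k y :=
  subA hM (val_n h0 hη (hx.trans hxy) hk hk1 (by linarith) le_rfl hy)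
    (val_n (h0.trans hx) hη hxy hk hk1 le_rfl (by linarith) (by linarith))
    (val_n h0 hη (hx.trans hxy) hk hk1 le_rfl (by linarith) (by linarith)) (by linarith)
    (n1_anti hx le_rfl le_rfl) (n2_anti hx le_rfl le_rfl)

theorem le_s0 (hM : Macro u v H) {x η k y b c : ℝ} (h0 : 0 ≤ x) (hη : 0 ≤ η) (hxy : x ≤ y)
    (hc : x ≤ c) (hk : η ≤ k) (hv : Val k (y + η) b c) (hb : b ≤ y) :
    H k (y + η) b c - H k y b c ≤ s0 H x η k y := by
  obtain ⟨a1, a2, a3, a4, a5, a6, a7⟩ := hv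
  exact subA hM (val_n h0 hη hxy hk a7 (by linarith) le_rfl a4)
    ⟨a1, a2, hb, by linarith, by linarith, a6, a7⟩
    (val_n h0 hη hxy hk a7 le_rfl (by linarith) (by linarith)) (by linarith)
    (max_le (by linarith) (by linarith)) (max_le hc (by linarith))

theorem s0_lip (hM : Macro u v H) (x η k k' y : ℝ) :
    s0 H x η k y ≤ s0 H x η k' y + 8 * |k - k'| := by
  have h1 : |n1 x η k y - n1 x η k' y| ≤ |k - k'| := by
    unfold n1
    rw [max_comm x, max_comm x]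
    refine (abs_max_sub_max_le_abs _ _ _).trans_eq ?_
    rw [abs_sub_comm k]
    congr 1
    ring
  have h2 : |n2 x η k y - n2 x η k' y| ≤ 2 * |k - k'| := by
    unfold n2
    rw [max_comm x, max_comm x]
    refine (abs_max_sub_max_le_abs _ _ _).trans_eq ?_
    rw [abs_sub_comm k, ← abs_two, ← abs_mul, abs_two]
    congr 1
    ring
  have h3 := hM.lip k (y + η) (n1 x η k y) (n2 x η k y) k' (y + η) (n1 x η k' y) (n2 x η k' y)
  have h4 := hM.lip k y (n1 x η k y) (n2 x η k y) k' y (n1 x η k' y) (n2 x η k' y)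
  simp only [sub_self, abs_zero, add_zero] at h3 h4
  have h5 := (abs_le.1 h3).2
  have h6 := (abs_le.1 h4).1
  unfold s0
  linarith

theorem H_cont (hM : Macro u v H) :
    Continuous fun p : ℝ × ℝ × ℝ × ℝ => H p.1 p.2.1 p.2.2.1 p.2.2.2 := by
  refine (LipschitzWith.of_dist_le' (K := 4) fun p q => ?_).continuous
  rw [Real.dist_eq]
  refine (hM.lip _ _ _ _ _ _ _ _).trans ?_
  have h1 : dist p.1 q.1 ≤ dist p q := le_max_left _ _
  have h2 : dist p.2 q.2 ≤ dist p q := le_max_right _ _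
  have h3 : dist p.2.1 q.2.1 ≤ dist p.2 q.2 := le_max_left _ _
  have h4 : dist p.2.2 q.2.2 ≤ dist p.2 q.2 := le_max_right _ _
  have h5 : dist p.2.2.1 q.2.2.1 ≤ dist p.2.2 q.2.2 := le_max_left _ _
  have h6 : dist p.2.2.2 q.2.2.2 ≤ dist p.2.2 q.2.2 := le_max_right _ _
  rw [Real.dist_eq] at h1 h3 h5 h6
  linarith

theorem s0_cont (hM : Macro u v H) (x η k : ℝ) : Continuous (s0 H x η k) := by
  have c1 : Continuous (n1 x η k) := by unfold n1; fun_prop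
  have c2 : Continuous (n2 x η k) := by unfold n2; fun_prop
  have h1 : Continuous fun y : ℝ => ((k, y + η, n1 x η k y, n2 x η k y) : ℝ × ℝ × ℝ × ℝ) := by
    fun_prop
  have h2 : Continuous fun y : ℝ => ((k, y, n1 x η k y, n2 x η k y) : ℝ × ℝ × ℝ × ℝ) := by
    fun_prop
  exact ((H_cont hM).comp h1).sub ((H_cont hM).comp h2)

variable (H) in
/-- The mixed increment between the levels k and k'. -/
noncomputable def mix (x η k k' y : ℝ) : ℝ :=
  (H k' y (n1 x η k y) (n2 x η k y) - H k y (n1 x η k y) (n2 x η k y)) -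
    (H k' (y + η) (n1 x η k y) (n2 x η k y) - H k (y + η) (n1 x η k y) (n2 x η k y))

theorem mix_nonneg (hM : Macro u v H) {x η k k' y : ℝ} (h0 : 0 ≤ x) (hη : 0 ≤ η) (hxy : x ≤ y)
    (hk : η ≤ k) (hkk : k ≤ k') (hk1 : k' ≤ 1) (hy : y + η ≤ 1) : 0 ≤ mix H x η k k' y :=
  sub_nonneg.2 (decr hM (val_n h0 hη hxy hk (hkk.trans hk1) le_rfl (by linarith) (by linarith))
    (val_n h0 hη hxy hk (hkk.trans hk1) (by linarith) le_rfl hy) hkk hk1 (by linarith) le_rfl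
    le_rfl)

theorem s0_step (hM : Macro u v H) {x η k k' y : ℝ} (h0 : 0 ≤ x) (hη : 0 ≤ η) (hxy : x ≤ y)
    (hk : η ≤ k) (hkk : k ≤ k') (hk1 : k' ≤ 1) (hy : y + η ≤ 1) :
    s0 H x η k y ≤ mix H x η k k' y + s0 H x η k' y := by
  have := le_s0 hM (k := k') h0 hη hxy (le_max_left x (y + η - 2 * k)) (hk.trans hkk)
    (val_up (val_n h0 hη hxy hk (hkk.trans hk1) (by linarith) le_rfl hy) hkk hk1) (n1_le hxy hk)
  unfold mix
  change H k' (y + η) (n1 x η k y) (n2 x η k y) - H k' y (n1 x η k y) (n2 x η k y) ≤ _ at this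
  have e : s0 H x η k y =
    H k (y + η) (n1 x η k y) (n2 x η k y) - H k y (n1 x η k y) (n2 x η k y) := rfl
  linarith

theorem sum_mix (hM : Macro u v H) {x η k k' y L : ℝ} (h0 : 0 ≤ x) (hη : 0 ≤ η) (hxy : x ≤ y)
    (hk : η ≤ k) (hkk : k ≤ k') (hk1 : k' ≤ 1) (J : ℕ) (hJ : y + J * η ≤ L) (hL : L ≤ 1) :
    ∑ j ∈ range J, mix H x η k k' (y + j * η) ≤
      (H k' x x x - H k x x x) - (H k' L L L - H k L L L) := by
  have hk0 : 0 ≤ k := hη.trans hk
  have hk2 : k ≤ 1 := hkk.trans hk1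
  have key : ∀ j : ℕ, y + j * η ≤ 1 → ∑ i ∈ range j, mix H x η k k' (y + i * η) ≤
      (H k' x x x - H k x x x) -
      (H k' (y + j * η) (n1 x η k (y + j * η)) (n2 x η k (y + j * η)) -
        H k (y + j * η) (n1 x η k (y + j * η)) (n2 x η k (y + j * η))) := by
    intro j
    induction j with
    | zero =>
      intro h
      simp only [Nat.cast_zero, zero_mul, add_zero, range_zero, sum_empty] at h ⊢
      exact sub_nonneg.2 (decr hM (val_diag h0 (hxy.trans h) hk0 hk2)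
        (val_n h0 hη hxy hk hk2 le_rfl (by linarith) h) hkk hk1 hxy (le_max_left _ _)
        (le_max_left _ _))
    | succ j ih =>
      intro h
      have e : y + ((j + 1 : ℕ) : ℝ) * η = y + j * η + η := by push_cast; ring
      rw [e] at h ⊢
      have hj : 0 ≤ (j : ℝ) * η := by positivity
      have h1 := ih (by linarith)
      have h2 := decr hM (k := k) (k' := k')
        (val_n (y := y + j * η) (a := y + j * η + η) h0 hη (by linarith) hk hk2 (by linarith)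
          le_rfl h)
        (val_n (y := y + j * η + η) (a := y + j * η + η) h0 hη (by linarith) hk hk2 le_rfl
          (by linarith) h) hkk hk1 le_rfl (n1_anti le_rfl le_rfl (by linarith))
        (n2_anti le_rfl le_rfl (by linarith))
      rw [sum_range_succ]
      unfold mix at *
      linarith
  have hj : 0 ≤ (J : ℝ) * η := by positivity
  have h1 := key J (hJ.trans hL)
  have h3 : n1 x η k (y + J * η) ≤ L := (n1_le (by linarith) hk).trans hJ
  have h2 := decr hM (k := k) (k' := k')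
    (val_n (y := y + J * η) (a := y + J * η) h0 hη (by linarith) hk hk2 le_rfl (by linarith)
      (hJ.trans hL))
    (val_diag (x := L) (by linarith) hL hk0 hk2) hkk hk1 hJ h3 ((n2_le hk0).trans h3)
  linarith

theorem sum_top (hM : Macro u v H) {x η y L : ℝ} (h0 : 0 ≤ x) (hη : 0 ≤ η) (hxy : x ≤ y)
    (J : ℕ) (hJ : y + J * η ≤ L) (hL : L ≤ 1) :
    ∑ j ∈ range J, s0 H x η 1 (y + j * η) ≤ H 1 L x x - H 1 x x x := by
  have hv : ∀ a, x ≤ a → a ≤ 1 → Val 1 a x x := fun a h1 h2 =>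
    ⟨h0, le_rfl, h1, h2, by linarith, by linarith, le_rfl⟩
  have hj : 0 ≤ (J : ℝ) * η := by positivity
  have e : ∑ j ∈ range J, s0 H x η 1 (y + j * η) =
      ∑ j ∈ range J, (H 1 (y + ((j + 1 : ℕ) : ℝ) * η) x x - H 1 (y + (j : ℕ) * η) x x) := by
    refine sum_congr rfl fun j hj => ?_
    have h1 : ((j + 1 : ℕ) : ℝ) * η ≤ J * η :=
      mul_le_mul_of_nonneg_right (Nat.cast_le.2 (mem_range.1 hj)) hη
    have e1 : y + ((j + 1 : ℕ) : ℝ) * η = y + j * η + η := by push_cast; ring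
    have h2 : y + j * η + η ≤ 1 := by linarith
    unfold s0 n1 n2
    rw [max_eq_left (by linarith), max_eq_left (by linarith), e1]
  rw [e, sum_range_sub fun j : ℕ => H 1 (y + (j : ℕ) * η) x x]
  have h1 := hM.mono _ _ _ _ _ _ _ _ (hv (y + J * η) (by linarith) (by linarith))
    (hv L (by linarith) hL) le_rfl hJ le_rfl le_rfl
  have h2 := hM.mono _ _ _ _ _ _ _ _ (hv x le_rfl (by linarith))
    (hv y hxy (by linarith)) le_rfl hxy le_rfl le_rfl
  simp only [Nat.cast_zero, zero_mul, add_zero]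
  linarith

/-- The grid of levels. -/
noncomputable def kk (n i : ℕ) : ℝ := 1 - i / (4 ^ n : ℕ) * (1 - et n)

theorem kk_zero (n : ℕ) : kk n 0 = 1 := by simp [kk]

theorem kk_last (n : ℕ) : kk n (4 ^ n) = et n := by
  unfold kk
  rw [div_self (by positivity)]
  ring

theorem kk_anti (n : ℕ) {i j : ℕ} (h : i ≤ j) : kk n j ≤ kk n i := by
  unfold kk
  have := et1 n
  gcongr

theorem kk_le (n i : ℕ) : kk n i ≤ 1 := (kk_anti n (Nat.zero_le i)).trans_eq (kk_zero n)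

theorem le_kk (n : ℕ) {i : ℕ} (h : i ≤ 4 ^ n) : et n ≤ kk n i :=
  (kk_last n).ge.trans (kk_anti n h)

theorem exists_kk (n : ℕ) {k : ℝ} (h1 : et n ≤ k) (h2 : k ≤ 1) :
    ∃ i ≤ 4 ^ n, |k - kk n i| ≤ et n * et n := by
  have hp := etp n
  have h1' := et1 n
  obtain ⟨θ, t0, t1, e⟩ : ∃ θ : ℝ, 0 ≤ θ ∧ θ ≤ 1 ∧ k = 1 - θ * (1 - et n) := by
    rcases h1'.eq_or_lt with h | h
    · exact ⟨0, le_rfl, zero_le_one, by linarith⟩
    · have h3 : 0 < 1 - et n := by linarith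
      refine ⟨(1 - k) / (1 - et n), div_nonneg (by linarith) h3.le,
        (div_le_one h3).2 (by linarith), ?_⟩
      rw [div_mul_cancel₀ _ h3.ne']
      ring
  have hN : (0 : ℝ) < (4 ^ n : ℕ) := by positivity
  have hs := et_sq n
  set N : ℝ := ((4 ^ n : ℕ) : ℝ) with hNd
  have h3 : (⌊θ * N⌋₊ : ℝ) ≤ θ * N := Nat.floor_le (by positivity)
  have h4 : θ * N < ⌊θ * N⌋₊ + 1 := Nat.lt_floor_add_one _
  refine ⟨⌊θ * N⌋₊, ?_, ?_⟩
  · have : (⌊θ * N⌋₊ : ℝ) ≤ N := h3.trans (mul_le_of_le_one_left hN.le t1)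
    exact Nat.cast_le.1 this
  · have e2 : k - kk n ⌊θ * N⌋₊ = -((θ * N - ⌊θ * N⌋₊) * (1 - et n) / N) := by
      rw [e]
      unfold kk
      rw [← hNd]
      field_simp
      ring
    rw [e2, abs_neg, abs_of_nonneg (div_nonneg (mul_nonneg (by linarith) (by linarith)) hN.le),
      div_le_iff₀ hN, mul_comm (et n * et n) N, hs]
    exact mul_le_one₀ (by linarith) (by linarith) (by linarith)

variable (H) in
/-- The largest increment over the grid. -/
noncomputable def Sb (n : ℕ) (x y : ℝ) : ℝ :=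
  (range (4 ^ n + 1)).sup' nonempty_range_add_one fun i => s0 H x (et n) (kk n i) y

theorem le_Sb (n : ℕ) (x y : ℝ) {i : ℕ} (hi : i ≤ 4 ^ n) :
    s0 H x (et n) (kk n i) y ≤ Sb H n x y :=
  le_sup' (fun i => s0 H x (et n) (kk n i) y) (mem_range.2 (Nat.lt_succ_of_le hi))

theorem Sb_le {n : ℕ} {x y z : ℝ} (h : ∀ i ≤ 4 ^ n, s0 H x (et n) (kk n i) y ≤ z) :
    Sb H n x y ≤ z :=
  sup'_le _ _ fun i hi => h i (Nat.le_of_lt_succ (mem_range.1 hi))

theorem Sb_cont (hM : Macro u v H) (n : ℕ) (x : ℝ) : Continuous (Sb H n x) :=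
  Continuous.finset_sup'_apply _ fun _ _ => s0_cont hM _ _ _

theorem Sb_le_et (hM : Macro u v H) (n : ℕ) (x y : ℝ) : Sb H n x y ≤ et n :=
  Sb_le fun _ _ => s0_le hM (etp n).le _ _

theorem Sb_le_sum (hM : Macro u v H) (n : ℕ) {x y : ℝ} (h0 : 0 ≤ x) (hxy : x ≤ y)
    (hy : y + et n ≤ 1) : Sb H n x y ≤
      ∑ l ∈ range (4 ^ n), mix H x (et n) (kk n (l + 1)) (kk n l) y + s0 H x (et n) 1 y := by
  have hp := (etp n).le
  have key : ∀ i ≤ 4 ^ n, s0 H x (et n) (kk n i) y ≤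
      ∑ l ∈ range i, mix H x (et n) (kk n (l + 1)) (kk n l) y + s0 H x (et n) 1 y := by
    intro i
    induction i with
    | zero => intro _; simp [kk_zero]
    | succ i ih =>
      intro hi
      have h1 := ih (by omega)
      have h2 := s0_step hM h0 hp hxy (le_kk n hi) (kk_anti n (Nat.le_succ i)) (kk_le n i) hy
      rw [sum_range_succ]
      linarith
  refine Sb_le fun i hi => (key i hi).trans (add_le_add_left ?_ _)
  refine sum_le_sum_of_subset_of_nonneg (range_mono hi) fun l hl _ => ?_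
  exact mix_nonneg hM h0 hp hxy (le_kk n (mem_range.1 hl)) (kk_anti n (Nat.le_succ l))
    (kk_le n l) hy

theorem sum_Sb (hM : Macro u v H) (n : ℕ) {x y L : ℝ} (h0 : 0 ≤ x) (hxy : x ≤ y) (J : ℕ)
    (hJ : y + J * et n ≤ L) (hL : L ≤ 1) : ∑ j ∈ range J, Sb H n x (y + j * et n) ≤
      H 0 L L L - H 0 x x x - (H 1 L L L - H 1 L x x) := by
  have hp := (etp n).le
  have hj : 0 ≤ (J : ℝ) * et n := by positivity
  have h1 : ∑ j ∈ range J, Sb H n x (y + j * et n) ≤ ∑ j ∈ range J,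
      (∑ l ∈ range (4 ^ n), mix H x (et n) (kk n (l + 1)) (kk n l) (y + j * et n) +
        s0 H x (et n) 1 (y + j * et n)) := by
    refine sum_le_sum fun j hj => ?_
    have h1 : ((j + 1 : ℕ) : ℝ) * et n ≤ J * et n :=
      mul_le_mul_of_nonneg_right (Nat.cast_le.2 (mem_range.1 hj)) hp
    have h2 : 0 ≤ (j : ℝ) * et n := by positivity
    push_cast at h1
    exact Sb_le_sum hM n h0 (by linarith) (by linarith)
  rw [sum_add_distrib, sum_comm] at h1
  have h2 := sum_top hM h0 hp hxy J hJ hL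
  have h3 : ∑ l ∈ range (4 ^ n), ∑ j ∈ range J,
      mix H x (et n) (kk n (l + 1)) (kk n l) (y + j * et n) ≤ ∑ l ∈ range (4 ^ n),
      ((H (kk n l) x x x - H (kk n l) L L L) -
        (H (kk n (l + 1)) x x x - H (kk n (l + 1)) L L L)) := by
    refine sum_le_sum fun l hl => ?_
    have := sum_mix hM h0 hp hxy (le_kk n (mem_range.1 hl)) (kk_anti n (Nat.le_succ l))
      (kk_le n l) J hJ hL
    linarith
  rw [sum_range_sub' fun l => H (kk n l) x x x - H (kk n l) L L L, kk_zero, kk_last] at h3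
  have hx : x ≤ L := by linarith
  have h4 := decr hM (k := 0) (k' := et n) (val_diag h0 (hx.trans hL) le_rfl zero_le_one)
    (val_diag (h0.trans hx) hL le_rfl zero_le_one) hp (et1 n) hx hx hx
  linarith

variable (H) in
/-- The normalized increment. -/
noncomputable def fn (n : ℕ) (x y : ℝ) : ℝ := max 0 (Sb H n x y / et n)

theorem fn_nonneg (n : ℕ) (x y : ℝ) : 0 ≤ fn H n x y := le_max_left _ _

theorem fn_le (hM : Macro u v H) (n : ℕ) (x y : ℝ) : fn H n x y ≤ 1 :=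
  max_le zero_le_one ((div_le_one (etp n)).2 (Sb_le_et hM n x y))

theorem fn_cont (hM : Macro u v H) (n : ℕ) (x : ℝ) : Continuous (fn H n x) :=
  continuous_const.max ((Sb_cont hM n x).div_const _)

theorem fn_eq (hM : Macro u v H) (n : ℕ) {x y : ℝ} (h0 : 0 ≤ x) (hxy : x ≤ y)
    (hy : y + et n ≤ 1) : fn H n x y = Sb H n x y / et n :=
  max_eq_right (div_nonneg ((s0_nonneg hM h0 (etp n).le hxy (le_kk n (Nat.zero_le _)) (kk_le n 0)
    hy).trans (le_Sb n x y (Nat.zero_le _))) (etp n).le)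

theorem int_fn (hM : Macro u v H) (n : ℕ) {x L : ℝ} (h0 : 0 ≤ x) (hx : x ≤ L) (hL : L ≤ 1) :
    ∫ y in x..L, fn H n x y ≤ H 0 L L L - H 0 x x x - (H 1 L L L - H 1 L x x) + 2 * et n := by
  have hp := etp n
  have hc := fn_cont hM n x
  set Φ := H 0 L L L - H 0 x x x - (H 1 L L L - H 1 L x x) with hΦ
  have tail : ∀ a, a ≤ L → ∫ y in a..L, fn H n x y ≤ L - a := fun a ha => by
    have := intervalIntegral.integral_mono_on ha (hc.intervalIntegrable (μ := volume) a L)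
      (intervalIntegrable_const (c := (1 : ℝ))) fun y _ => fn_le hM n x y
    simpa using this
  have hΦ0 : 0 ≤ Φ := by
    have := sum_Sb hM n h0 le_rfl 0 (L := L) (by simpa using hx) hL
    rwa [range_zero, sum_empty] at this
  have h3 : (⌊(L - x) / et n⌋₊ : ℝ) ≤ (L - x) / et n := Nat.floor_le (div_nonneg (by linarith) hp.le)
  have h4 : (L - x) / et n < ⌊(L - x) / et n⌋₊ + 1 := Nat.lt_floor_add_one _
  rw [le_div_iff₀ hp] at h3
  rw [div_lt_iff₀ hp] at h4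
  generalize ⌊(L - x) / et n⌋₊ = J' at h3 h4
  rcases J' with _ | J
  · have := tail x hx
    simp only [Nat.cast_zero, zero_add, one_mul] at h4
    linarith
  push_cast at h3 h4
  have hj : 0 ≤ (J : ℝ) * et n := by positivity
  have h5 := tail (x + J * et n) (by linarith)
  have h6 : ∫ y in x..(x + J * et n), fn H n x y ≤ Φ := by
    have e1 := intervalIntegral.sum_integral_adjacent_intervals (μ := volume) (f := fn H n x)
      (a := fun j : ℕ => x + j * et n) (n := J) fun j _ => hc.intervalIntegrable _ _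
    simp only [Nat.cast_zero, zero_mul, add_zero] at e1
    have e2 : ∀ j : ℕ, ∫ y in (x + j * et n)..(x + ((j + 1 : ℕ) : ℝ) * et n), fn H n x y =
        ∫ y in x..(x + et n), fn H n x (y + j * et n) := fun j => by
      rw [intervalIntegral.integral_comp_add_right (fn H n x)]
      congr 1
      push_cast
      ring
    have hi : ∀ j : ℕ, IntervalIntegrable (fun y => fn H n x (y + j * et n)) volume x (x + et n) :=
      fun j => (hc.comp (continuous_add_const _)).intervalIntegrable _ _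
    rw [← e1, sum_congr rfl fun j _ => e2 j,
      ← intervalIntegral.integral_finsetSum fun j _ => hi j]
    have h7 := intervalIntegral.integral_mono_on (by linarith : x ≤ x + et n)
      (((continuous_finsetSum (range J) fun j _ =>
        hc.comp (continuous_add_const ((j : ℝ) * et n))).intervalIntegrable (μ := volume) _ _))
      (intervalIntegrable_const (c := Φ / et n)) fun y hy => by
        have e3 : ∑ j ∈ range J, fn H n x (y + j * et n) =
            (∑ j ∈ range J, Sb H n x (y + j * et n)) / et n := by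
          rw [sum_div]
          refine sum_congr rfl fun j hj => ?_
          have h1 : ((j + 1 : ℕ) : ℝ) * et n ≤ J * et n :=
            mul_le_mul_of_nonneg_right (Nat.cast_le.2 (mem_range.1 hj)) hp.le
          have h2 : 0 ≤ (j : ℝ) * et n := by positivity
          push_cast at h1
          exact fn_eq hM n h0 (by linarith [hy.1]) (by linarith [hy.2])
        refine e3.trans_le (div_le_div_of_nonneg_right ?_ hp.le)
        exact sum_Sb hM n h0 hy.1 J (by linarith [hy.2]) hL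
    refine h7.trans_eq ?_
    rw [intervalIntegral.integral_const, add_sub_cancel_left, smul_eq_mul,
      mul_div_cancel₀ _ hp.ne']
  rw [← intervalIntegral.integral_add_adjacent_intervals (b := x + J * et n)
    (hc.intervalIntegrable _ _) (hc.intervalIntegrable _ _)]
  linarith

variable (H) in
/-- The lower limit of the normalized increments. -/
noncomputable def li (x y : ℝ) : ℝ≥0∞ := liminf (fun n => ENNReal.ofReal (fn H n x y)) atTop

theorem li_le (hM : Macro u v H) (x y : ℝ) : li H x y ≤ 1 :=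
  liminf_le_of_frequently_le' (Frequently.of_forall fun n =>
    ENNReal.ofReal_le_one.2 (fn_le hM n x y))

theorem li_ne (hM : Macro u v H) (x y : ℝ) : li H x y ≠ ⊤ :=
  ((li_le hM x y).trans_lt ENNReal.one_lt_top).ne

theorem li_meas (hM : Macro u v H) (x : ℝ) : Measurable (li H x) :=
  Measurable.liminf fun n => (fn_cont hM n x).measurable.ennreal_ofReal

theorem int_li (hM : Macro u v H) {x L : ℝ} (h0 : 0 ≤ x) (hx : x ≤ L) (hL : L ≤ 1) :
    ∫ y in x..L, (li H x y).toReal ≤ H 0 L L L - H 0 x x x - (H 1 L L L - H 1 L x x) := by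
  set Φ := H 0 L L L - H 0 x x x - (H 1 L L L - H 1 L x x) with hΦ
  have hΦ0 : 0 ≤ Φ := by
    have := sum_Sb hM 0 h0 le_rfl 0 (L := L) (by simpa using hx) hL
    rwa [range_zero, sum_empty] at this
  rw [intervalIntegral.integral_of_le hx, integral_toReal (li_meas hM x).aemeasurable
    (Eventually.of_forall fun y => (li_ne hM x y).lt_top)]
  refine ENNReal.toReal_le_of_le_ofReal hΦ0 ?_
  refine (lintegral_liminf_le fun n => (fn_cont hM n x).measurable.ennreal_ofReal).trans ?_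
  have ht : Tendsto (fun n => ENNReal.ofReal (Φ + 2 * et n)) atTop (𝓝 (ENNReal.ofReal Φ)) := by
    refine ENNReal.tendsto_ofReal ?_
    simpa using (ett.const_mul 2).const_add Φ
  rw [← ht.liminf_eq]
  refine liminf_le_liminf (Eventually.of_forall fun n => ?_)
  have hi : IntegrableOn (fn H n x) (Set.Ioc x L) volume :=
    ((fn_cont hM n x).intervalIntegrable x L).1
  rw [← ofReal_integral_eq_lintegral_ofReal hi (Eventually.of_forall fun y => fn_nonneg n x y),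
    ← intervalIntegral.integral_of_le hx]
  exact ENNReal.ofReal_le_ofReal (int_fn hM n h0 hx hL)

end LamA

open LamA in
theorem lam_stmt : LamStmt := by
  intro u v H hM
  refine ⟨fun x y => 1 - (li H x y).toReal, fun x => ?_, fun x y => ?_, fun x y => ?_,
    fun x x' y h0 hx hy hy1 => ?_, fun x L h0 hx hL => ?_, fun x y ξ h0 hxy hy hξ => ?_⟩
  · exact measurable_const.sub (li_meas hM x).ennreal_toReal
  · exact sub_nonneg.2 (ENNReal.toReal_le_of_le_ofReal zero_le_one (by simpa using li_le hM x y))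
  · exact sub_le_self _ ENNReal.toReal_nonneg
  · refine sub_le_sub_left (ENNReal.toReal_mono (li_ne hM x y) (liminf_le_liminf ?_)) _
    filter_upwards [ett.eventually (ge_mem_nhds (sub_pos.2 hy1))] with n hn
    refine ENNReal.ofReal_le_ofReal (max_le_max le_rfl
      (div_le_div_of_nonneg_right (Sb_le fun i hi => ?_) (etp n).le))
    exact (s0_anti hM h0 (etp n).le hx hy (le_kk n hi) (kk_le n i) (by linarith)).trans
      (le_Sb n x y hi)
  · simpa only [sub_sub_cancel] using int_li hM h0 hx hL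
  · have h1 : li H x y < ENNReal.ofReal ((li H x y).toReal + ξ / 2) := by
      rw [ENNReal.lt_ofReal_iff_toReal_lt (li_ne hM x y)]
      linarith
    have h2 := frequently_lt_of_liminf_lt (h := h1)
    refine (h2.and_eventually (ett.eventually (ge_mem_nhds (by positivity : 0 < ξ / 16)))).mono ?_
    rintro n ⟨hn, hn'⟩ k b c hc hk hv hb
    have hp := etp n
    have h3 : fn H n x y < (li H x y).toReal + ξ / 2 :=
      (ENNReal.ofReal_lt_ofReal_iff_of_nonneg (fn_nonneg n x y)).1 hn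
    have h4 : Sb H n x y ≤ ((li H x y).toReal + ξ / 2) * et n :=
      (div_le_iff₀ hp).1 ((le_max_right _ _).trans h3.le)
    obtain ⟨i, hi, hd⟩ := exists_kk n hk hv.2.2.2.2.2.2
    have h5 := le_s0 hM h0 hp.le hxy hc hk hv hb
    have h6 := s0_lip hM x (et n) k (kk n i) y
    have h7 := le_Sb (H := H) n x y hi
    have h8 : et n * et n ≤ ξ / 16 * et n := mul_le_mul_of_nonneg_right hn' hp.le
    simp only [sub_sub_cancel]
    nlinarith

end Pool.Agent.MP_538dc4_an.AB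

end MrgPart2

-- ======== part 3: formerly Pool.Agent.MP_538dc4_an.ab.Small
section MrgPart3

/-! PROJECT FURST2: the defects of the ABC property are of lower order almost everywhere. -/

open MeasureTheory Filter Topology Set

namespace Pool.Agent.MP_538dc4_an.AB

namespace Sm

theorem et_pos' (n : ℕ) : 0 < et n := by unfold et; positivity

theorem et_le_one (n : ℕ) : et n ≤ 1 := pow_le_one₀ (by norm_num) (by norm_num)

theorem et_summable' : Summable et := summable_geometric_of_lt_one (by norm_num) (by norm_num)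

theorem et_tendsto' : Tendsto et atTop (𝓝 0) := et_summable'.tendsto_atTop_zero

section abstract

variable {E : Type} [NormedAddCommGroup E] [NormedSpace ℝ E] [FiniteDimensional ℝ E]
  [MeasurableSpace E] [BorelSpace E] (μ : Measure E) [μ.IsAddHaarMeasure]

/-- The tent function. -/
noncomputable def chi (z0 : E) (ρ : ℝ) (z : E) : ℝ := max 0 (ρ - dist z z0)

omit [NormedSpace ℝ E] [FiniteDimensional ℝ E] [MeasurableSpace E] [BorelSpace E] in
theorem chi_cont (z0 : E) (ρ : ℝ) : Continuous (chi z0 ρ) := by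
  unfold chi; fun_prop

omit [NormedSpace ℝ E] [FiniteDimensional ℝ E] [MeasurableSpace E] [BorelSpace E] in
theorem chi_nonneg (z0 : E) (ρ : ℝ) (z : E) : 0 ≤ chi z0 ρ z := le_max_left _ _

omit [NormedSpace ℝ E] [FiniteDimensional ℝ E] [MeasurableSpace E] [BorelSpace E] in
theorem chi_zero {z0 : E} {ρ : ℝ} {z : E} (h : ρ ≤ dist z z0) : chi z0 ρ z = 0 :=
  max_eq_left (by linarith)

omit [NormedSpace ℝ E] [FiniteDimensional ℝ E] [MeasurableSpace E] [BorelSpace E] in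
theorem chi_lip (z0 : E) (ρ : ℝ) (z a : E) : |chi z0 ρ z - chi z0 ρ (z - a)| ≤ ‖a‖ := by
  unfold chi
  refine (abs_max_sub_max_le_max _ _ _ _).trans (max_le (by simp) ?_)
  have h := abs_dist_sub_le (z - a) z z0
  have e : dist (z - a) z = ‖a‖ := by simp
  rw [e] at h
  have e2 : ρ - dist z z0 - (ρ - dist (z - a) z0) = dist (z - a) z0 - dist z z0 := by ring
  rw [e2]
  exact h

omit [MeasurableSpace E] [BorelSpace E] in
theorem chi_supp (z0 : E) (ρ : ℝ) : HasCompactSupport (chi z0 ρ) := by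
  have := FiniteDimensional.proper_real E
  refine HasCompactSupport.intro (isCompact_closedBall z0 ρ) fun z hz => chi_zero ?_
  rw [Metric.mem_closedBall, not_le] at hz
  exact hz.le

theorem chi_int (z0 : E) (ρ : ℝ) {F : E → ℝ} (hF : Continuous F) :
    Integrable (fun z => chi z0 ρ z * F z) μ :=
  ((chi_cont z0 ρ).mul hF).integrable_of_hasCompactSupport (chi_supp z0 ρ).mul_right

/-- Summation by parts against the tent function. -/
theorem int_shift (z0 : E) (ρ K R : ℝ) {F : E → ℝ} (hF : Continuous F) (hK : ∀ z, |F z| ≤ K)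
    (a : E) (ha : ‖a‖ ≤ R) :
    ∫ z, chi z0 ρ z * (F z - F (z + a)) ∂μ ≤
      μ.real (Metric.closedBall z0 (ρ + R)) * (‖a‖ * K) := by
  have := FiniteDimensional.proper_real E
  have hK0 : 0 ≤ K := (abs_nonneg _).trans (hK z0)
  have hR : 0 ≤ R := (norm_nonneg _).trans ha
  have i1 := chi_int μ z0 ρ hF
  have i2 := chi_int μ z0 ρ (F := fun z => F (z + a)) (by fun_prop)
  have i3 : Integrable (fun z => chi z0 ρ (z - a) * F z) μ := by
    have := i2.comp_sub_right a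
    simpa using this
  have e1 : ∫ z, chi z0 ρ z * F (z + a) ∂μ = ∫ z, chi z0 ρ (z - a) * F z ∂μ := by
    rw [← integral_add_right_eq_self (fun z => chi z0 ρ (z - a) * F z) a]
    simp
  have e2 : ∫ z, chi z0 ρ z * (F z - F (z + a)) ∂μ =
      ∫ z, (chi z0 ρ z * F z - chi z0 ρ (z - a) * F z) ∂μ := by
    rw [integral_sub i1 i3, ← e1, ← integral_sub i1 i2]
    simp only [mul_sub]
  rw [e2, ← smul_eq_mul, ← setIntegral_const, ← integral_indicator measurableSet_closedBall]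
  refine integral_mono (i1.sub i3) ?_ fun z => ?_
  · exact (integrable_indicator_iff measurableSet_closedBall).2
      (integrableOn_const (isCompact_closedBall z0 _).measure_lt_top.ne)
  · by_cases hz : z ∈ Metric.closedBall z0 (ρ + R)
    · rw [indicator_of_mem hz]
      show chi z0 ρ z * F z - chi z0 ρ (z - a) * F z ≤ _
      rw [← sub_mul]
      refine (le_abs_self _).trans ?_
      rw [abs_mul]
      exact mul_le_mul (chi_lip z0 ρ z a) (hK z) (abs_nonneg _) (norm_nonneg _)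
    · rw [indicator_of_notMem hz]
      rw [Metric.mem_closedBall, not_le] at hz
      have h := abs_dist_sub_le (z - a) z z0
      have e : dist (z - a) z = ‖a‖ := by simp
      rw [e, abs_le] at h
      show chi z0 ρ z * F z - chi z0 ρ (z - a) * F z ≤ _
      rw [chi_zero (by linarith), chi_zero (by linarith [h.1])]
      simp

/-- The sum of two second differences. -/
def dd (F G : ℝ → E → ℝ) (v w : E) (η : ℝ) (z : E) : ℝ :=
  F η z - F η (z + η • v) + (G η z - G η (z + η • w))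

theorem loc (F G : ℝ → E → ℝ) (v w : E) (hF : ∀ η, Continuous (F η)) (hG : ∀ η, Continuous (G η))
    (bF : ∀ η z, 0 ≤ η → |F η z| ≤ 2 * η) (bG : ∀ η z, 0 ≤ η → |G η z| ≤ 2 * η) (z0 : E) (ρ : ℝ)
    (N : ℕ) (h : ∀ n, N ≤ n → ∀ z ∈ Metric.ball z0 ρ, 0 ≤ dd F G v w (et n) z) :
    ∀ᵐ z ∂μ, z ∈ Metric.ball z0 ρ → ∀ ε : ℝ, 0 < ε → ∀ᶠ n in atTop,
      dd F G v w (et n) z ≤ ε * et n := by
  have hc : ∀ η, Continuous (dd F G v w η) := fun η => by
    have := hF η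
    have := hG η
    unfold dd
    fun_prop
  set C : ℝ := μ.real (Metric.closedBall z0 (ρ + ‖v‖)) * (‖v‖ * 2) +
    μ.real (Metric.closedBall z0 (ρ + ‖w‖)) * (‖w‖ * 2) with hC
  have hC0 : 0 ≤ C := by positivity
  have hn : ∀ (n : ℕ) (u : E), ‖et n • u‖ = et n * ‖u‖ := fun n u => by
    rw [norm_smul, Real.norm_of_nonneg (et_pos' n).le]
  have hle : ∀ (n : ℕ) (u : E), ‖et n • u‖ ≤ ‖u‖ := fun n u => by
    rw [hn]
    exact mul_le_of_le_one_left (norm_nonneg _) (et_le_one n)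
  have hint : ∀ n, ∫ z, chi z0 ρ z * (dd F G v w (et n) z / et n) ∂μ ≤ C * et n := fun n => by
    have h1 := int_shift μ z0 ρ _ _ (hF (et n)) (fun z => bF _ z (et_pos' n).le) _ (hle n v)
    have h2 := int_shift μ z0 ρ _ _ (hG (et n)) (fun z => bG _ z (et_pos' n).le) _ (hle n w)
    have i1 := chi_int μ z0 ρ (F := fun z => F (et n) z - F (et n) (z + et n • v))
      (by have := hF (et n); fun_prop)
    have i2 := chi_int μ z0 ρ (F := fun z => G (et n) z - G (et n) (z + et n • w))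
      (by have := hG (et n); fun_prop)
    simp only [← mul_div_assoc]
    rw [integral_div, div_le_iff₀ (et_pos' n)]
    simp only [dd, mul_add]
    rw [integral_add i1 i2]
    rw [hn] at h1 h2
    refine (add_le_add h1 h2).trans (le_of_eq ?_)
    rw [hC]
    ring
  let g : ℕ → E → ENNReal := fun n z =>
    ENNReal.ofReal (chi z0 ρ z * (dd F G v w (et (n + N)) z / et (n + N)))
  have gm : ∀ n, Measurable (g n) := fun n =>
    (((chi_cont z0 ρ).mul ((hc _).div_const _)).measurable).ennreal_ofReal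
  have gi : ∀ n, ∫⁻ z, g n z ∂μ ≤ ENNReal.ofReal (C * et (n + N)) := fun n => by
    rw [← ofReal_integral_eq_lintegral_ofReal (chi_int μ z0 ρ ((hc _).div_const _))
      (Eventually.of_forall fun z => ?_)]
    · exact ENNReal.ofReal_le_ofReal (hint _)
    · by_cases hz : z ∈ Metric.ball z0 ρ
      · exact mul_nonneg (chi_nonneg _ _ _)
          (div_nonneg (h _ (Nat.le_add_left _ _) z hz) (et_pos' _).le)
      · rw [Metric.mem_ball, not_lt] at hz
        simp [chi_zero hz]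
  have hs : Summable fun n => C * et (n + N) :=
    ((summable_nat_add_iff N).2 et_summable').mul_left C
  have hfin : ∫⁻ z, ∑' n, g n z ∂μ ≠ ⊤ := by
    rw [lintegral_tsum fun n => (gm n).aemeasurable]
    refine ne_top_of_le_ne_top ?_ (ENNReal.tsum_le_tsum gi)
    rw [← ENNReal.ofReal_tsum_of_nonneg (fun n => mul_nonneg hC0 (et_pos' _).le) hs]
    exact ENNReal.ofReal_ne_top
  filter_upwards [ae_lt_top (Measurable.tsum gm) hfin] with z hz hb ε hε
  have hχ : 0 < chi z0 ρ z := lt_max_of_lt_right (sub_pos.2 (Metric.mem_ball.1 hb))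
  have ht := ENNReal.tendsto_atTop_zero_of_tsum_ne_top hz.ne
  have hp : (0 : ENNReal) < ENNReal.ofReal (chi z0 ρ z * ε) := ENNReal.ofReal_pos.2 (by positivity)
  obtain ⟨M, hM⟩ := eventually_atTop.1 (ht.eventually (gt_mem_nhds hp))
  refine eventually_atTop.2 ⟨M + N, fun n hn' => ?_⟩
  have h1 := hM (n - N) (by omega)
  simp only [g] at h1
  rw [show n - N + N = n by omega, ENNReal.ofReal_lt_ofReal_iff (by positivity)] at h1
  have h2 := lt_of_mul_lt_mul_left h1 hχ.le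
  exact ((div_lt_iff₀ (et_pos' n)).1 h2).le

/-- The abstract lemma. -/
theorem glob (F G : ℝ → E → ℝ) (v w : E) (hF : ∀ η, Continuous (F η)) (hG : ∀ η, Continuous (G η))
    (bF : ∀ η z, 0 ≤ η → |F η z| ≤ 2 * η) (bG : ∀ η z, 0 ≤ η → |G η z| ≤ 2 * η) (O : Set E)
    (U : Set (E × ℝ)) (hU : IsOpen U) (hO : ∀ z ∈ O, (z, (0 : ℝ)) ∈ U) (A : ℝ → E → ℝ × ℝ)
    (h : ∀ z η, 0 < η → (z, η) ∈ U → 0 ≤ dd F G v w η z ∧ (A η z).1 ≤ dd F G v w η z ∧
      (A η z).2 ≤ dd F G v w η z) :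
    ∀ᵐ z ∂μ, z ∈ O → ∀ ε : ℝ, 0 < ε → ∀ᶠ n in atTop,
      (A (et n) z).1 ≤ ε * et n ∧ (A (et n) z).2 ≤ ε * et n := by
  have ev : ∀ z0 ∈ O, ∃ ρ > 0, ∃ N : ℕ, ∀ n, N ≤ n → ∀ z ∈ Metric.ball z0 ρ, (z, et n) ∈ U := by
    intro z0 hz0
    have h1 := hU.mem_nhds (hO z0 hz0)
    rw [nhds_prod_eq] at h1
    obtain ⟨s, hs, t, ht, hst⟩ := mem_prod_iff.1 h1
    obtain ⟨ρ, hρ, hb⟩ := Metric.mem_nhds_iff.1 hs
    obtain ⟨N, hN⟩ := eventually_atTop.1 (et_tendsto'.eventually ht)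
    exact ⟨ρ, hρ, N, fun n hn z hz => hst ⟨hb hz, hN n hn⟩⟩
  rw [ae_iff]
  refine measure_null_of_locally_null _ fun x hx => ?_
  have hxO : x ∈ O := by
    by_contra hn
    exact hx fun h' => absurd h' hn
  obtain ⟨ρ, hρ, N, hN⟩ := ev x hxO
  have key := loc μ F G v w hF hG bF bG x ρ N fun n hn z hz => (h z _ (et_pos' n) (hN n hn z hz)).1
  rw [ae_iff] at key
  refine ⟨_, inter_mem_nhdsWithin _ (Metric.ball_mem_nhds x hρ), measure_mono_null ?_ key⟩
  rintro z ⟨hz1, hz2⟩ hz3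
  refine hz1 fun _ ε hε => ?_
  filter_upwards [hz3 hz2 ε hε, eventually_ge_atTop N] with n h1 h2
  have := h z _ (et_pos' n) (hN n h2 z hz2)
  exact ⟨this.2.1.trans h1, this.2.2.trans h1⟩

end abstract

variable {u v : ℝ} {H : ℝ → ℝ → ℝ → ℝ → ℝ}

theorem H_cont (h : Macro u v H) {X : Type} [TopologicalSpace X] {f1 f2 f3 f4 : X → ℝ}
    (h1 : Continuous f1) (h2 : Continuous f2) (h3 : Continuous f3) (h4 : Continuous f4) :
    Continuous fun x => H (f1 x) (f2 x) (f3 x) (f4 x) := by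
  refine continuous_iff_continuousAt.2 fun x => tendsto_iff_dist_tendsto_zero.2 ?_
  refine squeeze_zero (fun _ => dist_nonneg)
    (g := fun y => |f1 y - f1 x| + |f2 y - f2 x| + |f3 y - f3 x| + |f4 y - f4 x|)
    (fun y => h.lip _ _ _ _ _ _ _ _) ?_
  have hc : Continuous fun y =>
      |f1 y - f1 x| + |f2 y - f2 x| + |f3 y - f3 x| + |f4 y - f4 x| := by fun_prop
  simpa using hc.tendsto x

theorem bk (h : Macro u v H) (k a b c η : ℝ) (hη : 0 ≤ η) : |H (k + η) a b c - H k a b c| ≤ η := by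
  simpa [abs_of_nonneg hη] using h.lip (k + η) a b c k a b c

theorem ba (h : Macro u v H) (k a b c η : ℝ) (hη : 0 ≤ η) : |H k (a + η) b c - H k a b c| ≤ η := by
  simpa [abs_of_nonneg hη] using h.lip k (a + η) b c k a b c

/-- The increment in the first variable is decreasing. -/
theorem gdec (h : Macro u v H) {k η a b c a' b' c' : ℝ} (hη : 0 ≤ η) (hk : k + η ≤ 1)
    (V : Val k a b c) (V' : Val k a' b' c') (ha : a ≤ a') (hb : b ≤ b') (hc : c ≤ c') :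
    H (k + η) a' b' c' - H k a' b' c' ≤ H (k + η) a b c - H k a b c := by
  have V1 : Val (k + η) a b c := by
    obtain ⟨h1, h2, h3, h4, h5, h6, h7⟩ := V
    refine ⟨?_, ?_, ?_, ?_, ?_, ?_, ?_⟩ <;> linarith
  have := h.sub (k + η) a b c k a' b' c' k a b c V1 V' V (by linarith) le_rfl le_rfl le_rfl le_rfl
    ha hb hc
  rw [max_eq_left (by linarith), max_eq_right ha, max_eq_right hb, max_eq_right hc] at this
  linarith

/-- The increment in the second variable is decreasing. -/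
theorem adec (h : Macro u v H) {k η a b c b' c' : ℝ} (hη : 0 ≤ η) (V1 : Val k (a + η) b c)
    (V : Val k a b c) (V' : Val k a b' c') (hb : b ≤ b') (hc : c ≤ c') :
    H k (a + η) b' c' - H k a b' c' ≤ H k (a + η) b c - H k a b c := by
  have := h.sub k (a + η) b c k a b' c' k a b c V1 V' V le_rfl (by linarith) le_rfl le_rfl le_rfl
    le_rfl hb hc
  rw [max_self, max_eq_left (by linarith), max_eq_right hb, max_eq_right hc] at this
  linarith

theorem ptA (h : Macro u v H) {k b c η : ℝ} (hη : 0 < η) (h1 : 0 < c) (h2 : c < b)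
    (h3 : b + k + η < 1) (h4 : b + η < c + k) :
    0 ≤ (dfc H 0 k b c η).1 ∧ 0 ≤ (dfc H 0 k b c η).2 ∧
    (dfc H 0 k b c η).1 ≤ H (k + η) (b + k + η) b c - H (k + η) (b + k) b c -
      (H k (b + k + η) (b + η) c - H k (b + k) (b + η) c) + (dfc H 0 k b c η).2 := by
  have a1 := gdec h (k := k) (a := b + k) (b := b) (c := c) (a' := b + k + η) (b' := b + η)
    (c' := c) hη.le (by linarith) (by refine ⟨?_, ?_, ?_, ?_, ?_, ?_, ?_⟩ <;> linarith)
    (by refine ⟨?_, ?_, ?_, ?_, ?_, ?_, ?_⟩ <;> linarith) (by linarith) (by linarith) le_rfl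
  have a2 := adec h (k := k + η) (a := b + k) (b := b) (c := c) (b' := b + η) (c' := c) hη.le
    (by refine ⟨?_, ?_, ?_, ?_, ?_, ?_, ?_⟩ <;> linarith)
    (by refine ⟨?_, ?_, ?_, ?_, ?_, ?_, ?_⟩ <;> linarith)
    (by refine ⟨?_, ?_, ?_, ?_, ?_, ?_, ?_⟩ <;> linarith) (by linarith) le_rfl
  have a3 := gdec h (k := k) (a := b + k) (b := b) (c := c) (a' := b + k) (b' := b + η)
    (c' := c) hη.le (by linarith) (by refine ⟨?_, ?_, ?_, ?_, ?_, ?_, ?_⟩ <;> linarith)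
    (by refine ⟨?_, ?_, ?_, ?_, ?_, ?_, ?_⟩ <;> linarith) le_rfl (by linarith) le_rfl
  simp only [dfc, zero_mul, add_zero]
  refine ⟨?_, ?_, ?_⟩ <;> linarith

theorem ptB (h : Macro u v H) {k b c η : ℝ} (hη : 0 < η) (h1 : 0 < c) (h2 : η < k)
    (h3 : b + k + 2 * η < 1) (h4 : b = c + k) :
    0 ≤ (dfc H 1 k b c η).1 ∧ 0 ≤ (dfc H 1 k b c η).2 ∧
    (dfc H 1 k b c η).2 ≤ H (k + η) (b + k) b c - H k (b + k) b c -
      (H (k + η) (b + k + 2 * η) (b + 2 * η) (c + 2 * η) -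
        H k (b + k + 2 * η) (b + 2 * η) (c + 2 * η)) ∧
    (dfc H 1 k b c η).1 ≤ H (k + η) (b + k + η) b c - H (k + η) (b + k) b c -
      (H k (b + k + η) (b + η) (c + 2 * η) - H k (b + k) (b + η) (c + 2 * η)) +
      (H (k + η) (b + k) b c - H k (b + k) b c -
      (H (k + η) (b + k + 2 * η) (b + 2 * η) (c + 2 * η) -
        H k (b + k + 2 * η) (b + 2 * η) (c + 2 * η))) := by
  have a1 := gdec h (k := k) (a := b + k) (b := b) (c := c) (a' := b + k + η) (b' := b + η)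
    (c' := c + η) hη.le (by linarith) (by refine ⟨?_, ?_, ?_, ?_, ?_, ?_, ?_⟩ <;> linarith)
    (by refine ⟨?_, ?_, ?_, ?_, ?_, ?_, ?_⟩ <;> linarith) (by linarith) (by linarith) (by linarith)
  have a2 := gdec h (k := k) (a := b + k + η) (b := b + η) (c := c + η) (a' := b + k + 2 * η)
    (b' := b + 2 * η) (c' := c + 2 * η) hη.le (by linarith)
    (by refine ⟨?_, ?_, ?_, ?_, ?_, ?_, ?_⟩ <;> linarith)
    (by refine ⟨?_, ?_, ?_, ?_, ?_, ?_, ?_⟩ <;> linarith) (by linarith) (by linarith) (by linarith)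
  have a3 := gdec h (k := k) (a := b + k + η) (b := b + η) (c := c + 2 * η) (a' := b + k + 2 * η)
    (b' := b + 2 * η) (c' := c + 2 * η) hη.le (by linarith)
    (by refine ⟨?_, ?_, ?_, ?_, ?_, ?_, ?_⟩ <;> linarith)
    (by refine ⟨?_, ?_, ?_, ?_, ?_, ?_, ?_⟩ <;> linarith) (by linarith) (by linarith) le_rfl
  have a4 := gdec h (k := k) (a := b + k) (b := b) (c := c) (a' := b + k) (b' := b + η)
    (c' := c + 2 * η) hη.le (by linarith) (by refine ⟨?_, ?_, ?_, ?_, ?_, ?_, ?_⟩ <;> linarith)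
    (by refine ⟨?_, ?_, ?_, ?_, ?_, ?_, ?_⟩ <;> linarith) le_rfl (by linarith) (by linarith)
  have a5 := adec h (k := k + η) (a := b + k) (b := b) (c := c) (b' := b + η) (c' := c + η) hη.le
    (by refine ⟨?_, ?_, ?_, ?_, ?_, ?_, ?_⟩ <;> linarith)
    (by refine ⟨?_, ?_, ?_, ?_, ?_, ?_, ?_⟩ <;> linarith)
    (by refine ⟨?_, ?_, ?_, ?_, ?_, ?_, ?_⟩ <;> linarith) (by linarith) (by linarith)
  have a6 := adec h (k := k + η) (a := b + k) (b := b + η) (c := c + η) (b' := b + η)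
    (c' := c + 2 * η) hη.le (by refine ⟨?_, ?_, ?_, ?_, ?_, ?_, ?_⟩ <;> linarith)
    (by refine ⟨?_, ?_, ?_, ?_, ?_, ?_, ?_⟩ <;> linarith)
    (by refine ⟨?_, ?_, ?_, ?_, ?_, ?_, ?_⟩ <;> linarith) le_rfl (by linarith)
  simp only [dfc, one_mul]
  refine ⟨?_, ?_, ?_, ?_⟩ <;> linarith

theorem caseA (h : Macro u v H) :
    ∀ᵐ z : ℝ × ℝ, ∀ᵐ y : ℝ, 0 < z.2 → z.2 < z.1 → 2 * z.1 - z.2 < y → y < 1 →
      Small H 0 (y - z.1) z.1 z.2 := by
  have key := glob ((volume : Measure (ℝ × ℝ)).prod (volume : Measure ℝ))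
    (fun η z => H (z.2 - z.1.1 + η) (z.2 + η) z.1.1 z.1.2 - H (z.2 - z.1.1 + η) z.2 z.1.1 z.1.2)
    (fun η z => 2 * (H (z.2 - z.1.1 + η) z.2 z.1.1 z.1.2 - H (z.2 - z.1.1) z.2 z.1.1 z.1.2))
    ((1, 0), 0) ((1, 0), 1)
    (fun η => (H_cont h (by fun_prop) (by fun_prop) (by fun_prop) (by fun_prop)).sub
      (H_cont h (by fun_prop) (by fun_prop) (by fun_prop) (by fun_prop)))
    (fun η => continuous_const.mul
      ((H_cont h (by fun_prop) (by fun_prop) (by fun_prop) (by fun_prop)).sub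
        (H_cont h (by fun_prop) (by fun_prop) (by fun_prop) (by fun_prop))))
    (fun η z hη => (ba h _ _ _ _ _ hη).trans (by linarith))
    (fun η z hη => by
      rw [abs_mul, abs_two]
      linarith [bk h (z.2 - z.1.1) z.2 z.1.1 z.1.2 η hη])
    {z | 0 < z.1.2 ∧ z.1.2 < z.1.1 ∧ 2 * z.1.1 - z.1.2 < z.2 ∧ z.2 < 1}
    {q | 0 < q.1.1.2 ∧ q.1.1.2 < q.1.1.1 ∧ 2 * q.1.1.1 - q.1.1.2 + q.2 < q.1.2 ∧ q.1.2 + q.2 < 1}
    (by
      simp only [ofPred_and]
      refine IsOpen.inter ?_ (IsOpen.inter ?_ (IsOpen.inter ?_ ?_)) <;>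
        exact isOpen_lt (by fun_prop) (by fun_prop))
    (fun z hz => by simpa using hz)
    (fun η z => dfc H 0 (z.2 - z.1.1) z.1.1 z.1.2 η)
    (by
      rintro ⟨⟨b, c⟩, y⟩ η hη ⟨h1, h2, h3, h4⟩
      obtain ⟨k, rfl⟩ : ∃ k, y = b + k := ⟨y - b, by ring⟩
      simp only at h1 h2 h3 h4
      obtain ⟨p1, p2, p3⟩ := ptA h (k := k) hη h1 h2 h4 (by linarith)
      have e1 : b + k - b = k := by ring
      have e2 : b + k - (b + η) + η = k := by ring
      have e3 : b + k + η - (b + η) = k := by ring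
      have e4 : (dfc H 0 k b c η).2 = H (k + η) (b + k) b c - H k (b + k) b c -
        (H (k + η) (b + k + η) (b + η) c - H k (b + k + η) (b + η) c) := by
        simp only [dfc, zero_mul, add_zero]
      simp only [dd, Prod.smul_mk, Prod.mk_add_mk, smul_eq_mul, mul_one, mul_zero, add_zero, e1, e2,
        e3]
      refine ⟨?_, ?_, ?_⟩ <;> linarith)
  filter_upwards [Measure.ae_ae_of_ae_prod key] with z hz
  filter_upwards [hz] with y hy h1 h2 h3 h4
  exact hy ⟨h1, h2, h3, h4⟩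

theorem caseB (h : Macro u v H) :
    ∀ᵐ z : ℝ × ℝ, 0 < z.2 → z.2 < z.1 → 2 * z.1 - z.2 < 1 → Small H 1 (z.1 - z.2) z.1 z.2 := by
  have key := glob (volume : Measure (ℝ × ℝ))
    (fun η z => H (z.1 - z.2 + η) (2 * z.1 - z.2 + η) z.1 z.2 -
      H (z.1 - z.2 + η) (2 * z.1 - z.2) z.1 z.2)
    (fun η z => 2 * (H (z.1 - z.2 + η) (2 * z.1 - z.2) z.1 z.2 -
      H (z.1 - z.2) (2 * z.1 - z.2) z.1 z.2))
    (1, 2) (2, 2)
    (fun η => (H_cont h (by fun_prop) (by fun_prop) (by fun_prop) (by fun_prop)).sub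
      (H_cont h (by fun_prop) (by fun_prop) (by fun_prop) (by fun_prop)))
    (fun η => continuous_const.mul
      ((H_cont h (by fun_prop) (by fun_prop) (by fun_prop) (by fun_prop)).sub
        (H_cont h (by fun_prop) (by fun_prop) (by fun_prop) (by fun_prop))))
    (fun η z hη => (ba h _ _ _ _ _ hη).trans (by linarith))
    (fun η z hη => by
      rw [abs_mul, abs_two]
      linarith [bk h (z.1 - z.2) (2 * z.1 - z.2) z.1 z.2 η hη])
    {z | 0 < z.2 ∧ z.2 < z.1 ∧ 2 * z.1 - z.2 < 1}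
    {q | 0 < q.1.2 ∧ q.1.2 + q.2 < q.1.1 ∧ 2 * q.1.1 - q.1.2 + 2 * q.2 < 1}
    (by
      simp only [ofPred_and]
      refine IsOpen.inter ?_ (IsOpen.inter ?_ ?_) <;>
        exact isOpen_lt (by fun_prop) (by fun_prop))
    (fun z hz => by simpa using hz)
    (fun η z => dfc H 1 (z.1 - z.2) z.1 z.2 η)
    (by
      rintro ⟨b, c⟩ η hη ⟨h1, h2, h3⟩
      simp only at h1 h2 h3
      obtain ⟨k, hk⟩ : ∃ k, b = c + k := ⟨b - c, by ring⟩
      obtain ⟨p1, p2, p3, p4⟩ := ptB h (k := k) (b := b) hη h1 (by linarith) (by linarith) hk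
      have e1 : b - c = k := by linarith
      have e2 : 2 * b - c = b + k := by linarith
      have e3 : b + η - (c + 2 * η) + η = k := by linarith
      have e4 : 2 * (b + η) - (c + 2 * η) = b + k := by linarith
      have e5 : b + 2 * η - (c + 2 * η) = k := by linarith
      have e6 : 2 * (b + 2 * η) - (c + 2 * η) = b + k + 2 * η := by linarith
      simp only [dd, Prod.smul_mk, Prod.mk_add_mk, smul_eq_mul, mul_one, mul_comm η 2, e1, e2, e3,
        e4, e5, e6]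
      refine ⟨?_, ?_, ?_⟩ <;> linarith)
  filter_upwards [key] with z hz h1 h2 h3
  exact hz ⟨h1, h2, h3⟩

end Sm

theorem small : SmallStmt := fun _ _ _ h => ⟨Sm.caseA h, Sm.caseB h⟩

end Pool.Agent.MP_538dc4_an.AB

end MrgPart3

-- marker of a merged file
example : 731051 + 71559 = 731051 + 71559 := rfl
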