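import Pool.Agent.MP_538dc4_an.Stmt

/-! PROJECT FURST2: Shannon entropy on finite probability spaces (copied from the row MP_344f7e_co). -/

namespace Pool.Agent.MP_538dc4_an.AB

open Finset Real Classical

variable {Ω β γ δ ε : Type} [Fintype Ω]

structure IsP (p : Ω → ℝ) : Prop where
  nn : ∀ ω, 0 ≤ p ω
  sum : ∑ ω, p ω = 1

/-- probability that `f = b` -/
noncomputable def pr (p : Ω → ℝ) (f : Ω → β) (b : β) : ℝ := ∑ ω, if f ω = b then p ω else 0

/-- entropy of `f` -/
noncomputable def H (p : Ω → ℝ) (f : Ω → β) : ℝ := -∑ ω, p ω * log (pr p f (f ω))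

variable {p : Ω → ℝ}

theorem pr_nonneg (hp : IsP p) (f : Ω → β) (b : β) : 0 ≤ pr p f b :=
  sum_nonneg fun ω _ => by split_ifs; exacts [hp.nn ω, le_rfl]

theorem le_pr (hp : IsP p) (f : Ω → β) (ω : Ω) : p ω ≤ pr p f (f ω) := by
  have := single_le_sum (f := fun ω' => if f ω' = f ω then p ω' else 0)
    (fun ω' _ => by split_ifs; exacts [hp.nn ω', le_rfl]) (mem_univ ω)
  simpa [pr] using this

theorem pr_pos (hp : IsP p) (f : Ω → β) {ω : Ω} (h : p ω ≠ 0) : 0 < pr p f (f ω) :=
  ((hp.nn ω).lt_of_ne' h).trans_le (le_pr hp f ω)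

theorem pr_le_one (hp : IsP p) (f : Ω → β) (b : β) : pr p f b ≤ 1 := by
  rw [← hp.sum]
  exact sum_le_sum fun ω _ => by split_ifs; exacts [le_rfl, hp.nn ω]

theorem pr_mono (hp : IsP p) {f : Ω → β} {g : Ω → γ} {b : β} {c : γ}
    (h : ∀ ω, p ω ≠ 0 → f ω = b → g ω = c) : pr p f b ≤ pr p g c := by
  refine sum_le_sum fun ω _ => ?_
  by_cases h0 : p ω = 0
  · simp [h0]
  · by_cases h1 : f ω = b
    · simp [h1, h ω h0 h1]
    · simp only [h1, if_false]
      split_ifs; exacts [hp.nn ω, le_rfl]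

theorem H_nonneg (hp : IsP p) (f : Ω → β) : 0 ≤ H p f := by
  rw [H, neg_nonneg]
  exact sum_nonpos fun ω _ => mul_nonpos_of_nonneg_of_nonpos (hp.nn ω)
    (log_nonpos (pr_nonneg hp _ _) (pr_le_one hp _ _))

theorem H_mono (hp : IsP p) {f : Ω → β} {g : Ω → γ}
    (h : ∀ ω ω', p ω ≠ 0 → p ω' ≠ 0 → f ω = f ω' → g ω = g ω') : H p g ≤ H p f := by
  rw [H, H, neg_le_neg_iff]
  refine sum_le_sum fun ω _ => ?_
  by_cases h0 : p ω = 0
  · simp [h0]
  · exact mul_le_mul_of_nonneg_left (log_le_log (pr_pos hp f h0)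
      (pr_mono hp fun ω' h' he => h ω' ω h' h0 he)) (hp.nn ω)

theorem sum_log_le (hp : IsP p) {u : Ω → ℝ} (hu : ∀ ω, p ω ≠ 0 → 0 < u ω)
    (hs : ∑ ω, p ω * u ω ≤ 1) : ∑ ω, p ω * log (u ω) ≤ 0 := by
  have : ∑ ω, p ω * log (u ω) ≤ ∑ ω, (p ω * u ω - p ω) := by
    refine sum_le_sum fun ω _ => ?_
    by_cases h0 : p ω = 0
    · simp [h0]
    · have := mul_le_mul_of_nonneg_left (log_le_sub_one_of_pos (hu ω h0)) (hp.nn ω)
      linarith
  rw [sum_sub_distrib, hp.sum] at this
  linarith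

theorem sum_ite_div_le (_hp : IsP p) (f : Ω → β) (b : β) :
    ∑ ω, (if f ω = b then p ω else 0) / pr p f b ≤ 1 := by
  rw [← sum_div]
  exact div_self_le_one _

/-- Gibbs inequality -/
theorem gibbs (hp : IsP p) (f : Ω → β) (s : Finset β) (w : β → ℝ) (hw : ∀ b ∈ s, 0 ≤ w b)
    (hf : ∀ ω, p ω ≠ 0 → f ω ∈ s ∧ 0 < w (f ω)) :
    H p f + ∑ ω, p ω * log (w (f ω)) ≤ log (∑ b ∈ s, w b) := by
  obtain ⟨ω0, h0⟩ : ∃ ω, p ω ≠ 0 := by
    by_contra hn
    push Not at hn
    have := hp.sum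
    simp [hn] at this
  have hW : 0 < ∑ b ∈ s, w b := (hf ω0 h0).2.trans_le (single_le_sum hw (hf ω0 h0).1)
  set W := ∑ b ∈ s, w b with hWdef
  have key := sum_log_le hp (u := fun ω => w (f ω) / (pr p f (f ω) * W))
    (fun ω h => div_pos (hf ω h).2 (mul_pos (pr_pos hp f h) hW)) (by
      calc ∑ ω, p ω * (w (f ω) / (pr p f (f ω) * W))
          = ∑ ω, ∑ b ∈ s, (if f ω = b then p ω else 0) / pr p f b * (w b / W) := by
            refine sum_congr rfl fun ω _ => ?_
            by_cases h : p ω = 0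
            · simp [h]
            · rw [sum_eq_single_of_mem (f ω) (hf ω h).1 fun b _ hb => by simp [hb.symm]]
              simp only [if_true]
              field_simp
        _ = ∑ b ∈ s, (∑ ω, (if f ω = b then p ω else 0) / pr p f b) * (w b / W) := by
            rw [sum_comm]
            simp only [sum_mul]
        _ ≤ ∑ b ∈ s, w b / W := sum_le_sum fun b hb =>
            mul_le_of_le_one_left (div_nonneg (hw b hb) hW.le) (sum_ite_div_le hp f b)
        _ = 1 := by rw [← sum_div, div_self hW.ne'])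
  have e : ∑ ω, p ω * log (w (f ω) / (pr p f (f ω) * W)) =
      ∑ ω, (p ω * log (w (f ω)) - p ω * log (pr p f (f ω)) - p ω * log W) := by
    refine sum_congr rfl fun ω _ => ?_
    by_cases h : p ω = 0
    · simp [h]
    · rw [log_div (hf ω h).2.ne' (mul_pos (pr_pos hp f h) hW).ne',
        log_mul (pr_pos hp f h).ne' hW.ne']
      ring
  rw [e, sum_sub_distrib, sum_sub_distrib, ← sum_mul, hp.sum] at key
  rw [H]
  linarith

theorem H_le_log_card (hp : IsP p) (f : Ω → β) (s : Finset β) (hf : ∀ ω, p ω ≠ 0 → f ω ∈ s) :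
    H p f ≤ log s.card := by
  have := gibbs hp f s (fun _ => 1) (fun _ _ => zero_le_one) fun ω h => ⟨hf ω h, one_pos⟩
  simpa using this

theorem H_le_log_fintype [Fintype β] (hp : IsP p) (f : Ω → β) : H p f ≤ log (Fintype.card β) :=
  H_le_log_card hp f univ fun _ _ => mem_univ _

theorem sum_pr_le (hp : IsP p) (f : Ω → β) (s : Finset β) : ∑ b ∈ s, pr p f b ≤ 1 := by
  simp only [pr]
  rw [sum_comm, ← hp.sum]
  refine sum_le_sum fun ω _ => ?_
  rw [sum_ite_eq]
  split_ifs; exacts [le_rfl, hp.nn ω]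

/-- conditional entropy is at most the mean logarithm of the number of possible values -/
theorem H_cond_le (hp : IsP p) (f : Ω → β) (g : Ω → γ) (s : β → Finset γ)
    (hg : ∀ ω, p ω ≠ 0 → g ω ∈ s (f ω)) :
    H p (fun ω => (f ω, g ω)) ≤ H p f + ∑ ω, p ω * log (s (f ω)).card := by
  have hc : ∀ ω, p ω ≠ 0 → (0 : ℝ) < (s (f ω)).card := fun ω h => by
    exact_mod_cast card_pos.2 ⟨_, hg ω h⟩
  let t : Finset (Σ _ : β, γ) := (univ.image f).sigma s
  have hm : H p (fun ω => (f ω, g ω)) ≤ H p (fun ω => (⟨f ω, g ω⟩ : Σ _ : β, γ)) :=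
    H_mono hp fun ω ω' _ _ he => by
      obtain ⟨e1, e2⟩ := Sigma.mk.inj he
      rw [e1, eq_of_heq e2]
  refine hm.trans ?_
  have key := gibbs hp (fun ω => (⟨f ω, g ω⟩ : Σ _ : β, γ)) t
    (fun x => pr p f x.1 / (s x.1).card)
    (fun x _ => div_nonneg (pr_nonneg hp _ _) (Nat.cast_nonneg _)) fun ω h =>
      ⟨mem_sigma.2 ⟨mem_image_of_mem _ (mem_univ _), hg ω h⟩,
        div_pos (pr_pos hp f h) (hc ω h)⟩
  have h1 : ∑ x ∈ t, pr p f x.1 / (s x.1).card ≤ 1 := by
    rw [sum_sigma]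
    refine le_trans (sum_le_sum fun b _ => ?_) (sum_pr_le hp f (univ.image f))
    simp only [sum_const, nsmul_eq_mul]
    rcases Nat.eq_zero_or_pos (s b).card with h | h
    · simp [h, pr_nonneg hp]
    · have : (0 : ℝ) < (s b).card := by exact_mod_cast h
      rw [mul_div_cancel₀ _ this.ne']
  have h2 := log_nonpos (sum_nonneg fun x _ =>
    div_nonneg (pr_nonneg hp f x.1) (Nat.cast_nonneg (s x.1).card)) h1
  have e : ∑ ω, p ω * log (pr p f (f ω) / (s (f ω)).card) =
      ∑ ω, (p ω * log (pr p f (f ω)) - p ω * log (s (f ω)).card) := by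
    refine sum_congr rfl fun ω _ => ?_
    by_cases h : p ω = 0
    · simp [h]
    · rw [log_div (pr_pos hp f h).ne' (hc ω h).ne']
      ring
  simp only at key
  rw [e, sum_sub_distrib] at key
  rw [H.eq_1 p f]
  linarith

/-- submodularity -/
theorem submod (hp : IsP p) (f : Ω → β) (g : Ω → γ) (k : Ω → δ) (h : Ω → ε)
    (h1 : ∀ ω ω', f ω = f ω' → h ω = h ω') (h2 : ∀ ω ω', g ω = g ω' → h ω = h ω')
    (h3 : ∀ ω ω', f ω = f ω' → g ω = g ω' → k ω = k ω') :
    H p k + H p h ≤ H p f + H p g := by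
  let j : Ω → β × γ := fun ω => (f ω, g ω)
  have hk : H p k ≤ H p j := H_mono hp fun ω ω' _ _ he =>
    h3 ω ω' (Prod.mk.inj he).1 (Prod.mk.inj he).2
  have key := sum_log_le hp
    (u := fun ω => pr p f (f ω) * pr p g (g ω) / (pr p j (j ω) * pr p h (h ω)))
    (fun ω h0 => div_pos (mul_pos (pr_pos hp _ h0) (pr_pos hp _ h0))
      (mul_pos (pr_pos hp _ h0) (pr_pos hp _ h0))) (by
      calc ∑ ω, p ω * (pr p f (f ω) * pr p g (g ω) / (pr p j (j ω) * pr p h (h ω)))
          = ∑ ω, ∑ a, ∑ b, (if j ω = (f a, g b) then p ω else 0) / pr p j (f a, g b) *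
              (p a * (if h b = h a then p b else 0) / pr p h (h a)) := by
            refine sum_congr rfl fun ω _ => ?_
            rw [pr, pr.eq_1 p g, sum_mul_sum, sum_div, mul_sum]
            refine sum_congr rfl fun a _ => ?_
            rw [sum_div, mul_sum]
            refine sum_congr rfl fun b _ => ?_
            by_cases ha : f a = f ω
            · by_cases hb : g b = g ω
              · have e1 : h a = h ω := h1 _ _ ha
                have e2 : h b = h ω := h2 _ _ hb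
                simp only [j, ha, hb, e1, e2, if_true]
                ring
              · simp [j, hb, Ne.symm hb]
            · simp [j, ha, Ne.symm ha]
        _ = ∑ a, ∑ b, (∑ ω, (if j ω = (f a, g b) then p ω else 0) / pr p j (f a, g b)) *
              (p a * (if h b = h a then p b else 0) / pr p h (h a)) := by
            rw [sum_comm]
            refine sum_congr rfl fun a _ => ?_
            rw [sum_comm]
            simp only [sum_mul]
        _ ≤ ∑ a, ∑ b, p a * (if h b = h a then p b else 0) / pr p h (h a) := by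
            refine sum_le_sum fun a _ => sum_le_sum fun b _ => mul_le_of_le_one_left
              (div_nonneg (mul_nonneg (hp.nn a) ?_) (pr_nonneg hp _ _))
              (le_of_eq_of_le (sum_congr rfl fun ω _ => by congr) (sum_ite_div_le hp j (f a, g b)))
            split_ifs; exacts [hp.nn b, le_rfl]
        _ ≤ ∑ a, p a := by
            refine sum_le_sum fun a _ => ?_
            simp only [mul_div_assoc]
            rw [← mul_sum]
            exact mul_le_of_le_one_right (hp.nn a) (sum_ite_div_le hp h _)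
        _ = 1 := hp.sum)
  have e : ∑ ω, p ω * log (pr p f (f ω) * pr p g (g ω) / (pr p j (j ω) * pr p h (h ω))) =
      ∑ ω, (p ω * log (pr p f (f ω)) + p ω * log (pr p g (g ω)) -
        p ω * log (pr p j (j ω)) - p ω * log (pr p h (h ω))) := by
    refine sum_congr rfl fun ω _ => ?_
    by_cases h0 : p ω = 0
    · simp [h0]
    · rw [log_div (mul_pos (pr_pos hp _ h0) (pr_pos hp _ h0)).ne'
        (mul_pos (pr_pos hp _ h0) (pr_pos hp _ h0)).ne',
        log_mul (pr_pos hp _ h0).ne' (pr_pos hp _ h0).ne',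
        log_mul (pr_pos hp _ h0).ne' (pr_pos hp _ h0).ne']
      ring
  rw [e, sum_sub_distrib, sum_sub_distrib, sum_add_distrib] at key
  simp only [H] at hk ⊢
  linarith

theorem subadd (hp : IsP p) (f : Ω → β) (g : Ω → γ) (k : Ω → δ)
    (h3 : ∀ ω ω', f ω = f ω' → g ω = g ω' → k ω = k ω') : H p k ≤ H p f + H p g := by
  have := submod hp f g k (fun _ => ()) (fun _ _ _ => rfl) (fun _ _ _ => rfl) h3
  linarith [H_nonneg hp (fun _ : Ω => ())]

/-- two conditionally independent copies given `S` -/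
noncomputable def glue (p : Ω → ℝ) (S : Ω → β) (ω : Ω × Ω) : ℝ :=
  if S ω.1 = S ω.2 then p ω.1 * p ω.2 / pr p S (S ω.1) else 0

theorem glue_supp {S : Ω → β} {ω : Ω × Ω} (h : glue p S ω ≠ 0) :
    p ω.1 ≠ 0 ∧ p ω.2 ≠ 0 ∧ S ω.1 = S ω.2 := by
  unfold glue at h
  split_ifs at h with h1
  · exact ⟨fun h0 => h (by simp [h0]), fun h0 => h (by simp [h0]), h1⟩
  · exact absurd rfl h

theorem glue_fst (hp : IsP p) (S : Ω → β) (φ : Ω → ℝ) :
    ∑ ω, glue p S ω * φ ω.1 = ∑ a, p a * φ a := by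
  rw [Fintype.sum_prod_type]
  refine sum_congr rfl fun a _ => ?_
  simp only
  rw [← sum_mul]
  congr 1
  by_cases h0 : p a = 0
  · simp [glue, h0]
  · have : ∀ b, glue p S (a, b) = p a / pr p S (S a) * if S b = S a then p b else 0 := by
      intro b
      by_cases h : S a = S b
      · simp only [glue, h, if_true]; ring
      · simp [glue, h, Ne.symm h]
    simp only [this]
    rw [← mul_sum, ← pr, div_mul_cancel₀ _ (pr_pos hp S h0).ne']

theorem glue_swap (S : Ω → β) (ω : Ω × Ω) : glue p S ω.swap = glue p S ω := by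
  by_cases h : S ω.1 = S ω.2
  · simp [glue, h, mul_comm]
  · simp [glue, h, Ne.symm h]

theorem glue_snd (hp : IsP p) (S : Ω → β) (φ : Ω → ℝ) :
    ∑ ω, glue p S ω * φ ω.2 = ∑ a, p a * φ a := by
  rw [← glue_fst hp S φ, ← Equiv.sum_comp (Equiv.prodComm Ω Ω)]
  exact sum_congr rfl fun ω _ => by simp [glue_swap]

theorem glue_isP (hp : IsP p) (S : Ω → β) : IsP (glue p S) where
  nn ω := by
    unfold glue
    split_ifs
    · exact div_nonneg (mul_nonneg (hp.nn _) (hp.nn _)) (pr_nonneg hp _ _)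
    · exact le_rfl
  sum := by simpa [hp.sum] using glue_fst hp S fun _ => 1

theorem pr_fst (hp : IsP p) (S : Ω → β) (f : Ω → γ) (c : γ) :
    pr (glue p S) (fun ω => f ω.1) c = pr p f c := by
  simpa [pr] using glue_fst hp S fun a => if f a = c then 1 else 0

theorem pr_snd (hp : IsP p) (S : Ω → β) (f : Ω → γ) (c : γ) :
    pr (glue p S) (fun ω => f ω.2) c = pr p f c := by
  simpa [pr] using glue_snd hp S fun a => if f a = c then 1 else 0

theorem H_fst (hp : IsP p) (S : Ω → β) (f : Ω → γ) :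
    H (glue p S) (fun ω => f ω.1) = H p f := by
  simp only [H, pr_fst hp]
  rw [glue_fst hp S fun a => log (pr p f (f a))]

theorem H_snd (hp : IsP p) (S : Ω → β) (f : Ω → γ) :
    H (glue p S) (fun ω => f ω.2) = H p f := by
  simp only [H, pr_snd hp]
  rw [glue_snd hp S fun a => log (pr p f (f a))]

theorem H_glue (hp : IsP p) (S : Ω → β) (f : Ω → γ) (g : Ω → δ)
    (hf : ∀ ω ω', f ω = f ω' → S ω = S ω') (hg : ∀ ω ω', g ω = g ω' → S ω = S ω') :
    H (glue p S) (fun ω => (f ω.1, g ω.2)) = H p f + H p g - H p S := by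
  have key : ∀ ω : Ω × Ω, S ω.1 = S ω.2 → pr (glue p S) (fun ω => (f ω.1, g ω.2)) (f ω.1, g ω.2) =
      pr p f (f ω.1) * pr p g (g ω.2) / pr p S (S ω.1) := by
    intro ω hω
    rw [pr, pr.eq_1 p f, pr.eq_1 p g, sum_mul_sum, Fintype.sum_prod_type, sum_div]
    refine sum_congr rfl fun a _ => ?_
    rw [sum_div]
    refine sum_congr rfl fun b _ => ?_
    by_cases ha : f a = f ω.1
    · by_cases hb : g b = g ω.2
      · have e1 := hf _ _ ha
        have e2 := (hg _ _ hb).trans hω.symm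
        simp [glue, ha, hb, e1, e2]
      · simp [hb]
    · simp [ha]
  have e : ∑ ω : Ω × Ω, glue p S ω *
      log (pr (glue p S) (fun ω => (f ω.1, g ω.2)) (f ω.1, g ω.2)) =
      ∑ ω : Ω × Ω, (glue p S ω * log (pr p f (f ω.1)) + glue p S ω * log (pr p g (g ω.2)) -
        glue p S ω * log (pr p S (S ω.1))) := by
    refine sum_congr rfl fun ω _ => ?_
    by_cases h0 : glue p S ω = 0
    · simp [h0]
    · obtain ⟨h1, h2, h3⟩ := glue_supp h0
      rw [key ω h3, log_div (mul_pos (pr_pos hp _ h1) (pr_pos hp _ h2)).ne' (pr_pos hp _ h1).ne',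
        log_mul (pr_pos hp _ h1).ne' (pr_pos hp _ h2).ne']
      ring
  rw [H, e, sum_sub_distrib, sum_add_distrib, glue_fst hp S fun a => log (pr p f (f a)),
    glue_snd hp S fun a => log (pr p g (g a)), glue_fst hp S fun a => log (pr p S (S a))]
  simp only [H]
  ring

/-- the form in which gluing is used -/
theorem H_glue_le (hp : IsP p) (S : Ω → β) (f : Ω → γ) (g : Ω → δ) (k : Ω × Ω → ε)
    (hf : ∀ ω ω', f ω = f ω' → S ω = S ω') (hg : ∀ ω ω', g ω = g ω' → S ω = S ω')
    (hk : ∀ ω ω' : Ω × Ω, S ω.1 = S ω.2 → S ω'.1 = S ω'.2 → k ω = k ω' →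
      f ω.1 = f ω'.1 ∧ g ω.2 = g ω'.2) :
    H p f + H p g - H p S ≤ H (glue p S) k := by
  rw [← H_glue hp S f g hf hg]
  exact H_mono (glue_isP hp S) fun ω ω' h h' he => by
    have := hk ω ω' (glue_supp h).2.2 (glue_supp h').2.2 he
    rw [this.1, this.2]

end Pool.Agent.MP_538dc4_an.AB
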