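import Mathlib.MeasureTheory.Integral.IntervalIntegral.Basic
import Pool.Agent.MP_538dc4_an.ab.Ent

/-! PROJECT FURST2: definitions. See /team-store/FURST2_BLUEPRINT.md. -/

open MeasureTheory Finset Filter Topology
open scoped ENNReal

namespace Pool.Agent.MP_538dc4_an.AB

noncomputable section

/-- The point (a, b) of the plane. -/
def pt (a b : ℝ) : E2 := WithLp.toLp 2 ![a, b]

/-- Hausdorff content of exponent s. -/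
def hc {X : Type*} [EMetricSpace X] (s : ℝ) : OuterMeasure X :=
  OuterMeasure.boundedBy fun U => Metric.ediam U ^ s

/-- The conjectured bound. -/
def bnd (u v : ℝ) : ℝ := u + min 1 ((2 * u + v) / 3)

/-! ### Finite probability -/

section prob

variable {Ω α β κ : Type} [Fintype Ω]

open Classical in
/-- Probability of an event. -/
def P (p : Ω → ℝ) (A : Ω → Prop) : ℝ := ∑ ω, if A ω then p ω else 0

/-- The pair of two variables. -/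
def pair (X : Ω → α) (Y : Ω → β) (ω : Ω) : α × β := (X ω, Y ω)

/-- Pointwise information. -/
def info (p : Ω → ℝ) (X : Ω → α) (ω : Ω) : ℝ := -Real.log (pr p X (X ω))

/-- Conditional entropy of X given K. -/
def Hc (p : Ω → ℝ) (X : Ω → α) (K : Ω → κ) : ℝ := H p (pair X K) - H p K

/-- Conditional mutual information of X and Y given K. -/
def Ic (p : Ω → ℝ) (X : Ω → α) (Y : Ω → β) (K : Ω → κ) : ℝ :=
  H p (pair X K) + H p (pair Y K) - H p (pair X (pair Y K)) - H p K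

/-- On the support of p, the value of X determines the value of Y. -/
def Dt (p : Ω → ℝ) (X : Ω → α) (Y : Ω → β) : Prop :=
  ∀ ω ω', p ω ≠ 0 → p ω' ≠ 0 → X ω = X ω' → Y ω = Y ω'

/-- Given K = K ω, the integer X is at distance at least 2 from any given integer with
conditional probability at least θ. -/
def Spr (p : Ω → ℝ) (K : Ω → κ) (X : Ω → ℤ) (θ : ℝ) (ω : Ω) : Prop :=
  ∀ b : ℤ, θ * pr p K (K ω) ≤ P p fun ω' => K ω' = K ω ∧ 2 ≤ |X ω' - b|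

open Classical in
/-- Entropy of the law of X given K = K ω. -/
def hent (p : Ω → ℝ) (K : Ω → κ) (X : Ω → α) (ω : Ω) : ℝ :=
  (∑ ω', if K ω' = K ω then p ω' * (info p (pair X K) ω' - info p K ω') else 0) / pr p K (K ω)

end prob

/-- The top t of n binary digits. -/
def dg (n t : ℕ) (x : ℤ) : ℤ := x / 2 ^ (n - t)

/-- Labels of cells. -/
abbrev V : Type := ℤ × ℤ × ℤ × ℤ

/-! ### The ABC lemma -/

/-- The data of the ABC lemma. -/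
structure Core (Ω : Type) where
  p : Ω → ℝ
  W : Ω → V
  B : Ω → V
  Z : Ω → V
  D : Ω → V
  a : Ω → ℤ
  c : Ω → ℤ
  U : Ω → ℤ
  n : ℕ
  r : ℕ
  C0 : ℝ

namespace Core

variable {Ω : Type} [Fintype Ω] (X : Core Ω)

/-- Standing hypotheses; e bounds three informations. -/
structure Ok (e : ℝ) : Prop where
  isP : IsP X.p
  r12 : X.r = 1 ∨ X.r = 2
  C0_nonneg : 0 ≤ X.C0
  WB : ∀ ω ω', X.W ω = X.W ω' → X.B ω = X.B ω'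
  BZ : ∀ ω ω', X.B ω = X.B ω' → X.Z ω = X.Z ω'
  Ba : ∀ ω ω', X.B ω = X.B ω' → X.a ω = X.a ω'
  a_rng : ∀ ω, 0 ≤ X.a ω ∧ X.a ω < 2 ^ X.n
  c_rng : ∀ ω, 0 ≤ X.c ω ∧ X.c ω < 2 ^ X.n
  shift : ∀ ω1 ω1' ω2 ω2', X.W ω1 = X.W ω1' → X.W ω2 = X.W ω2' → X.Z ω1 = X.Z ω2 →
    X.D ω1 = X.D ω2 → X.c ω1 = X.c ω2 → X.c ω1' = X.c ω2' →
    |((X.U ω1' : ℝ) - X.U ω1) - ((X.U ω2' : ℝ) - X.U ω2) -
      (((X.c ω1' : ℝ) - X.c ω1) / 2 ^ X.n) ^ X.r * ((X.a ω1 : ℝ) - X.a ω2)| ≤ X.C0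
  h1 : Ic X.p X.U X.B (pair X.c X.Z) ≤ e
  h2 : Ic X.p X.W X.c X.Z ≤ e
  h3 : Hc X.p X.D (pair X.B (pair X.c X.Z)) ≤ e

/-- The top t digits of a, c, U. -/
def ad (t : ℕ) (ω : Ω) : ℤ := dg X.n t (X.a ω)

def cd (t : ℕ) (ω : Ω) : ℤ := dg X.n t (X.c ω)

def Ud (t : ℕ) (ω : Ω) : ℤ := dg X.n t (X.U ω)

/-- The conditioning for a. -/
def Ka (ω : Ω) : ℤ × V × V := (X.c ω, X.D ω, X.Z ω)

/-- The conditioning for U. -/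
def Ku (ω : Ω) : ℤ × V := (X.c ω, X.Z ω)

/-- Block i of a is spread. -/
def EB (m : ℕ) (θ : ℝ) (i : ℕ) (ω : Ω) : Prop :=
  Spr X.p (pair (X.ad (i * m)) X.Ka) (X.ad ((i + 1) * m)) θ ω

/-- Block j of c is spread. -/
def EC (m : ℕ) (θ : ℝ) (j : ℕ) (ω : Ω) : Prop :=
  Spr X.p (pair (X.cd (j * m)) X.Z) (X.cd ((j + 1) * m)) θ ω

/-- Block i of U has almost full entropy. -/
def EA (m : ℕ) (ε1 : ℝ) (i : ℕ) (ω : Ω) : Prop :=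
  (1 - ε1) * (m * Real.log 2) ≤ hent X.p (pair (X.Ud (i * m)) X.Ku) (X.Ud ((i + 1) * m)) ω

/-- Two copies, conditionally independent given W and the top t digits of c. -/
def q2 (t : ℕ) : Ω × Ω → ℝ := glue X.p (pair X.W (X.cd t))

def t1 (m i j : ℕ) : ℝ := Ic (X.q2 (j * m)) (fun ω => X.ad ((i + 8) * m) ω.1)
  (fun ω => (X.c ω.2, X.U ω.1)) fun ω => (X.ad (i * m) ω.1, X.Ka ω.1)

def t2 (m i j : ℕ) : ℝ := Ic (X.q2 (j * m)) (fun ω => X.ad ((i + 8) * m) ω.1)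
  (fun ω => (X.c ω.2, X.U ω.2)) fun ω => (X.ad (i * m) ω.1, X.Ka ω.1)

def t3 (m i j : ℕ) : ℝ := Ic (X.q2 (j * m)) (fun ω => X.Ud ((i + 1) * m) ω.1)
  (fun ω => (X.a ω.1, X.D ω.1, X.c ω.2)) fun ω => (X.Ud (i * m) ω.1, X.Ku ω.1)

def t4 (m j : ℕ) : ℝ := Ic (X.q2 (j * m)) (fun ω => X.cd ((j + 1) * m) ω.2)
  (fun ω => ω.1) fun ω => (X.cd (j * m) ω.1, X.Z ω.1)

/-- Block i is far from the last digit. -/
def Adm (m i : ℕ) : Prop :=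
  (i + 12) * m ≤ X.n ∧ 2 ^ (7 * m + 2) * X.C0 ≤ 2 ^ (X.n - (i + 1) * m)

/-- The triple (i', j, i) is relevant. -/
def Rel (m i' j i : ℕ) : Prop := i + 1 ≤ i' + X.r * j ∧ i' + X.r * j ≤ i + 4 ∧ X.Adm m i

end Core

/-! ### Cinematic families and jets -/

/-- Taylor bounds for the difference of two curves. -/
def Tay (C : ℝ) (f0 f1 f2 g0 g1 g2 : ℝ → ℝ) : Prop :=
  ∀ x ∈ Set.Ico (0 : ℝ) 1, ∀ y ∈ Set.Ico (0 : ℝ) 1, ∀ M : ℝ,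
    |f0 x - g0 x| ≤ M → |f1 x - g1 x| ≤ M → |f2 x - g2 x| ≤ M →
    |f0 y - g0 y - (f0 x - g0 x) - (y - x) * (f1 x - g1 x) - (y - x) ^ 2 * (f2 x - g2 x)| ≤
        C * |y - x| ^ 3 * M ∧
      |f1 y - g1 y - (f1 x - g1 x) - 2 * (y - x) * (f2 x - g2 x)| ≤ C * |y - x| ^ 2 * M ∧
      |f2 y - g2 y - (f2 x - g2 x)| ≤ C * |y - x| * M

/-- The three jets take values in the unit interval and the curve is Lipschitz. -/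
def Rng (C : ℝ) (f0 f1 f2 : ℝ → ℝ) : Prop :=
  (∀ x ∈ Set.Ico (0 : ℝ) 1, f0 x ∈ Set.Ico (0 : ℝ) 1 ∧ f1 x ∈ Set.Ico (0 : ℝ) 1 ∧
    f2 x ∈ Set.Ico (0 : ℝ) 1) ∧
  ∀ x ∈ Set.Ico (0 : ℝ) 1, ∀ y ∈ Set.Ico (0 : ℝ) 1, |f0 x - f0 y| ≤ C * |x - y|

/-- A normalized cinematic family of graphs over the unit interval. -/
structure Cine (C : ℝ) (S : Set E3) (J0 J1 J2 : E3 → ℝ → ℝ) : Prop where
  one_le : 1 ≤ C
  rng : ∀ w ∈ S, Rng C (J0 w) (J1 w) (J2 w)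
  tay : ∀ w ∈ S, ∀ w' ∈ S, Tay C (J0 w) (J1 w) (J2 w) (J0 w') (J1 w') (J2 w')
  nd : ∀ w ∈ S, ∀ w' ∈ S, ∀ M : ℝ, |J0 w 0 - J0 w' 0| ≤ M → |J1 w 0 - J1 w' 0| ≤ M →
    |J2 w 0 - J2 w' 0| ≤ M → dist w w' ≤ C * M

/-- A smooth family of graphs over the unit interval. -/
structure Raw (C : ℝ) (S : Set E3) (J0 J1 J2 J3 : E3 → ℝ → ℝ) : Prop where
  one_le : 1 ≤ C
  d0 : ∀ w ∈ S, ∀ x ∈ Set.Icc (0 : ℝ) 1, HasDerivAt (J0 w) (J1 w x) x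
  d1 : ∀ w ∈ S, ∀ x ∈ Set.Icc (0 : ℝ) 1, HasDerivAt (J1 w) (2 * J2 w x) x
  d2 : ∀ w ∈ S, ∀ x ∈ Set.Icc (0 : ℝ) 1, HasDerivAt (J2 w) (J3 w x) x
  bdd : ∀ w ∈ S, ∀ x ∈ Set.Icc (0 : ℝ) 1, |J0 w x| ≤ C ∧ |J1 w x| ≤ C ∧ |J2 w x| ≤ C
  lip : ∀ w ∈ S, ∀ w' ∈ S, ∀ x ∈ Set.Icc (0 : ℝ) 1, |J3 w x - J3 w' x| ≤ C * dist w w'
  nd : ∀ w ∈ S, ∀ w' ∈ S, ∀ x ∈ Set.Icc (0 : ℝ) 1, ∀ M : ℝ, |J0 w x - J0 w' x| ≤ M →
    |J1 w x - J1 w' x| ≤ M → |J2 w x - J2 w' x| ≤ M → dist w w' ≤ C * M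

/-- A random curve with a random abscissa. -/
structure Jets (Ω : Type) where
  p : Ω → ℝ
  x : Ω → ℝ
  J0 : Ω → ℝ → ℝ
  J1 : Ω → ℝ → ℝ
  J2 : Ω → ℝ → ℝ

/-- The error of one change of frame. -/
def ee (C : ℝ) : ℝ := 3 * Real.log (35 * C ^ 2)

/-- Valid integer levels. -/
def ValN (k a b c : ℕ) : Prop := c ≤ b ∧ b ≤ a ∧ a ≤ b + k ∧ b ≤ c + k

namespace Jets

variable {Ω : Type} [Fintype Ω] (T : Jets Ω)

structure Ok (C : ℝ) : Prop where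
  isP : IsP T.p
  one_le : 1 ≤ C
  x_mem : ∀ ω, T.x ω ∈ Set.Ico (0 : ℝ) 1
  rng : ∀ ω, Rng C (T.J0 ω) (T.J1 ω) (T.J2 ω)
  tay : ∀ ω ω', Tay C (T.J0 ω) (T.J1 ω) (T.J2 ω) (T.J0 ω') (T.J1 ω') (T.J2 ω')

/-- The left endpoint of the dyadic interval of level k around the abscissa. -/
def fr (k : ℕ) (ω : Ω) : ℝ := (⌊T.x ω * 2 ^ k⌋ : ℝ) / 2 ^ k

/-- k digits of the abscissa and a, b, c digits of the three jets at the frame of level k. -/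
def lab (k a b c : ℕ) (ω : Ω) : V :=
  (⌊T.x ω * 2 ^ k⌋, ⌊T.J0 ω (T.fr k ω) * 2 ^ a⌋, ⌊T.J1 ω (T.fr k ω) * 2 ^ b⌋,
    ⌊T.J2 ω (T.fr k ω) * 2 ^ c⌋)

/-- The same data with another law. -/
def re (p' : Ω → ℝ) : Jets Ω := ⟨p', T.x, T.J0, T.J1, T.J2⟩

/-- Normalized entropy on the grid of mesh q. -/
def hN (N q : ℕ) (k a b c : ℕ) : ℝ :=
  H T.p (T.lab (k * q) (a * q) (b * q) (c * q)) / (N * q * Real.log 2)

/-- Frostman conditions with the loss exp b. -/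
structure Fro (u v : ℝ) (n : ℕ) (b : ℝ) : Prop where
  par : ∀ j ≤ n, ∀ ω, pr T.p (T.lab 0 j j j) (T.lab 0 j j j ω) ≤
    Real.exp b * (2 : ℝ) ^ (-(v * j))
  fib : ∀ j ≤ n, ∀ ω, pr T.p (pair (T.lab 0 n n n) (T.lab j 0 0 0))
    (pair (T.lab 0 n n n) (T.lab j 0 0 0) ω) ≤
    Real.exp b * (2 : ℝ) ^ (-(u * j)) * pr T.p (T.lab 0 n n n) (T.lab 0 n n n ω)

/-- The pair of two labels on the grid of mesh q. -/
def lab2 (q : ℕ) (s : Fin 8 → ℕ) : Ω → V × V :=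
  pair (T.lab (s 0 * q) (s 1 * q) (s 2 * q) (s 3 * q))
    (T.lab (s 4 * q) (s 5 * q) (s 6 * q) (s 7 * q))

/-- The instance of the ABC lemma at the levels k, b + k, b, c with n new digits. -/
def core (ρ k b c n : ℕ) (C : ℝ) : Core Ω where
  p := T.p
  W := T.lab k (b + k + n) (b + n) (c + ρ * n)
  B := T.lab k (b + k) (b + n) (c + ρ * n)
  Z := T.lab k (b + k) b c
  D := T.lab (k + n) (b + k) (b + ρ * n) c
  a := fun ω => if ρ = 0 then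
      ⌊T.J1 ω (T.fr k ω) * 2 ^ (b + n)⌋ - 2 ^ n * ⌊T.J1 ω (T.fr k ω) * 2 ^ b⌋
    else ⌊T.J2 ω (T.fr k ω) * 2 ^ (c + n)⌋ - 2 ^ n * ⌊T.J2 ω (T.fr k ω) * 2 ^ c⌋
  c := fun ω => ⌊T.x ω * 2 ^ (k + n)⌋ - 2 ^ n * ⌊T.x ω * 2 ^ k⌋
  U := fun ω => ⌊T.J0 ω (T.fr (k + n) ω) * 2 ^ (b + k + n)⌋
  n := n
  r := 1 + ρ
  C0 := 20 * C

/-- Informations of pairs of labels concentrate. -/
def Conc (N q : ℕ) (a : ℝ) : Prop :=
  1 - a ≤ P T.p fun ω => ∀ s : Fin 8 → ℕ, (∀ i, s i ≤ N) →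
    |info T.p (T.lab2 q s) ω - H T.p (T.lab2 q s)| ≤ a * (N * q)

end Jets

/-! ### Discrete and continuous entropy functions -/

/-- The approximate axioms on the grid of mesh 1 / N. -/
structure DStr (u v : ℝ) (N : ℕ) (e : ℝ) (h : ℕ → ℕ → ℕ → ℕ → ℝ) : Prop where
  mono : ∀ k a b c k' a' b' c', ValN k a b c → k ≤ k' → a ≤ a' → b ≤ b' → c ≤ c' →
    ValN k' a' b' c' → h k a b c ≤ h k' a' b' c' + e
  lip : ∀ k a b c k' a' b' c' : ℕ, ValN k a b c → k ≤ k' → a ≤ a' → b ≤ b' → c ≤ c' →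
    h k' a' b' c' ≤ h k a b c + ((k' : ℝ) - k + (a' - a) + (b' - b) + (c' - c)) / N + e
  sub : ∀ k a b c k' a' b' c' k0 a0 b0 c0, ValN k a b c → ValN k' a' b' c' → ValN k0 a0 b0 c0 →
    k0 ≤ k → a0 ≤ a → b0 ≤ b → c0 ≤ c → k0 ≤ k' → a0 ≤ a' → b0 ≤ b' → c0 ≤ c' →
    h (max k k') (max a a') (max b b') (max c c') + h k0 a0 b0 c0 ≤
      h k a b c + h k' a' b' c' + e
  zero : h 0 0 0 0 = 0
  fv : ∀ t ≤ N, v * t / N - e ≤ h 0 t t t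
  gu : ∀ k ≤ N, u * k / N - e ≤ h k N N N - h 0 N N N

/-- The ABC property on the grid of mesh 1 / N. -/
def DAbc (N : ℕ) (ε0 ε : ℝ) (h : ℕ → ℕ → ℕ → ℕ → ℝ) : Prop :=
  ∀ (ρ k b c η : ℕ) (s σ τ : ℝ), (ρ = 0 ∨ ρ = 1 ∧ b = c + k) → c ≤ b → 1 ≤ ε * η → η ≤ k →
    b + η ≤ c + k + ρ * η → b + k + η ≤ N → ε0 ≤ σ → σ ≤ 1 → ε0 ≤ τ → τ ≤ 1 →
    h (k + η) (b + k + η) b c - h (k + η) (b + k) b c ≤ s * η / N →
    (s - ε) * η / N ≤ h (k + η) (b + k + η) (b + η) (c + ρ * η) -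
      h (k + η) (b + k) (b + η) (c + ρ * η) →
    h (k + η) (b + k) b c - h k (b + k) b c - (h (k + η) (b + k + η) (b + η) (c + ρ * η) -
      h k (b + k + η) (b + η) (c + ρ * η)) ≤ ε * η / N →
    (∀ t ≤ η, (σ * t - ε * η) / N ≤ h (k + η) (b + k) (b + ρ * η + (1 - ρ) * t) (c + ρ * t) -
      h (k + η) (b + k) (b + ρ * η) c) →
    (∀ t ≤ η, (τ * t - ε * η) / N ≤ h (k + t) (b + k) b c - h k (b + k) b c) →
    min 1 (σ + τ) - ε0 ≤ s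

/-- Valid real levels. -/
def Val (k a b c : ℝ) : Prop :=
  0 ≤ c ∧ c ≤ b ∧ b ≤ a ∧ a ≤ 1 ∧ a ≤ b + k ∧ b ≤ c + k ∧ k ≤ 1

/-- The ABC property of a continuous entropy function. -/
def MAbc (ε0 ε : ℝ) (H : ℝ → ℝ → ℝ → ℝ → ℝ) : Prop :=
  ∀ ρ k b c η s σ τ : ℝ, (ρ = 0 ∨ ρ = 1 ∧ b = c + k) → 0 ≤ c → c ≤ b → 0 < η → η ≤ k →
    b + η ≤ c + k + ρ * η → b + k + η ≤ 1 → ε0 ≤ σ → σ ≤ 1 → ε0 ≤ τ → τ ≤ 1 →
    H (k + η) (b + k + η) b c - H (k + η) (b + k) b c ≤ s * η →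
    (s - ε) * η ≤ H (k + η) (b + k + η) (b + η) (c + ρ * η) -
      H (k + η) (b + k) (b + η) (c + ρ * η) →
    H (k + η) (b + k) b c - H k (b + k) b c - (H (k + η) (b + k + η) (b + η) (c + ρ * η) -
      H k (b + k + η) (b + η) (c + ρ * η)) ≤ ε * η →
    (∀ t ∈ Set.Icc 0 η, σ * t - ε * η ≤
      H (k + η) (b + k) (b + ρ * η + (1 - ρ) * t) (c + ρ * t) - H (k + η) (b + k) (b + ρ * η) c) →
    (∀ t ∈ Set.Icc 0 η, τ * t - ε * η ≤ H (k + t) (b + k) b c - H k (b + k) b c) →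
    min 1 (σ + τ) - ε0 ≤ s

/-- The axioms of a continuous entropy function. -/
structure Macro (u v : ℝ) (H : ℝ → ℝ → ℝ → ℝ → ℝ) : Prop where
  lip : ∀ k a b c k' a' b' c', |H k a b c - H k' a' b' c'| ≤
    |k - k'| + |a - a'| + |b - b'| + |c - c'|
  mono : ∀ k a b c k' a' b' c', Val k a b c → Val k' a' b' c' → k ≤ k' → a ≤ a' → b ≤ b' →
    c ≤ c' → H k a b c ≤ H k' a' b' c'
  sub : ∀ k a b c k' a' b' c' k0 a0 b0 c0, Val k a b c → Val k' a' b' c' → Val k0 a0 b0 c0 →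
    k0 ≤ k → a0 ≤ a → b0 ≤ b → c0 ≤ c → k0 ≤ k' → a0 ≤ a' → b0 ≤ b' → c0 ≤ c' →
    H (max k k') (max a a') (max b b') (max c c') + H k0 a0 b0 c0 ≤ H k a b c + H k' a' b' c'
  zero : H 0 0 0 0 = 0
  fv : ∀ t ∈ Set.Icc (0 : ℝ) 1, v * t ≤ H 0 t t t
  gu : ∀ k ∈ Set.Icc (0 : ℝ) 1, u * k ≤ H k 1 1 1 - H 0 1 1 1
  abc : ∀ ε0 : ℝ, 0 < ε0 → ∃ ε : ℝ, 0 < ε ∧ MAbc ε0 ε H

/-- The mesh 2 ^ (-n). -/
def et (n : ℕ) : ℝ := (2 : ℝ)⁻¹ ^ n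

/-- The properties of the deficiency function lam. -/
structure Lam (H : ℝ → ℝ → ℝ → ℝ → ℝ) (lam : ℝ → ℝ → ℝ) : Prop where
  meas : ∀ x, Measurable (lam x)
  nonneg : ∀ x y, 0 ≤ lam x y
  le_one : ∀ x y, lam x y ≤ 1
  mono : ∀ x x' y, 0 ≤ x → x ≤ x' → x' ≤ y → y < 1 → lam x y ≤ lam x' y
  sum : ∀ x L, 0 ≤ x → x ≤ L → L ≤ 1 → ∫ y in x..L, (1 - lam x y) ≤
    H 0 L L L - H 0 x x x - (H 1 L L L - H 1 L x x)
  key : ∀ x y ξ, 0 ≤ x → x ≤ y → y < 1 → 0 < ξ → ∃ᶠ n in atTop, ∀ k b c, x ≤ c → et n ≤ k →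
    Val k (y + et n) b c → b ≤ y →
    H k (y + et n) b c - H k y b c ≤ (1 - lam x y + ξ) * et n

/-- The two defects of the ABC property at the mesh η. -/
def dfc (H : ℝ → ℝ → ℝ → ℝ → ℝ) (ρ k b c η : ℝ) : ℝ × ℝ :=
  (H (k + η) (b + k + η) b c - H (k + η) (b + k) b c -
    (H (k + η) (b + k + η) (b + η) (c + ρ * η) - H (k + η) (b + k) (b + η) (c + ρ * η)),
  H (k + η) (b + k) b c - H k (b + k) b c - (H (k + η) (b + k + η) (b + η) (c + ρ * η) -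
      H k (b + k + η) (b + η) (c + ρ * η)))

/-- The defects are of lower order. -/
def Small (H : ℝ → ℝ → ℝ → ℝ → ℝ) (ρ k b c : ℝ) : Prop :=
  ∀ ε : ℝ, 0 < ε → ∀ᶠ n in atTop,
    (dfc H ρ k b c (et n)).1 ≤ ε * et n ∧ (dfc H ρ k b c (et n)).2 ≤ ε * et n

/-- The data of the final real variable argument. -/
structure Mac where
  f : ℝ → ℝ
  W : ℝ → ℝ
  Ct : ℝ → ℝ → ℝ → ℝ
  lam : ℝ → ℝ → ℝ

namespace Mac

variable (M : Mac)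

/-- The partial derivatives of Ct L. -/
def sg (L b c : ℝ) : ℝ := fderiv ℝ (fun z : ℝ × ℝ => M.Ct L z.1 z.2) (b, c) (1, 0)

def mu (L b c : ℝ) : ℝ := fderiv ℝ (fun z : ℝ × ℝ => M.Ct L z.1 z.2) (b, c) (0, 1)

def om (l : ℝ) : ℝ := deriv M.W l

/-- The multiplicity between the levels x and L. -/
def R (x L : ℝ) : ℝ := M.Ct L L L - M.Ct L x x

/-- A point at which the two ABC constraints hold. -/
structure Pt (L b c : ℝ) : Prop where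
  diff : DifferentiableAt ℝ (fun z : ℝ × ℝ => M.Ct L z.1 z.2) (b, c)
  pb : 0 < c → c < b → 2 * b - c < L → ∀ x, 0 ≤ x → x ≤ c → 0 < M.mu L b c →
    0 < M.lam x (2 * b - c) → min 1 (M.mu L b c + M.lam x (2 * b - c)) ≤ M.om (b - c)
  pa : ∀ᵐ y, 0 < c → c < b → 2 * b - c < y → y < L → ∀ x, 0 ≤ x → x ≤ c → 0 < M.sg L b c →
    0 < M.lam x y → min 1 (M.sg L b c + M.lam x y) ≤ M.om (y - b)

/-- A point of that kind on a horizontal line of that kind. -/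
def Good (L b c : ℝ) : Prop := M.Pt L b c ∧ ∀ᵐ b', M.Pt L b' c

/-- The simplex. -/
def Sx (L b c : ℝ) : Prop := 0 ≤ c ∧ c ≤ b ∧ b ≤ L ∧ L ≤ 1

structure Ok (u v : ℝ) : Prop where
  u_pos : 0 < u
  u_le : u ≤ 1
  f_lip : ∀ t t', |M.f t - M.f t'| ≤ 3 * |t - t'|
  f_zero : M.f 0 = 0
  fv : ∀ t ∈ Set.Icc (0 : ℝ) 1, v * t ≤ M.f t
  C_lip : ∀ L b c L' b' c', |M.Ct L b c - M.Ct L' b' c'| ≤ |L - L'| + |b - b'| + |c - c'|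
  C_mono : ∀ L b c L' b' c', Sx L b c → Sx L' b' c' → L ≤ L' → b ≤ b' → c ≤ c' →
    M.Ct L b c ≤ M.Ct L' b' c'
  C_sub : ∀ L b c L' b' c' L0 b0 c0, Sx L b c → Sx L' b' c' → Sx L0 b0 c0 → L0 ≤ L → b0 ≤ b →
    c0 ≤ c → L0 ≤ L' → b0 ≤ b' → c0 ≤ c' →
    M.Ct (max L L') (max b b') (max c c') + M.Ct L0 b0 c0 ≤ M.Ct L b c + M.Ct L' b' c'
  W_lip : ∀ l l', |M.W l - M.W l'| ≤ 2 * |l - l'|
  W_mono : Monotone M.W
  W_zero : M.W 0 = 0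
  W_le : ∀ l ∈ Set.Icc (0 : ℝ) 1, M.W l ≤ (1 - u) * l
  meas : ∀ x, Measurable (M.lam x)
  nonneg : ∀ x y, 0 ≤ M.lam x y
  le_one : ∀ x y, M.lam x y ≤ 1
  mono : ∀ x x' y, 0 ≤ x → x ≤ x' → x' ≤ y → y < 1 → M.lam x y ≤ M.lam x' y
  sum : ∀ x L, 0 ≤ x → x ≤ L → L ≤ 1 → ∫ y in x..L, (1 - M.lam x y) ≤ M.f L - M.f x - M.R x L
  ae : ∀ L, 0 < L → L ≤ 1 → ∀ᵐ z : ℝ × ℝ, M.Pt L z.1 z.2

end Mac

/-- The data attached to an entropy function. -/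
def mac (H : ℝ → ℝ → ℝ → ℝ → ℝ) (lam : ℝ → ℝ → ℝ) : Mac :=
  ⟨fun t => H 0 t t t, fun l => l - (H l 1 1 1 - H 0 1 1 1), H 1, lam⟩

end

end Pool.Agent.MP_538dc4_an.AB
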